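import Mathlib

/-!
# Torus actions
-/

open scoped ContDiff Manifold Topology

namespace Pool.Agent.EQ

variable {E : Type} [NormedAddCommGroup E] [NormedSpace ℝ E] {H : Type} [TopologicalSpace H]
  (I : ModelWithCorners ℝ E H) {W : Type} [TopologicalSpace W] [ChartedSpace H W]

/-- `ρ` is a smooth action of the torus `ℝ^k/ℤ^k` on `W`. -/
structure IsTorusAction (k : ℕ) (ρ : (Fin k → ℝ) → W → W) : Prop where
  zero : ∀ q, ρ 0 q = q
  add : ∀ v w q, ρ (v + w) q = ρ v (ρ w q)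
  int : ∀ (m : Fin k → ℤ) (q : W), ρ (fun i => (m i : ℝ)) q = q
  smooth : ContMDiff (𝓘(ℝ, Fin k → ℝ).prod I) I ∞ (fun z : (Fin k → ℝ) × W => ρ z.1 z.2)

end Pool.Agent.EQ
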