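import Pool.Agent.Lib.MP_1e8d1a_an.EQ.Defs

/-! row B1 -/

open scoped ContDiff Manifold Topology BoundedContinuousFunction

namespace Pool.Agent.EQ

open Pool.Agent.SC

/-- PROOF.  `b₁ : ContDiffBump (0 : X)` with `rIn = 1/2`, `rOut = 1`: smooth, `1` on the closed ball of
radius `1/2`, `0` outside the ball of radius `1`.  Each `iteratedFDeriv ℝ j b₁`, `j ≤ r`, is
continuous with compact support, so bounded by some `C j`; `C = max 1 (sup)`.
`b y = b₁ (s⁻¹ • (y - c))`.  `‖iteratedFDeriv ℝ j b y‖ = s⁻¹ ^ j ‖iteratedFDeriv ℝ j b₁ (..)‖`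
(`iteratedFDeriv_comp_sub`/`iteratedFDeriv_comp_add_right` and
`iteratedFDeriv_const_smul`-type lemma `iteratedFDeriv_comp_const_smul`?; the inequality `≤` is enough:
`ContinuousLinearMap.iteratedFDeriv_comp_right` with the linear map `s⁻¹ • id`, and
`ContinuousMultilinearMap.norm_compContinuousLinearMap_le`) and `s⁻¹ ^ j ≤ s⁻¹ ^ r`. -/
theorem exists_bump_scaled (X : Type) [NormedAddCommGroup X] [NormedSpace ℝ X]
    [FiniteDimensional ℝ X] (r : ℕ) :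
    ∃ C : ℝ, 1 ≤ C ∧ ∀ (c : X) (s : ℝ), 0 < s → s ≤ 1 → ∃ b : X → ℝ, ContDiff ℝ r b ∧
      (∀ y, ‖y - c‖ ≤ s / 2 → b y = 1) ∧ (∀ y, s ≤ ‖y - c‖ → b y = 0) ∧
      ∀ j ≤ r, ∀ y, ‖iteratedFDeriv ℝ j b y‖ ≤ C / s ^ r := by
  let b₁ : ContDiffBump (0 : X) := ⟨1 / 2, 1, by norm_num, by norm_num⟩
  have hsm : ∀ n : ℕ, ContDiff ℝ n (b₁ : X → ℝ) := fun n => b₁.contDiff
  have hcs : HasCompactSupport (b₁ : X → ℝ) := b₁.hasCompactSupport
  have hbd : ∀ j : ℕ, ∃ C : ℝ, ∀ y, ‖iteratedFDeriv ℝ j (b₁ : X → ℝ) y‖ ≤ C := fun j =>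
    (hcs.iteratedFDeriv j).exists_bound_of_continuous ((hsm j).continuous_iteratedFDeriv le_rfl)
  choose C hC using hbd
  refine ⟨max 1 (∑ j ∈ Finset.range (r + 1), |C j|), le_max_left _ _, ?_⟩
  intro c s hs hs1
  refine ⟨fun y => b₁ (s⁻¹ • (y - c)), ?_, ?_, ?_, ?_⟩
  · exact (hsm r).comp (contDiff_const.smul (contDiff_id.sub contDiff_const))
  · intro y hy
    apply b₁.one_of_mem_closedBall
    rw [mem_closedBall_zero_iff, norm_smul, norm_inv, Real.norm_of_nonneg hs.le]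
    change s⁻¹ * ‖y - c‖ ≤ 1 / 2
    rw [inv_mul_le_iff₀ hs]
    linarith
  · intro y hy
    apply b₁.zero_of_le_dist
    rw [dist_zero_right, norm_smul, norm_inv, Real.norm_of_nonneg hs.le]
    change 1 ≤ s⁻¹ * ‖y - c‖
    rw [inv_mul_eq_div, le_div_iff₀ hs]
    linarith
  · intro j hj y
    have e1 : iteratedFDeriv ℝ j (fun y => b₁ (s⁻¹ • (y - c))) y =
        s⁻¹ ^ j • iteratedFDeriv ℝ j (b₁ : X → ℝ) (s⁻¹ • (y - c)) := by
      have h1 := iteratedFDeriv_comp_sub (𝕜 := ℝ) (f := fun z : X => b₁ (s⁻¹ • z)) j c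
      have h2 := iteratedFDeriv_comp_const_smul (𝕜 := ℝ) (i := j) s⁻¹ (hsm j)
      rw [h1 y]
      rw [congrFun h2 (y - c)]
    rw [e1, norm_smul, norm_pow, norm_inv, Real.norm_of_nonneg hs.le]
    have h3 : s⁻¹ ^ j ≤ s⁻¹ ^ r :=
      pow_le_pow_right₀ ((one_le_inv₀ hs).2 hs1) hj
    have h4 : ‖iteratedFDeriv ℝ j (b₁ : X → ℝ) (s⁻¹ • (y - c))‖ ≤
        max 1 (∑ j ∈ Finset.range (r + 1), |C j|) := by
      refine (hC j _).trans ((le_abs_self _).trans (le_trans ?_ (le_max_right _ _)))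
      exact Finset.single_le_sum (f := fun j => |C j|) (fun i _ => abs_nonneg _)
        (Finset.mem_range.2 (Nat.lt_succ_of_le hj))
    calc s⁻¹ ^ j * ‖iteratedFDeriv ℝ j (b₁ : X → ℝ) (s⁻¹ • (y - c))‖
        ≤ s⁻¹ ^ r * max 1 (∑ j ∈ Finset.range (r + 1), |C j|) := by gcongr
      _ = max 1 (∑ j ∈ Finset.range (r + 1), |C j|) / s ^ r := by
        rw [inv_pow, inv_mul_eq_div]

/-- PROOF.  `u y = b y • a` with `b` from `exists_bump_scaled`:
`iteratedFDeriv ℝ j u y = (ContinuousLinearMap.toSpanSingleton ℝ a).compContinuousMultilinearMap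
(iteratedFDeriv ℝ j b y)` (`ContinuousLinearMap.iteratedFDeriv_comp_left`), norm at most
`‖a‖ ‖iteratedFDeriv ℝ j b y‖` (`ContinuousLinearMap.norm_iteratedFDeriv_le_of_..`,
`ContinuousLinearMap.norm_compContinuousMultilinearMap_le`). -/
theorem exists_bump_vec (X V : Type) [NormedAddCommGroup X] [NormedSpace ℝ X]
    [FiniteDimensional ℝ X] [NormedAddCommGroup V] [NormedSpace ℝ V] (r : ℕ) :
    ∃ C : ℝ, 1 ≤ C ∧ ∀ (c : X) (s : ℝ) (a : V), 0 < s → s ≤ 1 → ∃ u : X → V, ContDiff ℝ r u ∧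
      (∀ y, ‖y - c‖ ≤ s / 2 → u y = a) ∧ (∀ y, s ≤ ‖y - c‖ → u y = 0) ∧
      ∀ j ≤ r, ∀ y, ‖iteratedFDeriv ℝ j u y‖ ≤ C * ‖a‖ / s ^ r := by
  obtain ⟨C, hC1, hC⟩ := exists_bump_scaled X r
  refine ⟨C, hC1, ?_⟩
  intro c s a hs hs1
  obtain ⟨b, hb1, hb2, hb3, hb4⟩ := hC c s hs hs1
  refine ⟨fun y => b y • a, hb1.smul contDiff_const, ?_, ?_, ?_⟩
  · intro y hy
    simp only
    rw [hb2 y hy, one_smul]
  · intro y hy
    simp only
    rw [hb3 y hy, zero_smul]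
  · intro j hj y
    have e1 : (fun y => b y • a) = (ContinuousLinearMap.toSpanSingleton ℝ a) ∘ b := by
      funext z
      simp [ContinuousLinearMap.toSpanSingleton_apply]
    rw [e1]
    have h1 := (ContinuousLinearMap.toSpanSingleton ℝ a).norm_iteratedFDeriv_comp_left
      (f := b) (x := y) (N := (r : WithTop ℕ∞)) (n := j) hb1.contDiffAt (by exact_mod_cast hj)
    refine h1.trans ?_
    rw [ContinuousLinearMap.norm_toSpanSingleton]
    calc ‖a‖ * ‖iteratedFDeriv ℝ j b y‖ ≤ ‖a‖ * (C / s ^ r) := by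
          gcongr
          exact hb4 j hj y
      _ = C * ‖a‖ / s ^ r := by ring

end Pool.Agent.EQ
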