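import Pool.Agent.Lib.MP_1e8d1a_an.EQ.B1

/-! row B2 -/

open scoped ContDiff Manifold Topology BoundedContinuousFunction

namespace Pool.Agent.EQ

open Pool.Agent.SC

/-- Finitely many bumps with well separated centres.

PROOF.  `β y = ∑ i ∈ J, u i y`, `u i` from `exists_bump_vec` with centre `c i` and value `a i`.  Fix
`y`.  There is at most one `i ∈ J` with `‖y - c i‖ < 3 / 2 * s` (two of them:
`‖c i - c j‖ < 3 s`).  For the other `i` the function `u i` vanishes on the ball of radius `s / 2`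
around `y` (there `‖y' - c i‖ > s`), so near `y` the sum is `u i₀` (or `0`), and
`iteratedFDeriv ℝ j β y = iteratedFDeriv ℝ j (u i₀) y` (`Filter.EventuallyEq.iteratedFDeriv`)
has norm at most `C ‖a i₀‖ / s ^ r ≤ C v / s ^ r`.  `β (c i) = a i`: the same with `y = c i`. -/
theorem exists_multibump (X V : Type) [NormedAddCommGroup X] [NormedSpace ℝ X]
    [FiniteDimensional ℝ X] [NormedAddCommGroup V] [NormedSpace ℝ V] (r : ℕ) :
    ∃ C : ℝ, 1 ≤ C ∧ ∀ (J : Finset ℕ) (c : ℕ → X) (a : ℕ → V) (s v : ℝ), 0 < s → s ≤ 1 →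
      0 ≤ v → (∀ i ∈ J, ‖a i‖ ≤ v) → (∀ i ∈ J, ∀ j ∈ J, i ≠ j → 3 * s ≤ ‖c i - c j‖) →
      ∃ β : X → V, ContDiff ℝ r β ∧ (∀ i ∈ J, β (c i) = a i) ∧
        (∀ y, (∀ i ∈ J, s ≤ ‖y - c i‖) → β y = 0) ∧
        ∀ j ≤ r, ∀ y, ‖iteratedFDeriv ℝ j β y‖ ≤ C * v / s ^ r := by
  obtain ⟨C, hC1, hC⟩ := exists_bump_vec X V r
  refine ⟨C, hC1, ?_⟩
  intro J c a s v hs hs1 hv ha hsep
  choose u hu1 hu2 hu3 hu4 using fun i : ℕ => hC (c i) s (a i) hs hs1
  have hsr : 0 < s ^ r := pow_pos hs r
  have hC0 : 0 ≤ C := by linarith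
  refine ⟨fun y => ∑ i ∈ J, u i y, ContDiff.sum fun i _ => hu1 i, ?_, ?_, ?_⟩
  · intro i hi
    show ∑ j ∈ J, u j (c i) = a i
    rw [Finset.sum_eq_single i]
    · exact hu2 i (c i) (by simp; linarith)
    · intro j hj hji
      refine hu3 j (c i) ?_
      have := hsep i hi j hj (Ne.symm hji)
      linarith
    · intro h
      exact absurd hi h
  · intro y hy
    exact Finset.sum_eq_zero fun i hi => hu3 i y (hy i hi)
  · intro j hj y
    by_cases hcase : ∃ i₀ ∈ J, ‖y - c i₀‖ < 3 / 2 * s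
    · obtain ⟨i₀, hi₀, hy⟩ := hcase
      have hev : (fun y => ∑ i ∈ J, u i y) =ᶠ[𝓝 y] u i₀ := by
        filter_upwards [Metric.ball_mem_nhds y (half_pos hs)] with y' hy'
        rw [Finset.sum_eq_single i₀]
        · intro i hi hii
          refine hu3 i y' ?_
          have h1 := hsep i₀ hi₀ i hi (Ne.symm hii)
          have h2 : ‖y' - y‖ < s / 2 := by
            rw [← dist_eq_norm]
            exact hy'
          have h3 : ‖c i₀ - c i‖ ≤ ‖y - c i₀‖ + ‖y' - y‖ + ‖y' - c i‖ := by
            have e : c i₀ - c i = -(y - c i₀) + -(y' - y) + (y' - c i) := by abel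
            rw [e]
            refine (norm_add₃_le).trans ?_
            rw [norm_neg, norm_neg]
          linarith
        · intro h
          exact absurd hi₀ h
      rw [hev.iteratedFDeriv ℝ j |>.eq_of_nhds]
      refine (hu4 i₀ j hj y).trans ?_
      have := ha i₀ hi₀
      gcongr
    · push Not at hcase
      have hev : (fun y => ∑ i ∈ J, u i y) =ᶠ[𝓝 y] fun _ => (0 : V) := by
        filter_upwards [Metric.ball_mem_nhds y (half_pos hs)] with y' hy'
        refine Finset.sum_eq_zero fun i hi => hu3 i y' ?_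
        have h1 := hcase i hi
        have h2 : ‖y' - y‖ < s / 2 := by
          rw [← dist_eq_norm]
          exact hy'
        have h3 : ‖y - c i‖ ≤ ‖y' - y‖ + ‖y' - c i‖ := by
          have e : y - c i = -(y' - y) + (y' - c i) := by abel
          rw [e]
          refine (norm_add_le _ _).trans ?_
          rw [norm_neg]
        linarith
      rw [hev.iteratedFDeriv ℝ j |>.eq_of_nhds]
      have h0 : iteratedFDeriv ℝ j (fun _ : X => (0 : V)) y = 0 := by
        rw [iteratedFDeriv_fun_zero]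
        rfl
      rw [h0, norm_zero]
      positivity

end Pool.Agent.EQ
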