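import Pool.Agent.Lib.MP_1e8d1a_an.EQ.Defs

/-! row B3 -/

open scoped ContDiff Manifold Topology BoundedContinuousFunction

namespace Pool.Agent.EQ

open Pool.Agent.SC

/-- Packing bound.

PROOF.  If `X` is trivial (`finrank = 0`) all `c i` are equal so `J.card ≤ 1`.  Otherwise let `μ` be
a Haar measure (`MeasureTheory.Measure.addHaar`, after `borelize X`; finite dimensional).  The balls
`ball (c i) (s / 2)`, `i ∈ J`, are pairwise disjoint and contained in `ball x (ρ + s / 2)`;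
`μ (ball c t) = ofReal (t ^ d) * μ (ball 0 1)` (`Measure.addHaar_ball`), `0 < μ (ball 0 1) < ∞`, so
`J.card * (s / 2) ^ d ≤ (ρ + s / 2) ^ d` and `J.card ≤ (1 + 2 ρ / s) ^ d`. -/
theorem card_le_of_separated (X : Type) [NormedAddCommGroup X] [NormedSpace ℝ X]
    [FiniteDimensional ℝ X] (J : Finset ℕ) (c : ℕ → X) (x : X) (ρ s : ℝ) (hρ : 0 ≤ ρ)
    (hs : 0 < s) (h1 : ∀ i ∈ J, ‖c i - x‖ ≤ ρ)
    (h2 : ∀ i ∈ J, ∀ j ∈ J, i ≠ j → s ≤ ‖c i - c j‖) :
    (J.card : ℝ) ≤ (1 + 2 * ρ / s) ^ Module.finrank ℝ X := by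
  borelize X
  set d := Module.finrank ℝ X with hd
  let μ : MeasureTheory.Measure X := MeasureTheory.Measure.addHaar
  have hdisj : Set.PairwiseDisjoint (↑J : Set ℕ) (fun i => Metric.ball (c i) (s / 2)) := by
    intro i hi j hj hij
    refine Metric.ball_disjoint_ball ?_
    rw [dist_eq_norm]
    have := h2 i hi j hj hij
    linarith
  have hsub : (⋃ i ∈ J, Metric.ball (c i) (s / 2)) ⊆ Metric.ball x (ρ + s / 2) := by
    intro y hy
    rw [Set.mem_iUnion₂] at hy
    obtain ⟨i, hi, hy⟩ := hy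
    rw [Metric.mem_ball] at hy ⊢
    have h3 := dist_triangle y (c i) x
    have h4 := h1 i hi
    rw [← dist_eq_norm] at h4
    linarith
  have hmeas : μ (⋃ i ∈ J, Metric.ball (c i) (s / 2)) =
      ∑ i ∈ J, μ (Metric.ball (c i) (s / 2)) :=
    MeasureTheory.measure_biUnion_finset hdisj fun i _ => measurableSet_ball
  have hle := MeasureTheory.measure_mono (μ := μ) hsub
  rw [hmeas] at hle
  have hball : ∀ (y : X) (t : ℝ), 0 < t → μ (Metric.ball y t) =
      ENNReal.ofReal (t ^ d) * μ (Metric.ball 0 1) := by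
    intro y t ht
    exact MeasureTheory.Measure.addHaar_ball_of_pos μ y ht
  have hpos : μ (Metric.ball (0 : X) 1) ≠ 0 := (Metric.measure_ball_pos μ 0 one_pos).ne'
  have hfin : μ (Metric.ball (0 : X) 1) ≠ ⊤ := MeasureTheory.measure_ball_lt_top.ne
  have h3 : ∑ i ∈ J, μ (Metric.ball (c i) (s / 2)) =
      (J.card : ENNReal) * ENNReal.ofReal ((s / 2) ^ d) * μ (Metric.ball 0 1) := by
    rw [Finset.sum_congr rfl fun i _ => hball (c i) (s / 2) (by positivity), Finset.sum_const,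
      nsmul_eq_mul, mul_assoc]
  rw [h3, hball x (ρ + s / 2) (by positivity)] at hle
  have h4 : (J.card : ENNReal) * ENNReal.ofReal ((s / 2) ^ d) ≤
      ENNReal.ofReal ((ρ + s / 2) ^ d) :=
    (ENNReal.mul_le_mul_iff_left hpos hfin).1 hle
  have h5 : (J.card : ℝ) * (s / 2) ^ d ≤ (ρ + s / 2) ^ d := by
    have h6 := ENNReal.toReal_mono ENNReal.ofReal_ne_top h4
    rw [ENNReal.toReal_mul, ENNReal.toReal_natCast, ENNReal.toReal_ofReal (by positivity),
      ENNReal.toReal_ofReal (by positivity)] at h6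
    exact h6
  have h6 : (1 + 2 * ρ / s) ^ d = (ρ + s / 2) ^ d / (s / 2) ^ d := by
    rw [← div_pow]
    congr 1
    field_simp
    ring
  rw [h6, le_div_iff₀ (by positivity)]
  exact h5

end Pool.Agent.EQ
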