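import Pool.Agent.Lib.MP_1e8d1a_an.EQ.Defs

/-! row C1 -/

open scoped ContDiff Manifold Topology BoundedContinuousFunction

namespace Pool.Agent.EQ

open Pool.Agent.SC

variable {r : ℕ} {X Y : Type} [NormedAddCommGroup X] [NormedSpace ℝ X] [NormedAddCommGroup Y]
  [NormedSpace ℝ Y]

private theorem c1_eq (w : CkB r X Y) : ∃ u : X → Y, fn w = u ∧ ContDiff ℝ r u ∧
    ∀ (j : Fin (r + 1)) y, w.1 j y = iteratedFDeriv ℝ (j : ℕ) u y := by
  obtain ⟨u, hu, h⟩ := w.2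
  refine ⟨u, ?_, hu, h⟩
  funext y
  unfold fn
  rw [h 0 y]
  exact iteratedFDeriv_zero_apply 0

/-- PROOF.  `w.2` gives `u` with `ContDiff ℝ r u` and `w.1 j y = iteratedFDeriv ℝ j u y` for all
`j : Fin (r + 1)`; for `j = 0`: `fn w y = w.1 0 y 0 = iteratedFDeriv ℝ 0 u y 0 = u y`
(`iteratedFDeriv_zero_apply`), so `fn w = u`. -/
theorem fn_contDiff (w : CkB r X Y) : ContDiff ℝ r (fn w) := by
  obtain ⟨u, h, hu, _⟩ := c1_eq w
  rw [h]
  exact hu

/-- PROOF.  As before: `fn w = u`. -/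
theorem iteratedFDeriv_fn (w : CkB r X Y) (j : Fin (r + 1)) (y : X) :
    iteratedFDeriv ℝ (j : ℕ) (fn w) y = w.1 j y := by
  obtain ⟨u, h, _, h2⟩ := c1_eq w
  rw [h, h2]

/-- PROOF.  The `j`-th component is the bounded continuous function
`BoundedContinuousFunction.ofNormedAddCommGroup (fun y => iteratedFDeriv ℝ j u y)
(hu.continuous_iteratedFDeriv ..) ε (h j ..)`; the tuple is in the submodule by definition (witness
`u`).  The norm: `pi_norm_le_iff_of_nonneg`, `BoundedContinuousFunction.norm_le`. -/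
theorem exists_CkB (u : X → Y) (hu : ContDiff ℝ r u) (ε : ℝ) (hε : 0 ≤ ε)
    (h : ∀ j ≤ r, ∀ y, ‖iteratedFDeriv ℝ j u y‖ ≤ ε) :
    ∃ w : CkB r X Y, fn w = u ∧ ‖w‖ ≤ ε := by
  have hc : ∀ j : Fin (r + 1), Continuous fun y => iteratedFDeriv ℝ (j : ℕ) u y := fun j =>
    hu.continuous_iteratedFDeriv (by exact_mod_cast Nat.lt_succ_iff.1 j.2)
  have hb : ∀ (j : Fin (r + 1)) y, ‖iteratedFDeriv ℝ (j : ℕ) u y‖ ≤ ε := fun j y =>
    h j (Nat.lt_succ_iff.1 j.2) y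
  let a : CkA r X Y := fun j => BoundedContinuousFunction.ofNormedAddCommGroup
    (fun y => iteratedFDeriv ℝ (j : ℕ) u y) (hc j) ε (hb j)
  have ha : ∀ (j : Fin (r + 1)) y, a j y = iteratedFDeriv ℝ (j : ℕ) u y := fun j y => rfl
  refine ⟨⟨a, u, hu, ha⟩, ?_, ?_⟩
  · funext y
    unfold fn
    rw [ha 0 y]
    exact iteratedFDeriv_zero_apply 0
  · change ‖a‖ ≤ ε
    refine (pi_norm_le_iff_of_nonneg hε).2 fun j => ?_
    exact (BoundedContinuousFunction.norm_le hε).2 (hb j)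

/-- PROOF.  `norm_le_pi_norm`, `BoundedContinuousFunction.norm_coe_le_norm`. -/
theorem norm_apply_le (w : CkB r X Y) (j : Fin (r + 1)) (y : X) : ‖w.1 j y‖ ≤ ‖w‖ := by
  refine (BoundedContinuousFunction.norm_coe_le_norm (w.1 j) y).trans ?_
  exact norm_le_pi_norm (f := (w.1 : ∀ j : Fin (r + 1), X →ᵇ (X [×(j : ℕ)]→L[ℝ] Y))) j

/-- The `j`-th component is differentiable when `j + 1 ≤ r`, its derivative is the
`(j + 1)`-st component, curried.

PROOF.  `w.1 j = iteratedFDeriv ℝ j (fn w)` (`iteratedFDeriv_fn`), `fn w` is `C^r`, `j < r`, so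
`iteratedFDeriv ℝ j (fn w)` is differentiable (`ContDiff.differentiable_iteratedFDeriv`) and
`iteratedFDeriv ℝ (j + 1) f y = (curryLeft iso).symm (fderiv ℝ (iteratedFDeriv ℝ j f) y)`
(`iteratedFDeriv_succ_eq_comp_left`, `fderiv_iteratedFDeriv`, `iteratedFDeriv_succ_apply_left`), so
`fderiv ℝ (iteratedFDeriv ℝ j f) y = (iteratedFDeriv ℝ (j + 1) f y).curryLeft`. -/
theorem hasFDerivAt_comp (w : CkB r X Y) (j : ℕ) (hj : j + 1 < r + 1) (y : X) :
    HasFDerivAt (fun z => w.1 ⟨j, Nat.lt_of_succ_lt hj⟩ z)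
      ((w.1 ⟨j + 1, hj⟩ y : X [×(j + 1)]→L[ℝ] Y).curryLeft : X →L[ℝ] (X [×j]→L[ℝ] Y)) y := by
  have hd : DifferentiableAt ℝ (iteratedFDeriv ℝ j (fn w)) y :=
    ((fn_contDiff w).differentiable_iteratedFDeriv
      (by exact_mod_cast (Nat.lt_of_succ_lt_succ hj))) y
  have h1 := hd.hasFDerivAt
  have e1 : (fun z => w.1 ⟨j, Nat.lt_of_succ_lt hj⟩ z) = iteratedFDeriv ℝ j (fn w) := by
    funext z
    exact (iteratedFDeriv_fn w ⟨j, Nat.lt_of_succ_lt hj⟩ z).symm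
  have e2 : ((w.1 ⟨j + 1, hj⟩ y : X [×(j + 1)]→L[ℝ] Y).curryLeft : X →L[ℝ] (X [×j]→L[ℝ] Y)) =
      fderiv ℝ (iteratedFDeriv ℝ j (fn w)) y := by
    have e3 := (iteratedFDeriv_fn w ⟨j + 1, hj⟩ y).symm
    change (w.1 ⟨j + 1, hj⟩ y) = iteratedFDeriv ℝ (j + 1) (fn w) y at e3
    rw [e3]
    ext v m
    simp only [ContinuousMultilinearMap.curryLeft_apply, iteratedFDeriv_succ_apply_left,
      Fin.cons_zero, Fin.tail_cons]
  rw [e1, e2]
  exact h1

end Pool.Agent.EQ
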