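import Pool.Agent.Lib.MP_1e8d1a_an.EQ.C1

/-! row C2 -/

open scoped ContDiff Manifold Topology BoundedContinuousFunction

namespace Pool.Agent.EQ

open Pool.Agent.SC

variable {r : ℕ} {X Y : Type} [NormedAddCommGroup X] [NormedSpace ℝ X] [NormedAddCommGroup Y]
  [NormedSpace ℝ Y]

/-- generic derivative criterion -/
theorem C2_deriv {X A N : Type} [NormedAddCommGroup X] [NormedSpace ℝ X] [NormedAddCommGroup A]
    [NormedSpace ℝ A] [NormedAddCommGroup N] [NormedSpace ℝ N] (f : X → (A →L[ℝ] N))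
    (L : X →L[ℝ] (A →L[ℝ] N)) (y : X)
    (hC : ∀ h w, ‖f (y + h) w - f y w - L h w‖ ≤ ‖h‖ ^ 2 * ‖w‖) : HasFDerivAt f L y := by
  rw [hasFDerivAt_iff_isLittleO_nhds_zero]
  refine Asymptotics.IsBigO.trans_isLittleO (g := fun h : X => ‖h‖ ^ 2) ?_ ?_
  · refine Asymptotics.IsBigO.of_bound 1 (Filter.Eventually.of_forall fun h => ?_)
    rw [one_mul, Real.norm_of_nonneg (by positivity)]
    refine ContinuousLinearMap.opNorm_le_bound _ (by positivity) (fun w => ?_)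
    exact hC h w
  · exact Asymptotics.isLittleO_norm_pow_id one_lt_two

/-- generic: the flip of a composition is smooth -/
theorem C2_flip {X A M N : Type} [NormedAddCommGroup X] [NormedSpace ℝ X] [NormedAddCommGroup A]
    [NormedSpace ℝ A] [NormedAddCommGroup M] [NormedSpace ℝ M] [NormedAddCommGroup N]
    [NormedSpace ℝ N] (c : M →L[ℝ] (X →L[ℝ] N)) (m : WithTop ℕ∞) (g : X → (A →L[ℝ] M))
    (hg : ContDiff ℝ m g) : ContDiff ℝ m (fun z => (c.comp (g z)).flip) := by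
  have h2 : ContDiff ℝ m (fun z => c.comp (g z)) := contDiff_const.clm_comp hg
  exact (LinearIsometryEquiv.contDiff (𝕜 := ℝ) (E := A →L[ℝ] (X →L[ℝ] N))
    (F := X →L[ℝ] (A →L[ℝ] N)) (n := m) (ContinuousLinearMap.flipₗᵢ ℝ A X N)).comp h2

/-- PROOF.  Operator norm: for `w`, `‖w.1 j y - w.1 j y'‖ ≤ ‖w‖ ‖y - y'‖` by the mean value
inequality (`Convex.norm_image_sub_le_of_norm_hasFDerivWithin_le` on `univ`, or
`norm_image_sub_le...` for a function with derivative bounded everywhere) with `hasFDerivAt_comp`,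
`‖curryLeft f‖ = ‖f‖` (`ContinuousMultilinearMap.curryLeft_norm`) and `norm_apply_le`. -/
theorem opE_lip (j : ℕ) (hj : j + 1 < r + 1) (y y' : X) :
    ‖(opE (r := r) (Y := Y) ⟨j, Nat.lt_of_succ_lt hj⟩ y) - opE ⟨j, Nat.lt_of_succ_lt hj⟩ y'‖ ≤
      ‖y - y'‖ := by
  refine ContinuousLinearMap.opNorm_le_bound _ (norm_nonneg _) (fun w => ?_)
  have hb : ∀ z : X, ‖((w.1 ⟨j + 1, hj⟩ z : X [×(j + 1)]→L[ℝ] Y).curryLeft :
      X →L[ℝ] (X [×j]→L[ℝ] Y))‖ ≤ ‖w‖ := by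
    intro z
    rw [ContinuousMultilinearMap.curryLeft_norm]
    exact norm_apply_le w ⟨j + 1, hj⟩ z
  have h := Convex.norm_image_sub_le_of_norm_hasFDerivWithin_le (𝕜 := ℝ)
    (f := fun z => w.1 ⟨j, Nat.lt_of_succ_lt hj⟩ z) (s := Set.univ) (x := y') (y := y)
    (fun z _ => (hasFDerivAt_comp w j hj z).hasFDerivWithinAt) (fun z _ => hb z) convex_univ
    (Set.mem_univ _) (Set.mem_univ _)
  rw [mul_comm]
  exact h

/-- the derivative of `y ↦ opE j y`: `h ↦ (w ↦ curryLeft (w.1 (j + 1) y) h)` -/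
noncomputable def dOp (j : ℕ) (hj : j + 1 < r + 1) (y : X) :
    X →L[ℝ] (CkB r X Y →L[ℝ] (X [×j]→L[ℝ] Y)) :=
  (((continuousMultilinearCurryLeftEquiv ℝ (fun _ : Fin (j + 1) => X) Y).toContinuousLinearEquiv :
      (X [×(j + 1)]→L[ℝ] Y) →L[ℝ] (X →L[ℝ] (X [×j]→L[ℝ] Y))).comp
    (opE ⟨j + 1, hj⟩ y : CkB r X Y →L[ℝ] (X [×(j + 1)]→L[ℝ] Y))).flip

theorem dOp_apply (j : ℕ) (hj : j + 1 < r + 1) (y h : X) (w : CkB r X Y) :
    dOp j hj y h w = (w.1 ⟨j + 1, hj⟩ y : X [×(j + 1)]→L[ℝ] Y).curryLeft h := rfl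

/-- PROOF.  To show: `‖opE j (y + h) - opE j y - dOp j y h‖ = O(‖h‖²)` in the operator norm.  For
`w`: `‖w.1 j (y + h) - w.1 j y - curryLeft (w.1 (j + 1) y) h‖ ≤ ‖w‖ ‖h‖ · ‖h‖`: mean value
inequality for `z ↦ w.1 j z - curryLeft (w.1 (j + 1) y) z` on the segment (or the closed ball of
radius `‖h‖` around `y`), whose derivative at `z` is
`curryLeft (w.1 (j + 1) z - w.1 (j + 1) y)`, of norm at most `‖w‖ ‖z - y‖ ≤ ‖w‖ ‖h‖` by
`opE_lip (j + 1)`.  Then `‖..‖ ≤ ‖h‖²` and `HasFDerivAt` (`hasFDerivAt_iff_isLittleO_nhds_zero`,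
or `HasFDerivAt.of_isLittleO`, an `O(‖h‖²)` is `o(‖h‖)`). -/
theorem opE_hasFDerivAt (j : ℕ) (hj : j + 1 < r + 1) (hj2 : j + 2 < r + 1) (y : X) :
    HasFDerivAt (fun z : X => opE (r := r) (Y := Y) ⟨j, Nat.lt_of_succ_lt hj⟩ z)
      (dOp j hj y) y := by
  refine C2_deriv (A := CkB r X Y) (N := X [×j]→L[ℝ] Y) _ _ y (fun h w => ?_)
  let D : X → (X →L[ℝ] (X [×j]→L[ℝ] Y)) := fun z =>
    (w.1 ⟨j + 1, hj⟩ z : X [×(j + 1)]→L[ℝ] Y).curryLeft
  have hder : ∀ z : X, HasFDerivAt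
      (fun z => w.1 ⟨j, Nat.lt_of_succ_lt hj⟩ z - D y z) (D z - D y) z := fun z =>
    (hasFDerivAt_comp w j hj z).sub (D y).hasFDerivAt
  have hb : ∀ z ∈ Metric.closedBall y ‖h‖, ‖D z - D y‖ ≤ ‖w‖ * ‖h‖ := by
    intro z hz
    have e1 : D z - D y = ((w.1 ⟨j + 1, hj⟩ z - w.1 ⟨j + 1, hj⟩ y :
        X [×(j + 1)]→L[ℝ] Y)).curryLeft := by
      ext a b
      rfl
    rw [e1, ContinuousMultilinearMap.curryLeft_norm]
    have e2 := ContinuousLinearMap.le_opNorm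
      (opE (r := r) (Y := Y) ⟨j + 1, hj⟩ z - opE ⟨j + 1, hj⟩ y) w
    have e3 := opE_lip (r := r) (Y := Y) (j + 1) hj2 z y
    have e4 : ‖z - y‖ ≤ ‖h‖ := by rwa [Metric.mem_closedBall, dist_eq_norm] at hz
    calc _ ≤ _ := e2
      _ ≤ ‖h‖ * ‖w‖ := mul_le_mul_of_nonneg_right (e3.trans e4) (norm_nonneg _)
      _ = ‖w‖ * ‖h‖ := mul_comm _ _
  have h1 := Convex.norm_image_sub_le_of_norm_hasFDerivWithin_le (𝕜 := ℝ)
    (fun z _ => (hder z).hasFDerivWithinAt) hb (convex_closedBall y ‖h‖)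
    (Metric.mem_closedBall_self (norm_nonneg h)) (y := y + h)
    (by rw [Metric.mem_closedBall, dist_eq_norm, add_sub_cancel_left])
  have e5 : (opE (r := r) (Y := Y) ⟨j, Nat.lt_of_succ_lt hj⟩ (y + h)) w -
      (opE (r := r) (Y := Y) ⟨j, Nat.lt_of_succ_lt hj⟩ y) w - dOp j hj y h w =
      (w.1 ⟨j, Nat.lt_of_succ_lt hj⟩ (y + h) - D y (y + h)) -
        (w.1 ⟨j, Nat.lt_of_succ_lt hj⟩ y - D y y) := by
    rw [(D y).map_add, dOp_apply, opE_apply, opE_apply]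
    show _ - _ - D y h = _
    abel
  show ‖(opE (r := r) (Y := Y) ⟨j, Nat.lt_of_succ_lt hj⟩ (y + h)) w -
      (opE (r := r) (Y := Y) ⟨j, Nat.lt_of_succ_lt hj⟩ y) w - dOp j hj y h w‖ ≤ _
  rw [e5]
  refine h1.trans ?_
  rw [add_sub_cancel_left]
  nlinarith [norm_nonneg h, norm_nonneg w]

/-- PROOF.  Induction on `m` for all `j`.  `m = 0`: continuity from `opE_lip`
(`contDiff_zero`).  `m + 1`: `contDiff_succ_iff_hasFDerivAt` with derivative `dOp j`, which is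
`C^m`: it is `flip` (a continuous linear map, `ContinuousLinearMap.flipₗᵢ`) of the composition
(`ContinuousLinearMap.compL` with a fixed first argument) with `opE (j + 1)`, `C^m` by the
induction hypothesis. -/
theorem opE_contDiff (m : ℕ) : ∀ (j : ℕ) (hj : j + m + 1 < r + 1),
    ContDiff ℝ m (fun z : X => opE (r := r) (Y := Y) ⟨j, by omega⟩ z) := by
  induction m with
  | zero =>
    intro j hj
    have hj1 : j + 1 < r + 1 := by omega
    refine contDiff_zero.2 ?_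
    have : LipschitzWith 1 (fun z : X => opE (r := r) (Y := Y) ⟨j, Nat.lt_of_succ_lt hj1⟩ z) := by
      refine LipschitzWith.of_dist_le_mul fun z z' => ?_
      rw [dist_eq_norm, dist_eq_norm, NNReal.coe_one, one_mul]
      exact opE_lip j hj1 z z'
    exact this.continuous
  | succ m ih =>
    intro j hj
    have hj1 : j + 1 < r + 1 := by omega
    have hj2 : j + 2 < r + 1 := by omega
    have e1 : ((m + 1 : ℕ) : WithTop ℕ∞) = (m : WithTop ℕ∞) + 1 := by push_cast; rfl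
    rw [e1, contDiff_succ_iff_hasFDerivAt]
    refine ⟨fun z => dOp j hj1 z, ?_, fun z => opE_hasFDerivAt j hj1 hj2 z⟩
    have h1 : ContDiff ℝ m (fun z : X => opE (r := r) (Y := Y) ⟨j + 1, hj1⟩ z) :=
      ih (j + 1) (by omega)
    exact C2_flip (A := CkB r X Y) (M := X [×(j + 1)]→L[ℝ] Y) (N := X [×j]→L[ℝ] Y)
      ((continuousMultilinearCurryLeftEquiv ℝ
          (fun _ : Fin (j + 1) => X) Y).toContinuousLinearEquiv :
          (X [×(j + 1)]→L[ℝ] Y) →L[ℝ] (X →L[ℝ] (X [×j]→L[ℝ] Y))) m _ h1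

end Pool.Agent.EQ
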