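import Pool.Agent.Lib.MP_1e8d1a_an.EQ.C2

/-! row C3 -/

open scoped ContDiff Manifold Topology BoundedContinuousFunction

namespace Pool.Agent.EQ

open Pool.Agent.SC

variable {r : ℕ} {X Y : Type} [NormedAddCommGroup X] [NormedSpace ℝ X] [NormedAddCommGroup Y]
  [NormedSpace ℝ Y]

/-- PROOF.  Put `f x = x.1.1 j x.2 = opE j x.2 x.1`.  With `x = (w, y)`, `x' = (w', y')`:
`f x' - f x - (opE j y (w' - w) + curryLeft (w.1 (j + 1) y) (y' - y))
 = (opE j y' - opE j y) (w' - w) + (w.1 j y' - w.1 j y - curryLeft (w.1 (j + 1) y) (y' - y))`;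
the first term is at most `‖y' - y‖ ‖w' - w‖ ≤ ‖x' - x‖²` (`opE_lip`), the second is
`o(‖y' - y‖)` by `hasFDerivAt_comp`.  (Alternatively: `f = (bilinear apply) ∘ ...` with a product
rule: `f x' - f x = [opE j y' - opE j y](w' - w) + opE j y (w' - w) + (w j y' - w j y)`.) -/
theorem ev_hasFDerivAt (j : ℕ) (hj : j + 1 < r + 1) (x : CkB r X Y × X) :
    HasFDerivAt (fun x : CkB r X Y × X => x.1.1 ⟨j, Nat.lt_of_succ_lt hj⟩ x.2)
      ((opE (r := r) (Y := Y) ⟨j, Nat.lt_of_succ_lt hj⟩ x.2).comp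
          (ContinuousLinearMap.fst ℝ (CkB r X Y) X) +
        ((x.1.1 ⟨j + 1, hj⟩ x.2 : X [×(j + 1)]→L[ℝ] Y).curryLeft).comp
          (ContinuousLinearMap.snd ℝ (CkB r X Y) X)) x := by
  have h1 : HasFDerivAt (fun x' : CkB r X Y × X =>
      (opE (r := r) (Y := Y) ⟨j, Nat.lt_of_succ_lt hj⟩ x.2) (x'.1 - x.1))
      ((opE (r := r) (Y := Y) ⟨j, Nat.lt_of_succ_lt hj⟩ x.2).comp
          (ContinuousLinearMap.fst ℝ (CkB r X Y) X)) x :=
    ((opE (r := r) (Y := Y) ⟨j, Nat.lt_of_succ_lt hj⟩ x.2).hasFDerivAt).comp x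
      (((ContinuousLinearMap.fst ℝ (CkB r X Y) X).hasFDerivAt).sub_const x.1)
  have h2 : HasFDerivAt (fun x' : CkB r X Y × X =>
      ((opE (r := r) (Y := Y) ⟨j, Nat.lt_of_succ_lt hj⟩ x'.2) -
        (opE (r := r) (Y := Y) ⟨j, Nat.lt_of_succ_lt hj⟩ x.2) :
          CkB r X Y →L[ℝ] (X [×j]→L[ℝ] Y)) (x'.1 - x.1))
      (0 : CkB r X Y × X →L[ℝ] (X [×j]→L[ℝ] Y)) x := by
    refine Asymptotics.IsBigO.hasFDerivAt (n := 2) ?_ (by norm_num)
    refine Asymptotics.IsBigO.of_bound 1 (Filter.Eventually.of_forall fun x' => ?_)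
    have e1 := ContinuousLinearMap.le_opNorm
      ((opE (r := r) (Y := Y) ⟨j, Nat.lt_of_succ_lt hj⟩ x'.2) -
        (opE ⟨j, Nat.lt_of_succ_lt hj⟩ x.2)) (x'.1 - x.1)
    have e2 := opE_lip (r := r) (Y := Y) j hj x'.2 x.2
    have e3 : ‖x'.1 - x.1‖ ≤ ‖x' - x‖ := norm_fst_le (x' - x)
    have e4 : ‖x'.2 - x.2‖ ≤ ‖x' - x‖ := norm_snd_le (x' - x)
    rw [one_mul, Real.norm_of_nonneg (by positivity), pow_two]
    refine e1.trans (mul_le_mul (e2.trans e4) e3 (norm_nonneg _) (norm_nonneg _))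
  have h3 : HasFDerivAt (fun x' : CkB r X Y × X => x.1.1 ⟨j, Nat.lt_of_succ_lt hj⟩ x'.2)
      (((x.1.1 ⟨j + 1, hj⟩ x.2 : X [×(j + 1)]→L[ℝ] Y).curryLeft).comp
          (ContinuousLinearMap.snd ℝ (CkB r X Y) X)) x :=
    (hasFDerivAt_comp x.1 j hj x.2).comp x ((ContinuousLinearMap.snd ℝ (CkB r X Y) X).hasFDerivAt)
  have h4 := (h1.add h2).add h3
  rw [add_zero] at h4
  refine h4.congr_of_eventuallyEq (Filter.Eventually.of_forall fun x' => ?_)
  have e1 : (x'.1.1 ⟨j, Nat.lt_of_succ_lt hj⟩ x'.2 : X [×j]→L[ℝ] Y) =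
      opE (r := r) (Y := Y) ⟨j, Nat.lt_of_succ_lt hj⟩ x'.2 x'.1 := rfl
  have e2 : (x.1.1 ⟨j, Nat.lt_of_succ_lt hj⟩ x'.2 : X [×j]→L[ℝ] Y) =
      opE (r := r) (Y := Y) ⟨j, Nat.lt_of_succ_lt hj⟩ x'.2 x.1 := rfl
  simp only [Pi.add_apply]
  rw [e1, e2, sub_apply, map_sub, map_sub]
  abel

/-- PROOF.  Induction on `m` for all `j`.  `m = 0`: continuity of `(w, y) ↦ w.1 j y`: the
evaluation `(X →ᵇ Z) × X → Z` is continuous (`BoundedContinuousFunction.continuous_eval`), and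
`w ↦ w.1 j` is continuous.  `m + 1`: `contDiff_succ_iff_hasFDerivAt` with the derivative of
`ev_hasFDerivAt`, which is `C^m`: `x ↦ opE j x.2` is `C^m` (`opE_contDiff`, `j + m + 1 ≤ r`),
`x ↦ x.1.1 (j + 1) x.2` is `C^m` by the induction hypothesis, then compose with the continuous
linear maps `curryLeft`, `(·).comp fst`, `(·).comp snd`. -/
theorem ev_contDiff_aux (m : ℕ) : ∀ (j : ℕ) (hj : j + m < r + 1),
    ContDiff ℝ m (fun x : CkB r X Y × X => x.1.1 ⟨j, by omega⟩ x.2) := by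
  induction m with
  | zero =>
    intro j hj
    have h1 : Continuous (fun x : CkB r X Y × X =>
        ((prj r X Y ⟨j, by omega⟩) x.1.1, x.2)) :=
      (((prj r X Y ⟨j, by omega⟩).continuous.comp continuous_subtype_val).comp
        continuous_fst).prodMk continuous_snd
    have h2 := (continuous_eval (F := X →ᵇ (X [×j]→L[ℝ] Y))).comp h1
    exact contDiff_zero.2 h2
  | succ m ih =>
    intro j hj
    have hj1 : j + 1 < r + 1 := by omega
    have e1 : ((m + 1 : ℕ) : WithTop ℕ∞) = (m : WithTop ℕ∞) + 1 := by push_cast; rfl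
    rw [e1, contDiff_succ_iff_hasFDerivAt]
    refine ⟨_, ?_, fun x => ev_hasFDerivAt j hj1 x⟩
    refine ContDiff.add ?_ ?_
    · have h1 : ContDiff ℝ m (fun x : CkB r X Y × X =>
          opE (r := r) (Y := Y) ⟨j, Nat.lt_of_succ_lt hj1⟩ x.2) :=
        (opE_contDiff (r := r) (X := X) (Y := Y) m j (by omega)).comp contDiff_snd
      exact h1.clm_comp contDiff_const
    · have h1 : ContDiff ℝ m (fun x : CkB r X Y × X =>
          (x.1.1 ⟨j + 1, hj1⟩ x.2 : X [×(j + 1)]→L[ℝ] Y)) := ih (j + 1) (by omega)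
      have hc : ContDiff ℝ m (fun f : (X [×(j + 1)]→L[ℝ] Y) => f.curryLeft) :=
        LinearIsometryEquiv.contDiff (𝕜 := ℝ) (E := X [×(j + 1)]→L[ℝ] Y)
          (F := X →L[ℝ] (X [×j]→L[ℝ] Y)) (n := m)
          (continuousMultilinearCurryLeftEquiv ℝ (fun _ : Fin (j + 1) => X) Y)
      have h2 : ContDiff ℝ m (fun x : CkB r X Y × X =>
          (x.1.1 ⟨j + 1, hj1⟩ x.2 : X [×(j + 1)]→L[ℝ] Y).curryLeft) :=
        hc.comp h1
      exact h2.clm_comp contDiff_const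

/-- **The evaluation map is `C^r`.**

PROOF.  `ev_contDiff_aux r 0`, composed with the evaluation at `0 : Fin 0 → X`
(`ContinuousMultilinearMap.apply`, a continuous linear map). -/
theorem ev_contDiff : ContDiff ℝ r (fun x : CkB r X Y × X => fn x.1 x.2) := by
  have h1 := ev_contDiff_aux (r := r) (X := X) (Y := Y) r 0 (by omega)
  exact ((ContinuousMultilinearMap.apply ℝ (fun _ : Fin 0 => X) Y 0).contDiff).comp h1

end Pool.Agent.EQ
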