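import Pool.Agent.Lib.MP_1e8d1a_an.SC.Fam3
import Pool.Agent.Lib.MP_1e8d1a_an.SC.Trans2
import Pool.Agent.Lib.MP_1e8d1a_an.SC.Rec
import Pool.Agent.Lib.MP_1e8d1a_an.EQ.Act

/-!
# Equivariant closing lemma: definitions

`W` compact manifold, `ρ` a smooth action of the torus `ℝ^k/ℤ^k`, `F` a `C^r` diffeomorphism
commuting with `ρ`, `p` a recurrent point with trivial isotropy.
-/

open scoped ContDiff Manifold Topology BoundedContinuousFunction

namespace Pool.Agent.EQ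

open Pool.Agent.SC

/-! ## The Banach space of `C^r` functions -/

section Ck

variable (r : ℕ) (X Y : Type) [NormedAddCommGroup X] [NormedSpace ℝ X] [NormedAddCommGroup Y]
  [NormedSpace ℝ Y]

/-- tuples of bounded continuous functions with values in the multilinear maps -/
def CkA : Type := ∀ j : Fin (r + 1), X →ᵇ (X [×(j : ℕ)]→L[ℝ] Y)

noncomputable instance : NormedAddCommGroup (CkA r X Y) :=
  inferInstanceAs (NormedAddCommGroup (∀ j : Fin (r + 1), X →ᵇ (X [×(j : ℕ)]→L[ℝ] Y)))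

noncomputable instance : NormedSpace ℝ (CkA r X Y) :=
  inferInstanceAs (NormedSpace ℝ (∀ j : Fin (r + 1), X →ᵇ (X [×(j : ℕ)]→L[ℝ] Y)))

/-- `C^r` functions with bounded derivatives of order at most `r`, given by the tuple of the
derivatives; the norm is the maximum of the sup norms. -/
noncomputable def CkB : Submodule ℝ (CkA r X Y) where
  carrier := {w | ∃ u : X → Y, ContDiff ℝ r u ∧ ∀ j y, w j y = iteratedFDeriv ℝ j u y}
  add_mem' := by
    rintro a b ⟨u, hu, ha⟩ ⟨v, hv, hb⟩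
    refine ⟨u + v, hu.add hv, fun j y => ?_⟩
    have hj : ((j : ℕ) : WithTop ℕ∞) ≤ r := by exact_mod_cast Nat.lt_succ_iff.1 j.2
    have h1 : (a + b) j y = a j y + b j y := rfl
    rw [h1, ha, hb]
    rw [iteratedFDeriv_add (hu.of_le hj) (hv.of_le hj)]
    rfl
  zero_mem' := by
    refine ⟨fun _ => 0, contDiff_const, fun j y => ?_⟩
    have h : iteratedFDeriv ℝ (j : ℕ) (fun _ : X => (0 : Y)) = 0 := iteratedFDeriv_fun_zero
    rw [h]
    rfl
  smul_mem' := by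
    rintro c a ⟨u, hu, ha⟩
    refine ⟨c • u, contDiff_const.smul hu, fun j y => ?_⟩
    have hj : ((j : ℕ) : WithTop ℕ∞) ≤ r := by exact_mod_cast Nat.lt_succ_iff.1 j.2
    have h1 : (c • a) j y = c • (a j y) := rfl
    rw [h1, ha, iteratedFDeriv_const_smul_apply (hu.of_le hj).contDiffAt]

variable {r X Y}

/-- the function -/
noncomputable def fn (w : CkB r X Y) (y : X) : Y := w.1 0 y 0

variable (r X Y) in
/-- the `j`-th component, a continuous linear map -/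
noncomputable def prj (j : Fin (r + 1)) : CkA r X Y →L[ℝ] (X →ᵇ (X [×(j : ℕ)]→L[ℝ] Y)) :=
  ContinuousLinearMap.proj (R := ℝ) (φ := fun j : Fin (r + 1) => X →ᵇ (X [×(j : ℕ)]→L[ℝ] Y)) j

/-- evaluation of the `j`-th derivative at `y`, a continuous linear map -/
noncomputable def opE (j : Fin (r + 1)) (y : X) : CkB r X Y →L[ℝ] (X [×(j : ℕ)]→L[ℝ] Y) :=
  (BoundedContinuousFunction.evalCLM ℝ y).comp ((prj r X Y j).comp (CkB r X Y).subtypeL)

theorem opE_apply (j : Fin (r + 1)) (y : X) (w : CkB r X Y) : opE j y w = w.1 j y := rfl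

end Ck

/-! ## Torus actions, tubes -/

section Tube

variable {E : Type} [NormedAddCommGroup E] [NormedSpace ℝ E] {H : Type} [TopologicalSpace H]
  (I : ModelWithCorners ℝ E H) {W : Type} [TopologicalSpace W] [ChartedSpace H W]

/-- the coordinate of `q` in the chart at `p`, centred at `p` -/
noncomputable def cc (p q : W) : E := extChartAt I p q - extChartAt I p p

/-- the point with coordinate `y` in the centred chart at `p` -/
noncomputable def sec (p : W) (y : E) : W := (extChartAt I p).symm (extChartAt I p p + y)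

/-- the union of the orbits of the points of the slice of radius `R` -/
def tubeSet {k : ℕ} (ρ : (Fin k → ℝ) → W → W) (p : W) (E₀ : Submodule ℝ E) (R : ℝ) : Set W :=
  {q | ∃ (v : Fin k → ℝ) (y : E₀), ‖y‖ < R ∧ q = ρ v (sec I p (y : E))}

/-- A slice `E₀` in the chart at `p` and a local inverse `Θ` of `(y, v) ↦ ρ v (sec y)`. -/
structure PreTube (k : ℕ) (ρ : (Fin k → ℝ) → W → W) (p : W) where
  E₀ : Submodule ℝ E
  R : ℝ
  C : ℝ
  δ : ℝ
  Θ : E → E₀ × (Fin k → ℝ)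
  R_pos : 0 < R
  one_le_C : 1 ≤ C
  le_δ : 2 * R ≤ δ
  fin : Module.finrank ℝ E₀ + k = Module.finrank ℝ E
  ball : Metric.closedBall (extChartAt I p p) δ ⊆ (extChartAt I p).target
  src : ∀ (y : E₀) (v : Fin k → ℝ), ‖y‖ < δ → ‖v‖ < δ →
    ρ v (sec I p (y : E)) ∈ (extChartAt I p).source
  left : ∀ (y : E₀) (v : Fin k → ℝ), ‖y‖ < δ → ‖v‖ < δ →
    Θ (cc I p (ρ v (sec I p (y : E)))) = (y, v)
  right : ∀ z : E, ‖z‖ < 2 * R → ‖(Θ z).1‖ < δ ∧ ‖(Θ z).2‖ < δ ∧
    cc I p (ρ (Θ z).2 (sec I p ((Θ z).1 : E))) = z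
  smooth : ∀ z : E, ‖z‖ < 2 * R → ContDiffAt ℝ ∞ Θ z
  lip : ∀ z z' : E, ‖z‖ < 2 * R → ‖z'‖ < 2 * R → ‖Θ z - Θ z'‖ ≤ C * ‖z - z'‖
  free : ∀ (v : Fin k → ℝ) (y : E₀), ‖y‖ < R →
    ρ v (sec I p (y : E)) ∈ (extChartAt I p).source →
    ‖cc I p (ρ v (sec I p (y : E)))‖ < 2 * R → ∃ m : Fin k → ℤ, ‖v - (fun i => (m i : ℝ))‖ < δ

/-- A tube around the orbit of `p`: a slice `E₀` in the chart at `p`, and the projection `Y` to
the slice. -/
structure Tube (k : ℕ) (ρ : (Fin k → ℝ) → W → W) (p : W) where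
  E₀ : Submodule ℝ E
  R : ℝ
  C : ℝ
  Y : W → E₀
  R_pos : 0 < R
  one_le_C : 1 ≤ C
  fin : Module.finrank ℝ E₀ + k = Module.finrank ℝ E
  ball : Metric.closedBall (extChartAt I p p) (2 * R) ⊆ (extChartAt I p).target
  isOpen : IsOpen (tubeSet I ρ p E₀ R)
  Y_eq : ∀ (v : Fin k → ℝ) (y : E₀), ‖y‖ < R → Y (ρ v (sec I p (y : E))) = y
  Y_smooth : ∀ q ∈ tubeSet I ρ p E₀ R, ContMDiffAt I 𝓘(ℝ, E₀) ∞ Y q
  closed : ∀ R' < R, IsClosed {q : W | q ∈ tubeSet I ρ p E₀ R ∧ ‖Y q‖ ≤ R'}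
  sep : ∀ (v : Fin k → ℝ) (y y' : E₀), ‖y‖ < R → ‖y'‖ < R →
    ρ v (sec I p (y : E)) ∈ (extChartAt I p).source →
    ‖cc I p (ρ v (sec I p (y : E))) - (y' : E)‖ < R →
    ‖y - y'‖ ≤ C * ‖cc I p (ρ v (sec I p (y : E))) - (y' : E)‖ ∧
    ∃ m : Fin k → ℤ, ‖v - (fun i => (m i : ℝ))‖ ≤
      C * ‖cc I p (ρ v (sec I p (y : E))) - (y' : E)‖

/-- `y ↦ y + α y` in the chart at `p` -/
noncomputable def shf (p : W) (α : E → E) (q : W) : W := trans2_tr I p (fun y => y + α y) q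

open Classical in
/-- push along the orbits of the action by `β ∘ Y` -/
noncomputable def push {k : ℕ} {ρ : (Fin k → ℝ) → W → W} {p : W} (t : Tube I k ρ p)
    (β : t.E₀ → (Fin k → ℝ)) (q : W) : W :=
  if q ∈ tubeSet I ρ p t.E₀ t.R then ρ (β (t.Y q)) q else q

end Tube

end Pool.Agent.EQ
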