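import Pool.Agent.Lib.MP_1e8d1a_an.EQ.Defs

/-! row F1 -/

open scoped ContDiff Manifold Topology BoundedContinuousFunction

namespace Pool.Agent.EQ

open Pool.Agent.SC

variable {E : Type} [NormedAddCommGroup E] [NormedSpace ℝ E] {H : Type} [TopologicalSpace H]
  {I : ModelWithCorners ℝ E H} {W : Type} [TopologicalSpace W] [ChartedSpace H W]

/-- **Transport of a family of maps of the model space** (variant of `SC.trans2_smooth`).

PROOF.  Copy the proof of `Pool.Agent.SC.trans2_smooth` (file SC/Trans2.lean), at the point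
`x = (t₀, q)`.  If `q ∈ (extChartAt I p).source`: near `(t₀, q)` the map is
`x ↦ (extChartAt I p).symm (e p + S (x.1, e x.2 - e p))`; the point
`e p + S (t₀, e q - e p)` lies in the target by `trans2_mem_target` (with `F = S (t₀, ·)`,
`hS1 t₀`, `hS2`), so it is a composition of maps that are `ContMDiffAt n` (`hn : n ≤ ∞` for the
chart maps, `ContMDiffAt.of_le`).  If `q ∉ source`: near `(t₀, q)` the map is `x ↦ x.2`
(`trans2_isClosed`, `trans2_eq_self p δ _ (hS1 z.1)`). -/
theorem tr_smoothAt [FiniteDimensional ℝ E] [T2Space W] [IsManifold I ∞ W] [I.Boundaryless]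
    {P : Type} [NormedAddCommGroup P] [NormedSpace ℝ P] {n : WithTop ℕ∞} (hn : n ≤ ∞) (p : W)
    (δ : ℝ) (hball : Metric.closedBall (extChartAt I p p) δ ⊆ (extChartAt I p).target)
    (S : P × E → E) (t₀ : P) (hS : ∀ y, ContDiffAt ℝ n S (t₀, y))
    (hS1 : ∀ t y, δ ≤ ‖y‖ → S (t, y) = y) (hS2 : ∀ y, ‖y‖ < δ → ‖S (t₀, y)‖ < δ) (q : W) :
    ContMDiffAt (𝓘(ℝ, P).prod I) I n
      (fun x : P × W => trans2_tr I p (fun y => S (x.1, y)) x.2) (t₀, q) := by
  by_cases hx : q ∈ (extChartAt I p).source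
  · have hev : (fun x : P × W => trans2_tr I p (fun y => S (x.1, y)) x.2) =ᶠ[𝓝 (t₀, q)]
        fun x : P × W => (extChartAt I p).symm
          (extChartAt I p p + S (x.1, extChartAt I p x.2 - extChartAt I p p)) := by
      have h1 : ∀ᶠ z : P × W in 𝓝 (t₀, q), z.2 ∈ (extChartAt I p).source :=
        continuousAt_snd.eventually ((isOpen_extChartAt_source (I := I) p).mem_nhds hx)
      filter_upwards [h1] with z hz
      exact trans2_tr_of_mem p _ z.2 hz
    refine ContMDiffAt.congr_of_eventuallyEq ?_ hev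
    have hz := trans2_mem_target p δ hball (fun y => S (t₀, y)) (hS1 t₀) hS2 q hx
    have h2 : ContMDiffAt 𝓘(ℝ, E) I n (extChartAt I p).symm
        (extChartAt I p p + S (t₀, extChartAt I p q - extChartAt I p p)) :=
      ((contMDiffOn_extChartAt_symm (n := ∞) p).contMDiffAt
        ((isOpen_extChartAt_target p).mem_nhds hz)).of_le hn
    have h4 : ContMDiffAt I 𝓘(ℝ, E) n (extChartAt I p) q :=
      (contMDiffAt_extChartAt' (n := ∞) (by rwa [extChartAt_source] at hx)).of_le hn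
    have h3 : ContMDiffAt (𝓘(ℝ, P).prod I) 𝓘(ℝ, E) n
        (fun z : P × W => extChartAt I p z.2) (t₀, q) :=
      ContMDiffAt.comp (t₀, q) h4 contMDiffAt_snd
    have h5 : ContMDiffAt (𝓘(ℝ, P).prod I) 𝓘(ℝ, P × E) n
        (fun z : P × W => (z.1, extChartAt I p z.2 - extChartAt I p p)) (t₀, q) :=
      ContMDiffAt.prodMk_space contMDiffAt_fst (h3.sub contMDiffAt_const)
    have h6 : ContMDiffAt (𝓘(ℝ, P).prod I) 𝓘(ℝ, E) n
        (fun z : P × W => S (z.1, extChartAt I p z.2 - extChartAt I p p)) (t₀, q) :=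
      ContMDiffAt.comp (t₀, q) (hS (extChartAt I p q - extChartAt I p p)).contMDiffAt h5
    have h7 : ContMDiffAt (𝓘(ℝ, P).prod I) 𝓘(ℝ, E) n
        (fun z : P × W => extChartAt I p p + S (z.1, extChartAt I p z.2 - extChartAt I p p))
        (t₀, q) :=
      contMDiffAt_const.add h6
    exact ContMDiffAt.comp (t₀, q) h2 h7
  · have hx' : q ∉ (extChartAt I p).symm '' Metric.closedBall (extChartAt I p p) δ := by
      rintro ⟨z, hz, hz2⟩
      apply hx
      rw [← hz2]
      exact (extChartAt I p).map_target (hball hz)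
    have hev : (fun x : P × W => trans2_tr I p (fun y => S (x.1, y)) x.2) =ᶠ[𝓝 (t₀, q)]
        fun x : P × W => x.2 := by
      have h1 : ∀ᶠ z : P × W in 𝓝 (t₀, q),
          z.2 ∈ ((extChartAt I p).symm '' Metric.closedBall (extChartAt I p p) δ)ᶜ :=
        continuousAt_snd.eventually
          ((trans2_isClosed (I := I) p δ hball).isOpen_compl.mem_nhds hx')
      filter_upwards [h1] with z hz
      exact trans2_eq_self p δ _ (hS1 z.1) z.2 hz
    exact ContMDiffAt.congr_of_eventuallyEq contMDiffAt_snd hev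

/-- PROOF.  `D.toFun = trans2_tr I p S`, `D.invFun = trans2_tr I p R`; they are inverse to each
other by `Pool.Agent.SC.trans2_inv` (twice), smooth by `tr_smoothAt` with the trivial parameter
space `P = ℝ` (`S' (t, y) = S y`) composed with `q ↦ (0, q)`. -/
theorem exists_diffeo_tr [FiniteDimensional ℝ E] [T2Space W] [IsManifold I ∞ W]
    [I.Boundaryless] {n : WithTop ℕ∞} (hn : n ≤ ∞) (p : W) (δ : ℝ)
    (hball : Metric.closedBall (extChartAt I p p) δ ⊆ (extChartAt I p).target)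
    (S R : E → E) (hS : ContDiff ℝ n S) (hR : ContDiff ℝ n R) (hRS : ∀ y, R (S y) = y)
    (hSR : ∀ y, S (R y) = y)
    (hS1 : ∀ y, δ ≤ ‖y‖ → S y = y) (hS2 : ∀ y, ‖y‖ < δ → ‖S y‖ < δ)
    (hR1 : ∀ y, δ ≤ ‖y‖ → R y = y) (hR2 : ∀ y, ‖y‖ < δ → ‖R y‖ < δ) :
    ∃ D : W ≃ₘ^n⟮I, I⟯ W, (∀ q, D q = trans2_tr I p S q) ∧
      ∀ q, D.symm q = trans2_tr I p R q := by
  have hsm : ∀ (T : E → E), ContDiff ℝ n T → (∀ y, δ ≤ ‖y‖ → T y = y) →
      (∀ y, ‖y‖ < δ → ‖T y‖ < δ) → ContMDiff I I n (fun q => trans2_tr I p T q) := by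
    intro T hT h1 h2 q
    have h3 := tr_smoothAt (I := I) (W := W) (P := ℝ) hn p δ hball (fun x => T x.2) 0
      (fun y => (hT.comp contDiff_snd).contDiffAt) (fun _ y hy => h1 y hy) h2 q
    exact ContMDiffAt.comp q h3 ((contMDiff_const (c := (0 : ℝ))).prodMk contMDiff_id q)
  exact ⟨⟨⟨fun q => trans2_tr I p S q, fun q => trans2_tr I p R q,
    fun q => trans2_inv p δ hball S R hS1 hS2 hRS q,
    fun q => trans2_inv p δ hball R S hR1 hR2 hSR q⟩, hsm S hS hS1 hS2, hsm R hR hR1 hR2⟩,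
    fun q => rfl, fun q => rfl⟩

end Pool.Agent.EQ
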