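import Pool.Agent.Lib.MP_1e8d1a_an.EQ.Defs

/-! row F2 -/

open scoped ContDiff Manifold Topology BoundedContinuousFunction

namespace Pool.Agent.EQ

open Pool.Agent.SC

variable {E : Type} [NormedAddCommGroup E] [NormedSpace ℝ E] {H : Type} [TopologicalSpace H]
  {I : ModelWithCorners ℝ E H} {W : Type} [TopologicalSpace W] [ChartedSpace H W]

variable {k : ℕ} {ρ : (Fin k → ℝ) → W → W} {p : W}

/-- PROOF.  `q = ρ v' (sec y)`, `ρ v q = ρ (v + v') (sec y)`.  Conversely apply `ρ (-v)`. -/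
theorem rho_mem_iff (hρ : IsTorusAction I k ρ) (E₀ : Submodule ℝ E) (R : ℝ) (v : Fin k → ℝ)
    (q : W) : ρ v q ∈ tubeSet I ρ p E₀ R ↔ q ∈ tubeSet I ρ p E₀ R := by
  have key : ∀ (v : Fin k → ℝ) (q : W), q ∈ tubeSet I ρ p E₀ R → ρ v q ∈ tubeSet I ρ p E₀ R := by
    rintro v q ⟨v', y, hy, rfl⟩
    exact ⟨v + v', y, hy, (hρ.add v v' _).symm⟩
  refine ⟨fun h => ?_, key v q⟩
  have h1 := key (-v) _ h
  rwa [← hρ.add, neg_add_cancel, hρ.zero] at h1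

/-- PROOF.  `q = ρ v' (sec y)` with `‖y‖ < R`; `Y (ρ v q) = Y (ρ (v + v') (sec y)) = y = Y q` by
`Y_eq`. -/
theorem Y_rho (hρ : IsTorusAction I k ρ) (t : Tube I k ρ p) (v : Fin k → ℝ) (q : W)
    (hq : q ∈ tubeSet I ρ p t.E₀ t.R) : t.Y (ρ v q) = t.Y q := by
  obtain ⟨v', y, hy, rfl⟩ := hq
  rw [← hρ.add, t.Y_eq _ y hy, t.Y_eq _ y hy]

/-- PROOF.  By definition `q = ρ v (sec y)`, `‖y‖ < R`, and `Y q = y` by `Y_eq`. -/
theorem exists_rep (t : Tube I k ρ p) (q : W) (hq : q ∈ tubeSet I ρ p t.E₀ t.R) :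
    ‖t.Y q‖ < t.R ∧ ∃ v : Fin k → ℝ, q = ρ v (sec I p (t.Y q : E)) := by
  obtain ⟨v, y, hy, rfl⟩ := hq
  rw [t.Y_eq v y hy]
  exact ⟨hy, v, rfl⟩

/-- PROOF.  `Y_eq`. -/
theorem mem_tubeSet_iff (t : Tube I k ρ p) (R' : ℝ) (hR' : R' ≤ t.R) (q : W) :
    q ∈ tubeSet I ρ p t.E₀ R' ↔ q ∈ tubeSet I ρ p t.E₀ t.R ∧ ‖t.Y q‖ < R' := by
  constructor
  · rintro ⟨v, y, hy, rfl⟩
    have hy' : ‖y‖ < t.R := lt_of_lt_of_le hy hR'
    refine ⟨⟨v, y, hy', rfl⟩, ?_⟩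
    rw [t.Y_eq v y hy']
    exact hy
  · rintro ⟨⟨v, y, hy, rfl⟩, h⟩
    rw [t.Y_eq v y hy] at h
    exact ⟨v, y, h, rfl⟩

open Classical in
/-- PROOF.  If `q` is in the tube so is `ρ v q`, `Y (ρ v q) = Y q`, and
`ρ (β (Y q)) (ρ v q) = ρ (β (Y q) + v) q`.  Otherwise neither is in the tube. -/
theorem push_rho (hρ : IsTorusAction I k ρ) (t : Tube I k ρ p) (β : t.E₀ → (Fin k → ℝ))
    (v : Fin k → ℝ) (q : W) :
    push I t β (ρ v q) =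
      ρ ((if q ∈ tubeSet I ρ p t.E₀ t.R then β (t.Y q) else 0) + v) q := by
  by_cases hq : q ∈ tubeSet I ρ p t.E₀ t.R
  · have h1 : ρ v q ∈ tubeSet I ρ p t.E₀ t.R := (rho_mem_iff hρ t.E₀ t.R v q).2 hq
    rw [push, if_pos h1, if_pos hq, Y_rho hρ t v q hq, hρ.add]
  · have h1 : ρ v q ∉ tubeSet I ρ p t.E₀ t.R := fun h => hq ((rho_mem_iff hρ t.E₀ t.R v q).1 h)
    rw [push, if_neg h1, if_neg hq, zero_add]

end Pool.Agent.EQ
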