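import Pool.Agent.Lib.MP_1e8d1a_an.EQ.F1

/-! row F3 -/

open scoped ContDiff Manifold Topology BoundedContinuousFunction

namespace Pool.Agent.EQ

open Pool.Agent.SC

variable {E : Type} [NormedAddCommGroup E] [NormedSpace ℝ E] {H : Type} [TopologicalSpace H]
  {I : ModelWithCorners ℝ E H} {W : Type} [TopologicalSpace W] [ChartedSpace H W]

/-- PROOF.  `g y = y + α y`.  `α` is Lipschitz with constant `1/4`
(`lipschitzWith_of_nnnorm_fderiv_le`), so `g` is `ApproximatesLinearOn` the identity on `univ` with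
constant `1/4`, hence a homeomorphism; its derivative is `id + fderiv α y`, an equivalence
(`Pool.Agent.SC.Trans1_equiv`), and the inverse is `C^r` by `Homeomorph.contDiff_symm`.  This is
word for word the second bullet of the proof of `Pool.Agent.SC.exists_bump_translation`
(file SC/Trans1.lean) with `β y • c` replaced by `α y`. -/
theorem exists_inverse_id_add [FiniteDimensional ℝ E] (r : ℕ) (hr : 1 ≤ r) (α : E → E)
    (hα : ContDiff ℝ r α) (h : ∀ y, ‖fderiv ℝ α y‖ ≤ 1 / 4) :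
    ∃ R : E → E, ContDiff ℝ r R ∧ (∀ y, R (y + α y) = y) ∧ ∀ y, R y + α (R y) = y := by
  have : CompleteSpace E := FiniteDimensional.complete ℝ E
  have hr0 : ((r : ℕ) : WithTop ℕ∞) ≠ 0 := by
    have h0 : r ≠ 0 := by omega
    exact_mod_cast h0
  have hαd : Differentiable ℝ α := hα.differentiable hr0
  have hlip : LipschitzWith (1 / 4 : NNReal) α := by
    refine lipschitzWith_of_nnnorm_fderiv_le (𝕜 := ℝ) (fun y => hαd y) (fun y => ?_)
    rw [← NNReal.coe_le_coe]
    simpa using h y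
  have happ : ApproximatesLinearOn (fun y : E => y + α y)
      ((ContinuousLinearEquiv.refl ℝ E : E ≃L[ℝ] E) : E →L[ℝ] E) Set.univ (1 / 4 : NNReal) := by
    intro x _ y _
    have h := hlip.dist_le_mul x y
    rw [dist_eq_norm, dist_eq_norm] at h
    have e : (x + α x) - (y + α y) -
        ((ContinuousLinearEquiv.refl ℝ E : E ≃L[ℝ] E) : E →L[ℝ] E) (x - y) =
        α x - α y := by
      simp only [ContinuousLinearEquiv.coe_refl, ContinuousLinearMap.coe_id', id_eq]
      abel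
    rw [e]
    exact h
  have hsub : Subsingleton E ∨
      (1 / 4 : NNReal) < ‖((ContinuousLinearEquiv.refl ℝ E : E ≃L[ℝ] E).symm : E →L[ℝ] E)‖₊⁻¹ := by
    rcases subsingleton_or_nontrivial E with h | h
    · exact Or.inl h
    · refine Or.inr ?_
      have h1 : ‖((ContinuousLinearEquiv.refl ℝ E : E ≃L[ℝ] E).symm : E →L[ℝ] E)‖₊ = 1 := by
        have h2 : ((ContinuousLinearEquiv.refl ℝ E : E ≃L[ℝ] E).symm : E →L[ℝ] E) =
          ContinuousLinearMap.id ℝ E := rfl
        rw [h2, ← NNReal.coe_inj]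
        exact ContinuousLinearMap.norm_id
      rw [h1, inv_one, ← NNReal.coe_lt_coe]
      norm_num
  choose A hA using fun y => Trans1_equiv (fderiv ℝ α y) (h y)
  have hder : ∀ y, HasFDerivAt (fun y : E => y + α y) (A y : E →L[ℝ] E) y := by
    intro y
    rw [hA]
    exact (hasFDerivAt_id y).add (hαd y).hasFDerivAt
  have hsm : ContDiff ℝ r (fun y : E => y + α y) := contDiff_id.add hα
  let Φ : E ≃ₜ E := happ.toHomeomorph _ hsub
  refine ⟨Φ.symm, Homeomorph.contDiff_symm Φ (f₀' := A) hder hsm, fun y => ?_, fun y => ?_⟩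
  · exact Φ.symm_apply_apply y
  · exact Φ.apply_symm_apply y

/-- PROOF.  `S y = y + α y`, `R` from `exists_inverse_id_add`.  `S y = y` for `‖y‖ ≥ δ` by `hα1`;
`R y = R (S y) = y` for `‖y‖ ≥ δ`.  If `‖y‖ < δ` and `‖S y‖ ≥ δ` then `S (S y) = S y`, so
`S y = y` (apply `R`), contradiction; if `‖y‖ < δ` and `‖R y‖ ≥ δ` then `S (R y) = R y`, so
`y = R y`, contradiction.  Now `exists_diffeo_tr`. -/
theorem exists_diffeo_shf [FiniteDimensional ℝ E] [T2Space W] [IsManifold I ∞ W]
    [I.Boundaryless] (r : ℕ) (hr : 1 ≤ r) (p : W) (δ : ℝ)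
    (hball : Metric.closedBall (extChartAt I p p) δ ⊆ (extChartAt I p).target)
    (α : E → E) (hα : ContDiff ℝ r α) (h : ∀ y, ‖fderiv ℝ α y‖ ≤ 1 / 4)
    (hα1 : ∀ y, δ ≤ ‖y‖ → α y = 0) :
    ∃ D : W ≃ₘ^r⟮I, I⟯ W, ∀ q, D q = shf I p α q := by
  obtain ⟨R, hR, hRS, hSR⟩ := exists_inverse_id_add r hr α hα h
  have hS1 : ∀ y, δ ≤ ‖y‖ → y + α y = y := by
    intro y hy
    rw [hα1 y hy, add_zero]
  have hR1 : ∀ y, δ ≤ ‖y‖ → R y = y := by
    intro y hy
    have h1 := hRS y
    rwa [hS1 y hy] at h1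
  have hn : ((r : ℕ) : WithTop ℕ∞) ≤ ∞ := by
    exact_mod_cast le_top
  have hS2 : ∀ y, ‖y‖ < δ → ‖y + α y‖ < δ := by
    intro y hy
    by_contra hc
    push Not at hc
    have h1 : y + α y + α (y + α y) = y + α y := hS1 (y + α y) hc
    have h2 := hRS (y + α y)
    rw [h1, hRS y] at h2
    rw [← h2] at hc
    exact absurd hy (not_lt.2 hc)
  have hR2 : ∀ y, ‖y‖ < δ → ‖R y‖ < δ := by
    intro y hy
    by_contra hc
    push Not at hc
    have h1 : R y + α (R y) = R y := hS1 (R y) hc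
    rw [hSR y] at h1
    rw [← h1] at hc
    exact absurd hy (not_lt.2 hc)
  obtain ⟨D, hD, _⟩ := exists_diffeo_tr (I := I) (n := (r : WithTop ℕ∞)) hn p δ hball
    (fun y => y + α y) R (contDiff_id.add hα) hR hRS hSR hS1 hS2 hR1 hR2
  exact ⟨D, hD⟩

end Pool.Agent.EQ
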