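import Pool.Agent.Lib.MP_1e8d1a_an.EQ.F2

/-! row F4 -/

open scoped ContDiff Manifold Topology BoundedContinuousFunction

namespace Pool.Agent.EQ

open Pool.Agent.SC

variable {E : Type} [NormedAddCommGroup E] [NormedSpace ℝ E] {H : Type} [TopologicalSpace H]
  {I : ModelWithCorners ℝ E H} {W : Type} [TopologicalSpace W] [ChartedSpace H W]

variable {k : ℕ} {ρ : (Fin k → ℝ) → W → W} {p : W}

/-- PROOF.  Let `q ∈ tubeSet` (open): near `(t₀, q)` the map is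
`x ↦ ρ (B (x.1, Y x.2)) x.2`, a composition of maps of class `n` at the point (`t.Y_smooth`,
`hρ.smooth`, `ContMDiffAt.of_le hn`).  Let `q ∉ tubeSet`: the set
`{q' | q' ∈ tubeSet ∧ ‖Y q'‖ ≤ R'}` is closed (`t.closed`) and does not contain `q`; for `q'` in
its complement either `q' ∉ tubeSet`, `push q' = q'`, or `q' ∈ tubeSet`, `R' < ‖Y q'‖`,
`B (s, Y q') = 0` and `push q' = ρ 0 q' = q'`.  So near `(t₀, q)` the map is `x ↦ x.2`. -/
theorem push_smoothAt [FiniteDimensional ℝ E] [T2Space W] [IsManifold I ∞ W] [I.Boundaryless]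
    {P : Type} [NormedAddCommGroup P] [NormedSpace ℝ P] {n : WithTop ℕ∞} (hn : n ≤ ∞)
    (hρ : IsTorusAction I k ρ) (t : Tube I k ρ p) (B : P × t.E₀ → (Fin k → ℝ)) (t₀ : P)
    (R' : ℝ) (hR' : R' < t.R) (hB : ∀ y, ContDiffAt ℝ n B (t₀, y))
    (hB1 : ∀ s y, R' ≤ ‖y‖ → B (s, y) = 0) (q : W) :
    ContMDiffAt (𝓘(ℝ, P).prod I) I n
      (fun x : P × W => push I t (fun y => B (x.1, y)) x.2) (t₀, q) := by
  classical
  have hsnd : ContMDiffAt (𝓘(ℝ, P).prod I) I n (fun x : P × W => x.2) (t₀, q) :=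
    contMDiffAt_snd
  by_cases hq : q ∈ tubeSet I ρ p t.E₀ t.R
  · have h1 : ContMDiffAt (𝓘(ℝ, P).prod I) 𝓘(ℝ, P) n (fun x : P × W => x.1) (t₀, q) :=
      contMDiffAt_fst
    have h2 : ContMDiffAt (𝓘(ℝ, P).prod I) 𝓘(ℝ, t.E₀) n (fun x : P × W => t.Y x.2) (t₀, q) := by
      have h3 : ContMDiffAt I 𝓘(ℝ, t.E₀) n t.Y q := (t.Y_smooth q hq).of_le hn
      exact ContMDiffAt.comp (t₀, q) (g := t.Y) (f := fun x : P × W => x.2) h3 hsnd
    have h4 : ContMDiffAt (𝓘(ℝ, P).prod I) 𝓘(ℝ, P × t.E₀) n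
        (fun x : P × W => (x.1, t.Y x.2)) (t₀, q) := h1.prodMk_space h2
    have h5 : ContMDiffAt (𝓘(ℝ, P).prod I) 𝓘(ℝ, Fin k → ℝ) n
        (fun x : P × W => B (x.1, t.Y x.2)) (t₀, q) :=
      ContMDiffAt.comp (t₀, q) (g := B) (f := fun x : P × W => (x.1, t.Y x.2))
        (hB (t.Y q)).contMDiffAt h4
    have h6 : ContMDiffAt (𝓘(ℝ, P).prod I) (𝓘(ℝ, Fin k → ℝ).prod I) n
        (fun x : P × W => (B (x.1, t.Y x.2), x.2)) (t₀, q) := h5.prodMk hsnd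
    have h7 : ContMDiffAt (𝓘(ℝ, P).prod I) I n
        (fun x : P × W => ρ (B (x.1, t.Y x.2)) x.2) (t₀, q) :=
      ContMDiffAt.comp (t₀, q) (g := fun z : (Fin k → ℝ) × W => ρ z.1 z.2)
        (f := fun x : P × W => (B (x.1, t.Y x.2), x.2)) ((hρ.smooth _).of_le hn) h6
    refine h7.congr_of_eventuallyEq ?_
    have h8 : ∀ᶠ x : P × W in 𝓝 (t₀, q), x.2 ∈ tubeSet I ρ p t.E₀ t.R :=
      continuous_snd.continuousAt.eventually (t.isOpen.mem_nhds hq)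
    filter_upwards [h8] with x hx
    rw [push, if_pos hx]
  · refine hsnd.congr_of_eventuallyEq ?_
    have h1 : q ∈ {q' : W | q' ∈ tubeSet I ρ p t.E₀ t.R ∧ ‖t.Y q'‖ ≤ R'}ᶜ := fun h => hq h.1
    have h8 : ∀ᶠ x : P × W in 𝓝 (t₀, q),
        x.2 ∈ {q' : W | q' ∈ tubeSet I ρ p t.E₀ t.R ∧ ‖t.Y q'‖ ≤ R'}ᶜ :=
      continuous_snd.continuousAt.eventually ((t.closed R' hR').isOpen_compl.mem_nhds h1)
    filter_upwards [h8] with x hx
    by_cases hx2 : x.2 ∈ tubeSet I ρ p t.E₀ t.R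
    · have h9 : R' ≤ ‖t.Y x.2‖ := by
        by_contra h10
        exact hx ⟨hx2, (not_le.mp h10).le⟩
      rw [push, if_pos hx2, hB1 _ _ h9, hρ.zero]
    · rw [push, if_neg hx2]

private theorem F4_inv (hρ : IsTorusAction I k ρ) (t : Tube I k ρ p) (β : t.E₀ → (Fin k → ℝ))
    (q : W) : push I t (fun y => - β y) (push I t β q) = q := by
  classical
  by_cases hq : q ∈ tubeSet I ρ p t.E₀ t.R
  · have h1 : push I t β q = ρ (β (t.Y q)) q := by rw [push, if_pos hq]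
    have h2 : ρ (β (t.Y q)) q ∈ tubeSet I ρ p t.E₀ t.R :=
      (rho_mem_iff hρ t.E₀ t.R (β (t.Y q)) q).mpr hq
    rw [h1, push, if_pos h2, Y_rho hρ t _ q hq, ← hρ.add, neg_add_cancel, hρ.zero]
  · have h1 : push I t β q = q := by rw [push, if_neg hq]
    rw [h1, push, if_neg hq]

private theorem F4_smooth [FiniteDimensional ℝ E] [T2Space W] [IsManifold I ∞ W]
    [I.Boundaryless] {n : WithTop ℕ∞} (hn : n ≤ ∞) (hρ : IsTorusAction I k ρ)
    (t : Tube I k ρ p) (β : t.E₀ → (Fin k → ℝ)) (R' : ℝ) (hR' : R' < t.R)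
    (hβ : ContDiff ℝ n β) (hβ1 : ∀ y, R' ≤ ‖y‖ → β y = 0) :
    ContMDiff I I n (push I t β) := by
  intro q
  have h1 := push_smoothAt (P := ℝ) hn hρ t (fun z => β z.2) 0 R' hR'
    (fun y => (hβ.comp contDiff_snd).contDiffAt) (fun s y hy => hβ1 y hy) q
  have h2 : ContMDiffAt I (𝓘(ℝ, ℝ).prod I) n (fun q : W => ((0 : ℝ), q)) q :=
    contMDiffAt_const.prodMk contMDiffAt_id
  exact ContMDiffAt.comp q (g := fun x : ℝ × W => push I t (fun y => β y) x.2)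
    (f := fun q : W => ((0 : ℝ), q)) h1 h2

/-- PROOF.  `D.toFun = push I t β`, `D.invFun = push I t (fun y => - β y)`: inverse to each other by
the definition (`rho_mem_iff`, `Y_rho`, `hρ.add`, `hρ.zero`), smooth by `push_smoothAt` with the
trivial parameter space `P = ℝ`. -/
theorem exists_diffeo_push [FiniteDimensional ℝ E] [T2Space W] [IsManifold I ∞ W]
    [I.Boundaryless] {n : WithTop ℕ∞} (hn : n ≤ ∞) (hρ : IsTorusAction I k ρ)
    (t : Tube I k ρ p) (β : t.E₀ → (Fin k → ℝ)) (R' : ℝ) (hR' : R' < t.R)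
    (hβ : ContDiff ℝ n β) (hβ1 : ∀ y, R' ≤ ‖y‖ → β y = 0) :
    ∃ D : W ≃ₘ^n⟮I, I⟯ W, ∀ q, D q = push I t β q := by
  have h1 := F4_smooth hn hρ t β R' hR' hβ hβ1
  have h2 := F4_smooth hn hρ t (fun y => - β y) R' hR' hβ.neg
    (fun y hy => by rw [hβ1 y hy, neg_zero])
  refine ⟨⟨⟨push I t β, push I t (fun y => - β y), F4_inv hρ t β, ?_⟩, h1, h2⟩, fun q => rfl⟩
  intro q
  have h3 := F4_inv hρ t (fun y => - β y) q
  simpa using h3

/-- PROOF.  `ρ w` is smooth (`hρ.smooth` composed with `q ↦ (w, q)`) with inverse `ρ (-w)`. -/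
theorem exists_diffeo_rho {n : WithTop ℕ∞} (hn : n ≤ ∞) (hρ : IsTorusAction I k ρ)
    (w : Fin k → ℝ) : ∃ D : W ≃ₘ^n⟮I, I⟯ W, ∀ q, D q = ρ w q := by
  have h1 : ∀ v : Fin k → ℝ, ContMDiff I I n (ρ v) := by
    intro v
    have h2 : ContMDiff I (𝓘(ℝ, Fin k → ℝ).prod I) n (fun q : W => (v, q)) :=
      contMDiff_const.prodMk contMDiff_id
    exact ContMDiff.comp (g := fun z : (Fin k → ℝ) × W => ρ z.1 z.2)
      (f := fun q : W => (v, q)) (hρ.smooth.of_le hn) h2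
  refine ⟨⟨⟨ρ w, ρ (-w), fun q => ?_, fun q => ?_⟩, h1 w, h1 (-w)⟩, fun q => rfl⟩
  · rw [← hρ.add, neg_add_cancel, hρ.zero]
  · rw [← hρ.add, add_neg_cancel, hρ.zero]

end Pool.Agent.EQ
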