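import Pool.Agent.Lib.MP_1e8d1a_an.EQ.F1

/-! row F5 -/

open scoped ContDiff Manifold Topology BoundedContinuousFunction

namespace Pool.Agent.EQ

open Pool.Agent.SC

variable {E : Type} [NormedAddCommGroup E] [NormedSpace ℝ E] {H : Type} [TopologicalSpace H]
  {I : ModelWithCorners ℝ E H} {W : Type} [TopologicalSpace W] [ChartedSpace H W]

/-- The inverse of a family of bijections is smooth at parameter `0` when the bijection at
parameter `0` is the identity.

PROOF.  Let `Ŝ (v, x) = (v, S (v, x))`, smooth, `Ŝ (0, y) = (0, y)`.  Its derivative at `(0, y)` is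
`(a, b) ↦ (a, A a + b)`, where `A = fderiv` of `v ↦ S (v, y)` at `0` (since `S (0, x) = x` the
partial derivative in `x` is the identity): an equivalence with inverse `(a, b) ↦ (a, b - A a)`.
(It is injective and `E × E` is finite dimensional: `LinearEquiv.ofInjectiveEndo`, or build
`ContinuousLinearEquiv.equivOfInverse`.)  `ContDiffAt.toOpenPartialHomeomorph`,
`ContDiffAt.to_localInverse` give `L` with `ContDiffAt ℝ ∞ L (0, y)`, `Ŝ (L z) = z` for `z` near
`(0, y)`.  So with `L z = (v, x)`, `z = (v', x')`: `v = v'`, `S (v', x) = x'`, `x = R (v', x')`: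
`R =ᶠ fun z => (L z).2` near `(0, y)`. -/
theorem inv_smoothAt [FiniteDimensional ℝ E] (S R : E × E → E) (hS : ContDiff ℝ ∞ S)
    (hS0 : ∀ y, S (0, y) = y) (hRS : ∀ v y, R (v, S (v, y)) = y) (y : E) :
    ContDiffAt ℝ ∞ R (0, y) := by
  classical
  set a : E × E := (0, y) with ha
  set S' : E × E →L[ℝ] E := fderiv ℝ S a with hS'
  have hSd : HasFDerivAt S S' a :=
    (hS.differentiable (by simp)).differentiableAt.hasFDerivAt
  -- the partial derivative in the second variable
  have hb : ∀ b : E, S' (0, b) = b := by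
    have h1 : HasFDerivAt (fun x : E => S (0, x)) (S'.comp (ContinuousLinearMap.inr ℝ E E)) y := by
      have h2 : HasFDerivAt (fun x : E => ((0 : E), x)) (ContinuousLinearMap.inr ℝ E E) y :=
        hasFDerivAt_prodMk_right 0 y
      exact HasFDerivAt.comp y hSd h2
    have h3 : HasFDerivAt (fun x : E => S (0, x)) (ContinuousLinearMap.id ℝ E) y := by
      have h4 : (fun x : E => S (0, x)) = fun x => x := funext hS0
      rw [h4]
      exact hasFDerivAt_id y
    have h5 := h1.unique h3
    intro b
    have h6 := DFunLike.congr_fun h5 b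
    simpa using h6
  have hSab : ∀ u b : E, S' (u, b) = S' (u, 0) + b := by
    intro u b
    have h1 : ((u, b) : E × E) = (u, 0) + (0, b) := by simp
    rw [h1, map_add, hb]
  set Sh : E × E → E × E := fun z => (z.1, S z) with hSh
  have hShc : ContDiff ℝ ∞ Sh := contDiff_fst.prodMk hS
  set D : E × E →L[ℝ] E × E := (ContinuousLinearMap.fst ℝ E E).prod S' with hD
  set G : E × E →L[ℝ] E × E := (ContinuousLinearMap.fst ℝ E E).prod
    (ContinuousLinearMap.snd ℝ E E -
      (S'.comp (ContinuousLinearMap.inl ℝ E E)).comp (ContinuousLinearMap.fst ℝ E E)) with hG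
  have hDa : ∀ u b : E, D (u, b) = (u, S' (u, 0) + b) := by
    intro u b
    rw [← hSab]
    rfl
  have hGa : ∀ u b : E, G (u, b) = (u, b - S' (u, 0)) := fun u b => rfl
  let e : (E × E) ≃L[ℝ] (E × E) := ContinuousLinearEquiv.equivOfInverse D G
    (by
      rintro ⟨u, b⟩
      rw [hDa, hGa, add_sub_cancel_left])
    (by
      rintro ⟨u, b⟩
      rw [hGa, hDa, add_sub_cancel])
  have he : (e : E × E →L[ℝ] E × E) = D := rfl
  have hShd : HasFDerivAt Sh (e : E × E →L[ℝ] E × E) a := by
    rw [he]
    exact hasFDerivAt_fst.prodMk hSd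
  have hSha : Sh a = a := by
    rw [ha, hSh]
    beta_reduce
    rw [hS0]
  have hn : (∞ : WithTop ℕ∞) ≠ 0 := by simp
  have : CompleteSpace E := FiniteDimensional.complete ℝ E
  have hL := (hShc.contDiffAt (x := a)).to_localInverse hShd hn
  have hR : ∀ᶠ z in 𝓝 a, Sh ((hShc.contDiffAt (x := a)).localInverse hShd hn z) = z := by
    have h1 := (((hShc.contDiffAt (x := a)).hasStrictFDerivAt' hShd hn)).eventually_right_inverse
    rw [hSha] at h1
    exact h1
  rw [hSha] at hL
  have hfin : ContDiffAt ℝ ∞ (fun z => ((hShc.contDiffAt (x := a)).localInverse hShd hn z).2) a :=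
    contDiffAt_snd.comp a hL
  refine hfin.congr_of_eventuallyEq ?_
  filter_upwards [hR] with z hz
  set w := (hShc.contDiffAt (x := a)).localInverse hShd hn z with hw
  have hz' : ((w.1, S w) : E × E) = z := hz
  have h1 : w.1 = z.1 := by rw [← hz']
  have h2 : S w = z.2 := by rw [← hz']
  have h3 := hRS w.1 w.2
  have h4 : ((w.1, S (w.1, w.2)) : E × E) = z := by
    apply Prod.ext
    · exact h1
    · exact h2
  rw [h4] at h3
  exact h3

end Pool.Agent.EQ
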