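import Pool.Agent.Lib.MP_1e8d1a_an.EQ.F5

/-! row F6 -/

open scoped ContDiff Manifold Topology BoundedContinuousFunction

namespace Pool.Agent.EQ

open Pool.Agent.SC

variable {E : Type} [NormedAddCommGroup E] [NormedSpace ℝ E] {H : Type} [TopologicalSpace H]
  {I : ModelWithCorners ℝ E H} {W : Type} [TopologicalSpace W] [ChartedSpace H W]

/-- PROOF.  `δ > 0` with `closedBall (e p) δ ⊆ target`.  `S` from
`Pool.Agent.SC.exists_bump_translation δ`; for each `v` choose the inverse `R (v, ·)` (`choose`).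
`T (v, q) = trans2_tr I p (S (v, ·)) q`, `T' (v, q) = trans2_tr I p (R (v, ·)) q`.  As in
`Pool.Agent.SC.exists_translations` (SC/Trans2.lean): `S (v, y) = y = R (v, y)` for `‖y‖ ≥ δ`,
`‖S (v, y)‖ < δ`, `‖R (v, y)‖ < δ` for `‖y‖ < δ`.  `T`, `T'` are smooth at `(0, q)` by
`tr_smoothAt` (for `T'` with `inv_smoothAt`; `R (0, y) = y`).  `D` by `exists_diffeo_tr`.
`T (0, q) = q`, `T' (0, q) = q`: `trans2_tr I p id q = q`.  The last claim is the last claim of
`exists_translations`: `T (e p - e q, q) = e.symm (e p + (e q - e p) + (e p - e q)) = p` for `q`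
near `p`. -/
theorem exists_translations2 [FiniteDimensional ℝ E] [T2Space W] [IsManifold I ∞ W]
    [I.Boundaryless] (p : W) :
    ∃ T T' : E × W → W, (∀ q, ContMDiffAt (𝓘(ℝ, E).prod I) I ∞ T (0, q)) ∧
      (∀ q, ContMDiffAt (𝓘(ℝ, E).prod I) I ∞ T' (0, q)) ∧ (∀ q, T (0, q) = q) ∧
      (∀ q, T' (0, q) = q) ∧
      (∀ v, ∃ D : W ≃ₘ^∞⟮I, I⟯ W, (∀ q, D q = T (v, q)) ∧ ∀ q, D.symm q = T' (v, q)) ∧
      ∀ᶠ q in 𝓝 p, T (extChartAt I p p - extChartAt I p q, q) = p := by
  obtain ⟨δ, hδ, hball⟩ :=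
    Metric.nhds_basis_closedBall.mem_iff.1 (extChartAt_target_mem_nhds (I := I) p)
  obtain ⟨S, hS, hinv, hS0, hS1, η, hη, hSη⟩ := exists_bump_translation (E := E) δ hδ
  choose R0 hR hRS hSR using hinv
  have hS2 : ∀ v y, ‖y‖ < δ → ‖S (v, y)‖ < δ := by
    intro v y hy
    by_contra h
    push Not at h
    have h1 : S (v, S (v, y)) = S (v, y) := hS1 v _ h
    have h2 : S (v, y) = y := by
      have h3 := congrArg (R0 v) h1
      rwa [hRS, hRS] at h3
    rw [h2] at h
    linarith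
  have hR1 : ∀ v y, δ ≤ ‖y‖ → R0 v y = y := by
    intro v y hy
    have h1 := hS1 v y hy
    calc R0 v y = R0 v (S (v, y)) := by rw [h1]
      _ = y := hRS v y
  have hR2 : ∀ v y, ‖y‖ < δ → ‖R0 v y‖ < δ := by
    intro v y hy
    by_contra h
    push Not at h
    have h1 := hS1 v (R0 v y) h
    rw [hSR] at h1
    rw [← h1] at h
    linarith
  have hR0 : ∀ y, R0 0 y = y := by
    intro y
    have h1 := hRS 0 y
    rwa [hS0] at h1
  have hRsm : ∀ y, ContDiffAt ℝ ∞ (fun z : E × E => R0 z.1 z.2) (0, y) := fun y =>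
    inv_smoothAt S (fun z : E × E => R0 z.1 z.2) hS hS0 (fun v y => hRS v y) y
  have hid : ∀ F : E → E, (∀ y, F y = y) → ∀ q : W, trans2_tr I p F q = q := by
    intro F hF q
    by_cases h : q ∈ (extChartAt I p).source
    · rw [trans2_tr_of_mem p _ q h, hF, add_sub_cancel]
      exact (extChartAt I p).left_inv h
    · exact trans2_tr_of_not_mem p _ q h
  refine ⟨fun x => trans2_tr I p (fun y => S (x.1, y)) x.2,
    fun x => trans2_tr I p (fun y => R0 x.1 y) x.2, ?_, ?_, ?_, ?_, ?_, ?_⟩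
  · intro q
    exact tr_smoothAt le_rfl p δ hball S 0 (fun y => hS.contDiffAt) hS1 (hS2 0) q
  · intro q
    exact tr_smoothAt le_rfl p δ hball (fun z : E × E => R0 z.1 z.2) 0 hRsm hR1 (hR2 0) q
  · intro q
    exact hid _ hS0 q
  · intro q
    exact hid _ hR0 q
  · intro v
    obtain ⟨D, hD1, hD2⟩ := exists_diffeo_tr (I := I) (n := ∞) le_rfl p δ hball
      (fun y => S (v, y)) (R0 v) (hS.comp (contDiff_const.prodMk contDiff_id)) (hR v) (hRS v)
      (hSR v) (hS1 v) (hS2 v) (hR1 v) (hR2 v)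
    exact ⟨D, hD1, hD2⟩
  · have h1 : ∀ᶠ q in 𝓝 p, q ∈ (extChartAt I p).source := extChartAt_source_mem_nhds p
    have h2 : ∀ᶠ q in 𝓝 p, ‖extChartAt I p q - extChartAt I p p‖ ≤ η := by
      have h3 : ∀ᶠ q in 𝓝 p, extChartAt I p q ∈ Metric.closedBall (extChartAt I p p) η :=
        (continuousAt_extChartAt (I := I) p).eventually (Metric.closedBall_mem_nhds _ hη)
      filter_upwards [h3] with q hq
      rwa [Metric.mem_closedBall, dist_eq_norm] at hq
    filter_upwards [h1, h2] with q hq1 hq2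
    show trans2_tr I p (fun y => S (extChartAt I p p - extChartAt I p q, y)) q = p
    rw [trans2_tr_of_mem p _ q hq1, hSη _ _ (by rw [norm_sub_rev]; exact hq2) hq2]
    have h3 : extChartAt I p p + (extChartAt I p q - extChartAt I p p +
        (extChartAt I p p - extChartAt I p q)) = extChartAt I p p := by abel
    rw [h3]
    exact (extChartAt I p).left_inv (mem_extChartAt_source p)

end Pool.Agent.EQ
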