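import Pool.Agent.Lib.MP_1e8d1a_an.EQ.F4
import Pool.Agent.Lib.MP_1e8d1a_an.EQ.F3
import Pool.Agent.Lib.MP_1e8d1a_an.EQ.F6
import Pool.Agent.Lib.MP_1e8d1a_an.EQ.C3

/-! row F7 -/

open scoped ContDiff Manifold Topology BoundedContinuousFunction

namespace Pool.Agent.EQ

open Pool.Agent.SC

variable {E : Type} [NormedAddCommGroup E] [NormedSpace ℝ E] {H : Type} [TopologicalSpace H]
  {I : ModelWithCorners ℝ E H} {W : Type} [TopologicalSpace W] [ChartedSpace H W]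

variable {k : ℕ} {ρ : (Fin k → ℝ) → W → W} {p : W}

theorem F7_fn_zero {r : ℕ} {X Y : Type} [NormedAddCommGroup X] [NormedSpace ℝ X]
    [NormedAddCommGroup Y] [NormedSpace ℝ Y] (y : X) : fn (0 : CkB r X Y) y = 0 := rfl

theorem F7_ev {r : ℕ} {X Y : Type} [NormedAddCommGroup X] [NormedSpace ℝ X]
    [NormedAddCommGroup Y] [NormedSpace ℝ Y] :
    ContDiff ℝ ((r : ℕ∞) : WithTop ℕ∞) (fun x : CkB r X Y × X => fn x.1 x.2) :=
  ev_contDiff (r := r) (X := X) (Y := Y)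

/-- the transport of the identity -/
theorem F7_tr_id (p : W) (F : E → E) (hF : ∀ y, F y = y) (q : W) : trans2_tr I p F q = q := by
  by_cases h : q ∈ (extChartAt I p).source
  · rw [trans2_tr_of_mem p F q h, hF, add_sub_cancel]
    exact (extChartAt I p).left_inv h
  · exact trans2_tr_of_not_mem p F q h

/-- the push by the zero field -/
theorem F7_push_zero (hρ : IsTorusAction I k ρ) (t : Tube I k ρ p) (β : t.E₀ → (Fin k → ℝ))
    (hβ : ∀ y, β y = 0) (q : W) : push I t β q = q := by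
  unfold push
  split_ifs with h
  · rw [hβ, hρ.zero]
  · rfl

/-- A cut-off function. -/
theorem F7_cut (X : Type) [NormedAddCommGroup X] [NormedSpace ℝ X] [FiniteDimensional ℝ X]
    (R : ℝ) (hR : 0 < R) : ∃ cut : X → ℝ, ContDiff ℝ ∞ cut ∧ (∀ y, ‖y‖ ≤ R / 2 → cut y = 1) ∧
      ∀ y, R ≤ ‖y‖ → cut y = 0 := by
  let β : ContDiffBump (0 : X) := ⟨R / 2, R, by linarith, by linarith⟩
  refine ⟨β, β.contDiff, fun y hy => ?_, fun y hy => ?_⟩
  · apply β.one_of_mem_closedBall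
    rw [mem_closedBall_zero_iff]
    exact hy
  · apply β.zero_of_le_dist
    rw [dist_zero_right]
    exact hy

/-- a point near `p` in the chart is near `p` -/
theorem F7_near [I.Boundaryless] (p : W) (A : Set W) (hA : A ∈ 𝓝 p) :
    ∃ ε : ℝ, 0 < ε ∧ ∀ q, q ∈ (extChartAt I p).source → ‖cc I p q‖ < ε → q ∈ A := by
  have h1 : (extChartAt I p).symm ⁻¹' A ∈ 𝓝 (extChartAt I p p) :=
    extChartAt_preimage_mem_nhds hA
  obtain ⟨ε, hε, h2⟩ := Metric.mem_nhds_iff.1 h1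
  refine ⟨ε, hε, fun q hq hq2 => ?_⟩
  have h3 : extChartAt I p q ∈ Metric.ball (extChartAt I p p) ε := by
    rw [Metric.mem_ball, dist_eq_norm]
    exact hq2
  have h4 := h2 h3
  rwa [Set.mem_preimage, (extChartAt I p).left_inv hq] at h4

/-- **The perturbation lemma.**  All maps `h ∘ F ∘ push β ∘ ρ_w ∘ shf α ∘ h⁻¹` with `α`, `β` small in
the `C^r` norm and supported near `0`, `w` small and `h` a small translation that moves `p'` to `p`
are `C^r` close to `F`.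

PROOF.  Parameter space `P = CkB r E E × CkB r t.E₀ (Fin k → ℝ) × (Fin k → ℝ) × E`.  `T`, `T'`
from `exists_translations2`.  Bumps: `cut : E → ℝ` smooth, `1` on the ball of radius `t.R / 2`, `0`
outside the ball of radius `t.R`; `cut' : t.E₀ → ℝ` smooth, `1` on the ball of radius `t.R / 4`,
`0` outside the ball of radius `t.R / 2`.
`S (a, y) = y + cut y • fn a y`, `B (b, y) = cut' y • fn b y` are `C^r` (`ev_contDiff`).  The family
`Φ ((a, b, w, v), q) = T (v, F (push (B (b, ·)) (ρ w (trans2_tr I p (S (a, ·)) (T' (v, q))))))`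
is `ContMDiffAt` of class `r` at `(0, q)` for all `q`: composition of `T'` at `(0, q)`,
`tr_smoothAt` (with `δ = 2 * t.R`, `n = r`) at `(0, q)` (`T' (0, q) = q`), `hρ.smooth`,
`push_smoothAt` (`R' = t.R / 2`) at `(0, q)`, `F`, `T` at `(0, F q)`; at the parameter `0` all the
maps but `F` are the identity (`fn 0 = 0`).  (Each map is applied to the pair
(component of the parameter, point).)  Hence `Φ (0, q) = F q` and
`Pool.Agent.SC.mem_nhds_of_family` gives `ε₀ > 0` such that for `‖(a, b, w, v)‖ < ε₀` each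
diffeomorphism `G` with `G q = Φ ((a, b, w, v), q)` is in `U`.  Let
`ε ≤ min (ε₀ / 2) (min (t.R / 4) (1 / 4))`, `ε` so small that
`q ∈ source`, `‖cc I p q‖ ≤ ε` implies `T (e p - e q, q) = p` (such `q` are
`e.symm (e p + cc I p q)`, and `e.symm` is continuous at `e p`).
Given `α β w p'`: `a`, `b` by `exists_CkB`; `v = e p - e p'`, `‖v‖ = ‖cc I p p'‖ ≤ ε`.  `cut y • α y = α y`
and `cut' y • β y = β y` for all `y` (supports), so `trans2_tr I p (S (a, ·)) = shf I p α` and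
`push (B (b, ·)) = push β`.  `‖fderiv ℝ α y‖ = ‖iteratedFDeriv ℝ 1 α y‖ ≤ ε ≤ 1/4`
(`norm_iteratedFDeriv_one` or `norm_fderiv_iteratedFDeriv`), so `exists_diffeo_shf` (`δ = 2 * t.R`)
applies; `exists_diffeo_push` (`R' = t.R / 2`), `exists_diffeo_rho`; `D` for `v` from
`exists_translations2` (class `∞`, made class `r` as in SC/BumpA.lean:
`{ toEquiv := .., contMDiff_toFun := D.contMDiff.of_le hle, .. }`).
`G = D.symm.trans (Dshf.trans (Dρ.trans (Dpush.trans (F.trans D))))`, `h = D.toEquiv`: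
`G q = D (F (push (ρ w (shf (D.symm q)))))` `= Φ (..)`, `h p' = T (v, p') = p` and
`G (h q) = h (F (push β (ρ w (shf α q))))`. -/
theorem perturb [FiniteDimensional ℝ E] [T2Space W] [IsManifold I ∞ W] [I.Boundaryless]
    (r : ℕ) (hr : 1 ≤ r) (hρ : IsTorusAction I k ρ) (t : Tube I k ρ p)
    (F : W ≃ₘ^((r : ℕ∞) : WithTop ℕ∞)⟮I, I⟯ W)
    (U : Set (W ≃ₘ^((r : ℕ∞) : WithTop ℕ∞)⟮I, I⟯ W))
    (hU : U ∈ @nhds _ (crTopology I (r : ℕ∞)) F) :
    ∃ ε : ℝ, 0 < ε ∧ ε < t.R ∧ ε ≤ 1 / 2 ∧ ∀ (α : E → E) (β : t.E₀ → (Fin k → ℝ)) (w : Fin k → ℝ)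
      (p' : W), ContDiff ℝ r α → ContDiff ℝ r β → (∀ j ≤ r, ∀ y, ‖iteratedFDeriv ℝ j α y‖ ≤ ε) →
      (∀ j ≤ r, ∀ y, ‖iteratedFDeriv ℝ j β y‖ ≤ ε) → (∀ y, ε ≤ ‖y‖ → α y = 0) →
      (∀ y, ε ≤ ‖y‖ → β y = 0) → ‖w‖ ≤ ε → p' ∈ (extChartAt I p).source → ‖cc I p p'‖ ≤ ε →
      ∃ G ∈ U, ∃ h : W ≃ W, h p' = p ∧
        ∀ q, G (h q) = h (F (push I t β (ρ w (shf I p α q)))) := by
  have hle : ((r : ℕ∞) : WithTop ℕ∞) ≤ (∞ : WithTop ℕ∞) := by exact_mod_cast le_top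
  have hR := t.R_pos
  obtain ⟨T, T', hT, hT', hT0, hT'0, hTd, hTe⟩ := exists_translations2 (I := I) p
  obtain ⟨cut, hcut, hcut1, hcut0⟩ := F7_cut E t.R hR
  obtain ⟨cut', hcut', hcut1', hcut0'⟩ := F7_cut t.E₀ (t.R / 2) (by linarith)
  let P : Type := CkB r E E × CkB r t.E₀ (Fin k → ℝ) × (Fin k → ℝ) × E
  let S : P × E → E := fun z => z.2 + cut z.2 • fn z.1.1 z.2
  let B : P × t.E₀ → (Fin k → ℝ) := fun z => cut' z.2 • fn z.1.2.1 z.2
  have hS : ContDiff ℝ ((r : ℕ∞) : WithTop ℕ∞) S := by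
    have h1 : ContDiff ℝ ((r : ℕ∞) : WithTop ℕ∞) (fun z : P × E => fn z.1.1 z.2) :=
      (F7_ev (r := r) (X := E) (Y := E)).comp
        ((contDiff_fst.comp contDiff_fst).prodMk contDiff_snd)
    exact contDiff_snd.add (((hcut.of_le hle).comp contDiff_snd).smul h1)
  have hB : ContDiff ℝ ((r : ℕ∞) : WithTop ℕ∞) B := by
    have h1 : ContDiff ℝ ((r : ℕ∞) : WithTop ℕ∞) (fun z : P × t.E₀ => fn z.1.2.1 z.2) :=
      (F7_ev (r := r) (X := t.E₀) (Y := Fin k → ℝ)).comp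
        (((contDiff_fst.comp contDiff_snd).comp contDiff_fst).prodMk contDiff_snd)
    exact ((hcut'.of_le hle).comp contDiff_snd).smul h1
  have hS1 : ∀ (t' : P) y, 2 * t.R ≤ ‖y‖ → S (t', y) = y := by
    intro t' y hy
    show y + cut y • fn t'.1 y = y
    rw [hcut0 y (by linarith), zero_smul, add_zero]
  have hS0 : ∀ y, S ((0 : P), y) = y := by
    intro y
    show y + cut y • fn (0 : CkB r E E) y = y
    rw [F7_fn_zero, smul_zero, add_zero]
  have hB1 : ∀ (s : P) y, t.R / 2 ≤ ‖y‖ → B (s, y) = 0 := by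
    intro s y hy
    show cut' y • fn s.2.1 y = 0
    rw [hcut0' y hy, zero_smul]
  have hB0 : ∀ y, B ((0 : P), y) = 0 := by
    intro y
    show cut' y • fn (0 : CkB r t.E₀ (Fin k → ℝ)) y = 0
    rw [F7_fn_zero, smul_zero]
  -- the family
  let g1 : P × W → W := fun x => T' (x.1.2.2.2, x.2)
  let g2 : P × W → W := fun x => trans2_tr I p (fun y => S (x.1, y)) (g1 x)
  let g3 : P × W → W := fun x => ρ x.1.2.2.1 (g2 x)
  let g4 : P × W → W := fun x => push I t (fun y => B (x.1, y)) (g3 x)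
  let Φ : P × W → W := fun x => T (x.1.2.2.2, F (g4 x))
  have hv : ContMDiff (𝓘(ℝ, P).prod I) 𝓘(ℝ, E) ((r : ℕ∞) : WithTop ℕ∞)
      (fun x : P × W => x.1.2.2.2) :=
    ((contDiff_snd.comp (contDiff_snd.comp contDiff_snd)).contMDiff
      (n := ((r : ℕ∞) : WithTop ℕ∞))).comp contMDiff_fst
  have hw : ContMDiff (𝓘(ℝ, P).prod I) 𝓘(ℝ, Fin k → ℝ) ((r : ℕ∞) : WithTop ℕ∞)
      (fun x : P × W => x.1.2.2.1) :=
    ((contDiff_fst.comp (contDiff_snd.comp contDiff_snd)).contMDiff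
      (n := ((r : ℕ∞) : WithTop ℕ∞))).comp contMDiff_fst
  have hg1 : ∀ q, ContMDiffAt (𝓘(ℝ, P).prod I) I ((r : ℕ∞) : WithTop ℕ∞) g1 ((0 : P), q) := by
    intro q
    exact ContMDiffAt.comp (((0 : P), q) : P × W) (g := T')
      (f := fun x : P × W => (x.1.2.2.2, x.2)) ((hT' q).of_le hle)
      (hv.contMDiffAt.prodMk contMDiffAt_snd)
  have hg2 : ∀ q, ContMDiffAt (𝓘(ℝ, P).prod I) I ((r : ℕ∞) : WithTop ℕ∞) g2 ((0 : P), q) := by
    intro q
    have h1 := tr_smoothAt (I := I) (n := ((r : ℕ∞) : WithTop ℕ∞)) hle p (2 * t.R) t.ball S (0 : P)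
      (fun y => hS.contDiffAt) hS1 (fun y hy => by rw [hS0]; exact hy) (g1 ((0 : P), q))
    exact ContMDiffAt.comp (((0 : P), q) : P × W)
      (g := fun x : P × W => trans2_tr I p (fun y => S (x.1, y)) x.2)
      (f := fun x : P × W => (x.1, g1 x)) h1 (contMDiffAt_fst.prodMk (hg1 q))
  have hg3 : ∀ q, ContMDiffAt (𝓘(ℝ, P).prod I) I ((r : ℕ∞) : WithTop ℕ∞) g3 ((0 : P), q) := by
    intro q
    exact ContMDiffAt.comp (((0 : P), q) : P × W)
      (g := fun z : (Fin k → ℝ) × W => ρ z.1 z.2)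
      (f := fun x : P × W => (x.1.2.2.1, g2 x)) ((hρ.smooth.of_le hle).contMDiffAt)
      (hw.contMDiffAt.prodMk (hg2 q))
  have hg4 : ∀ q, ContMDiffAt (𝓘(ℝ, P).prod I) I ((r : ℕ∞) : WithTop ℕ∞) g4 ((0 : P), q) := by
    intro q
    have h1 := push_smoothAt (I := I) (n := ((r : ℕ∞) : WithTop ℕ∞)) hle hρ t B (0 : P)
      (t.R / 2) (by linarith) (fun y => hB.contDiffAt) hB1 (g3 ((0 : P), q))
    exact ContMDiffAt.comp (((0 : P), q) : P × W)
      (g := fun x : P × W => push I t (fun y => B (x.1, y)) x.2)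
      (f := fun x : P × W => (x.1, g3 x)) h1 (contMDiffAt_fst.prodMk (hg3 q))
  have hΦ : ∀ q, ContMDiffAt (𝓘(ℝ, P).prod I) I ((r : ℕ∞) : WithTop ℕ∞) Φ ((0 : P), q) := by
    intro q
    have h1 : ContMDiffAt (𝓘(ℝ, P).prod I) I ((r : ℕ∞) : WithTop ℕ∞)
        (fun x : P × W => F (g4 x)) ((0 : P), q) :=
      ContMDiffAt.comp (((0 : P), q) : P × W) (g := F) (f := g4) (F.contMDiff.contMDiffAt) (hg4 q)
    exact ContMDiffAt.comp (((0 : P), q) : P × W) (g := T)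
      (f := fun x : P × W => (x.1.2.2.2, F (g4 x))) ((hT (F (g4 ((0 : P), q)))).of_le hle)
      (hv.contMDiffAt.prodMk h1)
  have hF : ∀ q, F q = Φ ((0 : P), q) := by
    intro q
    have e1 : g1 ((0 : P), q) = q := hT'0 q
    have e2 : g2 ((0 : P), q) = q := by
      show trans2_tr I p (fun y => S ((0 : P), y)) (g1 ((0 : P), q)) = q
      rw [e1]
      exact F7_tr_id p _ hS0 q
    have e3 : g3 ((0 : P), q) = q := by
      show ρ (0 : Fin k → ℝ) (g2 ((0 : P), q)) = q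
      rw [e2, hρ.zero]
    have e4 : g4 ((0 : P), q) = q := by
      show push I t (fun y => B ((0 : P), y)) (g3 ((0 : P), q)) = q
      rw [e3]
      exact F7_push_zero hρ t _ hB0 q
    show F q = T ((0 : E), F (g4 ((0 : P), q)))
    rw [e4, hT0]
  have hev := mem_nhds_of_family Φ (0 : P) hΦ F hF U hU
  rw [Metric.eventually_nhds_iff] at hev
  obtain ⟨ε₀, hε₀, hev⟩ := hev
  obtain ⟨ε₁, hε₁, hnear⟩ := F7_near (I := I) p _ hTe
  refine ⟨min (ε₀ / 2) (min (t.R / 4) (min (1 / 4) (ε₁ / 2))), ?_, ?_, ?_, ?_⟩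
  · refine lt_min (by linarith) (lt_min (by linarith) (lt_min (by norm_num) (by linarith)))
  · refine lt_of_le_of_lt ((min_le_right _ _).trans (min_le_left _ _)) (by linarith)
  · exact (((min_le_right _ _).trans (min_le_right _ _)).trans (min_le_left _ _)).trans
      (by norm_num)
  generalize hεdef : min (ε₀ / 2) (min (t.R / 4) (min (1 / 4) (ε₁ / 2))) = ε
  have hεa : ε ≤ ε₀ / 2 := hεdef ▸ min_le_left _ _
  have hεb : ε ≤ t.R / 4 := hεdef ▸ (min_le_right _ _).trans (min_le_left _ _)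
  have hεc : ε ≤ 1 / 4 :=
    hεdef ▸ ((min_le_right _ _).trans (min_le_right _ _)).trans (min_le_left _ _)
  have hεd : ε ≤ ε₁ / 2 :=
    hεdef ▸ ((min_le_right _ _).trans (min_le_right _ _)).trans (min_le_right _ _)
  have hε : 0 ≤ ε := by
    rw [← hεdef]
    exact (lt_min (by linarith) (lt_min (by linarith) (lt_min (by norm_num) (by linarith)))).le
  intro α β w p' hα hβ hαε hβε hα0 hβ0 hwε hp' hp'ε
  obtain ⟨a, ha, haε⟩ := exists_CkB α hα ε hε hαε
  obtain ⟨b, hb, hbε⟩ := exists_CkB β hβ ε hε hβε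
  set v : E := extChartAt I p p - extChartAt I p p' with hvdef
  have hvε : ‖v‖ ≤ ε := by
    rw [hvdef, norm_sub_rev]
    exact hp'ε
  let P₀ : P := (a, b, w, v)
  have hP₀ : dist P₀ 0 < ε₀ := by
    rw [dist_zero_right, Prod.norm_def, Prod.norm_def, Prod.norm_def]
    exact (max_le haε (max_le hbε (max_le hwε hvε))).trans_lt (by linarith)
  have hSα : ∀ y, S (P₀, y) = y + α y := by
    intro y
    show y + cut y • fn a y = y + α y
    rw [ha]
    by_cases h : ‖y‖ ≤ t.R / 2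
    · rw [hcut1 y h, one_smul]
    · push Not at h
      rw [hα0 y (by linarith), smul_zero]
  have hBβ : ∀ y, B (P₀, y) = β y := by
    intro y
    show cut' y • fn b y = β y
    rw [hb]
    by_cases h : ‖y‖ ≤ t.R / 2 / 2
    · rw [hcut1' y h, one_smul]
    · push Not at h
      rw [hβ0 y (by linarith), smul_zero]
  have hα4 : ∀ y, ‖fderiv ℝ α y‖ ≤ 1 / 4 := by
    intro y
    rw [← norm_iteratedFDeriv_one]
    exact (hαε 1 hr y).trans hεc
  obtain ⟨D₁, hD₁⟩ := exists_diffeo_shf (I := I) r hr p (2 * t.R) t.ball α hα hα4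
    (fun y hy => hα0 y (by linarith))
  obtain ⟨D₂, hD₂⟩ := exists_diffeo_rho (I := I) (n := ((r : ℕ∞) : WithTop ℕ∞)) hle hρ w
  obtain ⟨D₃, hD₃⟩ := exists_diffeo_push (I := I) (n := ((r : ℕ∞) : WithTop ℕ∞)) hle hρ t β
    (t.R / 2) (by linarith) hβ (fun y hy => hβ0 y (by linarith))
  obtain ⟨D₀, hD₀, hD₀'⟩ := hTd v
  let D : W ≃ₘ^((r : ℕ∞) : WithTop ℕ∞)⟮I, I⟯ W :=
    { toEquiv := D₀.toEquiv
      contMDiff_toFun := D₀.contMDiff.of_le hle
      contMDiff_invFun := D₀.symm.contMDiff.of_le hle }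
  let D₁' : W ≃ₘ^((r : ℕ∞) : WithTop ℕ∞)⟮I, I⟯ W :=
    { toEquiv := D₁.toEquiv
      contMDiff_toFun := D₁.contMDiff
      contMDiff_invFun := D₁.symm.contMDiff }
  have hD : ∀ x, D x = T (v, x) := hD₀
  have hDs : ∀ x, D.symm x = T' (v, x) := hD₀'
  have hD₁' : ∀ x, D₁' x = shf I p α x := hD₁
  let G : W ≃ₘ^((r : ℕ∞) : WithTop ℕ∞)⟮I, I⟯ W :=
    D.symm.trans (D₁'.trans (D₂.trans (D₃.trans (F.trans D))))
  have hG : ∀ x, G x = D (F (push I t β (ρ w (shf I p α (D.symm x))))) := by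
    intro x
    show D (F (D₃ (D₂ (D₁' (D.symm x))))) = _
    rw [hD₃, hD₂, hD₁']
  refine ⟨G, hev hP₀ G ?_, D.toEquiv, ?_, ?_⟩
  · intro q
    rw [hG, hD, hDs]
    show _ = T (v, F (push I t (fun y => B (P₀, y)) (ρ w
      (trans2_tr I p (fun y => S (P₀, y)) (T' (v, q))))))
    have e1 : (fun y => B (P₀, y)) = β := funext hBβ
    have e2 : (fun y => S (P₀, y)) = fun y => y + α y := funext hSα
    rw [e1, e2]
    rfl
  · show D p' = p
    rw [hD]
    exact hnear p' hp' (hp'ε.trans_lt (by linarith))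
  · intro q
    show G (D q) = D (F (push I t β (ρ w (shf I p α q))))
    rw [hG]
    have e1 : D.symm (D q) = q := D.symm_apply_apply q
    rw [e1]

end Pool.Agent.EQ
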