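import Pool.Agent.Lib.MP_1e8d1a_an.EQ.Defs

/-! row K1 -/

open scoped ContDiff Manifold Topology BoundedContinuousFunction

namespace Pool.Agent.EQ

open Pool.Agent.SC

/-- **The exponents.**

PROOF.  Write `D = ε η ^ r / Cb`, so `D / 2 ^ r = b₁ η ^ r`, `b₁ = ε / (Cb 2 ^ r) > 0`, and
`ε (D / 2 ^ r / 3) ^ r / Cb = b₂ η ^ (r ^ 2)` with `b₂ = ε (b₁ / 3) ^ r / Cb > 0`
(`(η ^ r) ^ r = η ^ (r ^ 2)`).
First case, `r ^ 2 < k`: for `η ≤ 1`, `(C η) ^ k ≤ C ^ k η ^ (r ^ 2 + 1) = (C ^ k η) η ^ (r ^ 2)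
≤ c b₂ η ^ (r ^ 2)` as soon as `η ≤ c b₂ / C ^ k`.
Second case, `(r - 1) d < k`: `2 (C η) / (b₁ η ^ r) = B η / η ^ r`, `B = 2 C / b₁`; for `η ≤ 1`:
`1 + B η / η ^ r ≤ (1 + B) / η ^ (r - 1)` (`η ^ r = η * η ^ (r - 1)`).  So
`K ≤ (1 + B) ^ d / η ^ ((r - 1) d)` and
`K (C η) ^ k ≤ (1 + B) ^ d C ^ k η ^ (k - (r - 1) d) ≤ (1 + B) ^ d C ^ k η ≤ c` for `η` small. -/
theorem numerics (r k d : ℕ) (hr : 1 ≤ r) (hkr : r ^ 2 < k ∨ (r - 1) * d < k)
    (C Cb ε c : ℝ) (hC : 1 ≤ C) (hCb : 1 ≤ Cb) (hε : 0 < ε) (hε1 : ε ≤ 1) (hc : 0 < c) :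
    ∃ η₀ : ℝ, 0 < η₀ ∧ ∀ η, 0 < η → η ≤ η₀ → ∀ K : ℝ, 0 ≤ K →
      K ≤ (1 + 2 * (C * η) / (ε * η ^ r / Cb / 2 ^ r)) ^ d →
      K * (C * η) ^ k ≤ c ∨
        (C * η) ^ k ≤ c * (ε * (ε * η ^ r / Cb / 2 ^ r / 3) ^ r / Cb) := by
  have hC0 : 0 < C := by linarith
  have hCb0 : 0 < Cb := by linarith
  have hCk : 0 < C ^ k := pow_pos hC0 k
  rcases hkr with hk | hk
  · -- first case
    set b₂ : ℝ := ε * (ε / Cb / 2 ^ r / 3) ^ r / Cb with hb₂
    have hb₂0 : 0 < b₂ := by positivity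
    refine ⟨min 1 (c * b₂ / C ^ k), lt_min one_pos (by positivity), ?_⟩
    intro η hη hη1 K _ _
    right
    have h1 : η ≤ 1 := hη1.trans (min_le_left _ _)
    have h2 : η ≤ c * b₂ / C ^ k := hη1.trans (min_le_right _ _)
    have h3 : C ^ k * η ≤ c * b₂ := by
      have := mul_le_mul_of_nonneg_left h2 hCk.le
      rwa [mul_div_cancel₀ _ hCk.ne'] at this
    have h4 : ε * (ε * η ^ r / Cb / 2 ^ r / 3) ^ r / Cb = b₂ * η ^ (r ^ 2) := by
      have e1 : ε * η ^ r / Cb / 2 ^ r / 3 = (ε / Cb / 2 ^ r / 3) * η ^ r := by ring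
      rw [e1, mul_pow, ← pow_mul, ← sq, hb₂]
      ring
    have h5 : η ^ k ≤ η ^ (r ^ 2 + 1) := pow_le_pow_of_le_one hη.le h1 hk
    rw [h4, mul_pow]
    calc C ^ k * η ^ k ≤ C ^ k * η ^ (r ^ 2 + 1) := mul_le_mul_of_nonneg_left h5 hCk.le
      _ = (C ^ k * η) * η ^ (r ^ 2) := by ring
      _ ≤ (c * b₂) * η ^ (r ^ 2) := mul_le_mul_of_nonneg_right h3 (by positivity)
      _ = c * (b₂ * η ^ (r ^ 2)) := by ring
  · -- second case
    set B : ℝ := 2 * C / (ε / Cb / 2 ^ r) with hB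
    have hB0 : 0 < B := by positivity
    have hBd : 0 < (1 + B) ^ d := by positivity
    refine ⟨min 1 (c / ((1 + B) ^ d * C ^ k)), lt_min one_pos (by positivity), ?_⟩
    intro η hη hη1 K hK0 hK
    left
    have h1 : η ≤ 1 := hη1.trans (min_le_left _ _)
    have h2 : η ≤ c / ((1 + B) ^ d * C ^ k) := hη1.trans (min_le_right _ _)
    have h3 : (1 + B) ^ d * C ^ k * η ≤ c := by
      have hp : 0 < (1 + B) ^ d * C ^ k := by positivity
      have := mul_le_mul_of_nonneg_left h2 hp.le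
      rwa [mul_div_cancel₀ _ hp.ne'] at this
    have hq : 0 < η ^ (r - 1) := pow_pos hη _
    have hq1 : η ^ (r - 1) ≤ 1 := pow_le_one₀ hη.le h1
    have hr' : η ^ r = η ^ (r - 1) * η := by
      rw [← pow_succ, Nat.sub_add_cancel hr]
    have h4 : 2 * (C * η) / (ε * η ^ r / Cb / 2 ^ r) = B / η ^ (r - 1) := by
      rw [hB, hr']
      field_simp
    have h5 : 1 + B / η ^ (r - 1) ≤ (1 + B) / η ^ (r - 1) := by
      rw [add_div]
      have : 1 ≤ 1 / η ^ (r - 1) := by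
        rw [le_div_iff₀ hq]; linarith
      linarith
    have h6 : K ≤ (1 + B) ^ d / η ^ ((r - 1) * d) := by
      rw [h4] at hK
      refine hK.trans ?_
      rw [pow_mul, ← div_pow]
      exact pow_le_pow_left₀ (by positivity) h5 d
    have h7 : η ^ k = η ^ ((r - 1) * d) * η ^ (k - (r - 1) * d) := by
      rw [← pow_add]; congr 1; omega
    have h8 : η ^ (k - (r - 1) * d) ≤ η := by
      have : η ^ (k - (r - 1) * d) ≤ η ^ 1 :=
        pow_le_pow_of_le_one hη.le h1 (by omega)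
      simpa using this
    have hqd : 0 < η ^ ((r - 1) * d) := pow_pos hη _
    calc K * (C * η) ^ k ≤ (1 + B) ^ d / η ^ ((r - 1) * d) * (C * η) ^ k :=
          mul_le_mul_of_nonneg_right h6 (by positivity)
      _ = (1 + B) ^ d * C ^ k * η ^ (k - (r - 1) * d) := by
          rw [mul_pow, h7]; field_simp
      _ ≤ (1 + B) ^ d * C ^ k * η := mul_le_mul_of_nonneg_left h8 (by positivity)
      _ ≤ c := h3

end Pool.Agent.EQ
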