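import Pool.Agent.Lib.MP_1e8d1a_an.EQ.F2

/-! row K2 -/

open scoped ContDiff Manifold Topology BoundedContinuousFunction

namespace Pool.Agent.EQ

open Pool.Agent.SC

variable {E : Type} [NormedAddCommGroup E] [NormedSpace ℝ E] {H : Type} [TopologicalSpace H]
  {I : ModelWithCorners ℝ E H} {W : Type} [TopologicalSpace W] [ChartedSpace H W]

variable {k : ℕ} {ρ : (Fin k → ℝ) → W → W} {p : W}

/-- PROOF.  `ρ u x` is in the source with `‖cc (ρ u x)‖ ≤ ‖y₀‖ + η' < r0` so in the tube (`hr0`),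
hence `x` is (`rho_mem_iff`): `x = ρ e' (sec y)`, `‖y‖ < R`, `Y x = y` (`Y_eq`).  So
`ρ u x = ρ (u + e') (sec y)` and `t.sep (u + e') y y₀` gives the bound for `‖y - y₀‖` and, for `e'`, the
integer vector.  For an arbitrary `e` with `x = ρ e (sec (Y x))` use `e` from the start. -/
theorem avoid (hρ : IsTorusAction I k ρ) (t : Tube I k ρ p) (r0 : ℝ)
    (hr0 : ∀ q ∈ (extChartAt I p).source, ‖cc I p q‖ < r0 → q ∈ tubeSet I ρ p t.E₀ t.R)
    (x : W) (u : Fin k → ℝ) (y₀ : t.E₀) (η : ℝ) (hy₀ : ‖y₀‖ < t.R) (hη : η ≤ t.R)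
    (h0 : ‖y₀‖ + η ≤ r0) (hs : ρ u x ∈ (extChartAt I p).source)
    (h : ‖cc I p (ρ u x) - (y₀ : E)‖ < η) :
    x ∈ tubeSet I ρ p t.E₀ t.R ∧ ‖t.Y x - y₀‖ < t.C * η ∧
      ∀ e : Fin k → ℝ, x = ρ e (sec I p (t.Y x : E)) →
        ∃ m : Fin k → ℤ, ‖u + e - (fun i => (m i : ℝ))‖ < t.C * η := by
  have hC : 0 < t.C := lt_of_lt_of_le one_pos t.one_le_C
  have hcc : ‖cc I p (ρ u x)‖ < r0 := by
    have h1 : cc I p (ρ u x) = (cc I p (ρ u x) - (y₀ : E)) + (y₀ : E) := by abel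
    rw [h1]
    refine lt_of_le_of_lt (norm_add_le _ _) ?_
    have h2 : ‖(y₀ : E)‖ = ‖y₀‖ := rfl
    rw [h2]
    linarith
  have hx : x ∈ tubeSet I ρ p t.E₀ t.R := (rho_mem_iff hρ t.E₀ t.R u x).1 (hr0 _ hs hcc)
  obtain ⟨hYx, v, hv⟩ := exists_rep t x hx
  have key : ∀ e : Fin k → ℝ, x = ρ e (sec I p (t.Y x : E)) →
      ‖t.Y x - y₀‖ ≤ t.C * ‖cc I p (ρ u x) - (y₀ : E)‖ ∧
      ∃ m : Fin k → ℤ, ‖u + e - (fun i => (m i : ℝ))‖ ≤ t.C * ‖cc I p (ρ u x) - (y₀ : E)‖ := by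
    intro e he
    have h1 : ρ u x = ρ (u + e) (sec I p (t.Y x : E)) := by
      rw [hρ.add, ← he]
    have h2 := t.sep (u + e) (t.Y x) y₀ hYx hy₀ (by rw [← h1]; exact hs)
      (by rw [← h1]; exact lt_of_lt_of_le h hη)
    rw [← h1] at h2
    exact h2
  have hlt : t.C * ‖cc I p (ρ u x) - (y₀ : E)‖ < t.C * η := mul_lt_mul_of_pos_left h hC
  refine ⟨hx, lt_of_le_of_lt (key v hv).1 hlt, fun e he => ?_⟩
  obtain ⟨m, hm⟩ := (key e he).2
  exact ⟨m, lt_of_le_of_lt hm hlt⟩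

open Classical in
/-- **Orbit formula.**

PROOF.  Induction on `m`: `f (push β (ρ w (ρ (u m) (f^[m] x)))) = f (push β (ρ (w + u m) (f^[m] x)))
= f (ρ (hatβ + (w + u m)) (f^[m] x)) = ρ (hatβ + (w + u m)) (f^[m+1] x)` by `hρ.add`, `push_rho`, `hf`
(`Function.iterate_succ_apply'`). -/
theorem orbit_formula (hρ : IsTorusAction I k ρ) (t : Tube I k ρ p) (f : W → W)
    (hf : ∀ v q, f (ρ v q) = ρ v (f q)) (β : t.E₀ → (Fin k → ℝ)) (w : Fin k → ℝ) (x : W)
    (N : ℕ) (u : ℕ → Fin k → ℝ) (hu0 : u 0 = 0)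
    (hu : ∀ m < N, u (m + 1) = u m + w +
      (if f^[m] x ∈ tubeSet I ρ p t.E₀ t.R then β (t.Y (f^[m] x)) else 0)) :
    ∀ m ≤ N, (fun q => f (push I t β (ρ w q)))^[m] x = ρ (u m) (f^[m] x) := by
  intro m
  induction m with
  | zero =>
    intro _
    simp only [Function.iterate_zero, id_eq, hu0, hρ.zero]
  | succ m ih =>
    intro hm
    rw [Function.iterate_succ_apply', ih (by omega)]
    rw [← hρ.add, push_rho hρ, hf, hu m (by omega), Function.iterate_succ_apply']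
    congr 1
    abel

/-- PROOF.  `sec I p y₁` is in the source with `cc = y₁` (`t.ball`: `‖y₁‖ < R`), so by definition of
`trans2_tr` the value is `(extChartAt I p).symm (e p + (y₁ + α y₁)) = sec I p (y₁ + α y₁)`. -/
theorem shf_sec (t : Tube I k ρ p) (α : E → E) (y₁ : E) (hy₁ : ‖y₁‖ < t.R) :
    shf I p α (sec I p y₁) = sec I p (y₁ + α y₁) := by
  have hmem : extChartAt I p p + y₁ ∈ (extChartAt I p).target := by
    apply t.ball
    rw [Metric.mem_closedBall, dist_eq_norm, add_sub_cancel_left]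
    linarith [t.R_pos]
  have hs : sec I p y₁ ∈ (extChartAt I p).source := (extChartAt I p).map_target hmem
  have hcc : extChartAt I p (sec I p y₁) = extChartAt I p p + y₁ := (extChartAt I p).right_inv hmem
  unfold shf
  rw [trans2_tr_of_mem p _ _ hs, hcc, add_sub_cancel_left]
  rfl

/-- PROOF.  `trans2_tr_of_mem`, `trans2_tr_of_not_mem`; `e p + (e q - e p) = e q`. -/
theorem shf_eq_self (α : E → E) (q : W)
    (h : q ∈ (extChartAt I p).source → α (cc I p q) = 0) : shf I p α q = q := by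
  unfold shf
  by_cases hq : q ∈ (extChartAt I p).source
  · rw [trans2_tr_of_mem p _ _ hq]
    have h1 : α (extChartAt I p q - extChartAt I p p) = 0 := h hq
    simp only [h1, add_zero, add_sub_cancel]
    exact (extChartAt I p).left_inv hq
  · exact trans2_tr_of_not_mem p _ q hq

end Pool.Agent.EQ
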