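import Pool.Agent.Lib.MP_1e8d1a_an.EQ.K2

/-! row K2b -/

open scoped ContDiff Manifold Topology BoundedContinuousFunction

namespace Pool.Agent.EQ

open Pool.Agent.SC

variable {E : Type} [NormedAddCommGroup E] [NormedSpace ℝ E] {H : Type} [TopologicalSpace H]
  {I : ModelWithCorners ℝ E H} {W : Type} [TopologicalSpace W] [ChartedSpace H W]

variable {k : ℕ} {ρ : (Fin k → ℝ) → W → W} {p : W}

open Classical in
/-- **The closing step.**

PROOF.  `g q = f (push β (ρ w (shf α q)))`, `A q = f (push β (ρ w q))`, `g q = A (shf α q)`.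
`shf α (sec y₁) = sec (y₁ + (y₀ - y₁)) = sec y₀`.  Claim `g^[m] (sec y₁) = A^[m] (sec y₀)` for
`1 ≤ m ≤ N`: `m = 1` clear; `m → m + 1 ≤ N`: by `orbit_formula` the point
`A^[m] (sec y₀) = ρ (u m) (f^[m] (sec y₀))` is fixed by `shf α` (`shf_eq_self`, `havoid`, `hα0`).  So
`g^[N] (sec y₁) = ρ (u N) (f^[N] (sec y₀)) = ρ (u N + e) (sec y₁) = sec y₁` (`hρ.int`). -/
theorem close_step (hρ : IsTorusAction I k ρ) (t : Tube I k ρ p) (f : W → W)
    (hf : ∀ v q, f (ρ v q) = ρ v (f q)) (α : E → E) (β : t.E₀ → (Fin k → ℝ))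
    (w : Fin k → ℝ) (y₀ y₁ : t.E₀) (hy₁ : ‖y₁‖ < t.R) (η : ℝ)
    (hα1 : α (y₁ : E) = (y₀ : E) - (y₁ : E)) (hα0 : ∀ z : E, η ≤ ‖z - (y₀ : E)‖ → α z = 0)
    (N : ℕ) (hN : 0 < N) (e : Fin k → ℝ)
    (he : f^[N] (sec I p (y₀ : E)) = ρ e (sec I p (y₁ : E)))
    (u : ℕ → Fin k → ℝ) (hu0 : u 0 = 0)
    (hu : ∀ m < N, u (m + 1) = u m + w +
      (if f^[m] (sec I p (y₀ : E)) ∈ tubeSet I ρ p t.E₀ t.R then
        β (t.Y (f^[m] (sec I p (y₀ : E)))) else 0))
    (huN : ∃ z : Fin k → ℤ, u N + e = fun j => (z j : ℝ))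
    (havoid : ∀ m, 0 < m → m < N →
      ρ (u m) (f^[m] (sec I p (y₀ : E))) ∈ (extChartAt I p).source →
      η ≤ ‖cc I p (ρ (u m) (f^[m] (sec I p (y₀ : E)))) - (y₀ : E)‖) :
    (fun q => f (push I t β (ρ w (shf I p α q))))^[N] (sec I p (y₁ : E)) =
      sec I p (y₁ : E) := by
  have hA := orbit_formula hρ t f hf β w (sec I p (y₀ : E)) N u hu0 hu
  have h1 : shf I p α (sec I p (y₁ : E)) = sec I p (y₀ : E) := by
    rw [shf_sec t α (y₁ : E) hy₁, hα1]
    congr 1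
    abel
  have claim : ∀ m : ℕ, m + 1 ≤ N →
      (fun q => f (push I t β (ρ w (shf I p α q))))^[m + 1] (sec I p (y₁ : E)) =
        (fun q => f (push I t β (ρ w q)))^[m + 1] (sec I p (y₀ : E)) := by
    intro m
    induction m with
    | zero =>
      intro _
      simp only [zero_add, Function.iterate_one]
      rw [h1]
    | succ m ih =>
      intro hm
      rw [Function.iterate_succ_apply', ih (by omega)]
      rw [Function.iterate_succ_apply' (fun q => f (push I t β (ρ w q))) (m + 1)]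
      show f (push I t β (ρ w (shf I p α _))) = f (push I t β (ρ w _))
      rw [shf_eq_self α]
      intro hsrc
      rw [hA (m + 1) (by omega)] at hsrc ⊢
      exact hα0 _ (havoid (m + 1) (by omega) (by omega) hsrc)
  obtain ⟨n, rfl⟩ : ∃ n, N = n + 1 := ⟨N - 1, by omega⟩
  rw [claim n le_rfl, hA (n + 1) le_rfl, he, ← hρ.add]
  obtain ⟨z, hz⟩ := huN
  rw [hz, hρ.int]

end Pool.Agent.EQ
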