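import Pool.Agent.Lib.MP_1e8d1a_an.EQ.Defs

/-! row P3 -/

open scoped ContDiff Manifold Topology BoundedContinuousFunction

namespace Pool.Agent.EQ

open Pool.Agent.SC

/-- Double counting (Markov).

PROOF.  `S = {a | |B| < 4 #{b | bad a b}}`.  `|S| |B| ≤ 4 ∑_a #{b | bad a b} = 4 ∑_b #{a | bad a b}
≤ 4 |B| T`; divide by `|B| > 0`.  (Sums over `Finset.univ`, `Finset.sum_comm` with indicator
functions, classical decidability; `Set.ncard` of a set in a fintype: `Set.ncard_eq_toFinset_card'`.) -/
theorem markov (A B : Type) [Fintype A] [Fintype B] [Nonempty B] (bad : A → B → Prop) (T : ℝ)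
    (h : ∀ b, (Set.ncard {a | bad a b} : ℝ) ≤ T) :
    (Set.ncard {a | Fintype.card B < 4 * Set.ncard {b | bad a b}} : ℝ) ≤ 4 * T := by
  classical
  have e1 : ∀ b, (Set.ncard {a | bad a b} : ℝ) = ∑ a : A, (if bad a b then (1 : ℝ) else 0) := by
    intro b
    rw [Set.ncard_eq_toFinset_card', Finset.sum_boole]
    congr 2
    ext a
    simp
  have e2 : ∀ a, (Set.ncard {b | bad a b} : ℝ) = ∑ b : B, (if bad a b then (1 : ℝ) else 0) := by
    intro a
    rw [Set.ncard_eq_toFinset_card', Finset.sum_boole]
    congr 2
    ext b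
    simp
  have hB : (0 : ℝ) < Fintype.card B := by exact_mod_cast Fintype.card_pos
  have e3 : (Set.ncard {a | Fintype.card B < 4 * Set.ncard {b | bad a b}} : ℝ) =
      ∑ a : A, (if Fintype.card B < 4 * Set.ncard {b | bad a b} then (1 : ℝ) else 0) := by
    rw [Set.ncard_eq_toFinset_card', Finset.sum_boole]
    congr 2
    ext a
    simp
  have key : (Fintype.card B : ℝ) *
      (Set.ncard {a | Fintype.card B < 4 * Set.ncard {b | bad a b}} : ℝ) ≤
      4 * ((Fintype.card B : ℝ) * T) := by
    rw [e3, Finset.mul_sum]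
    calc ∑ a : A, (Fintype.card B : ℝ) *
          (if Fintype.card B < 4 * Set.ncard {b | bad a b} then (1 : ℝ) else 0)
        ≤ ∑ a : A, 4 * (Set.ncard {b | bad a b} : ℝ) := by
          apply Finset.sum_le_sum
          intro a _
          split_ifs with hh
          · rw [mul_one]
            have : ((Fintype.card B : ℕ) : ℝ) < ((4 * Set.ncard {b | bad a b} : ℕ) : ℝ) := by
              exact_mod_cast hh
            push_cast at this
            exact this.le
          · rw [mul_zero]
            positivity
      _ = 4 * ∑ a : A, ∑ b : B, (if bad a b then (1 : ℝ) else 0) := by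
          rw [Finset.mul_sum]
          exact Finset.sum_congr rfl fun a _ => by rw [e2 a]
      _ = 4 * ∑ b : B, ∑ a : A, (if bad a b then (1 : ℝ) else 0) := by
          rw [Finset.sum_comm]
      _ = 4 * ∑ b : B, (Set.ncard {a | bad a b} : ℝ) := by
          congr 1
          exact Finset.sum_congr rfl fun b _ => (e1 b).symm
      _ ≤ 4 * ∑ _b : B, T := by
          apply mul_le_mul_of_nonneg_left _ (by norm_num)
          exact Finset.sum_le_sum fun b _ => h b
      _ = 4 * ((Fintype.card B : ℝ) * T) := by
          rw [Finset.sum_const, Finset.card_univ, nsmul_eq_mul]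
  have h2 : (Fintype.card B : ℝ) *
      (Set.ncard {a | Fintype.card B < 4 * Set.ncard {b | bad a b}} : ℝ) ≤
      (Fintype.card B : ℝ) * (4 * T) := by linarith
  exact le_of_mul_le_mul_left h2 hB

end Pool.Agent.EQ
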