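import Pool.Agent.Lib.MP_1e8d1a_an.EQ.P6
import Pool.Agent.Lib.MP_1e8d1a_an.EQ.P3

/-! row P6b -/

open scoped ContDiff Manifold Topology BoundedContinuousFunction

namespace Pool.Agent.EQ

open Pool.Agent.SC

/-- The choice of the rotation vector: for some `b` the first segment (from the node `0`) and the
last segment (which ends at `endp b`) are fine.

PROOF.  `M = Ω M'`, `G = Fin k → ZMod M`, `A = (Fin k → Fin (N M'))`.  First:
`bad₁ b d = ∃ i, .. seg i = 0 ∧ Near ρ (m i • rotv b + lam i • hat d - C i)`; for fixed `d` it is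
the set of `count_seg_rot` with `c i j = m i * fract (M ci j) / (M N) + lam i * hat d j - C i j`.
`markov` gives `#{b | |G| < 4 #{d | bad₁ b d}} ≤ 4 * 2 H (3 ρ (1 + Ω)) ^ k |A| ≤ |A| / 4` by `hc`.
Last: `bad₂ b d = ∃ i, .. seg i = L - 1 ∧ Near ρ (m i • rotv b + hat (endp b - d) +
lam i • hat d - C i)`; coordinatewise modulo `ℤ`
`hat (endp b - d) = (⌊M ci j⌋ - b j) / M - hat d j` (`hat_add` for `endp b = (endp b - d) + d`,
`hat_intCast`), so with `w j = (f j + b j) / (M N)`, `f j = fract (M ci j)`: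
`m i w j - b j / M = - (N - m i) b j / (M N) + m i f j / (M N)`; by `near_neg`, `near_add_int` it is
the set of `count_seg_rot` with `N - m i` in place of `m i` (`0 < N - m i ≤ N`).  Again at most
`|A| / 4` exceptional `b`.  `|A| / 2 < |A|` (`|A| = (N M') ^ k > 0`), so some `b` is in neither
exceptional set. -/
theorem exists_rot (k Ω M' N H L K : ℕ) [NeZero (Ω * M')] (hΩ : 0 < Ω) (hM' : 0 < M')
    (hH : 0 < H) (hL : 2 ≤ L) (h1 : L * H ≤ K + 1) (h2 : K + 1 < (L + 1) * H) (ρ : ℝ)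
    (hρ : 0 < ρ) (hM : 1 ≤ ρ * (Ω * M' : ℕ)) (hc : 32 * H * (3 * ρ * (1 + Ω)) ^ k ≤ 1)
    (m : ℕ → ℕ) (hm : ∀ i, 1 ≤ i → i ≤ K → 0 < m i ∧ m i < N) (hN : 0 < N)
    (C : ℕ → Fin k → ℝ) (ci : Fin k → ℝ) :
    ∃ b : Fin k → Fin (N * M'),
      4 * Set.ncard {d : Fin k → ZMod (Ω * M') | ∃ i, 1 ≤ i ∧ i ≤ K ∧ seg H L i = 0 ∧
        Near ρ ((m i : ℝ) • rotv (Ω * M') N ci b + lam H L K i • hat d - C i)} ≤
        Fintype.card (Fin k → ZMod (Ω * M')) ∧
      4 * Set.ncard {d : Fin k → ZMod (Ω * M') | ∃ i, 1 ≤ i ∧ i ≤ K ∧ seg H L i = L - 1 ∧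
        Near ρ ((m i : ℝ) • rotv (Ω * M') N ci b + hat (endp (Ω * M') ci b - d) +
          lam H L K i • hat d - C i)} ≤
        Fintype.card (Fin k → ZMod (Ω * M')) := by
  classical
  set M : ℕ := Ω * M' with hMdef
  have hM0 : (0 : ℝ) < (M : ℝ) := Nat.cast_pos.2 (Nat.pos_of_ne_zero (NeZero.ne M))
  have hN0 : (0 : ℝ) < (N : ℝ) := Nat.cast_pos.2 hN
  have hNM : 0 < N * M' := Nat.mul_pos hN hM'
  have : NeZero (N * M') := ⟨hNM.ne'⟩
  set T : ℝ := 2 * H * ((3 * ρ * (1 + Ω)) ^ k * ((N * M' : ℕ) : ℝ) ^ k) with hT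
  have hAcard : ((Nat.card (Fin k → Fin (N * M')) : ℕ) : ℝ) = ((N * M' : ℕ) : ℝ) ^ k := by
    rw [Nat.card_eq_fintype_card, Fintype.card_fun, Fintype.card_fin, Fintype.card_fin]
    push_cast
    ring
  -- first segment
  have hfirst : ∀ d : Fin k → ZMod M, (Set.ncard {b : Fin k → Fin (N * M') |
      ∃ i, 1 ≤ i ∧ i ≤ K ∧ seg H L i = 0 ∧
        Near ρ ((m i : ℝ) • rotv M N ci b + lam H L K i • hat d - C i)} : ℝ) ≤ T := by
    intro d
    have h := count_seg_rot k Ω M' N H L K 0 hΩ hM' hH hL h1 h2 ρ hρ hM m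
      (fun i hi hi' => ⟨(hm i hi hi').1, (hm i hi hi').2.le⟩)
      (fun i j => (m i : ℝ) * Int.fract ((M : ℝ) * ci j) / ((M : ℝ) * N) +
        lam H L K i * hat d j - C i j)
    have he : ∀ (b : Fin k → Fin (N * M')) (i : ℕ),
        ((m i : ℝ) • rotv M N ci b + lam H L K i • hat d - C i) =
        (fun j => ((b j : ℕ) : ℝ) * m i / ((Ω * M' : ℕ) * N) +
          ((m i : ℝ) * Int.fract ((M : ℝ) * ci j) / ((M : ℝ) * N) +
            lam H L K i * hat d j - C i j)) := by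
      intro b i
      funext j
      simp only [Pi.sub_apply, Pi.add_apply, Pi.smul_apply, smul_eq_mul, rotv, ← hMdef]
      ring
    simp only [he]
    exact h
  -- last segment
  have hlast : ∀ d : Fin k → ZMod M, (Set.ncard {b : Fin k → Fin (N * M') |
      ∃ i, 1 ≤ i ∧ i ≤ K ∧ seg H L i = L - 1 ∧
        Near ρ ((m i : ℝ) • rotv M N ci b + hat (endp M ci b - d) +
          lam H L K i • hat d - C i)} : ℝ) ≤ T := by
    intro d
    have h := count_seg_rot k Ω M' N H L K (L - 1) hΩ hM' hH hL h1 h2 ρ hρ hM (fun i => N - m i)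
      (fun i hi hi' => ⟨Nat.sub_pos_of_lt (hm i hi hi').2, Nat.sub_le _ _⟩)
      (fun i j => -((m i : ℝ) * Int.fract ((M : ℝ) * ci j) / ((M : ℝ) * N) +
        (⌊(M : ℝ) * ci j⌋ : ℝ) / M - hat d j + lam H L K i * hat d j - C i j))
    refine le_trans ?_ h
    have hsub : {b : Fin k → Fin (N * M') |
      ∃ i, 1 ≤ i ∧ i ≤ K ∧ seg H L i = L - 1 ∧
        Near ρ ((m i : ℝ) • rotv M N ci b + hat (endp M ci b - d) +
          lam H L K i • hat d - C i)} ⊆ {b : Fin k → Fin (N * M') |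
      ∃ i, 1 ≤ i ∧ i ≤ K ∧ seg H L i = L - 1 ∧
      Near ρ (fun j => ((b j : ℕ) : ℝ) * ((N - m i : ℕ) : ℝ) / ((Ω * M' : ℕ) * N) +
        -((m i : ℝ) * Int.fract ((M : ℝ) * ci j) / ((M : ℝ) * N) +
        (⌊(M : ℝ) * ci j⌋ : ℝ) / M - hat d j + lam H L K i * hat d j - C i j))} := by
      rintro b ⟨i, hi1, hi2, hi3, hi4⟩
      refine ⟨i, hi1, hi2, hi3, ?_⟩
      obtain ⟨n, hn⟩ := hat_add (endp M ci b - d) d
      rw [sub_add_cancel] at hn
      obtain ⟨l, hl⟩ := hat_intCast (k := k) (M := M)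
        (fun j => ⌊(M : ℝ) * ci j⌋ - ((b j : ℕ) : ℤ))
      have hl' : hat (endp M ci b) =
          (fun j => (((⌊(M : ℝ) * ci j⌋ - ((b j : ℕ) : ℤ) : ℤ)) : ℝ) / M) +
          fun j => (l j : ℝ) := hl
      rw [← near_neg]
      rw [← near_add_int ρ _ (fun j => l j - n j)]
      have hcast : ((N - m i : ℕ) : ℝ) = (N : ℝ) - m i := Nat.cast_sub (hm i hi1 hi2).2.le
      have hh : hat (endp M ci b - d) =
          (fun j => (((⌊(M : ℝ) * ci j⌋ - ((b j : ℕ) : ℤ) : ℤ)) : ℝ) / M) +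
          (fun j => (l j : ℝ)) - hat d - fun j => (n j : ℝ) := by
        rw [← hl', hn]
        funext j
        simp only [Pi.sub_apply, Pi.add_apply]
        ring
      rw [hh] at hi4
      convert hi4 using 1
      funext j
      simp only [Pi.sub_apply, Pi.add_apply, Pi.smul_apply, Pi.neg_apply, smul_eq_mul, rotv,
        ← hMdef, hcast]
      push_cast
      field_simp
      ring
    exact_mod_cast Set.ncard_le_ncard hsub (Set.toFinite _)
  have hS1 := markov (Fin k → Fin (N * M')) (Fin k → ZMod M)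
    (fun b d => ∃ i, 1 ≤ i ∧ i ≤ K ∧ seg H L i = 0 ∧
        Near ρ ((m i : ℝ) • rotv M N ci b + lam H L K i • hat d - C i)) T hfirst
  have hS2 := markov (Fin k → Fin (N * M')) (Fin k → ZMod M)
    (fun b d => ∃ i, 1 ≤ i ∧ i ≤ K ∧ seg H L i = L - 1 ∧
        Near ρ ((m i : ℝ) • rotv M N ci b + hat (endp M ci b - d) +
          lam H L K i • hat d - C i)) T hlast
  by_contra hcon
  push Not at hcon
  have hcov : (Set.univ : Set (Fin k → Fin (N * M'))) ⊆
      {b | Fintype.card (Fin k → ZMod M) < 4 * Set.ncard {d : Fin k → ZMod M |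
        ∃ i, 1 ≤ i ∧ i ≤ K ∧ seg H L i = 0 ∧
        Near ρ ((m i : ℝ) • rotv M N ci b + lam H L K i • hat d - C i)}} ∪
      {b | Fintype.card (Fin k → ZMod M) < 4 * Set.ncard {d : Fin k → ZMod M |
        ∃ i, 1 ≤ i ∧ i ≤ K ∧ seg H L i = L - 1 ∧
        Near ρ ((m i : ℝ) • rotv M N ci b + hat (endp M ci b - d) +
          lam H L K i • hat d - C i)}} := by
    intro b _
    by_cases hb : 4 * Set.ncard {d : Fin k → ZMod M |
        ∃ i, 1 ≤ i ∧ i ≤ K ∧ seg H L i = 0 ∧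
        Near ρ ((m i : ℝ) • rotv M N ci b + lam H L K i • hat d - C i)} ≤
        Fintype.card (Fin k → ZMod M)
    · right
      exact hcon b hb
    · left
      exact not_le.1 hb
  have hle := (Set.ncard_le_ncard hcov (Set.toFinite _)).trans (Set.ncard_union_le _ _)
  rw [Set.ncard_univ] at hle
  have hle' : ((Nat.card (Fin k → Fin (N * M')) : ℕ) : ℝ) ≤ 4 * T + 4 * T := by
    refine le_trans (by exact_mod_cast hle) (add_le_add hS1 hS2)
  rw [hAcard] at hle'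
  have hpos : (0 : ℝ) < ((N * M' : ℕ) : ℝ) ^ k := by
    have : (0 : ℝ) < ((N * M' : ℕ) : ℝ) := Nat.cast_pos.2 hNM
    positivity
  have h4T : 4 * T + 4 * T ≤ ((N * M' : ℕ) : ℝ) ^ k / 2 := by
    have h5 : (32 * H * (3 * ρ * (1 + Ω)) ^ k) * ((N * M' : ℕ) : ℝ) ^ k ≤
        1 * ((N * M' : ℕ) : ℝ) ^ k := mul_le_mul_of_nonneg_right hc hpos.le
    rw [hT]
    linarith
  linarith

end Pool.Agent.EQ
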