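import Pool.Agent.Lib.MP_1e8d1a_an.EQ.P3b
import Pool.Agent.Lib.MP_1e8d1a_an.EQ.P6b

/-! row P7 -/

open scoped ContDiff Manifold Topology BoundedContinuousFunction

namespace Pool.Agent.EQ

open Pool.Agent.SC

theorem P7_hat_zero {k M : ℕ} [NeZero M] : hat (0 : Fin k → ZMod M) = 0 := by
  funext j
  simp [hat]

/-- the numerical condition -/
theorem P7_num (k H : ℕ) (X ρ0 v c : ℝ) (hX : 0 < X) (hρ0 : 0 < ρ0) (hv : 0 < v)
    (hH : (H : ℝ) ≤ 2 / v) (hc : c ≤ 1 / (64 * X ^ k)) (hρ : ρ0 ^ k ≤ c * v) :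
    32 * (H : ℝ) * (X * ρ0) ^ k ≤ 1 := by
  have hXk : 0 < X ^ k := pow_pos hX k
  have h1 : (X * ρ0) ^ k ≤ v / 64 := by
    rw [mul_pow]
    calc X ^ k * ρ0 ^ k ≤ X ^ k * (1 / (64 * X ^ k) * v) :=
          mul_le_mul_of_nonneg_left (hρ.trans (mul_le_mul_of_nonneg_right hc hv.le)) hXk.le
      _ = v / 64 := by field_simp
  have h2 : 0 ≤ (X * ρ0) ^ k := by positivity
  calc 32 * (H : ℝ) * (X * ρ0) ^ k ≤ 32 * (2 / v) * (v / 64) := by
        refine mul_le_mul (mul_le_mul_of_nonneg_left hH (by norm_num)) h1 h2 ?_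
        positivity
    _ = 1 := by field_simp; norm_num

/-- **The path lemma with pushes**: many visits.

PROOF.  `Ω = ⌈1 / om⌉₊ + 1`, `c = min (1 / (64 * 6 ^ k)) (1 / (64 * (3 * (1 + Ω)) ^ k))`.
Given the data (`v ≤ 1`, `ρ0 ^ k ≤ c v`), `H = ⌈1 / v⌉₊ ≤ 2 / v`, `2 H ≤ K + 1` (`hK`),
`L = (K + 1) / H ≥ 2`; `M' = ⌈1 / ρ0⌉₊ + 1`, `M = Ω M'`, `1 ≤ ρ0 M`.
`H ρ0 ^ k ≤ (2 / v) c v = 2 c`, so `32 H (6 ρ0) ^ k ≤ 1` and `32 H (3 ρ0 (1 + Ω)) ^ k ≤ 1`.
`b` by `exists_rot`, `w = rotv M N ci b`, `e = endp M ci b`, `‖w‖ ≤ 1 / Ω ≤ om`.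
`good a x d := ¬ ∃ i, 1 ≤ i ∧ i ≤ K ∧ seg i = a ∧ Near ρ0 (m i • w + hat x + lam i • hat d - C i)`.
`chain` with `e`: `h0` (`hat 0 = 0`) and `hlast` from `exists_rot`; `hmid` by `markov` and
`count_seg_grid` (`v i = m i • w + lam i • hat d - C i`):
`4 * #{x | |G| < 4 #{d | ¬ good a x d}} ≤ 16 * 2 H (6 ρ0) ^ k M ^ k ≤ M ^ k = |G|`.
We get `x`, `d`; `δ a = hat (d a)`, `‖δ a‖ ≤ 1`, `u` by `path_of_steps`, steps `≤ 1 / H ≤ v`.
Induction: `∑ b < a, δ b - hat (x a)` is an integer vector (`hat_add`).  So for `i ≤ K`, `a = seg i < L`: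
`m i w + u i - C i = (m i w + hat (x a) + lam i • hat (d a) - C i) + integer`, not `Near`
(`near_add_int`, `good`), i.e. all `‖m i w + u i - C i - z‖ ≥ ρ0`.
`N w + u (K + 1) - ci = N w + hat e - ci + integer`, an integer vector by `rotv_end`. -/
theorem path_many (k : ℕ) (om : ℝ) (hom : 0 < om) :
    ∃ c : ℝ, 0 < c ∧ ∀ (N K : ℕ) (m : ℕ → ℕ) (C : ℕ → Fin k → ℝ) (ci : Fin k → ℝ)
      (ρ0 v : ℝ), 0 < N → 0 < ρ0 → 0 < v → v ≤ 1 →
      (∀ i, 1 ≤ i → i ≤ K → 0 < m i ∧ m i < N) → ρ0 ^ k ≤ c * v →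
      2 * ⌈1 / v⌉₊ ≤ K + 1 →
      ∃ (w : Fin k → ℝ) (u : ℕ → Fin k → ℝ), ‖w‖ ≤ om ∧ u 0 = 0 ∧
        (∀ i ≤ K, ‖u (i + 1) - u i‖ ≤ v) ∧
        (∃ z : Fin k → ℤ, (N : ℝ) • w + u (K + 1) - ci = fun j => (z j : ℝ)) ∧
        ∀ i, 1 ≤ i → i ≤ K → ∀ z : Fin k → ℤ,
          ρ0 ≤ ‖(m i : ℝ) • w + u i - C i - (fun j => (z j : ℝ))‖ := by
  classical
  set Ω : ℕ := ⌈1 / om⌉₊ + 1 with hΩdef
  have hΩ : 0 < Ω := Nat.succ_pos _
  have hΩR : (0 : ℝ) < Ω := by exact_mod_cast hΩ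
  have hΩom : 1 / (Ω : ℝ) ≤ om := by
    have h1 : 1 / om ≤ (Ω : ℝ) := by
      rw [hΩdef]
      push_cast
      have := Nat.le_ceil (1 / om)
      linarith
    rw [div_le_iff₀ hΩR]
    rw [div_le_iff₀ hom] at h1
    linarith
  set c : ℝ := min (1 / (64 * 6 ^ k)) (1 / (64 * (3 * (1 + (Ω : ℝ))) ^ k)) with hc
  have hX1 : (0 : ℝ) < 3 * (1 + (Ω : ℝ)) := by positivity
  refine ⟨c, ?_, ?_⟩
  · rw [hc]
    refine lt_min ?_ ?_ <;> positivity
  intro N K m C ci ρ0 v hN hρ0 hv hv1 hm hρ hK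
  set H : ℕ := ⌈1 / v⌉₊ with hHdef
  have h1v : 1 ≤ 1 / v := by
    rw [le_div_iff₀ hv]
    linarith
  have hHv : 1 / v ≤ (H : ℝ) := Nat.le_ceil _
  have hHpos : 0 < H := by
    have : (0 : ℝ) < H := lt_of_lt_of_le (lt_of_lt_of_le one_pos h1v) hHv
    exact_mod_cast this
  have hHR : (0 : ℝ) < H := by exact_mod_cast hHpos
  have hH2 : (H : ℝ) ≤ 2 / v := by
    have h2 : (H : ℝ) < 1 / v + 1 := Nat.ceil_lt_add_one (by positivity)
    have h3 : 2 / v = 1 / v + 1 / v := by ring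
    rw [h3]
    linarith
  set L : ℕ := (K + 1) / H with hLdef
  have hL : 2 ≤ L := by
    rw [hLdef]
    exact (Nat.le_div_iff_mul_le hHpos).mpr hK
  have hLH : L * H ≤ K + 1 := Nat.div_mul_le_self _ _
  have hLH2 : K + 1 < (L + 1) * H := by
    have h3 := Nat.div_add_mod (K + 1) H
    have h4 := Nat.mod_lt (K + 1) hHpos
    have h5 : (L + 1) * H = H * ((K + 1) / H) + H := by
      rw [hLdef]
      ring
    rw [h5]
    omega
  set M' : ℕ := ⌈1 / ρ0⌉₊ + 1 with hM'def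
  have hM' : 0 < M' := Nat.succ_pos _
  haveI : NeZero (Ω * M') := ⟨(Nat.mul_pos hΩ hM').ne'⟩
  have hM : 1 ≤ ρ0 * ((Ω * M' : ℕ) : ℝ) := by
    have h3 : 1 / ρ0 ≤ (M' : ℝ) := by
      rw [hM'def]
      push_cast
      have := Nat.le_ceil (1 / ρ0)
      linarith
    have h4 : 1 ≤ ρ0 * (M' : ℝ) := by
      rw [div_le_iff₀ hρ0] at h3
      linarith
    have h5 : (1 : ℝ) ≤ Ω := by exact_mod_cast hΩ
    push_cast
    have h6 : ρ0 * ((Ω : ℝ) * M') = (ρ0 * M') * Ω := by ring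
    rw [h6]
    nlinarith
  have hc1 : 32 * (H : ℝ) * (3 * ρ0 * (1 + Ω)) ^ k ≤ 1 := by
    have h3 := P7_num k H (3 * (1 + (Ω : ℝ))) ρ0 v c hX1 hρ0 hv hH2 (min_le_right _ _) hρ
    have h4 : 3 * ρ0 * (1 + (Ω : ℝ)) = 3 * (1 + (Ω : ℝ)) * ρ0 := by ring
    rw [h4]
    exact h3
  have hc2 : 32 * (H : ℝ) * (6 * ρ0) ^ k ≤ 1 :=
    P7_num k H 6 ρ0 v c (by norm_num) hρ0 hv hH2 (min_le_left _ _) hρ
  obtain ⟨b, hb1, hb2⟩ := exists_rot k Ω M' N H L K hΩ hM' hHpos hL hLH hLH2 ρ0 hρ0 hM hc1 m hm hN C ci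
  set w : Fin k → ℝ := rotv (Ω * M') N ci b with hw
  set e : Fin k → ZMod (Ω * M') := endp (Ω * M') ci b with he
  have hwn : ‖w‖ ≤ om := (rotv_norm hΩ hM' hN ci b).trans hΩom
  obtain ⟨x, dd, hx0, hstep, hxL⟩ := chain (Fin k → ZMod (Ω * M')) L hL
    (fun a x d => ¬ ∃ i, 1 ≤ i ∧ i ≤ K ∧ seg H L i = a ∧
      Near ρ0 ((m i : ℝ) • w + hat x + lam H L K i • hat d - C i)) e
    (by
      refine le_trans (Nat.mul_le_mul_left 4 (Set.ncard_le_ncard ?_ (Set.toFinite _))) hb1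
      intro d hd
      simp only [Set.mem_setOf_eq, not_not, P7_hat_zero, add_zero] at hd ⊢
      exact hd)
    (by
      intro a _ _
      have h3 := markov (Fin k → ZMod (Ω * M')) (Fin k → ZMod (Ω * M'))
        (fun x d => ∃ i, 1 ≤ i ∧ i ≤ K ∧ seg H L i = a ∧
          Near ρ0 ((m i : ℝ) • w + hat x + lam H L K i • hat d - C i))
        (2 * H * ((6 * ρ0) ^ k * ((Ω * M' : ℕ) : ℝ) ^ k))
        (by
          intro d
          have h4 := count_seg_grid k (Ω * M') H L K a hHpos hL hLH hLH2 ρ0 hρ0 hM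
            (fun i => (m i : ℝ) • w + lam H L K i • hat d - C i)
          refine le_trans (le_of_eq ?_) h4
          congr 2
          ext x
          simp only [Set.mem_setOf_eq]
          refine exists_congr fun i => and_congr_right fun _ => and_congr_right fun _ => and_congr_right fun _ => ?_
          have h5 : (m i : ℝ) • w + hat x + lam H L K i • hat d - C i =
            hat x + ((m i : ℝ) • w + lam H L K i • hat d - C i) := by abel
          rw [h5])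
      have hcard : (Fintype.card (Fin k → ZMod (Ω * M')) : ℝ) = ((Ω * M' : ℕ) : ℝ) ^ k := by
        rw [Fintype.card_fun, ZMod.card, Fintype.card_fin]
        push_cast
        ring
      have h6 : (4 : ℝ) * (Set.ncard {x : Fin k → ZMod (Ω * M') | Fintype.card (Fin k → ZMod (Ω * M')) <
          4 * Set.ncard {d : Fin k → ZMod (Ω * M') | ¬ ¬ ∃ i, 1 ≤ i ∧ i ≤ K ∧ seg H L i = a ∧
            Near ρ0 ((m i : ℝ) • w + hat x + lam H L K i • hat d - C i)}} : ℝ) ≤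
          (Fintype.card (Fin k → ZMod (Ω * M')) : ℝ) := by
        simp only [not_not]
        rw [hcard]
        have h7 : (0 : ℝ) ≤ ((Ω * M' : ℕ) : ℝ) ^ k := by positivity
        calc (4 : ℝ) * _ ≤ 4 * (4 * (2 * H * ((6 * ρ0) ^ k * ((Ω * M' : ℕ) : ℝ) ^ k))) :=
              mul_le_mul_of_nonneg_left h3 (by norm_num)
          _ = (32 * (H : ℝ) * (6 * ρ0) ^ k) * ((Ω * M' : ℕ) : ℝ) ^ k := by ring
          _ ≤ 1 * ((Ω * M' : ℕ) : ℝ) ^ k := mul_le_mul_of_nonneg_right hc2 h7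
          _ = _ := one_mul _
      exact_mod_cast h6)
    (by
      refine le_trans (Nat.mul_le_mul_left 4 (Set.ncard_le_ncard ?_ (Set.toFinite _))) hb2
      intro d hd
      simp only [Set.mem_setOf_eq, not_not] at hd ⊢
      exact hd)
  obtain ⟨u, hu0, hustep, huK, hui⟩ := path_of_steps k H L K hHpos hL hLH hLH2
    (fun a => hat (dd a)) (fun a => hat_norm (dd a))
  have hint : ∀ a ≤ L, ∃ n : Fin k → ℤ, hat (x a) = (∑ b ∈ Finset.range a, hat (dd b)) + fun j => (n j : ℝ) := by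
    intro a
    induction a with
    | zero =>
      intro _
      refine ⟨0, ?_⟩
      rw [hx0, P7_hat_zero]
      funext j
      simp
    | succ a ih =>
      intro ha
      obtain ⟨n, hn⟩ := ih (by omega)
      obtain ⟨n', hn'⟩ := hat_add (x a) (dd a)
      refine ⟨n + n', ?_⟩
      rw [(hstep a (by omega)).1, hn', hn, Finset.sum_range_succ]
      funext j
      simp only [Pi.add_apply, Int.cast_add]
      ring
  refine ⟨w, u, hwn, hu0, ?_, ?_, ?_⟩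
  · intro i hi
    refine (hustep i hi).trans ?_
    rw [div_le_iff₀ hHR]
    rw [div_le_iff₀ hv] at hHv
    linarith
  · obtain ⟨n, hn⟩ := hint L le_rfl
    obtain ⟨z, hz⟩ := rotv_end (M := Ω * M') hN ci b
    refine ⟨z - n, ?_⟩
    rw [huK]
    rw [hxL] at hn
    rw [← he, hn, ← hw] at hz
    have h3 : (N : ℝ) • w + ∑ b ∈ Finset.range L, hat (dd b) - ci =
        ((N : ℝ) • w + ((∑ b ∈ Finset.range L, hat (dd b)) + fun j => (n j : ℝ)) - ci) - fun j => (n j : ℝ) := by abel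
    rw [h3, hz]
    funext j
    simp
  · intro i hi1 hiK z
    have ha : seg H L i < L := by
      unfold seg
      omega
    obtain ⟨n, hn⟩ := hint (seg H L i) ha.le
    have hg := (hstep (seg H L i) ha).2
    by_contra hcon
    rw [not_le] at hcon
    apply hg
    refine ⟨i, hi1, hiK, rfl, ?_⟩
    have h3 : (m i : ℝ) • w + hat (x (seg H L i)) + lam H L K i • hat (dd (seg H L i)) - C i =
        ((m i : ℝ) • w + u i - C i) + fun j => (n j : ℝ) := by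
      rw [hui i hiK, hn]
      abel
    rw [h3, near_add_int]
    exact ⟨z, hcon⟩

end Pool.Agent.EQ
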