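import Pool.Agent.Lib.MP_1e8d1a_an.EQ.P2b
import Pool.Agent.Lib.MP_1e8d1a_an.EQ.P7

/-! row P8 -/

open scoped ContDiff Manifold Topology BoundedContinuousFunction

namespace Pool.Agent.EQ

open Pool.Agent.SC

/-- **The path lemma.**

PROOF.  `N₀`, `c₁` from `path_few`, `c₂` from `path_many`; `c = min c₁ (min c₂ (c₁ / 4))`.  If
`K ρ0 ^ k ≤ c`: `path_few` with `u = 0`.  If `ρ0 ^ k ≤ c v` and `2 ⌈1 / v⌉ ≤ K + 1`: `path_many`.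
If `ρ0 ^ k ≤ c v` and `K + 1 < 2 ⌈1 / v⌉ ≤ 2 (1 / v + 1) ≤ 4 / v`:
`K ρ0 ^ k ≤ (4 / v) c v ≤ c₁`: `path_few`. -/
theorem path_lemma (k : ℕ) (hk : 3 ≤ k) (om : ℝ) (hom : 0 < om) :
    ∃ (N₀ : ℕ) (c : ℝ), 0 < c ∧ ∀ (N K : ℕ) (m : ℕ → ℕ) (C : ℕ → Fin k → ℝ) (ci : Fin k → ℝ)
      (ρ0 v : ℝ), N₀ ≤ N → 0 < N → 0 < ρ0 → 0 < v → v ≤ 1 →
      (∀ i, 1 ≤ i → i ≤ K → 0 < m i ∧ m i < N) →
      (∀ i j, 1 ≤ i → i < j → j ≤ K → m i < m j) →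
      (K * ρ0 ^ k ≤ c ∨ ρ0 ^ k ≤ c * v) →
      ∃ (w : Fin k → ℝ) (u : ℕ → Fin k → ℝ), ‖w‖ ≤ om ∧ u 0 = 0 ∧
        (∀ i ≤ K, ‖u (i + 1) - u i‖ ≤ v) ∧
        (∃ z : Fin k → ℤ, (N : ℝ) • w + u (K + 1) - ci = fun j => (z j : ℝ)) ∧
        ∀ i, 1 ≤ i → i ≤ K → ∀ z : Fin k → ℤ,
          ρ0 ≤ ‖(m i : ℝ) • w + u i - C i - (fun j => (z j : ℝ))‖ := by
  obtain ⟨N₀, c₁, hc₁, H1⟩ := path_few k hk om hom
  obtain ⟨c₂, hc₂, H2⟩ := path_many k om hom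
  refine ⟨N₀, min c₁ (min c₂ (c₁ / 4)), lt_min hc₁ (lt_min hc₂ (by linarith)), ?_⟩
  intro N K m C ci ρ0 v hN₀ hN hρ hv hv1 hm hmono hcase
  have hle1 : min c₁ (min c₂ (c₁ / 4)) ≤ c₁ := min_le_left _ _
  have hle2 : min c₁ (min c₂ (c₁ / 4)) ≤ c₂ := (min_le_right _ _).trans (min_le_left _ _)
  have hle3 : min c₁ (min c₂ (c₁ / 4)) ≤ c₁ / 4 := (min_le_right _ _).trans (min_le_right _ _)
  have hrk : (0 : ℝ) < ρ0 ^ k := by positivity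
  have few : K * ρ0 ^ k ≤ c₁ →
      ∃ (w : Fin k → ℝ) (u : ℕ → Fin k → ℝ), ‖w‖ ≤ om ∧ u 0 = 0 ∧
        (∀ i ≤ K, ‖u (i + 1) - u i‖ ≤ v) ∧
        (∃ z : Fin k → ℤ, (N : ℝ) • w + u (K + 1) - ci = fun j => (z j : ℝ)) ∧
        ∀ i, 1 ≤ i → i ≤ K → ∀ z : Fin k → ℤ,
          ρ0 ≤ ‖(m i : ℝ) • w + u i - C i - (fun j => (z j : ℝ))‖ := by
    intro hK
    obtain ⟨w, hw, hz, ha⟩ := H1 N K m C ci ρ0 hN₀ hρ hm hmono hK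
    refine ⟨w, fun _ => 0, hw, rfl, ?_, ?_, ?_⟩
    · intro i _
      simp only [sub_zero, norm_zero]
      exact hv.le
    · obtain ⟨z, hz⟩ := hz
      exact ⟨z, by rw [add_zero]; exact hz⟩
    · intro i h1 h2 z
      rw [add_zero]
      exact ha i h1 h2 z
  rcases hcase with h | h
  · exact few (h.trans hle1)
  · by_cases hK : 2 * ⌈1 / v⌉₊ ≤ K + 1
    · exact H2 N K m C ci ρ0 v hN hρ hv hv1 hm
        (h.trans (mul_le_mul_of_nonneg_right hle2 hv.le)) hK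
    · apply few
      have h1v : (1 : ℝ) ≤ 1 / v := by
        rw [le_div_iff₀ hv]
        linarith
      have hc : ((⌈1 / v⌉₊ : ℕ) : ℝ) ≤ 1 / v + 1 := (Nat.ceil_lt_add_one (by positivity)).le
      have hK' : ((K + 1 : ℕ) : ℝ) < ((2 * ⌈1 / v⌉₊ : ℕ) : ℝ) := by
        exact_mod_cast not_le.mp hK
      push_cast at hK'
      have hK4 : (K : ℝ) ≤ 4 / v := by
        have : 4 / v = 2 * (1 / v + 1 / v) := by ring
        rw [this]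
        nlinarith
      calc (K : ℝ) * ρ0 ^ k ≤ (4 / v) * ρ0 ^ k := mul_le_mul_of_nonneg_right hK4 hrk.le
        _ ≤ (4 / v) * (min c₁ (min c₂ (c₁ / 4)) * v) :=
            mul_le_mul_of_nonneg_left h (by positivity)
        _ ≤ (4 / v) * ((c₁ / 4) * v) :=
            mul_le_mul_of_nonneg_left (mul_le_mul_of_nonneg_right hle3 hv.le) (by positivity)
        _ = c₁ := by field_simp

end Pool.Agent.EQ
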