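import Pool.Agent.Lib.MP_1e8d1a_an.EQ.K1
import Pool.Agent.Lib.MP_1e8d1a_an.EQ.K2b
import Pool.Agent.Lib.MP_1e8d1a_an.EQ.B2
import Pool.Agent.Lib.MP_1e8d1a_an.EQ.B3
import Pool.Agent.Lib.MP_1e8d1a_an.EQ.P8

/-! row K3 -/

open scoped ContDiff Manifold Topology BoundedContinuousFunction

namespace Pool.Agent.EQ

open Pool.Agent.SC

variable {E : Type} [NormedAddCommGroup E] [NormedSpace ℝ E] {H : Type} [TopologicalSpace H]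
  {I : ModelWithCorners ℝ E H} {W : Type} [TopologicalSpace W] [ChartedSpace H W]

variable {k : ℕ} {ρ : (Fin k → ℝ) → W → W} {p : W}

/-- **The displacement.**  `𝒥` the finite set of the indices of the pushes, `u` the path.

PROOF.  `V m = m • w + u (Nat.count (· ∈ 𝒥) m)`; `Nat.count_succ`: the count increases by one exactly
when `m ∈ 𝒥`. -/
theorem displacement (𝒥 : Finset ℕ) (w : Fin k → ℝ) (u : ℕ → Fin k → ℝ) (m : ℕ) :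
    ((m + 1 : ℕ) : ℝ) • w + u (Nat.count (· ∈ 𝒥) (m + 1)) =
      ((m : ℝ) • w + u (Nat.count (· ∈ 𝒥) m)) + w +
        (if m ∈ 𝒥 then u (Nat.count (· ∈ 𝒥) m + 1) - u (Nat.count (· ∈ 𝒥) m) else 0) := by
  rw [Nat.count_succ]
  by_cases h : m ∈ 𝒥
  · rw [if_pos h, if_pos h]
    push_cast
    rw [add_smul, one_smul]
    abel
  · rw [if_neg h, if_neg h]
    push_cast
    rw [add_smul, one_smul, add_zero, add_zero]
    abel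

/-- **The core of the closing lemma.**

PROOF.  Constants: `C₁` from `exists_bump_vec E E r`, `C₂` from
`exists_multibump t.E₀ (Fin k → ℝ) r`, `Cb = max C₁ C₂`; `N₀`, `c` from `path_lemma k hk ε`; `η₀` from
`numerics r k (finrank t.E₀) .. t.C Cb ε c`; `θ = min (1 / (8 * t.C)) η₀`, `κ = ε θ ^ r / Cb`
(`κ ≤ 1/4`: `θ ≤ 1/8`, `r ≥ 1`).
Given the data: `D = ‖y₀ - y₁‖`, `η > 0` with `η ^ r = Cb D / ε`
(`η = (Cb D / ε) ^ (1 / r : ℝ)`, `Real.rpow_inv_natCast_pow`), so `D = ε η ^ r / Cb` and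
`η ^ r ≤ (θ μ) ^ r`, `η ≤ θ μ`: `t.C η ≤ μ / 8`, `η ≤ μ / 8`, `η ≤ η₀` (`μ ≤ R' ≤ 1`), `η ≤ 1`,
`D ≤ η / 2` (`η ^ r ≤ η`, `ε ≤ 1/2`, `Cb ≥ 1`).
`α` = the bump with centre `y₀`, radius `η`, value `y₀ - y₁` (in `E`): `α y₁ = y₀ - y₁`, norms
`≤ C₁ D / η ^ r ≤ ε`; `α z = 0` for `‖z - y₀‖ ≥ η`, in particular for `‖z‖ ≥ ε`
(`‖y₀‖ + η ≤ ‖y₀‖ + 3/4 μ ≤ R' ≤ ε`).
`X m = f^[m] (sec y₀)`, `s = D / 2 ^ r`, `s' = s / 3`, `v = ε s' ^ r / Cb ≤ 1`.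
`𝒥 = {0} ∪ {m ∈ (0, N) | X m ∈ tubeSet .. t.R ∧ ‖Y (X m) - y₀‖ ≤ t.C η}`, `K = |𝒥| - 1`.
For `m ∈ 𝒥`: `‖Y (X m)‖ ≤ ‖y₀‖ + μ / 8 < R'`, so `X m ∈ tubeSet .. R'`, and `Y (X 0) = y₀`.  By
`hsep`: `s ≤ ‖Y (X m) - Y (X m')‖` for `m ∈ 𝒥`, `m' ≤ N`, `m' ≠ m`, `X m' ∈ tubeSet .. R'`.
Packing (`card_le_of_separated` for `𝒥` without `0`, radius `t.C η`):
`K ≤ (1 + 2 t.C η / s) ^ d`, so `numerics` gives
`K ρ0 ^ k ≤ c ∨ ρ0 ^ k ≤ c v`, `ρ0 = t.C η`.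
`path_lemma` with `m i = Nat.nth (· ∈ 𝒥) i` (`1 ≤ i ≤ K`: `Nat.nth_mem_of_lt_card`, strictly increasing:
`Nat.nth_lt_nth'`/`Nat.nth_strictMonoOn`, `nth 0 = 0`, so `0 < m i < N`),
`C i = - E i`, `X (m i) = ρ (E i) (sec (Y (X (m i))))`, `ci = - e`: gives `w`, `u`.
`β` from `exists_multibump` for `𝒥`, centres `Y (X m)`, values
`a m = u (count m + 1) - u (count m)`, `count = Nat.count (· ∈ 𝒥)`, `count m ≤ K` for `m ∈ 𝒥`, radius `s'`,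
bound `v`: norms `≤ C₂ v / s' ^ r ≤ ε`; `β y = 0` for `‖y‖ ≥ ε` (`‖y - Y (X m)‖ ≥ ε - ‖y₀‖ - μ / 8 ≥
μ / 2 ≥ s'`).  For `m < N` with `X m ∈ tubeSet .. t.R`: `β (Y (X m)) = a m` if `m ∈ 𝒥`; if
`m ∉ 𝒥` then `β (Y (X m)) = 0`: if `‖Y (X m)‖ < R'` the distance to all centres is at least `s ≥ s'`;
if `‖Y (X m)‖ ≥ R'` it is at least `R' - ‖y₀‖ - μ / 8 ≥ μ / 2 ≥ s'`.  If `X m ∉ tubeSet` then
`m ∉ 𝒥` (for `m = 0`: `X 0 = sec y₀` is in the tube).  So with `V m = m w + u (count m)`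
(`displacement`) the hypothesis `hu` of `close_step` holds; `V N + e = N w + u (K + 1) - ci` is an
integer vector (`count N = K + 1`: all elements of `𝒥` are `< N`).
`havoid`: otherwise `avoid` (with `r0`, `‖y₀‖ + η ≤ R' ≤ r0`) gives `X m ∈ tubeSet`,
`‖Y (X m) - y₀‖ < t.C η`, so `m ∈ 𝒥`, `m = m i` for `i = count m ∈ [1, K]` (`Nat.nth_count`), and an
integer vector `z` with `‖V m + E i - z‖ < t.C η = ρ0`, contradicting the path lemma. -/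
theorem core [FiniteDimensional ℝ E] (hρ : IsTorusAction I k ρ) (t : Tube I k ρ p)
    (f : W → W) (hf : ∀ v q, f (ρ v q) = ρ v (f q)) (r : ℕ) (hr : 1 ≤ r) (hk : 3 ≤ k)
    (hkr : r ^ 2 < k ∨ (r - 1) * Module.finrank ℝ t.E₀ < k) (ε : ℝ) (hε : 0 < ε)
    (hε1 : ε ≤ 1 / 2) (r0 : ℝ)
    (hr0 : ∀ q ∈ (extChartAt I p).source, ‖cc I p q‖ < r0 → q ∈ tubeSet I ρ p t.E₀ t.R) :
    ∃ (N₀ : ℕ) (κ : ℝ), 0 < κ ∧ κ ≤ 1 / 4 ∧ ∀ (R' μ : ℝ) (y₀ y₁ : t.E₀) (N : ℕ)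
      (e : Fin k → ℝ), N₀ ≤ N → 0 < N →
      f^[N] (sec I p (y₀ : E)) = ρ e (sec I p (y₁ : E)) → 0 < μ → μ ≤ R' → R' ≤ 1 →
      R' < t.R → R' ≤ ε → R' ≤ r0 → ‖y₀‖ + 3 / 4 * μ ≤ R' → ‖y₁‖ + 3 / 4 * μ ≤ R' →
      0 < ‖y₀ - y₁‖ → ‖y₀ - y₁‖ ≤ κ * μ ^ r →
      (∀ m ≤ N, ∀ m' ≤ N, m ≠ m' → f^[m] (sec I p (y₀ : E)) ∈ tubeSet I ρ p t.E₀ R' →
        f^[m'] (sec I p (y₀ : E)) ∈ tubeSet I ρ p t.E₀ R' →
        ‖t.Y (f^[m] (sec I p (y₀ : E))) - y₀‖ ≤ μ / 4 →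
        ‖y₀ - y₁‖ ≤ 2 ^ r * ‖t.Y (f^[m] (sec I p (y₀ : E))) -
          t.Y (f^[m'] (sec I p (y₀ : E)))‖) →
      ∃ (α : E → E) (β : t.E₀ → (Fin k → ℝ)) (w : Fin k → ℝ), ContDiff ℝ r α ∧
        ContDiff ℝ r β ∧ (∀ j ≤ r, ∀ y, ‖iteratedFDeriv ℝ j α y‖ ≤ ε) ∧
        (∀ j ≤ r, ∀ y, ‖iteratedFDeriv ℝ j β y‖ ≤ ε) ∧ (∀ y, ε ≤ ‖y‖ → α y = 0) ∧
        (∀ y, ε ≤ ‖y‖ → β y = 0) ∧ ‖w‖ ≤ ε ∧
        (fun q => f (push I t β (ρ w (shf I p α q))))^[N] (sec I p (y₁ : E)) =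
          sec I p (y₁ : E) := by
  classical
  obtain ⟨C₁, hC₁, hb1⟩ := exists_bump_vec E E r
  obtain ⟨C₂, hC₂, hb2⟩ := exists_multibump t.E₀ (Fin k → ℝ) r
  obtain ⟨Cb, hCb1, hCb2, hCb⟩ : ∃ Cb : ℝ, C₁ ≤ Cb ∧ C₂ ≤ Cb ∧ 1 ≤ Cb :=
    ⟨max C₁ C₂, le_max_left _ _, le_max_right _ _, hC₁.trans (le_max_left _ _)⟩
  have hCbpos : 0 < Cb := by linarith
  obtain ⟨N₀, c, hc, hpath⟩ := path_lemma k hk ε hε
  obtain ⟨η₀, hη₀, hnum⟩ := numerics r k (Module.finrank ℝ t.E₀) hr hkr t.C Cb ε c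
    t.one_le_C hCb hε (by linarith) hc
  have hCone := t.one_le_C
  have hCpos : 0 < t.C := by linarith
  obtain ⟨θ, hθpos, hθη, hθC⟩ : ∃ θ : ℝ, 0 < θ ∧ θ ≤ η₀ ∧ t.C * θ ≤ 1 / 8 := by
    refine ⟨min (1 / (8 * t.C)) η₀, lt_min (by positivity) hη₀, min_le_right _ _, ?_⟩
    calc t.C * min (1 / (8 * t.C)) η₀ ≤ t.C * (1 / (8 * t.C)) :=
          mul_le_mul_of_nonneg_left (min_le_left _ _) hCpos.le
      _ = 1 / 8 := by field_simp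
  have hθ8 : θ ≤ 1 / 8 := by nlinarith
  refine ⟨N₀, ε * θ ^ r / Cb, by positivity, ?_, ?_⟩
  · have h1 : θ ^ r ≤ θ := by
      calc θ ^ r ≤ θ ^ 1 := pow_le_pow_of_le_one hθpos.le (by linarith) hr
        _ = θ := pow_one θ
    rw [div_le_iff₀ hCbpos]
    nlinarith [pow_pos hθpos r]
  intro R' μ y₀ y₁ N e hN hN0 he hμ hμR hR1 hRt hRε hRr h0 h1 hD hDκ hsep
  obtain ⟨D, hDdef⟩ : ∃ D, D = ‖y₀ - y₁‖ := ⟨_, rfl⟩
  rw [← hDdef] at hD hDκ hsep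
  -- the radius `η`
  obtain ⟨η, hη, hηr⟩ : ∃ η : ℝ, 0 < η ∧ η ^ r = Cb * D / ε := by
    have h2 : 0 < Cb * D / ε := by positivity
    refine ⟨(Cb * D / ε) ^ ((r : ℝ)⁻¹), Real.rpow_pos_of_pos h2 _, ?_⟩
    exact Real.rpow_inv_natCast_pow h2.le (by omega)
  have hDη : D = ε * η ^ r / Cb := by
    rw [hηr]
    field_simp
  have hηθ : η ≤ θ * μ := by
    have h2 : η ^ r ≤ (θ * μ) ^ r := by
      rw [hηr, div_le_iff₀ hε, mul_pow]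
      calc Cb * D ≤ Cb * (ε * θ ^ r / Cb * μ ^ r) := mul_le_mul_of_nonneg_left hDκ hCbpos.le
        _ = θ ^ r * μ ^ r * ε := by field_simp
    exact (pow_le_pow_iff_left₀ hη.le (by positivity) (by omega)).1 h2
  have hμ1 : μ ≤ 1 := hμR.trans hR1
  have hηη₀ : η ≤ η₀ := by nlinarith
  have hCη : t.C * η ≤ μ / 8 := by
    calc t.C * η ≤ t.C * (θ * μ) := mul_le_mul_of_nonneg_left hηθ hCpos.le
      _ = t.C * θ * μ := by ring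
      _ ≤ 1 / 8 * μ := mul_le_mul_of_nonneg_right hθC hμ.le
      _ = μ / 8 := by ring
  have hημ : η ≤ μ / 8 := by nlinarith
  have hη1 : η ≤ 1 := by linarith
  have hηr1 : η ^ r ≤ η := by
    calc η ^ r ≤ η ^ 1 := pow_le_pow_of_le_one hη.le hη1 hr
      _ = η := pow_one η
  have hηrpos : 0 < η ^ r := pow_pos hη r
  have hD2 : D ≤ η / 2 := by
    rw [hDη, div_le_iff₀ hCbpos]
    nlinarith
  -- the bump `α`
  obtain ⟨α, hα, hα1, hα0, hαn⟩ := hb1 (y₀ : E) η ((y₀ : E) - (y₁ : E)) hη hη1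
  have hnormD : ‖(y₀ : E) - (y₁ : E)‖ = D := by
    rw [hDdef, ← Submodule.coe_sub, Submodule.coe_norm]
  have hαy₁ : α (y₁ : E) = (y₀ : E) - (y₁ : E) := by
    apply hα1
    rw [norm_sub_rev, hnormD]
    exact hD2
  have hαε : ∀ j ≤ r, ∀ y, ‖iteratedFDeriv ℝ j α y‖ ≤ ε := by
    intro j hj y
    refine (hαn j hj y).trans ?_
    rw [hnormD, div_le_iff₀ hηrpos, hηr]
    calc C₁ * D ≤ Cb * D := mul_le_mul_of_nonneg_right hCb1 hD.le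
      _ = ε * (Cb * D / ε) := by field_simp
  have hy₀n : ‖(y₀ : E)‖ = ‖y₀‖ := rfl
  have hαsupp : ∀ y, ε ≤ ‖y‖ → α y = 0 := by
    intro y hy
    apply hα0
    have h2 : ‖y‖ ≤ ‖y - (y₀ : E)‖ + ‖(y₀ : E)‖ := by
      calc ‖y‖ = ‖(y - (y₀ : E)) + (y₀ : E)‖ := by rw [sub_add_cancel]
        _ ≤ _ := norm_add_le _ _
    rw [hy₀n] at h2
    linarith
  -- the orbit of `sec y₀`
  obtain ⟨X, hX⟩ : ∃ X : ℕ → W, ∀ m, X m = f^[m] (sec I p (y₀ : E)) := ⟨_, fun _ => rfl⟩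
  have hy₀R' : ‖y₀‖ < R' := by linarith
  have hy₁R' : ‖y₁‖ < R' := by linarith
  have hy₀R : ‖y₀‖ < t.R := by linarith
  have hy₁R : ‖y₁‖ < t.R := by linarith
  have hX0 : X 0 = sec I p (y₀ : E) := by rw [hX]; rfl
  have hX0mem : X 0 ∈ tubeSet I ρ p t.E₀ t.R := ⟨0, y₀, hy₀R, by rw [hX0, hρ.zero]⟩
  have hX0Y : t.Y (X 0) = y₀ := by
    have h2 := t.Y_eq 0 y₀ hy₀R
    rw [hρ.zero] at h2
    rw [hX0]
    exact h2
  have hrep : ∀ m, ∃ v : Fin k → ℝ, X m ∈ tubeSet I ρ p t.E₀ t.R →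
      X m = ρ v (sec I p (t.Y (X m) : E)) := by
    intro m
    by_cases h : X m ∈ tubeSet I ρ p t.E₀ t.R
    · obtain ⟨-, v, hv⟩ := exists_rep t (X m) h
      exact ⟨v, fun _ => hv⟩
    · exact ⟨0, fun h' => absurd h' h⟩
  choose Ev hEv using hrep
  obtain ⟨𝒥, h𝒥⟩ : ∃ 𝒥 : Finset ℕ, ∀ m, m ∈ 𝒥 ↔ m < N ∧ (m = 0 ∨
      (X m ∈ tubeSet I ρ p t.E₀ t.R ∧ ‖t.Y (X m) - y₀‖ ≤ t.C * η)) :=
    ⟨(Finset.range N).filter (fun m => m = 0 ∨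
      (X m ∈ tubeSet I ρ p t.E₀ t.R ∧ ‖t.Y (X m) - y₀‖ ≤ t.C * η)), fun m => by
        rw [Finset.mem_filter, Finset.mem_range]⟩
  have h0𝒥 : 0 ∈ 𝒥 := (h𝒥 0).2 ⟨hN0, Or.inl rfl⟩
  have h𝒥mem : ∀ m ∈ 𝒥, X m ∈ tubeSet I ρ p t.E₀ t.R ∧ ‖t.Y (X m) - y₀‖ ≤ t.C * η := by
    intro m hm
    rcases ((h𝒥 m).1 hm).2 with rfl | h
    · refine ⟨hX0mem, ?_⟩
      rw [hX0Y, sub_self, norm_zero]
      positivity
    · exact h
  have hYle : ∀ m ∈ 𝒥, ‖t.Y (X m)‖ ≤ ‖y₀‖ + μ / 8 := by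
    intro m hm
    have h2 := (h𝒥mem m hm).2
    have h3 : ‖t.Y (X m)‖ ≤ ‖t.Y (X m) - y₀‖ + ‖y₀‖ := by
      calc ‖t.Y (X m)‖ = ‖(t.Y (X m) - y₀) + y₀‖ := by rw [sub_add_cancel]
        _ ≤ _ := norm_add_le _ _
    linarith
  have h𝒥R' : ∀ m ∈ 𝒥, X m ∈ tubeSet I ρ p t.E₀ R' := by
    intro m hm
    rw [mem_tubeSet_iff t R' hRt.le]
    refine ⟨(h𝒥mem m hm).1, ?_⟩
    have := hYle m hm
    linarith
  obtain ⟨s, hs⟩ : ∃ s : ℝ, s = D / 2 ^ r := ⟨_, rfl⟩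
  have hspos : 0 < s := by rw [hs]; positivity
  have hsD : s ≤ D := by
    rw [hs]
    exact div_le_self hD.le (one_le_pow₀ (by norm_num))
  have hDμ : D ≤ μ / 16 := by linarith
  have hsep' : ∀ m ∈ 𝒥, ∀ m' ≤ N, m ≠ m' → X m' ∈ tubeSet I ρ p t.E₀ R' →
      s ≤ ‖t.Y (X m) - t.Y (X m')‖ := by
    intro m hm m' hm' hne hXm'
    have hmN := ((h𝒥 m).1 hm).1
    have h2 := h𝒥R' m hm
    have h3 := (h𝒥mem m hm).2
    rw [hX] at h2 h3 hXm'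
    have h4 := hsep m hmN.le m' hm' hne h2 hXm' (by linarith)
    rw [hs, div_le_iff₀ (by positivity), hX, hX, mul_comm]
    exact h4
  -- packing
  obtain ⟨K, hK⟩ : ∃ K : ℕ, 𝒥.card = K + 1 := by
    refine ⟨𝒥.card - 1, ?_⟩
    have : 0 < 𝒥.card := Finset.card_pos.2 ⟨0, h0𝒥⟩
    omega
  have hKle : (K : ℝ) ≤ (1 + 2 * (t.C * η) / s) ^ Module.finrank ℝ t.E₀ := by
    have h2 : (𝒥.erase 0).card = K := by
      rw [Finset.card_erase_of_mem h0𝒥, hK]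
      rfl
    rw [← h2]
    refine card_le_of_separated t.E₀ (𝒥.erase 0) (fun m => t.Y (X m)) y₀ (t.C * η) s
      (by positivity) hspos ?_ ?_
    · intro m hm
      exact (h𝒥mem m (Finset.mem_of_mem_erase hm)).2
    · intro m hm m' hm' hne
      exact hsep' m (Finset.mem_of_mem_erase hm) m'
        ((h𝒥 m').1 (Finset.mem_of_mem_erase hm')).1.le hne
        (h𝒥R' m' (Finset.mem_of_mem_erase hm'))
  have hsη : s = ε * η ^ r / Cb / 2 ^ r := by rw [hs, ← hDη]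
  obtain ⟨v, hv⟩ : ∃ v : ℝ, v = ε * (s / 3) ^ r / Cb := ⟨_, rfl⟩
  have hvpos : 0 < v := by rw [hv]; positivity
  have hs3 : s / 3 ≤ 1 := by linarith
  have hv1 : v ≤ 1 := by
    rw [hv, div_le_one hCbpos]
    have h2 : (s / 3) ^ r ≤ 1 := pow_le_one₀ (by positivity) hs3
    have h3 : 0 < (s / 3) ^ r := by positivity
    nlinarith
  have hdich : (K : ℝ) * (t.C * η) ^ k ≤ c ∨ (t.C * η) ^ k ≤ c * v := by
    have h2 := hnum η hη hηη₀ (K : ℝ) (Nat.cast_nonneg K) (by rw [← hsη]; exact hKle)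
    rw [← hsη, ← hv] at h2
    exact h2
  -- the enumeration of `𝒥`
  have hfin : {m | m ∈ 𝒥}.Finite := 𝒥.finite_toSet
  have hcard : hfin.toFinset.card = K + 1 := by
    rw [← hK]
    congr 1
    ext m
    simp
  have hnth_mem : ∀ i, i ≤ K → Nat.nth (· ∈ 𝒥) i ∈ 𝒥 := by
    intro i hi
    exact Nat.nth_mem_of_lt_card hfin (by rw [hcard]; omega)
  have hnth_lt : ∀ i j, i < j → j ≤ K → Nat.nth (· ∈ 𝒥) i < Nat.nth (· ∈ 𝒥) j := by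
    intro i j hij hj
    exact Nat.nth_strictMonoOn hfin (by rw [Set.mem_Iio, hcard]; omega)
      (by rw [Set.mem_Iio, hcard]; omega) hij
  have hnth0 : Nat.nth (· ∈ 𝒥) 0 = 0 := Nat.nth_zero_of_zero h0𝒥
  have hcount_lt : ∀ m ∈ 𝒥, Nat.count (· ∈ 𝒥) m ≤ K := by
    intro m hm
    have h2 := Nat.count_lt_card hfin hm
    rw [hcard] at h2
    omega
  have hcountN : Nat.count (· ∈ 𝒥) N = K + 1 := by
    rw [Nat.count_eq_card_filter_range, ← hK]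
    congr 1
    ext m
    rw [Finset.mem_filter, Finset.mem_range]
    constructor
    · exact fun h => h.2
    · exact fun h => ⟨((h𝒥 m).1 h).1, h⟩
  obtain ⟨w, u, hw, hu0, hustep, ⟨z, hz⟩, hav⟩ := hpath N K (fun i => Nat.nth (· ∈ 𝒥) i)
    (fun i => -Ev (Nat.nth (· ∈ 𝒥) i)) (-e) (t.C * η) v hN hN0 (by positivity) hvpos hv1
    (by
      intro i hi1 hiK
      refine ⟨?_, ((h𝒥 _).1 (hnth_mem i hiK)).1⟩
      have := hnth_lt 0 i (by omega) hiK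
      rw [hnth0] at this
      exact this)
    (by
      intro i j _ hij hj
      exact hnth_lt i j hij hj) hdich
  -- the pushes
  obtain ⟨β, hβ, hβ1, hβ0, hβn⟩ := hb2 𝒥 (fun m => t.Y (X m))
    (fun m => u (Nat.count (· ∈ 𝒥) m + 1) - u (Nat.count (· ∈ 𝒥) m)) (s / 3) v (by positivity)
    hs3 hvpos.le (fun m hm => hustep _ (hcount_lt m hm))
    (by
      intro m hm m' hm' hne
      have h2 := hsep' m hm m' ((h𝒥 m').1 hm').1.le hne (h𝒥R' m' hm')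
      linarith)
  have hs3pos : 0 < (s / 3) ^ r := by positivity
  have hβε : ∀ j ≤ r, ∀ y, ‖iteratedFDeriv ℝ j β y‖ ≤ ε := by
    intro j hj y
    refine (hβn j hj y).trans ?_
    rw [div_le_iff₀ hs3pos, hv, mul_div_assoc', div_le_iff₀ hCbpos]
    have h2 : 0 < ε * (s / 3) ^ r := by positivity
    nlinarith
  have hfar : ∀ y : t.E₀, R' ≤ ‖y‖ → ∀ m ∈ 𝒥, s / 3 ≤ ‖y - t.Y (X m)‖ := by
    intro y hy m hm
    have h2 := hYle m hm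
    have h3 : ‖y‖ ≤ ‖y - t.Y (X m)‖ + ‖t.Y (X m)‖ := by
      calc ‖y‖ = ‖(y - t.Y (X m)) + t.Y (X m)‖ := by rw [sub_add_cancel]
        _ ≤ _ := norm_add_le _ _
    linarith
  have hβsupp : ∀ y, ε ≤ ‖y‖ → β y = 0 := fun y hy => hβ0 y (hfar y (hRε.trans hy))
  refine ⟨α, β, w, hα, hβ, hαε, hβε, hαsupp, hβsupp, hw, ?_⟩
  have hRr' : ‖y₀‖ + η ≤ r0 := by linarith
  refine close_step hρ t f hf α β w y₀ y₁ hy₁R η hαy₁ hα0 N hN0 e he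
    (fun m => (m : ℝ) • w + u (Nat.count (· ∈ 𝒥) m)) ?_ ?_ ?_ ?_
  · show ((0 : ℕ) : ℝ) • w + u (Nat.count (· ∈ 𝒥) 0) = 0
    rw [Nat.count_zero, hu0]
    simp
  · intro m hm
    show ((m + 1 : ℕ) : ℝ) • w + u (Nat.count (· ∈ 𝒥) (m + 1)) = _
    rw [displacement]
    congr 1
    rw [← hX m]
    by_cases hm𝒥 : m ∈ 𝒥
    · rw [if_pos hm𝒥, if_pos (h𝒥mem m hm𝒥).1]
      exact (hβ1 m hm𝒥).symm
    · rw [if_neg hm𝒥]
      by_cases hXm : X m ∈ tubeSet I ρ p t.E₀ t.R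
      · rw [if_pos hXm]
        refine (hβ0 _ ?_).symm
        rcases le_or_gt R' ‖t.Y (X m)‖ with h2 | h2
        · exact hfar _ h2
        · intro l hl
          have h3 := hsep' l hl m hm.le (fun h => hm𝒥 (h ▸ hl))
            ((mem_tubeSet_iff t R' hRt.le _).2 ⟨hXm, h2⟩)
          rw [norm_sub_rev] at h3
          linarith
      · rw [if_neg hXm]
  · refine ⟨z, ?_⟩
    show (N : ℝ) • w + u (Nat.count (· ∈ 𝒥) N) + e = _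
    rw [hcountN, ← hz, sub_neg_eq_add]
  · intro m hm0 hmN hsrc
    by_contra hlt
    push Not at hlt
    rw [← hX m] at hsrc hlt
    obtain ⟨ha1, ha2, ha3⟩ := avoid hρ t r0 hr0 (X m) _ y₀ η hy₀R (by linarith) hRr' hsrc hlt
    have hm𝒥 : m ∈ 𝒥 := (h𝒥 m).2 ⟨hmN, Or.inr ⟨ha1, ha2.le⟩⟩
    obtain ⟨z', hz'⟩ := ha3 (Ev m) (hEv m ha1)
    have hi1 : 1 ≤ Nat.count (· ∈ 𝒥) m := by
      have h2 := Nat.count_strict_mono (p := (· ∈ 𝒥)) h0𝒥 hm0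
      omega
    have h3 := hav (Nat.count (· ∈ 𝒥) m) hi1 (hcount_lt m hm𝒥) z'
    have h4 : Nat.nth (· ∈ 𝒥) (Nat.count (· ∈ 𝒥) m) = m := Nat.nth_count hm𝒥
    simp only [h4, sub_neg_eq_add] at h3
    exact absurd hz' (not_lt.2 h3)

end Pool.Agent.EQ
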