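import Pool.Agent.Lib.MP_1e8d1a_an.EQ.F2

/-! row K4 -/

open scoped ContDiff Manifold Topology BoundedContinuousFunction

namespace Pool.Agent.EQ

open Pool.Agent.SC

variable {E : Type} [NormedAddCommGroup E] [NormedSpace ℝ E] {H : Type} [TopologicalSpace H]
  {I : ModelWithCorners ℝ E H} {W : Type} [TopologicalSpace W] [ChartedSpace H W]

variable {k : ℕ} {ρ : (Fin k → ℝ) → W → W} {p : W}

theorem k4_iter {f : W → W} (hf : ∀ v q, f (ρ v q) = ρ v (f q)) (m : ℕ) (v : Fin k → ℝ) (q : W) :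
    f^[m] (ρ v q) = ρ v (f^[m] q) := by
  induction m with
  | zero => rfl
  | succ m ih => rw [Function.iterate_succ_apply', Function.iterate_succ_apply', ih, hf]

theorem k4_one [I.Boundaryless] [IsManifold I ∞ W]
    (hρ : IsTorusAction I k ρ) (t : Tube I k ρ p) (f : W → W) (hfc : Continuous f)
    (hf : ∀ v q, f (ρ v q) = ρ v (f q)) (m : ℕ) (h : ∀ z, f^[m] p ≠ ρ z p) :
    ∃ R' : ℝ, 0 < R' ∧ ∀ R'' ≤ R', ∀ q ∈ tubeSet I ρ p t.E₀ R'',
      f^[m] q ∉ tubeSet I ρ p t.E₀ R'' := by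
  have hsec0 : sec I p (((0 : t.E₀) : E)) = p := by
    unfold sec
    rw [Submodule.coe_zero, add_zero]
    exact extChartAt_to_inv (I := I) p
  have key : ∃ R₁ : ℝ, 0 < R₁ ∧ R₁ < t.R ∧
      f^[m] p ∉ {q : W | q ∈ tubeSet I ρ p t.E₀ t.R ∧ ‖t.Y q‖ ≤ R₁} := by
    by_cases hm : f^[m] p ∈ tubeSet I ρ p t.E₀ t.R
    · obtain ⟨h1, v, h2⟩ := exists_rep t _ hm
      have h3 : 0 < ‖t.Y (f^[m] p)‖ := by
        rw [norm_pos_iff]
        intro h0
        apply h v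
        rw [h0, hsec0] at h2
        exact h2
      refine ⟨‖t.Y (f^[m] p)‖ / 2, by positivity, by linarith, ?_⟩
      rintro ⟨_, h4⟩
      linarith
    · refine ⟨t.R / 2, by have := t.R_pos; positivity, by have := t.R_pos; linarith, ?_⟩
      rintro ⟨h4, _⟩
      exact hm h4
  obtain ⟨R₁, hR₁, hR₁t, hnot⟩ := key
  have hclosed := t.closed R₁ hR₁t
  have hcont : ContinuousAt (fun y : t.E₀ => f^[m] (sec I p (y : E))) 0 := by
    have h1 : ContinuousAt (fun y : t.E₀ => sec I p (y : E)) 0 := by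
      unfold sec
      have h2 : ContinuousAt (fun y : t.E₀ => extChartAt I p p + (y : E)) 0 := by
        fun_prop
      have h3 : ContinuousAt (extChartAt I p).symm (extChartAt I p p + ((0 : t.E₀) : E)) := by
        rw [Submodule.coe_zero, add_zero]
        exact continuousAt_extChartAt_symm p
      exact ContinuousAt.comp (f := fun y : t.E₀ => extChartAt I p p + (y : E)) h3 h2
    exact ((hfc.iterate m).continuousAt).comp h1
  have hev : ∀ᶠ y : t.E₀ in nhds 0, f^[m] (sec I p (y : E)) ∈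
      {q : W | q ∈ tubeSet I ρ p t.E₀ t.R ∧ ‖t.Y q‖ ≤ R₁}ᶜ := by
    apply hcont.eventually_mem
    apply hclosed.isOpen_compl.mem_nhds
    show f^[m] (sec I p (((0 : t.E₀) : E))) ∈ _
    rw [hsec0]
    exact hnot
  rw [Metric.eventually_nhds_iff] at hev
  obtain ⟨R₂, hR₂, hR₂'⟩ := hev
  refine ⟨min R₁ R₂, lt_min hR₁ hR₂, ?_⟩
  rintro R'' hR'' q ⟨v, y, hy, rfl⟩ hmem
  rw [k4_iter hf, rho_mem_iff hρ, mem_tubeSet_iff t R''
    ((hR''.trans (min_le_left _ _)).trans hR₁t.le)] at hmem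
  have h5 : dist y 0 < R₂ := by
    rw [dist_zero_right]
    exact lt_of_lt_of_le hy (hR''.trans (min_le_right _ _))
  exact hR₂' h5 ⟨hmem.1, (hmem.2.le.trans hR'').trans (min_le_left _ _)⟩

/-- PROOF.  For one `m`: if `f^[m] p ∉ tubeSet .. t.R`: the set `{tubeSet, ‖Y‖ ≤ R / 2}` is closed
(`t.closed`) and does not contain `f^[m] p`, so by continuity (`y ↦ f^[m] (sec y)` is continuous at
`0`, `sec 0 = p`) `f^[m] (sec y)` is not in it for `‖y‖ < R₁`; take `R' ≤ min R₁ (R / 2)`: a point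
`ρ v (sec y)` with `‖y‖ < R'` has `f^[m] (ρ v (sec y)) = ρ v (f^[m] (sec y))`, and if this were in
`tubeSet .. R'` then `f^[m] (sec y)` would be in the tube with `‖Y‖ < R' ≤ R / 2` (`Y_eq`,
`rho_mem_iff`).  If `f^[m] p ∈ tubeSet .. t.R`: `y* = Y (f^[m] p) ≠ 0` (otherwise
`f^[m] p = ρ v (sec 0) = ρ v p`); `Y` is continuous there and the tube is open, so for `‖y‖ < R₁`:
`f^[m] (sec y)` is in the tube with `‖Y‖ > ‖y*‖ / 2`; `R' ≤ min R₁ (‖y*‖ / 2)`.  Finite minimum over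
`1 ≤ m ≤ N₀`. -/
theorem far_visits [FiniteDimensional ℝ E] [T2Space W] [IsManifold I ∞ W] [I.Boundaryless]
    (hρ : IsTorusAction I k ρ) (t : Tube I k ρ p) (f : W → W) (hfc : Continuous f)
    (hf : ∀ v q, f (ρ v q) = ρ v (f q)) (N₀ : ℕ)
    (h : ∀ m, 1 ≤ m → m ≤ N₀ → ∀ z, f^[m] p ≠ ρ z p) :
    ∃ R' : ℝ, 0 < R' ∧ R' < t.R ∧ ∀ R'' ≤ R', ∀ q ∈ tubeSet I ρ p t.E₀ R'', ∀ m, 1 ≤ m →
      m ≤ N₀ → f^[m] q ∉ tubeSet I ρ p t.E₀ R'' := by
  induction N₀ with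
  | zero =>
    have hR := t.R_pos
    refine ⟨t.R / 2, by positivity, by linarith, ?_⟩
    intro R'' _ q _ m hm1 hm0
    omega
  | succ N₀ ih =>
    obtain ⟨R₁, hR₁, hR₁t, h1⟩ := ih (fun m hm hm' => h m hm (by omega))
    obtain ⟨R₂, hR₂, h2⟩ := k4_one hρ t f hfc hf (N₀ + 1) (h (N₀ + 1) (by omega) le_rfl)
    refine ⟨min R₁ R₂, lt_min hR₁ hR₂, lt_of_le_of_lt (min_le_left _ _) hR₁t, ?_⟩
    intro R'' hR'' q hq m hm hm'
    rcases Nat.lt_or_ge m (N₀ + 1) with h3 | h3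
    · exact h1 R'' (hR''.trans (min_le_left _ _)) q hq m hm (by omega)
    · have h4 : m = N₀ + 1 := by omega
      subst h4
      exact h2 R'' (hR''.trans (min_le_right _ _)) q hq

end Pool.Agent.EQ
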