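import Pool.Agent.Lib.MP_1e8d1a_an.EQ.F2
import Pool.Agent.Lib.MP_1e8d1a_an.EQ.F7

/-! row K4b -/

open scoped ContDiff Manifold Topology BoundedContinuousFunction

namespace Pool.Agent.EQ

open Pool.Agent.SC

variable {E : Type} [NormedAddCommGroup E] [NormedSpace ℝ E] {H : Type} [TopologicalSpace H]
  {I : ModelWithCorners ℝ E H} {W : Type} [TopologicalSpace W] [ChartedSpace H W]

variable {k : ℕ} {ρ : (Fin k → ℝ) → W → W} {p : W}

/-- iterates of `f ∘ ρ w` -/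
private theorem K4b_iter (hρ : IsTorusAction I k ρ) (f : W → W)
    (hf : ∀ v q, f (ρ v q) = ρ v (f q)) (w : Fin k → ℝ) (q : W) (n : ℕ) :
    (fun q => f (ρ w q))^[n] q = ρ ((n : ℝ) • w) (f^[n] q) := by
  induction n with
  | zero => simp [hρ.zero]
  | succ n ih =>
    rw [Function.iterate_succ_apply', ih, Function.iterate_succ_apply']
    show f (ρ w (ρ ((n : ℝ) • w) (f^[n] q))) = _
    rw [hf, hf, ← hρ.add]
    congr 1
    push_cast
    rw [add_smul, one_smul, add_comm]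

/-- multiples of a period -/
private theorem K4b_mul (hρ : IsTorusAction I k ρ) (f : W → W)
    (hf : ∀ v q, f (ρ v q) = ρ v (f q)) (N : ℕ) (z : Fin k → ℝ) (q : W)
    (hz : f^[N] q = ρ z q) (m : ℕ) : f^[m * N] q = ρ ((m : ℝ) • z) q := by
  have hfN : ∀ (n : ℕ) (v : Fin k → ℝ) (q : W), f^[n] (ρ v q) = ρ v (f^[n] q) := by
    intro n v q
    induction n with
    | zero => rfl
    | succ n ih => rw [Function.iterate_succ_apply', ih, hf, Function.iterate_succ_apply']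
  induction m with
  | zero => simp [hρ.zero]
  | succ m ih =>
    rw [add_mul, one_mul, add_comm, Function.iterate_add_apply, ih, hfN, hz, ← hρ.add]
    congr 1
    push_cast
    rw [add_smul, one_smul]

/-- `shf 0 = id` -/
private theorem K4b_shf (q : W) : shf I p (fun _ : E => (0 : E)) q = q := by
  unfold shf
  by_cases hq : q ∈ (extChartAt I p).source
  · rw [trans2_tr_of_mem p _ q hq, add_zero, add_sub_cancel]
    exact (extChartAt I p).left_inv hq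
  · exact trans2_tr_of_not_mem p _ q hq

/-- `push 0 = id` -/
private theorem K4b_push (hρ : IsTorusAction I k ρ) (t : Tube I k ρ p) (q : W) :
    push I t (fun _ : t.E₀ => (0 : Fin k → ℝ)) q = q := by
  unfold push
  split_ifs
  · exact hρ.zero q
  · rfl

/-- PROOF.  Let `n₀ ≥ 1` with `1 / n₀ ≤ ε` and `c j = round (n₀ z j)`, `w = (1 / (n₀ N)) • (c - n₀ z)`,
`‖w‖ ≤ 1 / (2 n₀ N) ≤ ε`.  `hpert` with `α = 0`, `β = 0` (all derivatives `0`): `G ∈ U`, `h`, `h p' = p`,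
`G (h q) = h (f (ρ w q))` (`push 0 = id`: `ρ 0 q = q`; `shf 0 = id`: `shf_eq_self`).  So
`G^[n] p = h ((fun q => f (ρ w q))^[n] p') = h (ρ (n w) (f^[n] p'))`, `n = n₀ N`:
`f^[n₀ N] p' = ρ (n₀ z) p'`, `ρ (n w + n₀ z) p' = ρ c p' = p'`. -/
theorem rotation_case (hρ : IsTorusAction I k ρ) (t : Tube I k ρ p) {𝒢 : Type}
    (app : 𝒢 → W → W) (U : Set 𝒢) (r : ℕ) (f : W → W) (hf : ∀ v q, f (ρ v q) = ρ v (f q))
    (ε : ℝ) (hε : 0 < ε)
    (hpert : ∀ (α : E → E) (β : t.E₀ → (Fin k → ℝ)) (w : Fin k → ℝ)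
      (p' : W), ContDiff ℝ r α → ContDiff ℝ r β → (∀ j ≤ r, ∀ y, ‖iteratedFDeriv ℝ j α y‖ ≤ ε) →
      (∀ j ≤ r, ∀ y, ‖iteratedFDeriv ℝ j β y‖ ≤ ε) → (∀ y, ε ≤ ‖y‖ → α y = 0) →
      (∀ y, ε ≤ ‖y‖ → β y = 0) → ‖w‖ ≤ ε → p' ∈ (extChartAt I p).source → ‖cc I p p'‖ ≤ ε →
      ∃ G ∈ U, ∃ h : W ≃ W, h p' = p ∧
        ∀ q, app G (h q) = h (f (push I t β (ρ w (shf I p α q)))))
    (p' : W) (hp' : p' ∈ (extChartAt I p).source) (hp'ε : ‖cc I p p'‖ ≤ ε) (N : ℕ)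
    (hN : 0 < N) (z : Fin k → ℝ) (hz : f^[N] p' = ρ z p') :
    ∃ G ∈ U, ∃ n : ℕ, 0 < n ∧ (app G)^[n] p = p := by
  obtain ⟨m, hm⟩ := exists_nat_one_div_lt hε
  set n₀ : ℕ := m + 1 with hn₀
  have hn₀pos : (0 : ℝ) < (n₀ : ℝ) := by
    rw [hn₀]
    positivity
  have hNpos : (1 : ℝ) ≤ (N : ℝ) := by exact_mod_cast hN
  set c : Fin k → ℤ := fun j => round ((n₀ : ℝ) * z j) with hc
  set w : Fin k → ℝ := (1 / ((n₀ : ℝ) * N)) • ((fun j => (c j : ℝ)) - (n₀ : ℝ) • z) with hw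
  have hw1 : ‖w‖ ≤ ε := by
    have h1 : ‖(fun j => (c j : ℝ)) - (n₀ : ℝ) • z‖ ≤ 1 / 2 := by
      rw [pi_norm_le_iff_of_nonneg (by norm_num)]
      intro j
      rw [Pi.sub_apply, Pi.smul_apply, smul_eq_mul, Real.norm_eq_abs, abs_sub_comm]
      exact abs_sub_round _
    have h2 : (1 / ((n₀ : ℝ) * N)) ≤ 1 / (n₀ : ℝ) :=
      one_div_le_one_div_of_le hn₀pos (le_mul_of_one_le_right hn₀pos.le hNpos)
    have h3 : (1 : ℝ) / (n₀ : ℝ) < ε := by
      rw [hn₀]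
      push_cast
      exact hm
    have h4 : (0 : ℝ) ≤ 1 / ((n₀ : ℝ) * N) := by positivity
    rw [hw, norm_smul, Real.norm_of_nonneg h4]
    calc 1 / ((n₀ : ℝ) * N) * ‖(fun j => (c j : ℝ)) - (n₀ : ℝ) • z‖
        ≤ 1 / ((n₀ : ℝ) * N) * (1 / 2) := mul_le_mul_of_nonneg_left h1 h4
      _ ≤ 1 / ((n₀ : ℝ) * N) * 1 := mul_le_mul_of_nonneg_left (by norm_num) h4
      _ ≤ 1 / (n₀ : ℝ) := by rw [mul_one]; exact h2
      _ ≤ ε := h3.le
  have h0 : ∀ {X Y : Type} [NormedAddCommGroup X] [NormedSpace ℝ X] [NormedAddCommGroup Y]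
      [NormedSpace ℝ Y] (j : ℕ) (y : X), ‖iteratedFDeriv ℝ j (fun _ : X => (0 : Y)) y‖ ≤ ε := by
    intro X Y _ _ _ _ j y
    have h : iteratedFDeriv ℝ j (fun _ : X => (0 : Y)) = 0 := iteratedFDeriv_fun_zero
    rw [h]
    simpa using hε.le
  obtain ⟨G, hG, h, hh, hGh⟩ := hpert (fun _ => 0) (fun _ => 0) w p' contDiff_const contDiff_const
    (fun j _ y => h0 j y) (fun j _ y => h0 j y) (fun _ _ => rfl) (fun _ _ => rfl) hw1 hp' hp'ε
  have hstep : ∀ q, app G (h q) = h (f (ρ w q)) := by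
    intro q
    rw [hGh q, K4b_shf, K4b_push hρ t]
  have hiter : ∀ n : ℕ, (app G)^[n] p = h ((fun q => f (ρ w q))^[n] p') := by
    intro n
    induction n with
    | zero => exact hh.symm
    | succ n ih => rw [Function.iterate_succ_apply', ih, hstep, Function.iterate_succ_apply']
  refine ⟨G, hG, n₀ * N, Nat.mul_pos (Nat.succ_pos m) hN, ?_⟩
  rw [hiter, K4b_iter hρ f hf, K4b_mul hρ f hf N z p' hz n₀, ← hρ.add]
  have hsum : (((n₀ * N : ℕ) : ℝ) • w + (n₀ : ℝ) • z) = fun j => (c j : ℝ) := by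
    have hne : (n₀ : ℝ) * N ≠ 0 := by positivity
    rw [hw, smul_smul]
    push_cast
    rw [mul_one_div_cancel hne, one_smul, sub_add_cancel]
  rw [hsum, hρ.int, hh]

end Pool.Agent.EQ
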