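import Pool.Agent.Lib.MP_1e8d1a_an.EQ.Defs

/-! row S1 -/

open scoped ContDiff Manifold Topology BoundedContinuousFunction

namespace Pool.Agent.EQ

open Pool.Agent.SC

/-- **Selection of the pair.**

PROOF.  `Q (i, j) = ‖y i - y j‖ / (R' - ‖y i‖) ^ r` on the finite nonempty set of pairs `i ≠ j` of
`J` (`J.offDiag`); let `(i, j)` minimise `Q` (`Finset.exists_min_image`), `μ = R' - ‖y i‖ ∈ (0, 1]`,
`D = ‖y i - y j‖ = Q μ ^ r ≤ κ μ ^ r ≤ κ μ ≤ μ / 4` (`Q ≤ Q (i₀, j₀) ≤ κ`; `r ≥ 1`, `μ ≤ 1`), `D > 0`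
by `hinj`.  Let `{a, b} = {i, j}` with `a < b` (`D` is symmetric).  `‖y a‖ ≤ ‖y i‖ + D ≤ R' - 3/4 μ`, the same
for `b`.  If `‖y l - y a‖ ≤ μ / 4` then `‖y l‖ ≤ ‖y a‖ + μ / 4 ≤ R' - μ / 2`, so for `l' ≠ l` in `J`:
`‖y l - y l'‖ = Q (l, l') (R' - ‖y l‖) ^ r ≥ Q (i, j) (μ / 2) ^ r = D / 2 ^ r`. -/
theorem selection {X : Type} [NormedAddCommGroup X] (r : ℕ) (hr : 1 ≤ r) (y : ℕ → X)
    (J : Finset ℕ) (R' κ : ℝ) (hR' : 0 < R') (hR1 : R' ≤ 1) (hκ : 0 < κ) (hκ1 : κ ≤ 1 / 4)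
    (hJ : ∀ j ∈ J, ‖y j‖ < R') (hinj : ∀ i ∈ J, ∀ j ∈ J, y i = y j → i = j) (i₀ j₀ : ℕ)
    (hi₀ : i₀ ∈ J) (hj₀ : j₀ ∈ J) (hne : i₀ ≠ j₀)
    (hQ : ‖y i₀ - y j₀‖ ≤ κ * (R' - ‖y i₀‖) ^ r) :
    ∃ a ∈ J, ∃ b ∈ J, a < b ∧ ∃ μ : ℝ, 0 < μ ∧ μ ≤ R' ∧ ‖y a‖ + 3 / 4 * μ ≤ R' ∧
      ‖y b‖ + 3 / 4 * μ ≤ R' ∧ 0 < ‖y a - y b‖ ∧ ‖y a - y b‖ ≤ κ * μ ^ r ∧
      ∀ i ∈ J, ∀ j ∈ J, i ≠ j → ‖y i - y a‖ ≤ μ / 4 →
        ‖y a - y b‖ ≤ 2 ^ r * ‖y i - y j‖ := by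
  classical
  have hmem : (i₀, j₀) ∈ J.offDiag := Finset.mem_offDiag.mpr ⟨hi₀, hj₀, hne⟩
  obtain ⟨⟨i, j⟩, hij, hmin⟩ := Finset.exists_min_image J.offDiag
    (fun p => ‖y p.1 - y p.2‖ / (R' - ‖y p.1‖) ^ r) ⟨_, hmem⟩
  obtain ⟨hi, hj, hne'⟩ := Finset.mem_offDiag.mp hij
  simp only at hi hj hne'
  set μ : ℝ := R' - ‖y i‖ with hμ
  have hμ0 : 0 < μ := by have := hJ i hi; simp only [hμ]; linarith
  have hμR : μ ≤ R' := by have := norm_nonneg (y i); simp only [hμ]; linarith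
  have hμ1 : μ ≤ 1 := hμR.trans hR1
  have hμr : 0 < μ ^ r := pow_pos hμ0 r
  have hpos0 : 0 < (R' - ‖y i₀‖) ^ r := pow_pos (by have := hJ i₀ hi₀; linarith) r
  have hQij : ‖y i - y j‖ / μ ^ r ≤ κ := by
    have h1 := hmin _ hmem
    simp only at h1
    refine h1.trans ?_
    rw [div_le_iff₀ hpos0]
    exact hQ
  have hD : ‖y i - y j‖ ≤ κ * μ ^ r := (div_le_iff₀ hμr).mp hQij
  have hpow : μ ^ r ≤ μ := by
    calc μ ^ r ≤ μ ^ 1 := pow_le_pow_of_le_one hμ0.le hμ1 hr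
      _ = μ := pow_one μ
  have hD4 : ‖y i - y j‖ ≤ μ / 4 := by nlinarith [hD, hpow, hκ, hκ1, hμ0]
  have hD0 : 0 < ‖y i - y j‖ := by
    rw [norm_pos_iff, sub_ne_zero]
    exact fun h => hne' (hinj i hi j hj h)
  have hyi : ‖y i‖ = R' - μ := by simp only [hμ]; ring
  have hyj : ‖y j‖ ≤ ‖y i‖ + ‖y i - y j‖ := by
    have h1 : y j = y i - (y i - y j) := by abel
    calc ‖y j‖ = ‖y i - (y i - y j)‖ := by rw [← h1]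
      _ ≤ ‖y i‖ + ‖y i - y j‖ := norm_sub_le _ _
  -- the general statement, symmetric in the pair
  have key : ∀ a, (‖y a‖ + 3 / 4 * μ ≤ R') → ∀ l ∈ J, ∀ l' ∈ J, l ≠ l' → ‖y l - y a‖ ≤ μ / 4 →
      ‖y i - y j‖ ≤ 2 ^ r * ‖y l - y l'‖ := by
    intro a ha l hl l' hl' hll hla
    have h1 : ‖y l‖ ≤ ‖y l - y a‖ + ‖y a‖ := by
      calc ‖y l‖ = ‖(y l - y a) + y a‖ := by rw [sub_add_cancel]
        _ ≤ ‖y l - y a‖ + ‖y a‖ := norm_add_le _ _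
    have h2 : μ / 2 ≤ R' - ‖y l‖ := by linarith
    have h3 : 0 < R' - ‖y l‖ := by linarith
    have h4 : 0 < (R' - ‖y l‖) ^ r := pow_pos h3 r
    have h5 := hmin (l, l') (Finset.mem_offDiag.mpr ⟨hl, hl', hll⟩)
    simp only at h5
    have h6 : (μ / 2) ^ r ≤ (R' - ‖y l‖) ^ r := pow_le_pow_left₀ (by linarith) h2 r
    have h7 : ‖y i - y j‖ / μ ^ r * (R' - ‖y l‖) ^ r ≤ ‖y l - y l'‖ := by
      rwa [le_div_iff₀ h4] at h5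
    have h8 : ‖y i - y j‖ / μ ^ r * (μ / 2) ^ r ≤ ‖y l - y l'‖ :=
      (mul_le_mul_of_nonneg_left h6 (by positivity)).trans h7
    have h9 : ‖y i - y j‖ / μ ^ r * (μ / 2) ^ r = ‖y i - y j‖ / 2 ^ r := by
      rw [div_pow]
      field_simp
    rw [h9, div_le_iff₀ (by positivity)] at h8
    linarith
  have hai : ‖y i‖ + 3 / 4 * μ ≤ R' := by rw [hyi]; linarith
  have haj : ‖y j‖ + 3 / 4 * μ ≤ R' := by rw [hyi] at hyj; linarith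
  rcases lt_or_gt_of_ne hne' with hlt | hlt
  · exact ⟨i, hi, j, hj, hlt, μ, hμ0, hμR, hai, haj, hD0, hD, fun l hl l' hl' hll hla =>
      key i hai l hl l' hl' hll hla⟩
  · refine ⟨j, hj, i, hi, hlt, μ, hμ0, hμR, haj, hai, ?_, ?_, fun l hl l' hl' hll hla => ?_⟩
    · rw [norm_sub_rev]; exact hD0
    · rw [norm_sub_rev]; exact hD
    · rw [norm_sub_rev]; exact key j haj l hl l' hl' hll hla

end Pool.Agent.EQ
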