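import Pool.Agent.Lib.MP_1e8d1a_an.EQ.T5

/-! row T5b -/

open scoped ContDiff Manifold Topology BoundedContinuousFunction

namespace Pool.Agent.EQ

open Pool.Agent.SC

variable {E : Type} [NormedAddCommGroup E] [NormedSpace ℝ E] {H : Type} [TopologicalSpace H]
  {I : ModelWithCorners ℝ E H} {W : Type} [TopologicalSpace W] [ChartedSpace H W]

variable {k : ℕ} {ρ : (Fin k → ℝ) → W → W} {p : W}

theorem T5b_tgt (t : PreTube I k ρ p) (y₀ : t.E₀) (hy₀ : ‖y₀‖ < t.R) :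
    extChartAt I p p + (y₀ : E) ∈ (extChartAt I p).target := by
  apply t.ball
  rw [Metric.mem_closedBall, dist_eq_norm, add_sub_cancel_left]
  have h1 : ‖(y₀ : E)‖ < t.R := hy₀
  have h2 := t.R_pos
  have h3 := t.le_δ
  linarith

theorem T5b_src (t : PreTube I k ρ p) (y₀ : t.E₀) (hy₀ : ‖y₀‖ < t.R) :
    sec I p (y₀ : E) ∈ (extChartAt I p).source :=
  (extChartAt I p).map_target (T5b_tgt t y₀ hy₀)

theorem T5b_cc (t : PreTube I k ρ p) (y₀ : t.E₀) (hy₀ : ‖y₀‖ < t.R) :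
    cc I p (sec I p (y₀ : E)) = (y₀ : E) := by
  unfold cc sec
  rw [(extChartAt I p).right_inv (T5b_tgt t y₀ hy₀), add_sub_cancel_left]

theorem T5b_neg (hρ : IsTorusAction I k ρ) (v₀ : Fin k → ℝ) (x : W) :
    ρ (-v₀) (ρ v₀ x) = x := by
  rw [← hρ.add, neg_add_cancel, hρ.zero]

theorem T5b_act (hρ : IsTorusAction I k ρ) (v₀ : Fin k → ℝ) :
    ContMDiff I I ∞ (fun q : W => ρ v₀ q) :=
  hρ.smooth.comp (contMDiff_const.prodMk contMDiff_id)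

/-- The projection near a point of the tube.

PROOF.  `q₀ = ρ v₀ (sec y₀)`, `‖y₀‖ < R`.  Put `Z q = cc I p (ρ (-v₀) q)`; `ρ (-v₀) q₀ = sec y₀` is in
the source with `cc = y₀`, `‖y₀‖ < R`.  For `q` near `q₀` (continuity): `ρ (-v₀) q ∈ source`,
`‖Z q‖ < 2 R`, `Θ (Z q) =: (y, v)` satisfies `‖y‖ < R` (`Θ` is continuous at `y₀`, `Θ y₀ = (y₀, 0)` by
`t.left y₀ 0`), and `cc (ρ v (sec y)) = Z q` (`t.right`), both `ρ v (sec y)` (`t.src`) and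
`ρ (-v₀) q` are in the source, so they are equal, and `q = ρ (v₀ + v) (sec y)`. -/
theorem PreTube.nbhd [FiniteDimensional ℝ E] [IsManifold I ∞ W] [I.Boundaryless]
    (hρ : IsTorusAction I k ρ) (t : PreTube I k ρ p) (v₀ : Fin k → ℝ) (y₀ : t.E₀)
    (hy₀ : ‖y₀‖ < t.R) :
    ∀ᶠ q in 𝓝 (ρ v₀ (sec I p (y₀ : E))), ‖(t.Θ (cc I p (ρ (-v₀) q))).1‖ < t.R ∧
      q = ρ (v₀ + (t.Θ (cc I p (ρ (-v₀) q))).2)
        (sec I p ((t.Θ (cc I p (ρ (-v₀) q))).1 : E)) := by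
  have hR := t.R_pos
  have hδ := t.le_δ
  have hsrc := T5b_src t y₀ hy₀
  have hcc := T5b_cc t y₀ hy₀
  have hneg := T5b_neg hρ v₀ (sec I p (y₀ : E))
  have hcont : ContinuousAt (fun q : W => ρ (-v₀) q) (ρ v₀ (sec I p (y₀ : E))) :=
    (T5b_act hρ (-v₀)).continuous.continuousAt
  have hopen : (extChartAt I p).source ∈ 𝓝 (ρ (-v₀) (ρ v₀ (sec I p (y₀ : E)))) := by
    rw [hneg]
    exact (isOpen_extChartAt_source (I := I) p).mem_nhds hsrc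
  have ev1 : ∀ᶠ q in 𝓝 (ρ v₀ (sec I p (y₀ : E))), ρ (-v₀) q ∈ (extChartAt I p).source :=
    hcont.eventually hopen
  have hZ : ContinuousAt (fun q : W => cc I p (ρ (-v₀) q)) (ρ v₀ (sec I p (y₀ : E))) := by
    have h1 : ContinuousAt (extChartAt I p) (ρ (-v₀) (ρ v₀ (sec I p (y₀ : E)))) := by
      rw [hneg]
      exact continuousAt_extChartAt' hsrc
    exact (ContinuousAt.comp (f := fun q : W => ρ (-v₀) q) h1 hcont).sub continuousAt_const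
  have hZ0 : cc I p (ρ (-v₀) (ρ v₀ (sec I p (y₀ : E)))) = (y₀ : E) := by rw [hneg, hcc]
  have hy₀' : ‖(y₀ : E)‖ < t.R := hy₀
  have ev2 : ∀ᶠ q in 𝓝 (ρ v₀ (sec I p (y₀ : E))), ‖cc I p (ρ (-v₀) q)‖ < 2 * t.R := by
    apply hZ.norm.eventually_lt_const
    show ‖cc I p (ρ (-v₀) (ρ v₀ (sec I p (y₀ : E))))‖ < 2 * t.R
    rw [hZ0]
    linarith
  have hΘ0 : t.Θ (y₀ : E) = (y₀, 0) := by
    have := t.left y₀ 0 (by linarith) (by rw [norm_zero]; linarith)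
    rw [hρ.zero, hcc] at this
    exact this
  have hΘ : ContinuousAt (fun q : W => (t.Θ (cc I p (ρ (-v₀) q))).1)
      (ρ v₀ (sec I p (y₀ : E))) := by
    have h1 : ContinuousAt t.Θ (cc I p (ρ (-v₀) (ρ v₀ (sec I p (y₀ : E))))) := by
      rw [hZ0]
      exact (t.smooth (y₀ : E) (by linarith)).continuousAt
    exact continuous_fst.continuousAt.comp
      (ContinuousAt.comp (f := fun q : W => cc I p (ρ (-v₀) q)) h1 hZ)
  have ev3 : ∀ᶠ q in 𝓝 (ρ v₀ (sec I p (y₀ : E))),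
      ‖(t.Θ (cc I p (ρ (-v₀) q))).1‖ < t.R := by
    apply hΘ.norm.eventually_lt_const
    show ‖(t.Θ (cc I p (ρ (-v₀) (ρ v₀ (sec I p (y₀ : E)))))).1‖ < t.R
    rw [hZ0, hΘ0]
    exact hy₀
  filter_upwards [ev1, ev2, ev3] with q h1 h2 h3
  refine ⟨h3, ?_⟩
  obtain ⟨ha, hb, hc⟩ := t.right _ h2
  have hs := t.src _ _ ha hb
  have heq : ρ (-v₀) q = ρ (t.Θ (cc I p (ρ (-v₀) q))).2
      (sec I p ((t.Θ (cc I p (ρ (-v₀) q))).1 : E)) := by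
    apply (extChartAt I p).injOn h1 hs
    have := hc.symm
    unfold cc at this ⊢
    exact sub_left_injective this
  calc q = ρ v₀ (ρ (-v₀) q) := by rw [← hρ.add, add_neg_cancel, hρ.zero]
    _ = ρ v₀ (ρ (t.Θ (cc I p (ρ (-v₀) q))).2
        (sec I p ((t.Θ (cc I p (ρ (-v₀) q))).1 : E))) := congrArg (ρ v₀) heq
    _ = _ := (hρ.add _ _ _).symm

/-- PROOF.  `ρ (-v₀)` is smooth, `ρ (-v₀) q₀ = sec y₀` is in the source, `extChartAt` is smooth there,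
`Θ` is `ContDiffAt ℝ ∞` at `y₀ = cc (sec y₀)`, `‖y₀‖ < R < 2 R`. -/
theorem PreTube.smooth_proj [FiniteDimensional ℝ E] [IsManifold I ∞ W] [I.Boundaryless]
    (hρ : IsTorusAction I k ρ) (t : PreTube I k ρ p) (v₀ : Fin k → ℝ) (y₀ : t.E₀)
    (hy₀ : ‖y₀‖ < t.R) :
    ContMDiffAt I 𝓘(ℝ, t.E₀) ∞ (fun q => (t.Θ (cc I p (ρ (-v₀) q))).1)
      (ρ v₀ (sec I p (y₀ : E))) := by
  have hR := t.R_pos
  have hsrc := T5b_src t y₀ hy₀
  have hcc := T5b_cc t y₀ hy₀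
  have hneg := T5b_neg hρ v₀ (sec I p (y₀ : E))
  have hy₀' : ‖(y₀ : E)‖ < t.R := hy₀
  have h1 : ContMDiffAt I I ∞ (fun q : W => ρ (-v₀) q) (ρ v₀ (sec I p (y₀ : E))) :=
    (T5b_act hρ (-v₀)).contMDiffAt
  have h2 : ContMDiffAt I 𝓘(ℝ, E) ∞ (extChartAt I p) (ρ (-v₀) (ρ v₀ (sec I p (y₀ : E)))) := by
    rw [hneg]
    apply contMDiffAt_extChartAt'
    rwa [extChartAt_source] at hsrc
  have h3 : ContMDiffAt I 𝓘(ℝ, E) ∞ (fun q : W => cc I p (ρ (-v₀) q))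
      (ρ v₀ (sec I p (y₀ : E))) :=
    (ContMDiffAt.comp (f := fun q : W => ρ (-v₀) q) (ρ v₀ (sec I p (y₀ : E))) h2 h1).sub
      contMDiffAt_const
  have hZ0 : cc I p (ρ (-v₀) (ρ v₀ (sec I p (y₀ : E)))) = (y₀ : E) := by rw [hneg, hcc]
  have h4 : ContDiffAt ℝ ∞ (fun z : E => (t.Θ z).1)
      (cc I p (ρ (-v₀) (ρ v₀ (sec I p (y₀ : E))))) := by
    rw [hZ0]
    exact (t.smooth (y₀ : E) (by linarith)).fst
  exact ContMDiffAt.comp (f := fun q : W => cc I p (ρ (-v₀) q)) (ρ v₀ (sec I p (y₀ : E)))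
    h4.contMDiffAt h3

end Pool.Agent.EQ
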