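import Pool.Agent.Lib.MP_1e8d1a_an.EQ.Defs

/-! row T5c -/

open scoped ContDiff Manifold Topology BoundedContinuousFunction

namespace Pool.Agent.EQ

open Pool.Agent.SC

variable {E : Type} [NormedAddCommGroup E] [NormedSpace ℝ E] {H : Type} [TopologicalSpace H]
  {I : ModelWithCorners ℝ E H} {W : Type} [TopologicalSpace W] [ChartedSpace H W]

variable {k : ℕ} {ρ : (Fin k → ℝ) → W → W} {p : W}

/-- PROOF.  The set is the image of the compact set
`{v | ∀ i, v i ∈ [0, 1]} ×ˢ closedBall (0 : E₀) R'` under `(v, y) ↦ ρ v (sec y)`, which is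
continuous on it (`e p + y ∈ target`, `continuousOn_extChartAt_symm`); `v` can be replaced by its
fractional part (`hρ.add`, `hρ.int`).  Compact sets are closed in a Hausdorff space. -/
theorem isClosed_sub [FiniteDimensional ℝ E] [T2Space W] [IsManifold I ∞ W] [I.Boundaryless]
    (hρ : IsTorusAction I k ρ) (E₀ : Submodule ℝ E) (R : ℝ)
    (hball : Metric.closedBall (extChartAt I p p) R ⊆ (extChartAt I p).target) (R' : ℝ)
    (hR' : R' < R) :
    IsClosed {q : W | ∃ (v : Fin k → ℝ) (y : E₀), ‖y‖ ≤ R' ∧ q = ρ v (sec I p (y : E))} := by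
  have hcpt : IsCompact ((Set.Icc (0 : Fin k → ℝ) 1) ×ˢ (Metric.closedBall (0 : E₀) R')) :=
    isCompact_Icc.prod (isCompact_closedBall (0 : E₀) R')
  have hmem : ∀ y : E₀, ‖y‖ ≤ R' → extChartAt I p p + (y : E) ∈ (extChartAt I p).target := by
    intro y hy
    apply hball
    rw [Metric.mem_closedBall, dist_eq_norm, add_sub_cancel_left]
    have : ‖(y : E)‖ = ‖y‖ := rfl
    rw [this]
    exact hy.trans hR'.le
  have hsec : ContinuousOn (fun y : E₀ => sec I p (y : E)) (Metric.closedBall (0 : E₀) R') := by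
    have h1 : ContinuousOn (extChartAt I p).symm (extChartAt I p).target :=
      continuousOn_extChartAt_symm p
    have h2 : ContinuousOn (fun y : E₀ => extChartAt I p p + (y : E))
        (Metric.closedBall (0 : E₀) R') :=
      (continuous_const.add continuous_subtype_val).continuousOn
    exact h1.comp h2 (fun y hy => hmem y (by simpa using hy))
  have hf : ContinuousOn (fun z : (Fin k → ℝ) × E₀ => ρ z.1 (sec I p (z.2 : E)))
      ((Set.Icc (0 : Fin k → ℝ) 1) ×ˢ (Metric.closedBall (0 : E₀) R')) := by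
    have h1 : Continuous (fun z : (Fin k → ℝ) × W => ρ z.1 z.2) := hρ.smooth.continuous
    have h2 : ContinuousOn (fun z : (Fin k → ℝ) × E₀ => (z.1, sec I p (z.2 : E)))
        ((Set.Icc (0 : Fin k → ℝ) 1) ×ˢ (Metric.closedBall (0 : E₀) R')) := by
      refine continuous_fst.continuousOn.prodMk ?_
      exact hsec.comp continuous_snd.continuousOn (fun z hz => hz.2)
    exact h1.comp_continuousOn h2
  have himg : {q : W | ∃ (v : Fin k → ℝ) (y : E₀), ‖y‖ ≤ R' ∧ q = ρ v (sec I p (y : E))} =
      (fun z : (Fin k → ℝ) × E₀ => ρ z.1 (sec I p (z.2 : E))) ''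
        ((Set.Icc (0 : Fin k → ℝ) 1) ×ˢ (Metric.closedBall (0 : E₀) R')) := by
    ext q
    constructor
    · rintro ⟨v, y, hy, rfl⟩
      refine ⟨(fun i => Int.fract (v i), y), ⟨⟨fun i => ?_, fun i => ?_⟩, by simpa using hy⟩, ?_⟩
      · exact Int.fract_nonneg _
      · exact (Int.fract_lt_one _).le
      · have hv : v = (fun i => Int.fract (v i)) + (fun i => ((⌊v i⌋ : ℤ) : ℝ)) := by
          funext i
          exact (Int.fract_add_floor (v i)).symm
        change ρ (fun i => Int.fract (v i)) (sec I p (y : E)) = ρ v (sec I p (y : E))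
        conv_rhs => rw [hv]
        rw [hρ.add, hρ.int (fun i => ⌊v i⌋)]
    · rintro ⟨⟨v, y⟩, ⟨_, hy⟩, rfl⟩
      exact ⟨v, y, by simpa using hy, rfl⟩
  rw [himg]
  exact (hcpt.image_of_continuousOn hf).isClosed

end Pool.Agent.EQ
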