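import Pool.Agent.Lib.MP_1e8d1a_an.EQ.T4
import Pool.Agent.Lib.MP_1e8d1a_an.EQ.T5b
import Pool.Agent.Lib.MP_1e8d1a_an.EQ.T5c

/-! row T6 -/

open scoped ContDiff Manifold Topology BoundedContinuousFunction

namespace Pool.Agent.EQ

open Pool.Agent.SC

variable {E : Type} [NormedAddCommGroup E] [NormedSpace ℝ E] {H : Type} [TopologicalSpace H]
  {I : ModelWithCorners ℝ E H} {W : Type} [TopologicalSpace W] [ChartedSpace H W]

variable {k : ℕ} {ρ : (Fin k → ℝ) → W → W} {p : W}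

open Classical in
/-- the projection to the slice -/
noncomputable def PreTube.Y (t : PreTube I k ρ p) (q : W) : t.E₀ :=
  if h : q ∈ tubeSet I ρ p t.E₀ t.R then h.choose_spec.choose else 0

/-- PROOF.  `ρ v (sec y)` is in the tube; the chosen `(v', y')` satisfies
`ρ v (sec y) = ρ v' (sec y')`, `‖y'‖ < R`; `PreTube.unique`. -/
theorem PreTube.Y_eq (hρ : IsTorusAction I k ρ) (t : PreTube I k ρ p) (v : Fin k → ℝ)
    (y : t.E₀) (hy : ‖y‖ < t.R) : t.Y (ρ v (sec I p (y : E))) = y := by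
  have h : ρ v (sec I p (y : E)) ∈ tubeSet I ρ p t.E₀ t.R := ⟨v, y, hy, rfl⟩
  have h1 : t.Y (ρ v (sec I p (y : E))) = h.choose_spec.choose := by
    unfold PreTube.Y
    rw [dif_pos h]
  rw [h1]
  have h2 := h.choose_spec.choose_spec
  exact t.unique hρ h.choose v _ y h2.1 hy h2.2.symm

/-- **Existence of a tube.**

PROOF.  From `exists_preTube`; the same `E₀`, `R`, `C`; `Y = PreTube.Y`; `ball`: `t.ball`,
`2 R ≤ δ`.  `isOpen`: `PreTube.nbhd` at each point.  `Y_smooth`: at `q₀ = ρ v₀ (sec y₀)` by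
`PreTube.nbhd` and `PreTube.Y_eq`, `Y q = (Θ (cc (ρ (-v₀) q))).1` for `q` near `q₀`;
`PreTube.smooth_proj`.  `closed`: for `R' < R` the set is
`{q | ∃ v y, ‖y‖ ≤ R' ∧ q = ρ v (sec y)}` (`Y_eq`), `isClosed_sub` (`R ≤ 2 R ≤ δ`).  `sep`:
`PreTube.sep`. -/
theorem exists_tube [FiniteDimensional ℝ E] [T2Space W] [IsManifold I ∞ W] [I.Boundaryless]
    (hρ : IsTorusAction I k ρ)
    (hp : ∀ v, ρ v p = p → ∃ m : Fin k → ℤ, v = fun i => (m i : ℝ)) :
    Nonempty (Tube I k ρ p) := by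
  obtain ⟨t⟩ := exists_preTube hρ hp
  have hR := t.R_pos
  have hδ := t.le_δ
  refine ⟨{ E₀ := t.E₀, R := t.R, C := t.C, Y := t.Y, R_pos := t.R_pos, one_le_C := t.one_le_C,
            fin := t.fin, ball := (Metric.closedBall_subset_closedBall t.le_δ).trans t.ball,
            isOpen := ?_, Y_eq := fun v y hy => t.Y_eq hρ v y hy, Y_smooth := ?_, closed := ?_,
            sep := fun v y y' hy hy' hs h => t.sep hρ v y y' hy hy' hs h }⟩
  · rw [isOpen_iff_mem_nhds]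
    rintro q ⟨v, y, hy, rfl⟩
    filter_upwards [t.nbhd hρ v y hy] with q' hq'
    exact ⟨_, _, hq'.1, hq'.2⟩
  · rintro q ⟨v, y, hy, rfl⟩
    refine (t.smooth_proj hρ v y hy).congr_of_eventuallyEq ?_
    filter_upwards [t.nbhd hρ v y hy] with q' hq'
    obtain ⟨h1, h2⟩ := hq'
    have h3 := t.Y_eq hρ (v + (t.Θ (cc I p (ρ (-v) q'))).2) (t.Θ (cc I p (ρ (-v) q'))).1 h1
    rw [← h2] at h3
    exact h3
  · intro R' hR'
    have h1 := isClosed_sub (p := p) hρ t.E₀ t.R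
      ((Metric.closedBall_subset_closedBall (by linarith)).trans t.ball) R' hR'
    convert h1 using 1
    ext q
    constructor
    · rintro ⟨⟨v, y, hy, rfl⟩, hq⟩
      rw [t.Y_eq hρ v y hy] at hq
      exact ⟨v, y, hq, rfl⟩
    · rintro ⟨v, y, hy, rfl⟩
      have hy' : ‖y‖ < t.R := lt_of_le_of_lt hy hR'
      refine ⟨⟨v, y, hy', rfl⟩, ?_⟩
      rw [t.Y_eq hρ v y hy']
      exact hy

end Pool.Agent.EQ
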