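import Pool.Agent.Lib.MP_1e8d1a_an.EQ.K4
import Pool.Agent.Lib.MP_1e8d1a_an.EQ.K4b
import Pool.Agent.Lib.MP_1e8d1a_an.EQ.K3
import Pool.Agent.Lib.MP_1e8d1a_an.EQ.S1
import Pool.Agent.Lib.MP_1e8d1a_an.EQ.T6
import Pool.Agent.Lib.MP_1e8d1a_an.EQ.F7

/-! row K5 -/

open scoped ContDiff Manifold Topology BoundedContinuousFunction

namespace Pool.Agent.EQ

open Pool.Agent.SC

variable {E : Type} [NormedAddCommGroup E] [NormedSpace ℝ E] {H : Type} [TopologicalSpace H]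
  {I : ModelWithCorners ℝ E H} {W : Type} [TopologicalSpace W] [ChartedSpace H W]

variable {k : ℕ} {ρ : (Fin k → ℝ) → W → W} {p : W}

/-- **The equivariant closing lemma.**

PROOF.  Let `U` be a neighbourhood of `F`, `f = F`, `t` from `exists_tube`, `ε` from `perturb`
(`app G = G`).  `r0 > 0` with `hr0` (the tube is open and contains `p`; points `q` of the source with
`‖cc q‖` small are near `p`).  `N₀`, `κ` from `core` (`finrank t.E₀ = finrank E - k` by `t.fin`).  If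
`f^[m] p = ρ z p` for some `1 ≤ m` and `z`: `rotation_case` with `p' = p`.  Otherwise `far_visits` for
`N₀` (any `N₀`), `R' = ` the minimum of its `R'`, `1`, `ε`, `r0` and `t.R / 2`.
`Y p = 0`, `Y` is continuous at `p`, the tube is open: there is a neighbourhood `O` of `p` with:
`q ∈ O` is in the tube, `‖Y q‖ < R' / 2`, `‖Y q‖ ≤ κ (R' / 2) ^ r / 2`.  By
`hnw` there are `n ≥ 1`, `q ∈ O` with `f^[n] q ∈ O`.
`x j = f^[j] q`, `y j = Y (x j)`, `J = {j ≤ n | x j ∈ tubeSet .. R'}` (a point of the tube of radius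
`t.R` with `‖Y‖ < R'` is in the tube of radius `R'`); `0, n ∈ J`;
`‖y 0 - y n‖ ≤ κ (R' / 2) ^ r ≤ κ (R' - ‖y 0‖) ^ r`.
If `y i = y j` for some `i < j` in `J`: `x i = ρ v (sec (y i))`, `x j = ρ v' (sec (y i))`,
`f^[j - i] (sec (y i)) = ρ (v' - v) (sec (y i))`: `rotation_case` with `p' = sec (y i)`
(`cc p' = y i`, `‖y i‖ < R' ≤ ε`).
Otherwise `selection`: `a < b`, `μ`; `y₀ = y a`, `y₁ = y b`, `N = b - a`; `x a = ρ v (sec y₀)`,
`x b = ρ v' (sec y₁)`, `f^[N] (sec y₀) = ρ (v' - v) (sec y₁)`; `N ≥ N₀` by `far_visits` applied to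
`x a` (in fact `N > N₀`).
`f^[m] (sec y₀) = ρ (-v) (x (a + m))`, so tube membership and `Y` agree with those of
`x (a + m)`, and the hypothesis of `core` is the last conclusion of `selection`.  `core` gives
`α β w`; `perturb` with `p' = sec y₁` gives `G`, `h`:
`G^[N] p = G^[N] (h p') = h (g^[N] p') = h p' = p` (induction: `G^[m] (h q) = h (g^[m] q)`). -/
theorem equivariant_closing [FiniteDimensional ℝ E] [T2Space W] [CompactSpace W]
    [IsManifold I ∞ W] [I.Boundaryless] (r : ℕ) (hr : 1 ≤ r) (hk : 3 ≤ k)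
    (hkr : r ^ 2 < k ∨ (r - 1) * (Module.finrank ℝ E - k) < k) (hρ : IsTorusAction I k ρ)
    (hp : ∀ v, ρ v p = p → ∃ m : Fin k → ℤ, v = fun i => (m i : ℝ))
    (F : W ≃ₘ^((r : ℕ∞) : WithTop ℕ∞)⟮I, I⟯ W) (hF : ∀ v q, F (ρ v q) = ρ v (F q))
    (hnw : ∀ O ∈ 𝓝 p, ∃ n : ℕ, 0 < n ∧ ∃ q ∈ O, (F : W → W)^[n] q ∈ O) : Closable I F p := by
  classical
  intro U hU
  obtain ⟨t⟩ := exists_tube (I := I) hρ hp
  obtain ⟨ε, hε, hεR, hε2, hpert⟩ := perturb r hr hρ t F U hU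
  have hRpos := t.R_pos
  have hsec0 : sec I p (0 : E) = p := by
    unfold sec
    rw [add_zero]
    exact extChartAt_to_inv p
  have hpT : p ∈ tubeSet I ρ p t.E₀ t.R :=
    ⟨0, 0, by rw [norm_zero]; exact hRpos, by
      rw [hρ.zero, Submodule.coe_zero, hsec0]⟩
  have hYp : t.Y p = 0 := by
    have h1 := t.Y_eq 0 0 (by rw [norm_zero]; exact hRpos)
    rwa [hρ.zero, Submodule.coe_zero, hsec0] at h1
  obtain ⟨r0, hr0pos, hr0⟩ : ∃ r0 : ℝ, 0 < r0 ∧
      ∀ q ∈ (extChartAt I p).source, ‖cc I p q‖ < r0 → q ∈ tubeSet I ρ p t.E₀ t.R := by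
    have h1 : ContinuousAt (extChartAt I p).symm (extChartAt I p p) :=
      continuousAt_extChartAt_symm p
    have h2 : tubeSet I ρ p t.E₀ t.R ∈ 𝓝 ((extChartAt I p).symm (extChartAt I p p)) := by
      rw [extChartAt_to_inv]
      exact t.isOpen.mem_nhds hpT
    obtain ⟨r0, hr0, hsub⟩ := Metric.mem_nhds_iff.1 (h1 h2)
    refine ⟨r0, hr0, fun q hq hn => ?_⟩
    have h3 : extChartAt I p q ∈ Metric.ball (extChartAt I p p) r0 := by
      rw [Metric.mem_ball, dist_eq_norm]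
      exact hn
    have h4 := hsub h3
    rw [Set.mem_preimage, (extChartAt I p).left_inv hq] at h4
    exact h4
  have hfin : (r - 1) * Module.finrank ℝ t.E₀ < k ∨ r ^ 2 < k := by
    rcases hkr with h | h
    · exact Or.inr h
    · left
      have h1 : Module.finrank ℝ t.E₀ = Module.finrank ℝ E - k := by
        have := t.fin
        omega
      rw [h1]
      exact h
  obtain ⟨N₀, κ, hκ, hκ4, hcore⟩ := core hρ t F hF r hr hk hfin.symm ε hε hε2 r0 hr0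
  by_cases hper : ∃ m, 1 ≤ m ∧ ∃ z, (F : W → W)^[m] p = ρ z p
  · obtain ⟨m, hm, z, hz⟩ := hper
    exact rotation_case hρ t (fun G : W ≃ₘ^((r : ℕ∞) : WithTop ℕ∞)⟮I, I⟯ W => (G : W → W)) U r
      F hF ε hε hpert p (mem_extChartAt_source p)
      (by unfold cc; rw [sub_self, norm_zero]; exact hε.le) m hm z hz
  push Not at hper
  obtain ⟨R₁, hR₁, hR₁t, hfar⟩ := far_visits hρ t F F.continuous hF N₀
    (fun m hm _ z => hper m hm z)
  obtain ⟨R', hR'pos, hR'1, hR'2, hR'3, hR'4⟩ : ∃ R' : ℝ, 0 < R' ∧ R' ≤ R₁ ∧ R' ≤ 1 ∧ R' ≤ ε ∧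
      R' ≤ r0 := by
    refine ⟨min (min R₁ 1) (min ε r0), by positivity, ?_, ?_, ?_, ?_⟩
    · exact (min_le_left _ _).trans (min_le_left _ _)
    · exact (min_le_left _ _).trans (min_le_right _ _)
    · exact (min_le_right _ _).trans (min_le_left _ _)
    · exact (min_le_right _ _).trans (min_le_right _ _)
  have hR't : R' < t.R := lt_of_le_of_lt hR'1 hR₁t
  -- iterates commute with the action
  have hiter : ∀ (m : ℕ) (v : Fin k → ℝ) (q : W),
      (F : W → W)^[m] (ρ v q) = ρ v ((F : W → W)^[m] q) := by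
    intro m v q
    induction m with
    | zero => rfl
    | succ m ih => rw [Function.iterate_succ_apply', ih, hF, Function.iterate_succ_apply']
  have hneg : ∀ (v : Fin k → ℝ) (q : W), ρ (-v) (ρ v q) = q := by
    intro v q
    rw [← hρ.add, neg_add_cancel, hρ.zero]
  -- the neighbourhood
  obtain ⟨δ, hδ, hδ1, hδ2⟩ : ∃ δ : ℝ, 0 < δ ∧ δ ≤ R' / 2 ∧ δ ≤ κ * (R' / 2) ^ r / 2 :=
    ⟨min (R' / 2) (κ * (R' / 2) ^ r / 2), by positivity, min_le_left _ _, min_le_right _ _⟩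
  have hO : {q : W | q ∈ tubeSet I ρ p t.E₀ t.R ∧ ‖t.Y q‖ < δ} ∈ 𝓝 p := by
    refine Filter.inter_mem (t.isOpen.mem_nhds hpT) ?_
    have h1 : ContinuousAt t.Y p := (t.Y_smooth p hpT).continuousAt
    have h2 : Metric.ball (0 : t.E₀) δ ∈ 𝓝 (t.Y p) := by
      rw [hYp]
      exact Metric.ball_mem_nhds _ hδ
    filter_upwards [h1 h2] with q hq
    have h3 : t.Y q ∈ Metric.ball (0 : t.E₀) δ := hq
    rw [mem_ball_zero_iff] at h3
    exact h3
  obtain ⟨n, hn0, q, hqO, hqn⟩ := hnw _ hO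
  obtain ⟨x, hx⟩ : ∃ x : ℕ → W, ∀ j, x j = (F : W → W)^[j] q := ⟨_, fun _ => rfl⟩
  obtain ⟨y, hy⟩ : ∃ y : ℕ → t.E₀, ∀ j, y j = t.Y (x j) := ⟨_, fun _ => rfl⟩
  obtain ⟨J, hJ⟩ : ∃ J : Finset ℕ, ∀ j, j ∈ J ↔ j ≤ n ∧ x j ∈ tubeSet I ρ p t.E₀ R' :=
    ⟨(Finset.range (n + 1)).filter (fun j => x j ∈ tubeSet I ρ p t.E₀ R'), fun j => by
      rw [Finset.mem_filter, Finset.mem_range, Nat.lt_succ_iff]⟩
  have hJR : ∀ j ∈ J, x j ∈ tubeSet I ρ p t.E₀ t.R ∧ ‖y j‖ < R' := by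
    intro j hj
    have h1 := (mem_tubeSet_iff t R' hR't.le _).1 ((hJ j).1 hj).2
    rw [hy]
    exact h1
  have hrep : ∀ j, ∃ v : Fin k → ℝ, j ∈ J → x j = ρ v (sec I p (y j : E)) := by
    intro j
    by_cases h : j ∈ J
    · obtain ⟨-, v, hv⟩ := exists_rep t (x j) (hJR j h).1
      exact ⟨v, fun _ => by rw [hy]; exact hv⟩
    · exact ⟨0, fun h' => absurd h' h⟩
  choose V hV using hrep
  have hxadd : ∀ a m, (F : W → W)^[m] (x a) = x (a + m) := by
    intro a m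
    rw [hx, hx, ← Function.iterate_add_apply, add_comm]
  have hsec : ∀ a ∈ J, ∀ m, (F : W → W)^[m] (sec I p (y a : E)) = ρ (-V a) (x (a + m)) := by
    intro a ha m
    have h1 : sec I p (y a : E) = ρ (-V a) (x a) := by
      conv_rhs => rw [hV a ha]
      rw [hneg]
    rw [h1, hiter, hxadd]
  have hstep : ∀ a ∈ J, ∀ b ∈ J, a < b → (F : W → W)^[b - a] (sec I p (y a : E)) =
      ρ (V b - V a) (sec I p (y b : E)) := by
    intro a ha b hb hab
    rw [hsec a ha, Nat.add_sub_cancel' hab.le]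
    conv_lhs => rw [hV b hb]
    rw [← hρ.add]
    congr 1
    abel
  have hsrc : ∀ a ∈ J, sec I p (y a : E) ∈ (extChartAt I p).source ∧
      ‖cc I p (sec I p (y a : E))‖ ≤ ε := by
    intro a ha
    have h1 := (hJR a ha).2
    have h2 : extChartAt I p p + (y a : E) ∈ (extChartAt I p).target := by
      apply t.ball
      rw [Metric.mem_closedBall, dist_eq_norm, add_sub_cancel_left]
      have h3 : ‖(y a : E)‖ = ‖y a‖ := rfl
      rw [h3]
      linarith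
    refine ⟨(extChartAt I p).map_target h2, ?_⟩
    unfold cc sec
    rw [(extChartAt I p).right_inv h2, add_sub_cancel_left]
    have h3 : ‖(y a : E)‖ = ‖y a‖ := rfl
    rw [h3]
    linarith
  have hxO : ∀ j, x j ∈ {q : W | q ∈ tubeSet I ρ p t.E₀ t.R ∧ ‖t.Y q‖ < δ} → j ≤ n → j ∈ J := by
    intro j hj hjn
    refine (hJ j).2 ⟨hjn, (mem_tubeSet_iff t R' hR't.le _).2 ⟨hj.1, ?_⟩⟩
    have := hj.2
    linarith
  have hx0 : x 0 = q := by rw [hx]; rfl
  have hxn : x n = (F : W → W)^[n] q := hx n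
  have h0J : 0 ∈ J := hxO 0 (by rw [hx0]; exact hqO) (Nat.zero_le _)
  have hnJ : n ∈ J := hxO n (by rw [hxn]; exact hqn) le_rfl
  by_cases hinj : ∀ i ∈ J, ∀ j ∈ J, y i = y j → i = j
  · have hQ : ‖y 0 - y n‖ ≤ κ * (R' - ‖y 0‖) ^ r := by
      have h1 : ‖y 0‖ < δ := by rw [hy, hx0]; exact hqO.2
      have h2 : ‖y n‖ < δ := by rw [hy, hxn]; exact hqn.2
      calc ‖y 0 - y n‖ ≤ ‖y 0‖ + ‖y n‖ := norm_sub_le _ _
        _ ≤ κ * (R' / 2) ^ r := by linarith
        _ ≤ κ * (R' - ‖y 0‖) ^ r := by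
            refine mul_le_mul_of_nonneg_left ?_ hκ.le
            exact pow_le_pow_left₀ (by positivity) (by linarith) r
    obtain ⟨a, ha, b, hb, hab, μ, hμ, hμR, hna, hnb, hD, hDκ, hsel⟩ :=
      selection r hr y J R' κ hR'pos hR'2 hκ hκ4 (fun j hj => (hJR j hj).2) hinj 0 n h0J hnJ
        (by omega) hQ
    have hbn : b ≤ n := ((hJ b).1 hb).1
    have hN₀ : N₀ ≤ b - a := by
      by_contra hlt
      push Not at hlt
      have h1 := hfar R' hR'1 (x a) ((hJ a).1 ha).2 (b - a) (by omega) hlt.le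
      rw [hxadd, Nat.add_sub_cancel' hab.le] at h1
      exact h1 ((hJ b).1 hb).2
    obtain ⟨α, β, w, hα, hβ, hαε, hβε, hαs, hβs, hw, hclose⟩ := hcore R' μ (y a) (y b) (b - a)
      (V b - V a) hN₀ (by omega) (hstep a ha b hb hab) hμ hμR hR'2 hR't hR'3 hR'4 hna hnb hD hDκ
      (by
        intro m hm m' hm' hne h1 h2 h3
        rw [hsec a ha, rho_mem_iff hρ] at h1 h2
        have h1J : a + m ∈ J := (hJ _).2 ⟨by omega, h1⟩
        have h2J : a + m' ∈ J := (hJ _).2 ⟨by omega, h2⟩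
        rw [hsec a ha, Y_rho hρ t _ _ (hJR _ h1J).1, ← hy] at h3
        rw [hsec a ha, hsec a ha, Y_rho hρ t _ _ (hJR _ h1J).1, Y_rho hρ t _ _ (hJR _ h2J).1,
          ← hy, ← hy]
        exact hsel _ h1J _ h2J (by omega) h3)
    obtain ⟨G, hG, h, hh, hGh⟩ := hpert α β w (sec I p (y b : E)) hα hβ hαε hβε hαs hβs hw
      (hsrc b hb).1 (hsrc b hb).2
    refine ⟨G, hG, b - a, by omega, ?_⟩
    have hsemi : Function.Semiconj h
        (fun q => F (push I t β (ρ w (shf I p α q)))) (G : W → W) := fun q => (hGh q).symm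
    have h1 := (hsemi.iterate_right (b - a)) (sec I p (y b : E))
    rw [hclose, hh] at h1
    exact h1.symm
  · push Not at hinj
    obtain ⟨i, hi, j, hj, hij, hne⟩ := hinj
    obtain ⟨a, ha, b, hb, hab, heq⟩ : ∃ a ∈ J, ∃ b ∈ J, a < b ∧ y a = y b := by
      rcases lt_or_gt_of_ne hne with h | h
      · exact ⟨i, hi, j, hj, h, hij⟩
      · exact ⟨j, hj, i, hi, h, hij.symm⟩
    have h1 := hstep a ha b hb hab
    rw [← heq] at h1
    exact rotation_case hρ t (fun G : W ≃ₘ^((r : ℕ∞) : WithTop ℕ∞)⟮I, I⟯ W => (G : W → W)) U r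
      F hF ε hε hpert (sec I p (y a : E)) (hsrc a ha).1 (hsrc a ha).2 (b - a) (by omega)
      (V b - V a) h1

/-- Recurrent points are nonwandering. -/
theorem nonwandering_of_recurrent [FiniteDimensional ℝ E] [T2Space W] (r : ℕ)
    (F : W ≃ₘ^((r : ℕ∞) : WithTop ℕ∞)⟮I, I⟯ W) (q : W) (hrec : Recurrent F.toEquiv q) :
    ∀ O ∈ 𝓝 q, ∃ n : ℕ, 0 < n ∧ ∃ x ∈ O, (F : W → W)^[n] x ∈ O := by
  intro O hO
  obtain ⟨n, -, hn0, -, x, hx, hxn⟩ := returns_of_recurrent F.toHomeomorph q hrec 1 one_pos 1 O hO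
  exact ⟨n, hn0, x, hx, hxn⟩

end Pool.Agent.EQ
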