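import Pool.Agent.Lib.MP_1e8d1a_an.EQ.Defs

/-! Numerics for the equivariant closing lemma with `r (r - 1) < k`. -/

open scoped ContDiff Manifold Topology BoundedContinuousFunction

namespace Pool.Agent.EQ

/-- packing: few visits -/
theorem n_packing (r k d q : ℕ) (hr : 1 ≤ r) (hkr : (r - 1) * d < k)
    (C Cb ε c : ℝ) (hC : 1 ≤ C) (hCb : 1 ≤ Cb) (hε : 0 < ε) (hc : 0 < c) :
    ∃ η₀ : ℝ, 0 < η₀ ∧ ∀ η, 0 < η → η ≤ η₀ → ∀ K : ℝ, 0 ≤ K →
      K ≤ (1 + 2 * (C * η) / (ε * η ^ r / Cb / 2 ^ q)) ^ d → K * (C * η) ^ k ≤ c := by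
  have hC0 : 0 < C := by linarith
  have hCb0 : 0 < Cb := by linarith
  have hCk : 0 < C ^ k := pow_pos hC0 k
  obtain ⟨B, hB⟩ : ∃ B : ℝ, B = 2 * C * Cb * 2 ^ q / ε := ⟨_, rfl⟩
  have hB0 : 0 < B := by rw [hB]; positivity
  have h1B : 0 < (1 + B) ^ d := by positivity
  refine ⟨min 1 (c / ((1 + B) ^ d * C ^ k)), lt_min one_pos (by positivity), ?_⟩
  intro η hη hη1 K hK0 hK
  have h1 : η ≤ 1 := hη1.trans (min_le_left _ _)
  have h2 : η ≤ c / ((1 + B) ^ d * C ^ k) := hη1.trans (min_le_right _ _)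
  have h3 : (1 + B) ^ d * C ^ k * η ≤ c := by
    have := mul_le_mul_of_nonneg_left h2 (by positivity : (0 : ℝ) ≤ (1 + B) ^ d * C ^ k)
    rwa [mul_div_cancel₀ _ (by positivity)] at this
  have e1 : 2 * (C * η) / (ε * η ^ r / Cb / 2 ^ q) = B / η ^ (r - 1) := by
    have hr' : η ^ r = η * η ^ (r - 1) := by
      rw [← pow_succ']
      congr 1
      omega
    rw [hB, hr']
    field_simp
  have h4 : 1 + 2 * (C * η) / (ε * η ^ r / Cb / 2 ^ q) ≤ (1 + B) / η ^ (r - 1) := by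
    rw [e1, add_div]
    have : 1 ≤ 1 / η ^ (r - 1) := by
      rw [le_div_iff₀ (by positivity), one_mul]
      exact pow_le_one₀ hη.le h1
    linarith
  have h5 : K ≤ (1 + B) ^ d / η ^ ((r - 1) * d) := by
    refine hK.trans ?_
    rw [pow_mul, ← div_pow]
    exact pow_le_pow_left₀ (by positivity) h4 d
  have h6 : η ^ k ≤ η * η ^ ((r - 1) * d) := by
    rw [← pow_succ']
    exact pow_le_pow_of_le_one hη.le h1 (by omega)
  calc K * (C * η) ^ k ≤ (1 + B) ^ d / η ^ ((r - 1) * d) * (C * η) ^ k :=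
        mul_le_mul_of_nonneg_right h5 (by positivity)
    _ = (1 + B) ^ d * C ^ k * (η ^ k / η ^ ((r - 1) * d)) := by rw [mul_pow]; ring
    _ ≤ (1 + B) ^ d * C ^ k * η := by
        refine mul_le_mul_of_nonneg_left ?_ (by positivity)
        rw [div_le_iff₀ (by positivity)]
        exact h6
    _ ≤ c := h3

/-- the number of pushes in one segment -/
theorem n_numerics (r k : ℕ) (hr : 1 ≤ r) (hkr : r ^ 3 + 1 ≤ k * (r + 1))
    (C Cb ε c c₁ : ℝ) (hC : 1 ≤ C) (hCb : 1 ≤ Cb) (hε : 0 < ε) (hc : 0 < c) (hc₁ : 0 < c₁) :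
    ∃ η₀ : ℝ, 0 < η₀ ∧ ∀ η, 0 < η → η ≤ η₀ → ∃ T : ℕ, 1 ≤ T ∧
      (T : ℝ) * (ε * (ε * η ^ r / Cb / 2 ^ (r ^ 2) / 3) ^ r / Cb) ≤ 1 ∧
      (C * η) ^ k ≤ c * (T * (ε * (ε * η ^ r / Cb / 2 ^ (r ^ 2) / 3) ^ r / Cb)) ∧
      ∀ (K : ℕ) (η' : ℝ), 0 < η' → η' ^ r * ε ≤ 2 * Cb * (C * η) → c₁ < K * (C * η') ^ k → T ≤ K := by
  have hC0 : 0 < C := by linarith
  have hCb0 : 0 < Cb := by linarith
  have hCk : 0 < C ^ k := pow_pos hC0 k
  obtain ⟨b, hb⟩ : ∃ b : ℝ, b = ε * (ε / Cb / 2 ^ (r ^ 2) / 3) ^ r / Cb := ⟨_, rfl⟩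
  have hb0 : 0 < b := by rw [hb]; positivity
  obtain ⟨B, hB⟩ : ∃ B : ℝ, B = C ^ r * (2 * Cb * C / ε) := ⟨_, rfl⟩
  have hB0 : 0 < B := by rw [hB]; positivity
  obtain ⟨A, hA⟩ : ∃ A : ℝ, A = (2 * C ^ k / (c * b)) ^ r * B ^ k / c₁ ^ r := ⟨_, rfl⟩
  have hA0 : 0 < A := by rw [hA]; positivity
  obtain ⟨η₀, hη₀, hη₁, hη₂, hη₃, hη₄⟩ : ∃ η₀ : ℝ, 0 < η₀ ∧ η₀ ≤ 1 ∧ b * η₀ ≤ 1 / 2 ∧
      C ^ k * η₀ ≤ c / 2 ∧ A * η₀ ≤ 1 := by
    refine ⟨min (min 1 (1 / 2 / b)) (min (c / 2 / C ^ k) (1 / A)), by positivity, ?_, ?_, ?_, ?_⟩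
    · exact (min_le_left _ _).trans (min_le_left _ _)
    · have h : min (min 1 (1 / 2 / b)) (min (c / 2 / C ^ k) (1 / A)) ≤ 1 / 2 / b :=
        (min_le_left _ _).trans (min_le_right _ _)
      rw [le_div_iff₀ hb0] at h
      linarith
    · have h : min (min 1 (1 / 2 / b)) (min (c / 2 / C ^ k) (1 / A)) ≤ c / 2 / C ^ k :=
        (min_le_right _ _).trans (min_le_left _ _)
      rw [le_div_iff₀ hCk] at h
      linarith
    · have h : min (min 1 (1 / 2 / b)) (min (c / 2 / C ^ k) (1 / A)) ≤ 1 / A :=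
        (min_le_right _ _).trans (min_le_right _ _)
      rw [le_div_iff₀ hA0] at h
      linarith
  refine ⟨η₀, hη₀, ?_⟩
  intro η hη hηη₀
  have h1 : η ≤ 1 := hηη₀.trans hη₁
  have hk1 : 1 ≤ k := by
    rcases Nat.eq_zero_or_pos k with h | h
    · rw [h] at hkr
      omega
    · exact h
  obtain ⟨v, hv⟩ : ∃ v : ℝ, v = ε * (ε * η ^ r / Cb / 2 ^ (r ^ 2) / 3) ^ r / Cb := ⟨_, rfl⟩
  have hvb : v = b * η ^ (r ^ 2) := by
    rw [hv, hb]
    have e1 : ε * η ^ r / Cb / 2 ^ (r ^ 2) / 3 = (ε / Cb / 2 ^ (r ^ 2) / 3) * η ^ r := by ring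
    rw [e1, mul_pow, ← pow_mul, sq]
    ring
  have hv0 : 0 < v := by rw [hvb]; positivity
  rw [← hv]
  have hv1 : v ≤ 1 / 2 := by
    have h2 : η ^ (r ^ 2) ≤ η := by
      calc η ^ (r ^ 2) ≤ η ^ 1 := pow_le_pow_of_le_one hη.le h1 (Nat.one_le_pow _ _ hr)
        _ = η := pow_one η
    have h3 : b * η ^ (r ^ 2) ≤ b * η₀ := mul_le_mul_of_nonneg_left (h2.trans hηη₀) hb0.le
    rw [hvb]
    linarith
  have hCη : (C * η) ^ k ≤ c / 2 := by
    have h2 : η ^ k ≤ η := by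
      calc η ^ k ≤ η ^ 1 := pow_le_pow_of_le_one hη.le h1 hk1
        _ = η := pow_one η
    rw [mul_pow]
    have h3 : C ^ k * η ^ k ≤ C ^ k * η₀ := mul_le_mul_of_nonneg_left (h2.trans hηη₀) hCk.le
    linarith
  have hx0 : 0 < (C * η) ^ k / (c * v) := by positivity
  refine ⟨⌈(C * η) ^ k / (c * v)⌉₊, Nat.ceil_pos.2 hx0, ?_, ?_, ?_⟩
  · have h2 : (⌈(C * η) ^ k / (c * v)⌉₊ : ℝ) < (C * η) ^ k / (c * v) + 1 := Nat.ceil_lt_add_one hx0.le
    calc (⌈(C * η) ^ k / (c * v)⌉₊ : ℝ) * v ≤ ((C * η) ^ k / (c * v) + 1) * v :=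
          mul_le_mul_of_nonneg_right h2.le hv0.le
      _ = (C * η) ^ k / c + v := by field_simp
      _ ≤ 1 / 2 + 1 / 2 := by
          refine add_le_add ?_ hv1
          rw [div_le_iff₀ hc]
          linarith
      _ = 1 := by norm_num
  · have h2 : (C * η) ^ k / (c * v) ≤ (⌈(C * η) ^ k / (c * v)⌉₊ : ℝ) := Nat.le_ceil _
    rw [div_le_iff₀ (by positivity)] at h2
    calc (C * η) ^ k ≤ (⌈(C * η) ^ k / (c * v)⌉₊ : ℝ) * (c * v) := h2
      _ = c * (⌈(C * η) ^ k / (c * v)⌉₊ * v) := by ring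
  · intro K η' hη' hη'r hK
    have hK0 : 0 < (K : ℝ) := by
      by_contra hle
      push Not at hle
      have h2 : (K : ℝ) * (C * η') ^ k ≤ 0 := mul_nonpos_of_nonpos_of_nonneg hle (by positivity)
      linarith
    rw [Nat.ceil_le]
    by_contra hlt
    push Not at hlt
    -- `K < x`
    have h2 : (K : ℝ) ^ r * B ^ k * η ^ k > c₁ ^ r := by
      have h3 : c₁ ^ r < ((K : ℝ) * (C * η') ^ k) ^ r := pow_lt_pow_left₀ hK hc₁.le (by omega)
      have h4 : ((C * η') ^ k) ^ r ≤ (B * η) ^ k := by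
        rw [← pow_mul, mul_comm k r, pow_mul]
        refine pow_le_pow_left₀ (by positivity) ?_ k
        rw [mul_pow, hB]
        have h5 : η' ^ r ≤ 2 * Cb * (C * η) / ε := by
          rw [le_div_iff₀ hε]
          exact hη'r
        calc C ^ r * η' ^ r ≤ C ^ r * (2 * Cb * (C * η) / ε) :=
              mul_le_mul_of_nonneg_left h5 (by positivity)
          _ = C ^ r * (2 * Cb * C / ε) * η := by ring
      calc c₁ ^ r < ((K : ℝ) * (C * η') ^ k) ^ r := h3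
        _ = (K : ℝ) ^ r * ((C * η') ^ k) ^ r := mul_pow _ _ _
        _ ≤ (K : ℝ) ^ r * (B * η) ^ k := mul_le_mul_of_nonneg_left h4 (by positivity)
        _ = (K : ℝ) ^ r * B ^ k * η ^ k := by rw [mul_pow]; ring
    have h3 : (K : ℝ) ^ r ≤ (2 * C ^ k / (c * b)) ^ r * (η ^ k) ^ r / η ^ (r ^ 3) := by
      have h4 : (K : ℝ) ≤ 2 * C ^ k / (c * b) * η ^ k / η ^ (r ^ 2) := by
        refine hlt.le.trans ?_
        rw [hvb, mul_pow]
        have h5 : 0 < η ^ (r ^ 2) := by positivity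
        have h6 : C ^ k * η ^ k / (c * (b * η ^ (r ^ 2))) = C ^ k / (c * b) * η ^ k / η ^ (r ^ 2) := by
          field_simp
        rw [h6]
        have h7 : 0 ≤ C ^ k / (c * b) * η ^ k / η ^ (r ^ 2) := by positivity
        have h8 : 2 * C ^ k / (c * b) * η ^ k / η ^ (r ^ 2) = 2 * (C ^ k / (c * b) * η ^ k / η ^ (r ^ 2)) := by
          ring
        rw [h8]
        linarith
      have h5 := pow_le_pow_left₀ hK0.le h4 r
      refine h5.trans (le_of_eq ?_)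
      rw [div_pow, mul_pow, ← pow_mul η (r ^ 2) r]
      have : r ^ 2 * r = r ^ 3 := by ring
      rw [this]
    have h4 : (2 * C ^ k / (c * b)) ^ r * (η ^ k) ^ r / η ^ (r ^ 3) * B ^ k * η ^ k ≤ c₁ ^ r := by
      have h5 : 0 < η ^ (r ^ 3) := by positivity
      have h6 : (η ^ k) ^ r * η ^ k ≤ η * η ^ (r ^ 3) := by
        rw [← pow_mul, ← pow_add, ← pow_succ']
        refine pow_le_pow_of_le_one hη.le h1 ?_
        calc r ^ 3 + 1 ≤ k * (r + 1) := hkr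
          _ = k * r + k := by ring
      have h7 : A * η ≤ 1 := (mul_le_mul_of_nonneg_left hηη₀ hA0.le).trans hη₄
      calc (2 * C ^ k / (c * b)) ^ r * (η ^ k) ^ r / η ^ (r ^ 3) * B ^ k * η ^ k
          = (A * c₁ ^ r) * (((η ^ k) ^ r * η ^ k) / η ^ (r ^ 3)) := by
            rw [hA]
            field_simp
        _ ≤ (A * c₁ ^ r) * η := by
            refine mul_le_mul_of_nonneg_left ?_ (by positivity)
            rw [div_le_iff₀ h5]
            exact h6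
        _ = (A * η) * c₁ ^ r := by ring
        _ ≤ 1 * c₁ ^ r := mul_le_mul_of_nonneg_right h7 (by positivity)
        _ = c₁ ^ r := one_mul _
    have h5 : (K : ℝ) ^ r * B ^ k * η ^ k ≤ c₁ ^ r := by
      refine le_trans ?_ h4
      refine mul_le_mul_of_nonneg_right ?_ (by positivity)
      exact mul_le_mul_of_nonneg_right h3 (by positivity)
    linarith

end Pool.Agent.EQ
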