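import Pool.Agent.Lib.MP_1e8d1a_an.EQ.K2b
import Pool.Agent.Lib.MP_1e8d1a_an.EQ.B2
import Pool.Agent.Lib.MP_1e8d1a_an.EQ.B3

/-! The core of the closing lemma: a pair of returns with a path of torus pushes. -/

open scoped ContDiff Manifold Topology BoundedContinuousFunction

namespace Pool.Agent.EQ

open Pool.Agent.SC

variable {E : Type} [NormedAddCommGroup E] [NormedSpace ℝ E] {H : Type} [TopologicalSpace H]
  {I : ModelWithCorners ℝ E H} {W : Type} [TopologicalSpace W] [ChartedSpace H W]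

variable {k : ℕ} {ρ : (Fin k → ℝ) → W → W} {p : W}

/-- the map closed by small `α`, `β`, `w` -/
def NCloses (t : Tube I k ρ p) (f : W → W) (r : ℕ) (ε : ℝ) (N : ℕ) (y₁ : t.E₀) : Prop :=
  ∃ (α : E → E) (β : t.E₀ → (Fin k → ℝ)) (w : Fin k → ℝ), ContDiff ℝ r α ∧
    ContDiff ℝ r β ∧ (∀ j ≤ r, ∀ y, ‖iteratedFDeriv ℝ j α y‖ ≤ ε) ∧
    (∀ j ≤ r, ∀ y, ‖iteratedFDeriv ℝ j β y‖ ≤ ε) ∧ (∀ y, ε ≤ ‖y‖ → α y = 0) ∧
    (∀ y, ε ≤ ‖y‖ → β y = 0) ∧ ‖w‖ ≤ ε ∧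
    (fun q => f (push I t β (ρ w (shf I p α q))))^[N] (sec I p (y₁ : E)) = sec I p (y₁ : E)

/-- the numerical data of a pair of returns -/
structure NPair (t : Tube I k ρ p) (f : W → W) (r : ℕ) (Cb ε r0 : ℝ) (R' μ η : ℝ) (y₀ y₁ : t.E₀)
    (N : ℕ) (e : Fin k → ℝ) : Prop where
  N_pos : 0 < N
  he : f^[N] (sec I p (y₀ : E)) = ρ e (sec I p (y₁ : E))
  hμ : 0 < μ
  hμR : μ ≤ R'
  hR1 : R' ≤ 1
  hRt : R' < t.R
  hRε : R' ≤ ε
  hRr : R' ≤ r0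
  h0 : ‖y₀‖ + 3 / 4 * μ ≤ R'
  h1 : ‖y₁‖ + 3 / 4 * μ ≤ R'
  hη : 0 < η
  hCη : t.C * η ≤ μ / 8
  hηr : η ^ r * ε = Cb * ‖y₀ - y₁‖

/-- the core property with the constant `Cb` -/
def NCore (t : Tube I k ρ p) (f : W → W) (r : ℕ) (Cb ε r0 : ℝ) : Prop :=
  ∀ (R' μ η s : ℝ) (y₀ y₁ : t.E₀) (N : ℕ) (e w : Fin k → ℝ) (S : Finset ℕ) (a : ℕ → Fin k → ℝ),
    NPair t f r Cb ε r0 R' μ η y₀ y₁ N e → 0 < s → s ≤ μ / 8 →
    (∀ m ∈ S, m < N ∧ f^[m] (sec I p (y₀ : E)) ∈ tubeSet I ρ p t.E₀ R' ∧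
      ‖t.Y (f^[m] (sec I p (y₀ : E))) - y₀‖ ≤ μ / 4) →
    (∀ m ∈ S, ∀ m' < N, m ≠ m' → f^[m'] (sec I p (y₀ : E)) ∈ tubeSet I ρ p t.E₀ R' →
      s ≤ ‖t.Y (f^[m] (sec I p (y₀ : E))) - t.Y (f^[m'] (sec I p (y₀ : E)))‖) →
    (∀ m ∈ S, ‖a m‖ ≤ ε * (s / 3) ^ r / Cb) → ‖w‖ ≤ ε →
    (∃ z : Fin k → ℤ, (N : ℝ) • w + (∑ m ∈ S, a m) + e = fun j => (z j : ℝ)) →
    (∀ m, 0 < m → m < N → f^[m] (sec I p (y₀ : E)) ∈ tubeSet I ρ p t.E₀ t.R →
      ‖t.Y (f^[m] (sec I p (y₀ : E))) - y₀‖ ≤ t.C * η → ∃ v : Fin k → ℝ,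
      f^[m] (sec I p (y₀ : E)) = ρ v (sec I p (t.Y (f^[m] (sec I p (y₀ : E))) : E)) ∧
      ∀ z : Fin k → ℤ, t.C * η ≤ ‖(m : ℝ) • w + (∑ l ∈ S.filter (fun l => l < m), a l) + v -
        (fun j => (z j : ℝ))‖) →
    NCloses t f r ε N y₁

theorem n_core0 [FiniteDimensional ℝ E] (hρ : IsTorusAction I k ρ) (t : Tube I k ρ p)
    (f : W → W) (hf : ∀ v q, f (ρ v q) = ρ v (f q)) (r : ℕ) (hr : 1 ≤ r) :
    ∃ Cb : ℝ, 1 ≤ Cb ∧ ∀ ε : ℝ, 0 < ε → ε ≤ 1 / 2 → ∀ r0 : ℝ,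
      (∀ q ∈ (extChartAt I p).source, ‖cc I p q‖ < r0 → q ∈ tubeSet I ρ p t.E₀ t.R) →
      NCore t f r Cb ε r0 := by
  classical
  obtain ⟨C₁, hC₁, hb1⟩ := exists_bump_vec E E r
  obtain ⟨C₂, hC₂, hb2⟩ := exists_multibump t.E₀ (Fin k → ℝ) r
  obtain ⟨Cb, hCb1, hCb2, hCb⟩ : ∃ Cb : ℝ, C₁ ≤ Cb ∧ C₂ ≤ Cb ∧ 1 ≤ Cb :=
    ⟨max C₁ C₂, le_max_left _ _, le_max_right _ _, hC₁.trans (le_max_left _ _)⟩
  have hCbpos : 0 < Cb := by linarith
  refine ⟨Cb, hCb, ?_⟩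
  intro ε hε hε1 r0 hr0 R' μ η s y₀ y₁ N e w S a hP hs hsμ hSm hsep ha hw hend hav
  have hCone := t.one_le_C
  have hCpos : 0 < t.C := by linarith
  obtain ⟨hN0, he, hμ, hμR, hR1, hRt, hRε, hRr, h0, h1, hη, hCη, hηr⟩ := hP
  obtain ⟨D, hDdef⟩ : ∃ D, D = ‖y₀ - y₁‖ := ⟨_, rfl⟩
  rw [← hDdef] at hηr
  have hμ1 : μ ≤ 1 := hμR.trans hR1
  have hημ : η ≤ μ / 8 := by nlinarith
  have hη1 : η ≤ 1 := by linarith
  have hηr1 : η ^ r ≤ η := by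
    calc η ^ r ≤ η ^ 1 := pow_le_pow_of_le_one hη.le hη1 hr
      _ = η := pow_one η
  have hηrpos : 0 < η ^ r := pow_pos hη r
  have hD2 : D ≤ η / 2 := by
    have h2 : D ≤ Cb * D := by
      have : 0 ≤ D := by rw [hDdef]; exact norm_nonneg _
      nlinarith
    nlinarith
  -- the bump `α`
  obtain ⟨α, hα, hα1, hα0, hαn⟩ := hb1 (y₀ : E) η ((y₀ : E) - (y₁ : E)) hη hη1
  have hnormD : ‖(y₀ : E) - (y₁ : E)‖ = D := by
    rw [hDdef, ← Submodule.coe_sub, Submodule.coe_norm]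
  have hαy₁ : α (y₁ : E) = (y₀ : E) - (y₁ : E) := by
    apply hα1
    rw [norm_sub_rev, hnormD]
    exact hD2
  have hαε : ∀ j ≤ r, ∀ y, ‖iteratedFDeriv ℝ j α y‖ ≤ ε := by
    intro j hj y
    refine (hαn j hj y).trans ?_
    rw [hnormD, div_le_iff₀ hηrpos]
    have hD0 : 0 ≤ D := by rw [hDdef]; exact norm_nonneg _
    calc C₁ * D ≤ Cb * D := mul_le_mul_of_nonneg_right hCb1 hD0
      _ = ε * η ^ r := by rw [← hηr, mul_comm]
  have hy₀n : ‖(y₀ : E)‖ = ‖y₀‖ := rfl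
  have hαsupp : ∀ y, ε ≤ ‖y‖ → α y = 0 := by
    intro y hy
    apply hα0
    have h2 : ‖y‖ ≤ ‖y - (y₀ : E)‖ + ‖(y₀ : E)‖ := by
      calc ‖y‖ = ‖(y - (y₀ : E)) + (y₀ : E)‖ := by rw [sub_add_cancel]
        _ ≤ _ := norm_add_le _ _
    rw [hy₀n] at h2
    linarith
  obtain ⟨X, hX⟩ : ∃ X : ℕ → W, ∀ m, X m = f^[m] (sec I p (y₀ : E)) := ⟨_, fun _ => rfl⟩
  simp only [← hX] at hSm hsep hav
  have hy₁R : ‖y₁‖ < t.R := by linarith
  have hy₀R : ‖y₀‖ < t.R := by linarith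
  have hSR : ∀ m ∈ S, X m ∈ tubeSet I ρ p t.E₀ t.R := fun m hm =>
    ((mem_tubeSet_iff t R' hRt.le _).1 (hSm m hm).2.1).1
  have hYle : ∀ m ∈ S, ‖t.Y (X m)‖ ≤ ‖y₀‖ + μ / 4 := by
    intro m hm
    have h2 := (hSm m hm).2.2
    have h3 : ‖t.Y (X m)‖ ≤ ‖t.Y (X m) - y₀‖ + ‖y₀‖ := by
      calc ‖t.Y (X m)‖ = ‖(t.Y (X m) - y₀) + y₀‖ := by rw [sub_add_cancel]
        _ ≤ _ := norm_add_le _ _
    linarith
  -- the pushes
  have hs3pos : 0 < (s / 3) ^ r := by positivity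
  have hs31 : s / 3 ≤ 1 := by linarith
  obtain ⟨v, hv⟩ : ∃ v : ℝ, v = ε * (s / 3) ^ r / Cb := ⟨_, rfl⟩
  have hvpos : 0 < v := by rw [hv]; positivity
  obtain ⟨β, hβ, hβ1, hβ0, hβn⟩ := hb2 S (fun m => t.Y (X m)) a (s / 3) v (by positivity)
    hs31 hvpos.le (fun m hm => by rw [hv]; exact ha m hm)
    (by
      intro m hm m' hm' hne
      have h2 := hsep m hm m' (hSm m' hm').1 hne (hSm m' hm').2.1
      linarith)
  have hβε : ∀ j ≤ r, ∀ y, ‖iteratedFDeriv ℝ j β y‖ ≤ ε := by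
    intro j hj y
    refine (hβn j hj y).trans ?_
    rw [div_le_iff₀ hs3pos, hv, mul_div_assoc', div_le_iff₀ hCbpos]
    have h2 : 0 < ε * (s / 3) ^ r := by positivity
    nlinarith
  have hfar : ∀ y : t.E₀, R' ≤ ‖y‖ → ∀ m ∈ S, s / 3 ≤ ‖y - t.Y (X m)‖ := by
    intro y hy m hm
    have h2 := hYle m hm
    have h3 : ‖y‖ ≤ ‖y - t.Y (X m)‖ + ‖t.Y (X m)‖ := by
      calc ‖y‖ = ‖(y - t.Y (X m)) + t.Y (X m)‖ := by rw [sub_add_cancel]
        _ ≤ _ := norm_add_le _ _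
    linarith
  have hβsupp : ∀ y, ε ≤ ‖y‖ → β y = 0 := fun y hy => hβ0 y (hfar y (hRε.trans hy))
  refine ⟨α, β, w, hα, hβ, hαε, hβε, hαsupp, hβsupp, hw, ?_⟩
  have hRr' : ‖y₀‖ + η ≤ r0 := by linarith
  refine close_step hρ t f hf α β w y₀ y₁ hy₁R η hαy₁ hα0 N hN0 e he
    (fun m => (m : ℝ) • w + ∑ l ∈ S.filter (fun l => l < m), a l) ?_ ?_ ?_ ?_
  · simp
  · intro m hm
    rw [← hX m]
    have hsum : ∑ l ∈ S.filter (fun l => l < m + 1), a l =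
        (∑ l ∈ S.filter (fun l => l < m), a l) + (if m ∈ S then a m else 0) := by
      by_cases hmS : m ∈ S
      · rw [if_pos hmS]
        have h2 : S.filter (fun l => l < m + 1) = insert m (S.filter (fun l => l < m)) := by
          ext l
          simp only [Finset.mem_filter, Finset.mem_insert]
          constructor
          · rintro ⟨h3, h4⟩
            rcases Nat.lt_succ_iff_lt_or_eq.1 h4 with h5 | h5
            · exact Or.inr ⟨h3, h5⟩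
            · exact Or.inl h5
          · rintro (h3 | ⟨h3, h4⟩)
            · rw [h3]
              exact ⟨hmS, by omega⟩
            · exact ⟨h3, by omega⟩
        rw [h2, Finset.sum_insert (by simp), add_comm]
      · rw [if_neg hmS, add_zero]
        congr 1
        ext l
        simp only [Finset.mem_filter]
        constructor
        · rintro ⟨h3, h4⟩
          refine ⟨h3, ?_⟩
          rcases Nat.lt_succ_iff_lt_or_eq.1 h4 with h5 | h5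
          · exact h5
          · rw [h5] at h3
            exact absurd h3 hmS
        · rintro ⟨h3, h4⟩
          exact ⟨h3, by omega⟩
    have hβm : (if X m ∈ tubeSet I ρ p t.E₀ t.R then β (t.Y (X m)) else 0) =
        (if m ∈ S then a m else 0) := by
      by_cases hmS : m ∈ S
      · rw [if_pos hmS, if_pos (hSR m hmS)]
        exact hβ1 m hmS
      · rw [if_neg hmS]
        by_cases hXm : X m ∈ tubeSet I ρ p t.E₀ t.R
        · rw [if_pos hXm]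
          refine hβ0 _ ?_
          rcases le_or_gt R' ‖t.Y (X m)‖ with h2 | h2
          · exact hfar _ h2
          · intro l hl
            have h3 := hsep l hl m hm (fun h => hmS (h ▸ hl))
              ((mem_tubeSet_iff t R' hRt.le _).2 ⟨hXm, h2⟩)
            rw [norm_sub_rev] at h3
            linarith
        · rw [if_neg hXm]
    show ((m + 1 : ℕ) : ℝ) • w + ∑ l ∈ S.filter (fun l => l < m + 1), a l = _
    rw [hβm, hsum]
    push_cast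
    rw [add_smul, one_smul]
    abel
  · obtain ⟨z, hz⟩ := hend
    refine ⟨z, ?_⟩
    rw [← hz]
    show (N : ℝ) • w + ∑ l ∈ S.filter (fun l => l < N), a l + e = _
    have h2 : S.filter (fun l => l < N) = S := Finset.filter_true_of_mem fun l hl => (hSm l hl).1
    rw [h2]
  · intro m hm0 hmN hsrc
    by_contra hlt
    push Not at hlt
    rw [← hX m] at hsrc hlt
    obtain ⟨ha1, ha2, ha3⟩ := avoid hρ t r0 hr0 (X m) _ y₀ η hy₀R (by linarith) hRr' hsrc hlt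
    obtain ⟨v', hv', hz⟩ := hav m hm0 hmN ha1 ha2.le
    obtain ⟨z', hz'⟩ := ha3 v' hv'
    exact absurd hz' (not_lt.2 (hz z'))

end Pool.Agent.EQ
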