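import Pool.Agent.Lib.MP_1e8d1a_an.EQ.N2
import Pool.Agent.Lib.MP_1e8d1a_an.EQ.P8

/-! A pair of returns with few visits in between. -/

open scoped ContDiff Manifold Topology BoundedContinuousFunction

namespace Pool.Agent.EQ

open Pool.Agent.SC

variable {E : Type} [NormedAddCommGroup E] [NormedSpace ℝ E] {H : Type} [TopologicalSpace H]
  {I : ModelWithCorners ℝ E H} {W : Type} [TopologicalSpace W] [ChartedSpace H W]

variable {k : ℕ} {ρ : (Fin k → ℝ) → W → W} {p : W}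

open Classical in
/-- the times of the visits to the ball of radius `A` around `y₀` -/
noncomputable def nVis (t : Tube I k ρ p) (f : W → W) (y₀ : t.E₀) (N : ℕ) (A : ℝ) : Finset ℕ :=
  (Finset.Ioo 0 N).filter fun m => f^[m] (sec I p (y₀ : E)) ∈ tubeSet I ρ p t.E₀ t.R ∧
    ‖t.Y (f^[m] (sec I p (y₀ : E))) - y₀‖ ≤ A

open Classical in
theorem mem_nVis {t : Tube I k ρ p} {f : W → W} {y₀ : t.E₀} {N : ℕ} {A : ℝ} {m : ℕ} :
    m ∈ nVis t f y₀ N A ↔ (0 < m ∧ m < N) ∧ f^[m] (sec I p (y₀ : E)) ∈ tubeSet I ρ p t.E₀ t.R ∧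
      ‖t.Y (f^[m] (sec I p (y₀ : E))) - y₀‖ ≤ A := by
  unfold nVis
  rw [Finset.mem_filter, Finset.mem_Ioo]

theorem n_few (hk : 3 ≤ k) (ε : ℝ) (hε : 0 < ε) : ∃ (N₀ : ℕ) (c₁ : ℝ), 0 < c₁ ∧
    ∀ (t : Tube I k ρ p) (f : W → W) (r : ℕ) (Cb r0 : ℝ), 1 ≤ Cb → NCore t f r Cb ε r0 →
      ∀ (R' μ η : ℝ) (y₀ y₁ : t.E₀) (N : ℕ) (e : Fin k → ℝ), N₀ ≤ N →
      NPair t f r Cb ε r0 R' μ η y₀ y₁ N e →
      ((nVis t f y₀ N (t.C * η)).card : ℝ) * (t.C * η) ^ k ≤ c₁ → NCloses t f r ε N y₁ := by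
  classical
  obtain ⟨N₀, c₁, hc₁, hpath⟩ := path_few k hk ε hε
  refine ⟨N₀, c₁, hc₁, ?_⟩
  intro t f r Cb r0 hCb hcore R' μ η y₀ y₁ N e hN hP hK
  obtain ⟨J, hJ⟩ : ∃ J : Finset ℕ, J = nVis t f y₀ N (t.C * η) := ⟨_, rfl⟩
  rw [← hJ] at hK
  have hCpos : 0 < t.C := by have := t.one_le_C; linarith
  have hη := hP.hη
  have hμ := hP.hμ
  have hrep : ∀ m, ∃ v : Fin k → ℝ, f^[m] (sec I p (y₀ : E)) ∈ tubeSet I ρ p t.E₀ t.R →
      f^[m] (sec I p (y₀ : E)) = ρ v (sec I p (t.Y (f^[m] (sec I p (y₀ : E))) : E)) := by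
    intro m
    by_cases h : f^[m] (sec I p (y₀ : E)) ∈ tubeSet I ρ p t.E₀ t.R
    · obtain ⟨-, v, hv⟩ := exists_rep t _ h
      exact ⟨v, fun _ => hv⟩
    · exact ⟨0, fun h' => absurd h' h⟩
  -- the bad balls for every representation are the same: use all integer translates
  choose Ev hEv using hrep
  have hfin : {m | m ∈ J}.Finite := J.finite_toSet
  have hcard : hfin.toFinset.card = J.card := by
    congr 1
    ext m
    simp
  have hnth_mem : ∀ i, i < J.card → Nat.nth (· ∈ J) i ∈ J := by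
    intro i hi
    exact Nat.nth_mem_of_lt_card hfin (by rw [hcard]; exact hi)
  have hnth_lt : ∀ i j, i < j → j < J.card → Nat.nth (· ∈ J) i < Nat.nth (· ∈ J) j := by
    intro i j hij hj
    exact Nat.nth_strictMonoOn hfin (by rw [Set.mem_Iio, hcard]; omega)
      (by rw [Set.mem_Iio, hcard]; omega) hij
  obtain ⟨w, hw, ⟨z, hz⟩, hav⟩ := hpath N J.card (fun i => Nat.nth (· ∈ J) (i - 1))
    (fun i => -Ev (Nat.nth (· ∈ J) (i - 1))) (-e) (t.C * η) hN (by positivity)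
    (by
      intro i hi1 hiK
      have h2 := hnth_mem (i - 1) (by omega)
      rw [hJ, mem_nVis, ← hJ] at h2
      exact h2.1)
    (by
      intro i j hi hij hj
      exact hnth_lt _ _ (by omega) (by omega)) hK
  refine hcore R' μ η (μ / 8) y₀ y₁ N e w ∅ (fun _ => 0) hP (by positivity) le_rfl (by simp)
    (by simp) (by simp) hw ?_ ?_
  · refine ⟨z, ?_⟩
    rw [Finset.sum_empty, add_zero, ← hz, sub_neg_eq_add]
  · intro m hm0 hmN hmt hmη
    have hmJ : m ∈ J := by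
      rw [hJ, mem_nVis]
      exact ⟨⟨hm0, hmN⟩, hmt, hmη⟩
    have hlt : Nat.count (· ∈ J) m < J.card := by
      have h2 := Nat.count_lt_card hfin hmJ
      rwa [hcard] at h2
    have h4 : Nat.nth (· ∈ J) (Nat.count (· ∈ J) m) = m := Nat.nth_count hmJ
    refine ⟨Ev m, hEv m hmt, fun z' => ?_⟩
    have h3 := hav (Nat.count (· ∈ J) m + 1) (by omega) (by omega) z'
    simp only [Nat.add_sub_cancel, h4, sub_neg_eq_add] at h3
    simpa using h3

end Pool.Agent.EQ
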