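import Mathlib

/-! Enumerations and sums for the paths with many pushes. -/

namespace Pool.Agent.EQ

theorem n_enum (J : Finset ℕ) (N : ℕ) (h0 : 0 ∈ J) (hN : ∀ m ∈ J, m < N) :
    ∃ (K : ℕ) (mi : ℕ → ℕ), J.card = K + 1 ∧ mi 0 = 0 ∧ mi (K + 1) = N ∧
      (∀ i j, i < j → j ≤ K + 1 → mi i < mi j) ∧ (∀ i ≤ K, mi i ∈ J) ∧
      (∀ m ∈ J, ∃ i ≤ K, mi i = m) ∧ ∀ i ≤ K, ∀ l, mi i < l → l < mi (i + 1) → l ∉ J := by
  classical
  obtain ⟨K, hK⟩ : ∃ K : ℕ, J.card = K + 1 := by
    refine ⟨J.card - 1, ?_⟩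
    have : 0 < J.card := Finset.card_pos.2 ⟨0, h0⟩
    omega
  have hfin : {m | m ∈ J}.Finite := J.finite_toSet
  have hcard : hfin.toFinset.card = K + 1 := by
    rw [← hK]
    congr 1
    ext m
    simp
  have hnth_mem : ∀ i, i ≤ K → Nat.nth (· ∈ J) i ∈ J := by
    intro i hi
    exact Nat.nth_mem_of_lt_card hfin (by rw [hcard]; omega)
  have hnth_lt : ∀ i j, i < j → j ≤ K → Nat.nth (· ∈ J) i < Nat.nth (· ∈ J) j := by
    intro i j hij hj
    exact Nat.nth_strictMonoOn hfin (by rw [Set.mem_Iio, hcard]; omega)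
      (by rw [Set.mem_Iio, hcard]; omega) hij
  have hmono : ∀ i j, i < j → j ≤ K + 1 →
      (if i ≤ K then Nat.nth (· ∈ J) i else N) < (if j ≤ K then Nat.nth (· ∈ J) j else N) := by
    intro i j hij hj
    rw [if_pos (by omega : i ≤ K)]
    by_cases hjK : j ≤ K
    · rw [if_pos hjK]
      exact hnth_lt i j hij hjK
    · rw [if_neg hjK]
      exact hN _ (hnth_mem i (by omega))
  have hsurj : ∀ m ∈ J, ∃ i ≤ K, (if i ≤ K then Nat.nth (· ∈ J) i else N) = m := by
    intro m hm
    have h2 := Nat.count_lt_card hfin hm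
    rw [hcard] at h2
    refine ⟨Nat.count (· ∈ J) m, by omega, ?_⟩
    rw [if_pos (by omega)]
    exact Nat.nth_count hm
  refine ⟨K, fun i => if i ≤ K then Nat.nth (· ∈ J) i else N, hK, ?_, ?_, hmono, ?_, hsurj, ?_⟩
  · show (if 0 ≤ K then Nat.nth (· ∈ J) 0 else N) = 0
    rw [if_pos (Nat.zero_le _)]
    exact Nat.nth_zero_of_zero h0
  · show (if K + 1 ≤ K then Nat.nth (· ∈ J) (K + 1) else N) = N
    rw [if_neg (by omega)]
  · intro i hi
    show (if i ≤ K then Nat.nth (· ∈ J) i else N) ∈ J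
    rw [if_pos hi]
    exact hnth_mem i hi
  · intro i hi l hl hl' hlJ
    obtain ⟨i', hi', rfl⟩ := hsurj l hlJ
    have h2 : i < i' := by
      by_contra h
      rcases Nat.eq_or_lt_of_le (not_lt.1 h) with h3 | h3
      · subst h3
        exact absurd hl (lt_irrefl _)
      · have := hmono i' i h3 (by omega)
        exact absurd hl (by simp only at this ⊢; omega)
    have h3 : i' < i + 1 := by
      by_contra h
      rcases Nat.eq_or_lt_of_le (not_lt.1 h) with h3 | h3
      · subst h3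
        exact absurd hl' (lt_irrefl _)
      · have := hmono (i + 1) i' h3 (by omega)
        exact absurd hl' (by simp only at this ⊢; omega)
    omega

theorem n_sum {V : Type} [AddCommGroup V] [Module ℝ V] (K T : ℕ) (hT : 1 ≤ T) (mi : ℕ → ℕ)
    (hmi : ∀ i j, i < j → j ≤ K + 1 → mi i < mi j) (P : ℕ → Finset ℕ)
    (hP : ∀ i ≤ K, P i ⊆ Finset.Ico (mi i) (mi (i + 1)) ∧ (P i).card = T) (u : ℕ → V)
    (hu0 : u 0 = 0) :
    ∃ a : ℕ → V, (∀ i ≤ K, ∀ l ∈ P i, a l = (T : ℝ)⁻¹ • (u (i + 1) - u i)) ∧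
      ∀ j ≤ K + 1, ∑ l ∈ ((Finset.range (K + 1)).biUnion P).filter (fun l => l < mi j), a l = u j := by
  classical
  have hdisj : ∀ i ≤ K, ∀ i' ≤ K, i ≠ i' → Disjoint (P i) (P i') := by
    have key : ∀ i i', i < i' → i' ≤ K → Disjoint (P i) (P i') := by
      intro i i' hii hi'
      rw [Finset.disjoint_left]
      intro l hl hl'
      have h1 := Finset.mem_Ico.1 ((hP i (by omega)).1 hl)
      have h2 := Finset.mem_Ico.1 ((hP i' hi').1 hl')
      have h3 : mi (i + 1) ≤ mi i' := by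
        rcases Nat.eq_or_lt_of_le (Nat.succ_le_of_lt hii) with h4 | h4
        · exact (congrArg mi h4).le
        · exact (hmi _ _ h4 (by omega)).le
      omega
    intro i hi i' hi' hne
    rcases lt_or_gt_of_ne hne with h | h
    · exact key i i' h hi'
    · exact (key i' i h hi).symm
  have ha : ∀ i ≤ K, ∀ l ∈ P i,
      (∑ i' ∈ Finset.range (K + 1), if l ∈ P i' then (T : ℝ)⁻¹ • (u (i' + 1) - u i') else 0) =
        (T : ℝ)⁻¹ • (u (i + 1) - u i) := by
    intro i hi l hl
    rw [Finset.sum_eq_single i]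
    · rw [if_pos hl]
    · intro i' hi' hne
      rw [if_neg]
      intro hl'
      exact Finset.disjoint_left.1 (hdisj i hi i' (by have := Finset.mem_range.1 hi'; omega)
        (Ne.symm hne)) hl hl'
    · intro h
      exact absurd (Finset.mem_range.2 (by omega)) h
  refine ⟨fun l => ∑ i' ∈ Finset.range (K + 1),
    if l ∈ P i' then (T : ℝ)⁻¹ • (u (i' + 1) - u i') else 0, ha, ?_⟩
  intro j hj
  have hfilter : ((Finset.range (K + 1)).biUnion P).filter (fun l => l < mi j) =
      (Finset.range j).biUnion P := by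
    ext l
    simp only [Finset.mem_filter, Finset.mem_biUnion, Finset.mem_range]
    constructor
    · rintro ⟨⟨i, hi, hl⟩, hlt⟩
      refine ⟨i, ?_, hl⟩
      by_contra h
      have h1 := Finset.mem_Ico.1 ((hP i (by omega)).1 hl)
      have h3 : mi j ≤ mi i := by
        rcases Nat.eq_or_lt_of_le (not_lt.1 h) with h4 | h4
        · rw [h4]
        · exact (hmi _ _ h4 (by omega)).le
      omega
    · rintro ⟨i, hi, hl⟩
      refine ⟨⟨i, by omega, hl⟩, ?_⟩
      have h1 := Finset.mem_Ico.1 ((hP i (by omega)).1 hl)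
      have h3 : mi (i + 1) ≤ mi j := by
        rcases Nat.eq_or_lt_of_le (Nat.succ_le_of_lt hi) with h4 | h4
        · exact (congrArg mi h4).le
        · exact (hmi _ _ h4 hj).le
      omega
  rw [hfilter, Finset.sum_biUnion]
  · have h1 : ∀ i ∈ Finset.range j, ∑ l ∈ P i, (∑ i' ∈ Finset.range (K + 1),
        if l ∈ P i' then (T : ℝ)⁻¹ • (u (i' + 1) - u i') else 0) = u (i + 1) - u i := by
      intro i hi
      have hi' : i ≤ K := by have := Finset.mem_range.1 hi; omega
      rw [Finset.sum_congr rfl (ha i hi'), Finset.sum_const, (hP i hi').2,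
        ← Nat.cast_smul_eq_nsmul ℝ, smul_smul, mul_inv_cancel₀ (by positivity), one_smul]
    rw [Finset.sum_congr rfl h1, Finset.sum_range_sub, hu0, sub_zero]
  · intro i hi i' hi' hne
    have h1 := Finset.mem_range.1 (Finset.mem_coe.1 hi)
    have h2 := Finset.mem_range.1 (Finset.mem_coe.1 hi')
    exact hdisj i (by omega) i' (by omega) hne

end Pool.Agent.EQ
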