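import Pool.Agent.Lib.MP_1e8d1a_an.EQ.N3
import Pool.Agent.Lib.MP_1e8d1a_an.EQ.N4

/-! A pair of returns with many isolated visits in every segment. -/

open scoped ContDiff Manifold Topology BoundedContinuousFunction

namespace Pool.Agent.EQ

open Pool.Agent.SC

variable {E : Type} [NormedAddCommGroup E] [NormedSpace ℝ E] {H : Type} [TopologicalSpace H]
  {I : ModelWithCorners ℝ E H} {W : Type} [TopologicalSpace W] [ChartedSpace H W]

variable {k : ℕ} {ρ : (Fin k → ℝ) → W → W} {p : W}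

open Classical in
/-- the times in `[m, m')` of the visits to the ball of radius `A` around `y₀`, in the tube of radius `R'` -/
noncomputable def nSeg (t : Tube I k ρ p) (f : W → W) (y₀ : t.E₀) (R' A : ℝ) (m m' : ℕ) : Finset ℕ :=
  (Finset.Ico m m').filter fun l => f^[l] (sec I p (y₀ : E)) ∈ tubeSet I ρ p t.E₀ R' ∧
    ‖t.Y (f^[l] (sec I p (y₀ : E))) - y₀‖ ≤ A

open Classical in
theorem mem_nSeg {t : Tube I k ρ p} {f : W → W} {y₀ : t.E₀} {R' A : ℝ} {m m' l : ℕ} :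
    l ∈ nSeg t f y₀ R' A m m' ↔ (m ≤ l ∧ l < m') ∧ f^[l] (sec I p (y₀ : E)) ∈ tubeSet I ρ p t.E₀ R' ∧
      ‖t.Y (f^[l] (sec I p (y₀ : E))) - y₀‖ ≤ A := by
  unfold nSeg
  rw [Finset.mem_filter, Finset.mem_Ico]

theorem n_many (hk : 3 ≤ k) (ε : ℝ) (hε : 0 < ε) : ∃ (N₀ : ℕ) (c : ℝ), 0 < c ∧
    ∀ (t : Tube I k ρ p) (f : W → W) (r : ℕ) (Cb r0 : ℝ), 1 ≤ Cb → NCore t f r Cb ε r0 →
      ∀ (R' μ η s : ℝ) (y₀ y₁ : t.E₀) (N : ℕ) (e : Fin k → ℝ) (T : ℕ), N₀ ≤ N →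
      NPair t f r Cb ε r0 R' μ η y₀ y₁ N e → 0 < s → s ≤ μ / 8 →
      (∀ m < N, ∀ m' < N, m ≠ m' → f^[m] (sec I p (y₀ : E)) ∈ tubeSet I ρ p t.E₀ R' →
        f^[m'] (sec I p (y₀ : E)) ∈ tubeSet I ρ p t.E₀ R' →
        ‖t.Y (f^[m] (sec I p (y₀ : E))) - y₀‖ ≤ μ / 4 →
        s ≤ ‖t.Y (f^[m] (sec I p (y₀ : E))) - t.Y (f^[m'] (sec I p (y₀ : E)))‖) →
      1 ≤ T → (T : ℝ) * (ε * (s / 3) ^ r / Cb) ≤ 1 →
      (t.C * η) ^ k ≤ c * (T * (ε * (s / 3) ^ r / Cb)) →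
      (∀ m m', m < m' → m' ≤ N → (m = 0 ∨ m ∈ nVis t f y₀ N (t.C * η)) →
        (m' = N ∨ m' ∈ nVis t f y₀ N (t.C * η)) →
        (∀ l, m < l → l < m' → l ∉ nVis t f y₀ N (t.C * η)) →
        T ≤ (nSeg t f y₀ R' (μ / 4) m m').card) →
      NCloses t f r ε N y₁ := by
  classical
  obtain ⟨N₀, c, hc, hpath⟩ := path_lemma k hk ε hε
  refine ⟨N₀, c, hc, ?_⟩
  intro t f r Cb r0 hCb hcore R' μ η s y₀ y₁ N e T hN hP hs hsμ hsep hT hTv hTk hseg
  have hCpos : 0 < t.C := by have := t.one_le_C; linarith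
  have hCbpos : 0 < Cb := by linarith
  have hη := hP.hη
  have hN0 := hP.N_pos
  obtain ⟨v, hv⟩ : ∃ v : ℝ, v = ε * (s / 3) ^ r / Cb := ⟨_, rfl⟩
  have hvpos : 0 < v := by rw [hv]; positivity
  rw [← hv] at hTv hTk
  have hTR : (0 : ℝ) < T := by exact_mod_cast hT
  have hrep : ∀ m, ∃ v : Fin k → ℝ, f^[m] (sec I p (y₀ : E)) ∈ tubeSet I ρ p t.E₀ t.R →
      f^[m] (sec I p (y₀ : E)) = ρ v (sec I p (t.Y (f^[m] (sec I p (y₀ : E))) : E)) := by
    intro m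
    by_cases h : f^[m] (sec I p (y₀ : E)) ∈ tubeSet I ρ p t.E₀ t.R
    · obtain ⟨-, v, hv⟩ := exists_rep t _ h
      exact ⟨v, fun _ => hv⟩
    · exact ⟨0, fun h' => absurd h' h⟩
  choose Ev hEv using hrep
  obtain ⟨J, hJ⟩ : ∃ J : Finset ℕ, J = insert 0 (nVis t f y₀ N (t.C * η)) := ⟨_, rfl⟩
  have hJmem : ∀ m, m ∈ J ↔ m = 0 ∨ m ∈ nVis t f y₀ N (t.C * η) := by
    intro m
    rw [hJ, Finset.mem_insert]
  obtain ⟨K, mi, hcard, hmi0, hmiN, hmono, hmiJ, hsurj, hgap⟩ := n_enum J N ((hJmem 0).2 (Or.inl rfl))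
    (by
      intro m hm
      rcases (hJmem m).1 hm with rfl | h
      · exact hN0
      · exact (mem_nVis.1 h).1.2)
  have hmiN' : ∀ i ≤ K + 1, mi i ≤ N := by
    intro i hi
    rcases Nat.eq_or_lt_of_le hi with h | h
    · rw [h, hmiN]
    · have := hmono i (K + 1) h le_rfl
      omega
  -- the visits in the segments
  have hP' : ∀ i, ∃ P : Finset ℕ, i ≤ K → P ⊆ nSeg t f y₀ R' (μ / 4) (mi i) (mi (i + 1)) ∧ P.card = T := by
    intro i
    by_cases hi : i ≤ K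
    · have h1 : T ≤ (nSeg t f y₀ R' (μ / 4) (mi i) (mi (i + 1))).card := by
        refine hseg (mi i) (mi (i + 1)) (hmono i (i + 1) (by omega) (by omega)) (hmiN' _ (by omega))
          ((hJmem _).1 (hmiJ i hi)) ?_ ?_
        · rcases Nat.eq_or_lt_of_le hi with h | h
          · left
            rw [h, hmiN]
          · have h2 := (hJmem _).1 (hmiJ (i + 1) h)
            have h3 := hmono 0 (i + 1) (by omega) (by omega)
            rw [hmi0] at h3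
            rcases h2 with h2 | h2
            · omega
            · exact Or.inr h2
        · intro l hl hl' hlv
          exact hgap i hi l hl hl' ((hJmem l).2 (Or.inr hlv))
      obtain ⟨P, hP1, hP2⟩ := Finset.exists_subset_card_eq h1
      exact ⟨P, fun _ => ⟨hP1, hP2⟩⟩
    · exact ⟨∅, fun h => absurd h hi⟩
  choose P hPP using hP'
  have hPI : ∀ i ≤ K, P i ⊆ Finset.Ico (mi i) (mi (i + 1)) ∧ (P i).card = T := by
    intro i hi
    refine ⟨fun l hl => ?_, (hPP i hi).2⟩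
    exact Finset.mem_Ico.2 (mem_nSeg.1 ((hPP i hi).1 hl)).1
  -- the path
  have hmi_pos : ∀ i, 1 ≤ i → i ≤ K → 0 < mi i ∧ mi i < N := by
    intro i h1 h2
    have h3 := hmono 0 i (by omega) (by omega)
    have h4 := hmono i (K + 1) (by omega) le_rfl
    omega
  obtain ⟨w, u, hw, hu0, hustep, ⟨z, hz⟩, hav⟩ := hpath N K mi (fun i => -Ev (mi i)) (-e) (t.C * η)
    (T * v) hN hN0 (by positivity) (by positivity) hTv hmi_pos
    (fun i j _ hij hj => hmono i j hij (by omega)) (Or.inr hTk)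
  obtain ⟨a, ha, hasum⟩ := n_sum K T hT mi hmono P hPI u hu0
  have hS : ∀ m ∈ (Finset.range (K + 1)).biUnion P, ∃ i ≤ K, m ∈ P i := by
    intro m hm
    obtain ⟨i, hi, hmi⟩ := Finset.mem_biUnion.1 hm
    exact ⟨i, by have := Finset.mem_range.1 hi; omega, hmi⟩
  have hSv : ∀ m ∈ (Finset.range (K + 1)).biUnion P, m < N ∧
      f^[m] (sec I p (y₀ : E)) ∈ tubeSet I ρ p t.E₀ R' ∧
      ‖t.Y (f^[m] (sec I p (y₀ : E))) - y₀‖ ≤ μ / 4 := by
    intro m hm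
    obtain ⟨i, hi, hmi⟩ := hS m hm
    have h1 := mem_nSeg.1 ((hPP i hi).1 hmi)
    exact ⟨lt_of_lt_of_le h1.1.2 (hmiN' _ (by omega)), h1.2⟩
  refine hcore R' μ η s y₀ y₁ N e w ((Finset.range (K + 1)).biUnion P) a hP hs hsμ hSv ?_ ?_ hw ?_ ?_
  · intro m hm m' hm' hne hm't
    exact hsep m (hSv m hm).1 m' hm' hne (hSv m hm).2.1 hm't (hSv m hm).2.2
  · intro m hm
    obtain ⟨i, hi, hmi⟩ := hS m hm
    rw [ha i hi m hmi, norm_smul, norm_inv, Real.norm_natCast, ← hv, inv_mul_le_iff₀ hTR]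
    exact hustep i hi
  · refine ⟨z, ?_⟩
    have h1 := hasum (K + 1) le_rfl
    rw [hmiN, Finset.filter_true_of_mem (fun m hm => (hSv m hm).1)] at h1
    rw [h1, ← hz, sub_neg_eq_add]
  · intro m hm0 hmN hmt hmη
    have hmJ : m ∈ J := (hJmem m).2 (Or.inr (mem_nVis.2 ⟨⟨hm0, hmN⟩, hmt, hmη⟩))
    obtain ⟨i, hi, rfl⟩ := hsurj m hmJ
    have hi1 : 1 ≤ i := by
      rcases Nat.eq_zero_or_pos i with h | h
      · rw [h, hmi0] at hm0
        exact absurd hm0 (lt_irrefl _)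
      · exact h
    refine ⟨Ev (mi i), hEv (mi i) hmt, fun z' => ?_⟩
    have h3 := hav i hi1 hi z'
    rw [hasum i (by omega)]
    simpa [sub_neg_eq_add] using h3

end Pool.Agent.EQ
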