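import Pool.Agent.Lib.MP_1e8d1a_an.EQ.N1
import Pool.Agent.Lib.MP_1e8d1a_an.EQ.N5
import Pool.Agent.Lib.MP_1e8d1a_an.EQ.K4
import Pool.Agent.Lib.MP_1e8d1a_an.EQ.K4b
import Pool.Agent.Lib.MP_1e8d1a_an.EQ.S1
import Pool.Agent.Lib.MP_1e8d1a_an.EQ.T6
import Pool.Agent.Lib.MP_1e8d1a_an.EQ.F7

/-! The equivariant closing lemma for `r (r - 1) < k`. -/

open scoped ContDiff Manifold Topology BoundedContinuousFunction

namespace Pool.Agent.EQ

open Pool.Agent.SC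

variable {E : Type} [NormedAddCommGroup E] [NormedSpace ℝ E] {H : Type} [TopologicalSpace H]
  {I : ModelWithCorners ℝ E H} {W : Type} [TopologicalSpace W] [ChartedSpace H W]

variable {k : ℕ} {ρ : (Fin k → ℝ) → W → W} {p : W}

/-- `r (r - 1) < k` in the form needed -/
theorem n_exp (r k : ℕ) (hr : 1 ≤ r) (h : r * (r - 1) < k) : r ^ 3 + 1 ≤ k * (r + 1) := by
  obtain ⟨q, rfl⟩ : ∃ q, r = q + 1 := ⟨r - 1, by omega⟩
  have h1 : (q + 1) * q + 1 ≤ k := by simpa using h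
  calc (q + 1) ^ 3 + 1 = ((q + 1) * q + 1) * (q + 1 + 1) := by ring
    _ ≤ k * (q + 1 + 1) := Nat.mul_le_mul_right _ h1

/-- the radius of the bump for the displacement `D` -/
theorem n_radius (r : ℕ) (hr : 1 ≤ r) (Cb ε D : ℝ) (hCb : 0 < Cb) (hε : 0 < ε) (hD : 0 < D) :
    ∃ η : ℝ, 0 < η ∧ η ^ r * ε = Cb * D := by
  have h2 : 0 < Cb * D / ε := by positivity
  refine ⟨(Cb * D / ε) ^ ((r : ℝ)⁻¹), Real.rpow_pos_of_pos h2 _, ?_⟩
  rw [Real.rpow_inv_natCast_pow h2.le (by omega)]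
  field_simp

/-- the small constant `θ` -/
theorem n_theta (r : ℕ) (C Cb ε η₀ : ℝ) (hC : 1 ≤ C) (hCb : 1 ≤ Cb) (hε : 0 < ε)
    (hη₀ : 0 < η₀) : ∃ θ : ℝ, 0 < θ ∧ θ ≤ η₀ ∧ C * θ ≤ 1 / 8 ∧ θ ≤ 1 / 8 ∧
      2 * Cb * C * θ * (16 * C) ^ r ≤ ε := by
  have hC0 : 0 < C := by linarith
  have hCb0 : 0 < Cb := by linarith
  refine ⟨min η₀ (min (1 / (8 * C)) (ε / (2 * Cb * C * (16 * C) ^ r))), by positivity, min_le_left _ _,
    ?_, ?_, ?_⟩
  · calc C * min η₀ (min (1 / (8 * C)) (ε / (2 * Cb * C * (16 * C) ^ r))) ≤ C * (1 / (8 * C)) :=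
          mul_le_mul_of_nonneg_left ((min_le_right _ _).trans (min_le_left _ _)) hC0.le
      _ = 1 / 8 := by field_simp
  · refine ((min_le_right _ _).trans (min_le_left _ _)).trans ?_
    rw [div_le_div_iff₀ (by positivity) (by norm_num)]
    linarith
  · have h1 : min η₀ (min (1 / (8 * C)) (ε / (2 * Cb * C * (16 * C) ^ r))) ≤
        ε / (2 * Cb * C * (16 * C) ^ r) := (min_le_right _ _).trans (min_le_right _ _)
    rw [le_div_iff₀ (by positivity)] at h1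
    calc 2 * Cb * C * min η₀ (min (1 / (8 * C)) (ε / (2 * Cb * C * (16 * C) ^ r))) * (16 * C) ^ r
        = min η₀ (min (1 / (8 * C)) (ε / (2 * Cb * C * (16 * C) ^ r))) * (2 * Cb * C * (16 * C) ^ r) := by
          ring
      _ ≤ ε := h1

/-- **The equivariant closing lemma**, `r (r - 1) < k`. -/
theorem equivariant_closing2 [FiniteDimensional ℝ E] [T2Space W] [CompactSpace W]
    [IsManifold I ∞ W] [I.Boundaryless] (r : ℕ) (hr : 1 ≤ r) (hk : 3 ≤ k)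
    (hkr : r * (r - 1) < k ∨ (r - 1) * (Module.finrank ℝ E - k) < k) (hρ : IsTorusAction I k ρ)
    (hp : ∀ v, ρ v p = p → ∃ m : Fin k → ℤ, v = fun i => (m i : ℝ))
    (F : W ≃ₘ^((r : ℕ∞) : WithTop ℕ∞)⟮I, I⟯ W) (hF : ∀ v q, F (ρ v q) = ρ v (F q))
    (hnw : ∀ O ∈ 𝓝 p, ∃ n : ℕ, 0 < n ∧ ∃ q ∈ O, (F : W → W)^[n] q ∈ O) : Closable I F p := by
  classical
  intro U hU
  obtain ⟨t⟩ := exists_tube (I := I) hρ hp
  obtain ⟨ε, hε, hεR, hε2, hpert⟩ := perturb r hr hρ t F U hU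
  have hRpos := t.R_pos
  have hCone := t.one_le_C
  have hCpos : 0 < t.C := by linarith
  have hsec0 : sec I p (0 : E) = p := by
    unfold sec
    rw [add_zero]
    exact extChartAt_to_inv p
  have hpT : p ∈ tubeSet I ρ p t.E₀ t.R :=
    ⟨0, 0, by rw [norm_zero]; exact hRpos, by
      rw [hρ.zero, Submodule.coe_zero, hsec0]⟩
  have hYp : t.Y p = 0 := by
    have h1 := t.Y_eq 0 0 (by rw [norm_zero]; exact hRpos)
    rwa [hρ.zero, Submodule.coe_zero, hsec0] at h1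
  obtain ⟨r0, hr0pos, hr0⟩ : ∃ r0 : ℝ, 0 < r0 ∧
      ∀ q ∈ (extChartAt I p).source, ‖cc I p q‖ < r0 → q ∈ tubeSet I ρ p t.E₀ t.R := by
    have h1 : ContinuousAt (extChartAt I p).symm (extChartAt I p p) :=
      continuousAt_extChartAt_symm p
    have h2 : tubeSet I ρ p t.E₀ t.R ∈ 𝓝 ((extChartAt I p).symm (extChartAt I p p)) := by
      rw [extChartAt_to_inv]
      exact t.isOpen.mem_nhds hpT
    obtain ⟨r0, hr0, hsub⟩ := Metric.mem_nhds_iff.1 (h1 h2)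
    refine ⟨r0, hr0, fun q hq hn => ?_⟩
    have h3 : extChartAt I p q ∈ Metric.ball (extChartAt I p p) r0 := by
      rw [Metric.mem_ball, dist_eq_norm]
      exact hn
    have h4 := hsub h3
    rw [Set.mem_preimage, (extChartAt I p).left_inv hq] at h4
    exact h4
  -- the constants
  obtain ⟨Cb, hCb, hcore0⟩ := n_core0 hρ t F hF r hr
  have hCb0 : 0 < Cb := by linarith
  have hcore := hcore0 ε hε hε2 r0 hr0
  obtain ⟨N₁, c₁, hc₁, hfew'⟩ := n_few (I := I) (ρ := ρ) (p := p) hk ε hε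
  obtain ⟨N₂, c, hc, hmany'⟩ := n_many (I := I) (ρ := ρ) (p := p) hk ε hε
  have hfew := hfew' t F r Cb r0 hCb hcore
  have hmany := hmany' t F r Cb r0 hCb hcore
  obtain ⟨η₀, hη₀, hη₀P⟩ : ∃ η₀ : ℝ, 0 < η₀ ∧ ∀ η, 0 < η → η ≤ η₀ →
      (∀ K : ℝ, 0 ≤ K → K ≤ (1 + 2 * (t.C * η) / (ε * η ^ r / Cb / 2 ^ (r ^ 2))) ^
        Module.finrank ℝ t.E₀ → K * (t.C * η) ^ k ≤ c₁) ∨
      (∃ T : ℕ, 1 ≤ T ∧
        (T : ℝ) * (ε * (ε * η ^ r / Cb / 2 ^ (r ^ 2) / 3) ^ r / Cb) ≤ 1 ∧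
        (t.C * η) ^ k ≤ c * (T * (ε * (ε * η ^ r / Cb / 2 ^ (r ^ 2) / 3) ^ r / Cb)) ∧
        ∀ (K : ℕ) (η' : ℝ), 0 < η' → η' ^ r * ε ≤ 2 * Cb * (t.C * η) →
          c₁ < K * (t.C * η') ^ k → T ≤ K) := by
    rcases hkr with h | h
    · obtain ⟨η₀, h1, h2⟩ := n_numerics r k hr (n_exp r k hr h) t.C Cb ε c c₁ hCone hCb hε hc hc₁
      exact ⟨η₀, h1, fun η hη hη' => Or.inr (h2 η hη hη')⟩
    · have hfin : Module.finrank ℝ t.E₀ = Module.finrank ℝ E - k := by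
        have := t.fin
        omega
      obtain ⟨η₀, h1, h2⟩ := n_packing r k (Module.finrank ℝ t.E₀) (r ^ 2) hr
        (by rw [hfin]; exact h) t.C Cb ε c₁ hCone hCb hε hc₁
      exact ⟨η₀, h1, fun η hη hη' => Or.inl (h2 η hη hη')⟩
  obtain ⟨θ, hθ, hθη, hθC, hθ8, hθ16⟩ := n_theta r t.C Cb ε η₀ hCone hCb hε hη₀
  obtain ⟨κ, hκ⟩ : ∃ κ : ℝ, κ = ε * θ ^ r / Cb := ⟨_, rfl⟩
  have hκ0 : 0 < κ := by rw [hκ]; positivity
  have hκ16 : κ ≤ 1 / 16 := by
    have h1 : θ ^ r ≤ θ := by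
      calc θ ^ r ≤ θ ^ 1 := pow_le_pow_of_le_one hθ.le (by linarith) hr
        _ = θ := pow_one θ
    rw [hκ, div_le_iff₀ hCb0]
    nlinarith [pow_pos hθ r]
  by_cases hper : ∃ m, 1 ≤ m ∧ ∃ z, (F : W → W)^[m] p = ρ z p
  · obtain ⟨m, hm, z, hz⟩ := hper
    exact rotation_case hρ t (fun G : W ≃ₘ^((r : ℕ∞) : WithTop ℕ∞)⟮I, I⟯ W => (G : W → W)) U r
      F hF ε hε hpert p (mem_extChartAt_source p)
      (by unfold cc; rw [sub_self, norm_zero]; exact hε.le) m hm z hz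
  push Not at hper
  obtain ⟨R₁, hR₁, hR₁t, hfar⟩ := far_visits hρ t F F.continuous hF (max N₁ N₂)
    (fun m hm _ z => hper m hm z)
  obtain ⟨R', hR'pos, hR'1, hR'2, hR'3, hR'4⟩ : ∃ R' : ℝ, 0 < R' ∧ R' ≤ R₁ ∧ R' ≤ 1 ∧ R' ≤ ε ∧
      R' ≤ r0 := by
    refine ⟨min (min R₁ 1) (min ε r0), by positivity, ?_, ?_, ?_, ?_⟩
    · exact (min_le_left _ _).trans (min_le_left _ _)
    · exact (min_le_left _ _).trans (min_le_right _ _)
    · exact (min_le_right _ _).trans (min_le_left _ _)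
    · exact (min_le_right _ _).trans (min_le_right _ _)
  have hR't : R' < t.R := lt_of_le_of_lt hR'1 hR₁t
  -- iterates commute with the action
  have hiter : ∀ (m : ℕ) (v : Fin k → ℝ) (q : W),
      (F : W → W)^[m] (ρ v q) = ρ v ((F : W → W)^[m] q) := k4_iter hF
  have hneg : ∀ (v : Fin k → ℝ) (q : W), ρ (-v) (ρ v q) = q := by
    intro v q
    rw [← hρ.add, neg_add_cancel, hρ.zero]
  -- the neighbourhood
  obtain ⟨δ, hδ, hδ1, hδ2⟩ : ∃ δ : ℝ, 0 < δ ∧ δ ≤ R' / 2 ∧ δ ≤ κ * (R' / 2) ^ (r ^ 2) / 2 :=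
    ⟨min (R' / 2) (κ * (R' / 2) ^ (r ^ 2) / 2), by positivity, min_le_left _ _, min_le_right _ _⟩
  have hO : {q : W | q ∈ tubeSet I ρ p t.E₀ t.R ∧ ‖t.Y q‖ < δ} ∈ 𝓝 p := by
    refine Filter.inter_mem (t.isOpen.mem_nhds hpT) ?_
    have h1 : ContinuousAt t.Y p := (t.Y_smooth p hpT).continuousAt
    have h2 : Metric.ball (0 : t.E₀) δ ∈ 𝓝 (t.Y p) := by
      rw [hYp]
      exact Metric.ball_mem_nhds _ hδ
    filter_upwards [h1 h2] with q hq
    have h3 : t.Y q ∈ Metric.ball (0 : t.E₀) δ := hq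
    rw [mem_ball_zero_iff] at h3
    exact h3
  obtain ⟨n, hn0, q, hqO, hqn⟩ := hnw _ hO
  obtain ⟨x, hx⟩ : ∃ x : ℕ → W, ∀ j, x j = (F : W → W)^[j] q := ⟨_, fun _ => rfl⟩
  obtain ⟨y, hy⟩ : ∃ y : ℕ → t.E₀, ∀ j, y j = t.Y (x j) := ⟨_, fun _ => rfl⟩
  obtain ⟨J, hJ⟩ : ∃ J : Finset ℕ, ∀ j, j ∈ J ↔ j ≤ n ∧ x j ∈ tubeSet I ρ p t.E₀ R' :=
    ⟨(Finset.range (n + 1)).filter (fun j => x j ∈ tubeSet I ρ p t.E₀ R'), fun j => by
      rw [Finset.mem_filter, Finset.mem_range, Nat.lt_succ_iff]⟩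
  have hJR : ∀ j ∈ J, x j ∈ tubeSet I ρ p t.E₀ t.R ∧ ‖y j‖ < R' := by
    intro j hj
    have h1 := (mem_tubeSet_iff t R' hR't.le _).1 ((hJ j).1 hj).2
    rw [hy]
    exact h1
  have hrep : ∀ j, ∃ v : Fin k → ℝ, j ∈ J → x j = ρ v (sec I p (y j : E)) := by
    intro j
    by_cases h : j ∈ J
    · obtain ⟨-, v, hv⟩ := exists_rep t (x j) (hJR j h).1
      exact ⟨v, fun _ => by rw [hy]; exact hv⟩
    · exact ⟨0, fun h' => absurd h' h⟩
  choose V hV using hrep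
  have hxadd : ∀ a m, (F : W → W)^[m] (x a) = x (a + m) := by
    intro a m
    rw [hx, hx, ← Function.iterate_add_apply, add_comm]
  have hsec : ∀ a ∈ J, ∀ m, (F : W → W)^[m] (sec I p (y a : E)) = ρ (-V a) (x (a + m)) := by
    intro a ha m
    have h1 : sec I p (y a : E) = ρ (-V a) (x a) := by
      conv_rhs => rw [hV a ha]
      rw [hneg]
    rw [h1, hiter, hxadd]
  have hstep : ∀ a ∈ J, ∀ b ∈ J, a < b → (F : W → W)^[b - a] (sec I p (y a : E)) =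
      ρ (V b - V a) (sec I p (y b : E)) := by
    intro a ha b hb hab
    rw [hsec a ha, Nat.add_sub_cancel' hab.le]
    conv_lhs => rw [hV b hb]
    rw [← hρ.add]
    congr 1
    abel
  have hsrc : ∀ a ∈ J, sec I p (y a : E) ∈ (extChartAt I p).source ∧
      ‖cc I p (sec I p (y a : E))‖ ≤ ε := by
    intro a ha
    have h1 := (hJR a ha).2
    have h2 : extChartAt I p p + (y a : E) ∈ (extChartAt I p).target := by
      apply t.ball
      rw [Metric.mem_closedBall, dist_eq_norm, add_sub_cancel_left]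
      have h3 : ‖(y a : E)‖ = ‖y a‖ := rfl
      rw [h3]
      linarith
    refine ⟨(extChartAt I p).map_target h2, ?_⟩
    unfold cc sec
    rw [(extChartAt I p).right_inv h2, add_sub_cancel_left]
    have h3 : ‖(y a : E)‖ = ‖y a‖ := rfl
    rw [h3]
    linarith
  have hxO : ∀ j, x j ∈ {q : W | q ∈ tubeSet I ρ p t.E₀ t.R ∧ ‖t.Y q‖ < δ} → j ≤ n → j ∈ J := by
    intro j hj hjn
    refine (hJ j).2 ⟨hjn, (mem_tubeSet_iff t R' hR't.le _).2 ⟨hj.1, ?_⟩⟩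
    have := hj.2
    linarith
  have hx0 : x 0 = q := by rw [hx]; rfl
  have hxn : x n = (F : W → W)^[n] q := hx n
  have h0J : 0 ∈ J := hxO 0 (by rw [hx0]; exact hqO) (Nat.zero_le _)
  have hnJ : n ∈ J := hxO n (by rw [hxn]; exact hqn) le_rfl
  by_cases hinj : ∀ i ∈ J, ∀ j ∈ J, y i = y j → i = j
  swap
  · push Not at hinj
    obtain ⟨i, hi, j, hj, hij, hne⟩ := hinj
    obtain ⟨a, ha, b, hb, hab, heq⟩ : ∃ a ∈ J, ∃ b ∈ J, a < b ∧ y a = y b := by
      rcases lt_or_gt_of_ne hne with h | h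
      · exact ⟨i, hi, j, hj, h, hij⟩
      · exact ⟨j, hj, i, hi, h, hij.symm⟩
    have h1 := hstep a ha b hb hab
    rw [← heq] at h1
    exact rotation_case hρ t (fun G : W ≃ₘ^((r : ℕ∞) : WithTop ℕ∞)⟮I, I⟯ W => (G : W → W)) U r
      F hF ε hε hpert (sec I p (y a : E)) (hsrc a ha).1 (hsrc a ha).2 (b - a) (by omega)
      (V b - V a) h1
  by_contra hgoal
  -- no pair of returns can be closed
  have hno : ∀ i ∈ J, ∀ j ∈ J, i < j → ¬ NCloses t F r ε (j - i) (y j) := by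
    intro i hi j hj hij hcl
    obtain ⟨α, β, w, hα, hβ, hαε, hβε, hαs, hβs, hw, hclose⟩ := hcl
    apply hgoal
    obtain ⟨G, hG, h, hh, hGh⟩ := hpert α β w (sec I p (y j : E)) hα hβ hαε hβε hαs hβs hw
      (hsrc j hj).1 (hsrc j hj).2
    refine ⟨G, hG, j - i, by omega, ?_⟩
    have hsemi : Function.Semiconj h
        (fun q => F (push I t β (ρ w (shf I p α q)))) (G : W → W) := fun q => (hGh q).symm
    have h1 := (hsemi.iterate_right (j - i)) (sec I p (y j : E))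
    rw [hclose, hh] at h1
    exact h1.symm
  have hlong : ∀ i ∈ J, ∀ j ∈ J, i < j → max N₁ N₂ ≤ j - i := by
    intro i hi j hj hij
    by_contra hlt
    push Not at hlt
    have h1 := hfar R' hR'1 (x i) ((hJ i).1 hi).2 (j - i) (by omega) hlt.le
    rw [hxadd, Nat.add_sub_cancel' hij.le] at h1
    exact h1 ((hJ j).1 hj).2
  -- the orbit of `sec (y i)`
  have hXt : ∀ i ∈ J, ∀ m R, (F : W → W)^[m] (sec I p (y i : E)) ∈ tubeSet I ρ p t.E₀ R ↔
      x (i + m) ∈ tubeSet I ρ p t.E₀ R := by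
    intro i hi m R
    rw [hsec i hi, rho_mem_iff hρ]
  have hXY : ∀ i ∈ J, ∀ m, x (i + m) ∈ tubeSet I ρ p t.E₀ t.R →
      t.Y ((F : W → W)^[m] (sec I p (y i : E))) = y (i + m) := by
    intro i hi m h
    rw [hsec i hi, Y_rho hρ t _ _ h, hy]
  -- the selection
  have hq1 : 1 ≤ r ^ 2 := Nat.one_le_pow _ _ hr
  have hQ : ‖y 0 - y n‖ ≤ κ * (R' - ‖y 0‖) ^ (r ^ 2) := by
    have h1 : ‖y 0‖ < δ := by rw [hy, hx0]; exact hqO.2
    have h2 : ‖y n‖ < δ := by rw [hy, hxn]; exact hqn.2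
    calc ‖y 0 - y n‖ ≤ ‖y 0‖ + ‖y n‖ := norm_sub_le _ _
      _ ≤ κ * (R' / 2) ^ (r ^ 2) := by linarith
      _ ≤ κ * (R' - ‖y 0‖) ^ (r ^ 2) := by
          refine mul_le_mul_of_nonneg_left ?_ hκ0.le
          exact pow_le_pow_left₀ (by positivity) (by linarith) _
  obtain ⟨a, ha, b, hb, hab, μ, hμ, hμR, hna, hnb, hD, hDκ, hsel⟩ :=
    selection (r ^ 2) hq1 y J R' κ hR'pos hR'2 hκ0 (by linarith) (fun j hj => (hJR j hj).2) hinj 0 n
      h0J hnJ (by omega) hQ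
  have hbn : b ≤ n := ((hJ b).1 hb).1
  have hμ1 : μ ≤ 1 := hμR.trans hR'2
  obtain ⟨D, hDdef⟩ : ∃ D : ℝ, D = ‖y a - y b‖ := ⟨_, rfl⟩
  rw [← hDdef] at hD hDκ hsel
  obtain ⟨η, hη, hηr⟩ := n_radius r hr Cb ε D hCb0 hε hD
  have hηθ : η ≤ θ * μ ^ r := by
    have h2 : η ^ r ≤ (θ * μ ^ r) ^ r := by
      rw [mul_pow, ← pow_mul, ← sq]
      have h3 : η ^ r * ε ≤ (θ ^ r * μ ^ (r ^ 2)) * ε := by
        rw [hηr]
        calc Cb * D ≤ Cb * (κ * μ ^ (r ^ 2)) := mul_le_mul_of_nonneg_left hDκ hCb0.le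
          _ = (θ ^ r * μ ^ (r ^ 2)) * ε := by rw [hκ]; field_simp
      exact le_of_mul_le_mul_right h3 hε
    exact (pow_le_pow_iff_left₀ hη.le (by positivity) (by omega)).1 h2
  have hμr : μ ^ r ≤ μ := by
    calc μ ^ r ≤ μ ^ 1 := pow_le_pow_of_le_one hμ.le hμ1 hr
      _ = μ := pow_one μ
  have hηθμ : η ≤ θ * μ := hηθ.trans (mul_le_mul_of_nonneg_left hμr hθ.le)
  have hηη₀ : η ≤ η₀ := by
    have h1 : θ * μ ≤ θ * 1 := mul_le_mul_of_nonneg_left hμ1 hθ.le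
    linarith
  have hCη : t.C * η ≤ μ / 8 := by
    calc t.C * η ≤ t.C * (θ * μ) := mul_le_mul_of_nonneg_left hηθμ hCpos.le
      _ = t.C * θ * μ := by ring
      _ ≤ 1 / 8 * μ := mul_le_mul_of_nonneg_right hθC hμ.le
      _ = μ / 8 := by ring
  have hημ : η ≤ t.C * η := by nlinarith
  have hηr1 : η ^ r ≤ η := by
    calc η ^ r ≤ η ^ 1 := pow_le_pow_of_le_one hη.le (by linarith) hr
      _ = η := pow_one η
  have hDη : D = ε * η ^ r / Cb := by
    rw [eq_div_iff hCb0.ne']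
    linarith
  have hDη2 : D ≤ η := by
    have h1 : D ≤ Cb * D := by nlinarith
    have h2 : η ^ r * ε ≤ η * 1 := mul_le_mul hηr1 (by linarith) hε.le hη.le
    linarith
  obtain ⟨s, hs⟩ : ∃ s : ℝ, s = D / 2 ^ (r ^ 2) := ⟨_, rfl⟩
  have hspos : 0 < s := by rw [hs]; positivity
  have hsD : s ≤ D := by
    rw [hs]
    exact div_le_self hD.le (one_le_pow₀ (by norm_num))
  have hsμ : s ≤ μ / 8 := by linarith
  have hsη : s = ε * η ^ r / Cb / 2 ^ (r ^ 2) := by rw [hs, ← hDη]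
  have hPab : NPair t F r Cb ε r0 R' μ η (y a) (y b) (b - a) (V b - V a) :=
    ⟨by omega, hstep a ha b hb hab, hμ, hμR, hR'2, hR't, hR'3, hR'4, hna, hnb, hη, hCη,
      by rw [hηr, hDdef]⟩
  have hsepJ : ∀ m < b - a, ∀ m' < b - a, m ≠ m' →
      (F : W → W)^[m] (sec I p (y a : E)) ∈ tubeSet I ρ p t.E₀ R' →
      (F : W → W)^[m'] (sec I p (y a : E)) ∈ tubeSet I ρ p t.E₀ R' →
      ‖t.Y ((F : W → W)^[m] (sec I p (y a : E))) - y a‖ ≤ μ / 4 →
      s ≤ ‖t.Y ((F : W → W)^[m] (sec I p (y a : E))) - t.Y ((F : W → W)^[m'] (sec I p (y a : E)))‖ := by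
    intro m hm m' hm' hne h1 h2 h3
    rw [hXt a ha] at h1 h2
    have h1J : a + m ∈ J := (hJ _).2 ⟨by omega, h1⟩
    have h2J : a + m' ∈ J := (hJ _).2 ⟨by omega, h2⟩
    rw [hXY a ha m (hJR _ h1J).1] at h3 ⊢
    rw [hXY a ha m' (hJR _ h2J).1]
    have h4 := hsel _ h1J _ h2J (by omega) h3
    rw [hs, div_le_iff₀ (by positivity), mul_comm]
    exact h4
  have hkey := hη₀P η hη hηη₀
  have hnotab : c₁ < ((nVis t F (y a) (b - a) (t.C * η)).card : ℝ) * (t.C * η) ^ k := by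
    by_contra hle
    push Not at hle
    exact hno a ha b hb hab (hfew R' μ η (y a) (y b) (b - a) (V b - V a)
      ((le_max_left _ _).trans (hlong a ha b hb hab)) hPab hle)
  -- members of `nVis` are in the tube of radius `R'`
  have hvisR : ∀ i ∈ J, ∀ (N : ℕ) (A : ℝ), ‖y i‖ + A < R' → ∀ l ∈ nVis t F (y i) N A,
      x (i + l) ∈ tubeSet I ρ p t.E₀ R' ∧ ‖y (i + l) - y i‖ ≤ A := by
    intro i hi N A hA l hl
    obtain ⟨-, h1, h2⟩ := mem_nVis.1 hl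
    rw [hXt i hi] at h1
    rw [hXY i hi l h1] at h2
    refine ⟨(mem_tubeSet_iff t R' hR't.le _).2 ⟨h1, ?_⟩, h2⟩
    rw [← hy]
    have h3 : ‖y (i + l)‖ ≤ ‖y (i + l) - y i‖ + ‖y i‖ := by
      calc ‖y (i + l)‖ = ‖(y (i + l) - y i) + y i‖ := by rw [sub_add_cancel]
        _ ≤ _ := norm_add_le _ _
    linarith
  rcases hkey with hpack | ⟨T, hT, hTv, hTk, hTK⟩
  · -- packing
    refine absurd (hpack _ (Nat.cast_nonneg _) ?_) (not_le.2 hnotab)
    rw [← hsη]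
    refine card_le_of_separated t.E₀ (nVis t F (y a) (b - a) (t.C * η))
      (fun m => t.Y ((F : W → W)^[m] (sec I p (y a : E)))) (y a) (t.C * η) s (by positivity) hspos ?_ ?_
    · intro m hm
      exact (mem_nVis.1 hm).2.2
    · intro m hm m' hm' hne
      have h1 := hvisR a ha (b - a) (t.C * η) (by linarith) m hm
      have h2 := hvisR a ha (b - a) (t.C * η) (by linarith) m' hm'
      exact hsepJ m (mem_nVis.1 hm).1.2 m' (mem_nVis.1 hm').1.2 hne ((hXt a ha m R').2 h1.1)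
        ((hXt a ha m' R').2 h2.1) ((mem_nVis.1 hm).2.2.trans (by linarith))
  · -- many visits
    refine hno a ha b hb hab (hmany R' μ η s (y a) (y b) (b - a) (V b - V a) T
      ((le_max_right _ _).trans (hlong a ha b hb hab)) hPab hspos hsμ hsepJ hT
      (by rw [hsη]; exact hTv) (by rw [hsη]; exact hTk) ?_)
    intro m m' hmm hm'N hm hm' hgap
    -- the two returns
    have hmJ : a + m ∈ J ∧ ‖y (a + m) - y a‖ ≤ t.C * η := by
      rcases hm with rfl | hm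
      · rw [add_zero, sub_self, norm_zero]
        exact ⟨ha, by positivity⟩
      · have h1 := hvisR a ha (b - a) (t.C * η) (by linarith) m hm
        exact ⟨(hJ _).2 ⟨by omega, h1.1⟩, h1.2⟩
    have hm'J : a + m' ∈ J ∧ ‖y (a + m') - y a‖ ≤ t.C * η := by
      rcases hm' with rfl | hm'
      · rw [Nat.add_sub_cancel' hab.le, norm_sub_rev, ← hDdef]
        exact ⟨hb, hDη2.trans hημ⟩
      · have h1 := hvisR a ha (b - a) (t.C * η) (by linarith) m' hm'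
        exact ⟨(hJ _).2 ⟨by omega, h1.1⟩, h1.2⟩
    have hD'pos : 0 < ‖y (a + m) - y (a + m')‖ := by
      rw [norm_pos_iff, sub_ne_zero]
      intro h
      have := hinj _ hmJ.1 _ hm'J.1 h
      omega
    have hD'le : ‖y (a + m) - y (a + m')‖ ≤ 2 * (t.C * η) := by
      calc ‖y (a + m) - y (a + m')‖ = ‖(y (a + m) - y a) - (y (a + m') - y a)‖ := by
            congr 1; abel
        _ ≤ ‖y (a + m) - y a‖ + ‖y (a + m') - y a‖ := norm_sub_le _ _
        _ ≤ 2 * (t.C * η) := by linarith [hmJ.2, hm'J.2]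
    obtain ⟨η', hη', hη'r⟩ := n_radius r hr Cb ε _ hCb0 hε hD'pos
    have hη'le : η' ^ r * ε ≤ 2 * Cb * (t.C * η) := by
      rw [hη'r]
      calc Cb * ‖y (a + m) - y (a + m')‖ ≤ Cb * (2 * (t.C * η)) :=
            mul_le_mul_of_nonneg_left hD'le hCb0.le
        _ = 2 * Cb * (t.C * η) := by ring
    have hCη' : t.C * η' ≤ μ / 16 := by
      have h2 : (16 * (t.C * η')) ^ r ≤ μ ^ r := by
        have h3 : (16 * (t.C * η')) ^ r * ε ≤ μ ^ r * ε := by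
          calc (16 * (t.C * η')) ^ r * ε = (16 * t.C) ^ r * (η' ^ r * ε) := by
                rw [← mul_assoc, mul_pow]; ring
            _ ≤ (16 * t.C) ^ r * (2 * Cb * (t.C * (θ * μ ^ r))) := by
                refine mul_le_mul_of_nonneg_left (hη'le.trans ?_) (by positivity)
                exact mul_le_mul_of_nonneg_left (mul_le_mul_of_nonneg_left hηθ hCpos.le)
                  (by positivity)
            _ = (2 * Cb * t.C * θ * (16 * t.C) ^ r) * μ ^ r := by ring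
            _ ≤ ε * μ ^ r := mul_le_mul_of_nonneg_right hθ16 (by positivity)
            _ = μ ^ r * ε := mul_comm _ _
        exact le_of_mul_le_mul_right h3 hε
      have h4 := (pow_le_pow_iff_left₀ (by positivity) hμ.le (by omega)).1 h2
      linarith
    have hmn : ‖y (a + m)‖ ≤ ‖y a‖ + μ / 8 := by
      have h3 : ‖y (a + m)‖ ≤ ‖y (a + m) - y a‖ + ‖y a‖ := by
        calc ‖y (a + m)‖ = ‖(y (a + m) - y a) + y a‖ := by rw [sub_add_cancel]
          _ ≤ _ := norm_add_le _ _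
      linarith [hmJ.2]
    have hm'n : ‖y (a + m')‖ ≤ ‖y a‖ + μ / 8 := by
      have h3 : ‖y (a + m')‖ ≤ ‖y (a + m') - y a‖ + ‖y a‖ := by
        calc ‖y (a + m')‖ = ‖(y (a + m') - y a) + y a‖ := by rw [sub_add_cancel]
          _ ≤ _ := norm_add_le _ _
      linarith [hm'J.2]
    have hP' : NPair t F r Cb ε r0 R' (μ / 2) η' (y (a + m)) (y (a + m')) (a + m' - (a + m))
        (V (a + m') - V (a + m)) :=
      ⟨by omega, hstep _ hmJ.1 _ hm'J.1 (by omega), by linarith, by linarith, hR'2, hR't, hR'3, hR'4,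
        by linarith, by linarith, hη', by linarith, hη'r⟩
    have hnot : c₁ < ((nVis t F (y (a + m)) (a + m' - (a + m)) (t.C * η')).card : ℝ) *
        (t.C * η') ^ k := by
      by_contra hle
      push Not at hle
      exact hno _ hmJ.1 _ hm'J.1 (by omega) (hfew R' (μ / 2) η' _ _ _ _
        ((le_max_left _ _).trans (hlong _ hmJ.1 _ hm'J.1 (by omega))) hP' hle)
    refine (hTK _ η' hη' hη'le hnot).trans ?_
    refine Finset.card_le_card_of_injOn (fun l => m + l) ?_ (fun l _ l' _ h => by simpa using h)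
    intro l hl
    have hl' : l ∈ nVis t F (y (a + m)) (a + m' - (a + m)) (t.C * η') := hl
    have h1 := hvisR _ hmJ.1 _ (t.C * η') (by linarith) l hl'
    have h2 := (mem_nVis.1 hl').1
    rw [add_assoc] at h1
    have h3 : m ≤ m + l := by omega
    have h4 : m + l < m' := by omega
    refine Finset.mem_coe.2 (mem_nSeg.2 ⟨⟨h3, h4⟩, (hXt a ha (m + l) R').2 h1.1, ?_⟩)
    rw [hXY a ha (m + l) ((mem_tubeSet_iff t R' hR't.le _).1 h1.1).1]
    calc ‖y (a + (m + l)) - y a‖ = ‖(y (a + (m + l)) - y (a + m)) + (y (a + m) - y a)‖ := by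
          congr 1; abel
      _ ≤ ‖y (a + (m + l)) - y (a + m)‖ + ‖y (a + m) - y a‖ := norm_add_le _ _
      _ ≤ μ / 4 := by linarith [h1.2, hmJ.2]

end Pool.Agent.EQ
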