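import Pool.Agent.Lib.MP_1e8d1a_an.EQ.Defs

/-! row P1 -/

open scoped ContDiff Manifold Topology BoundedContinuousFunction

namespace Pool.Agent.EQ

open Pool.Agent.SC

/-- at most `2 L + 1` integers within distance `< L` of a point -/
private lemma P1_int_count (S : Finset ℤ) (t L : ℝ) (hL : 0 ≤ L)
    (h : ∀ n ∈ S, |(n : ℝ) + t| < L) : (S.card : ℝ) ≤ 2 * L + 1 := by
  have hsub : S ⊆ Finset.Icc ⌈-t - L⌉ ⌊-t + L⌋ := by
    intro n hn
    have h1 := abs_lt.1 (h n hn)
    rw [Finset.mem_Icc]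
    constructor
    · apply Int.ceil_le.2
      linarith [h1.1]
    · apply Int.le_floor.2
      linarith [h1.2]
  have h2 := Finset.card_le_card hsub
  rw [Int.card_Icc] at h2
  have h3 : (S.card : ℝ) ≤ (((⌊-t + L⌋ + 1 - ⌈-t - L⌉).toNat : ℕ) : ℝ) := by exact_mod_cast h2
  refine h3.trans ?_
  rcases le_or_gt 0 (⌊-t + L⌋ + 1 - ⌈-t - L⌉) with h0 | h0
  · have h4 : (((⌊-t + L⌋ + 1 - ⌈-t - L⌉).toNat : ℕ) : ℝ) =
        ((⌊-t + L⌋ + 1 - ⌈-t - L⌉ : ℤ) : ℝ) := by
      have := Int.toNat_of_nonneg h0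
      exact_mod_cast this
    rw [h4]
    push_cast
    have h5 := Int.floor_le (-t + L)
    have h6 := Int.le_ceil (-t - L)
    linarith
  · rw [Int.toNat_of_nonpos h0.le]
    push_cast
    linarith

/-- **One-dimensional count.**

PROOF.  `g = gcd m N > 0`, `N = g b`, `m = g m'`, `gcd m' b = 1`, `b > 0`.  In each block of `b`
consecutive values `a ∈ [l b, (l + 1) b)` at most `2 ρ b + 1` are counted: for each counted `a` choose
`z a`, then `n a = a m' - b z a` is an integer with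
`|n a + b c| < ρ b`, i.e. in an open interval of length `2 ρ b`, which contains at most `2 ρ b + 1`
integers; `a ↦ n a` is injective on the block: `n a = n a'` gives `b ∣ (a - a') m'`, so `b ∣ a - a'`,
`a = a'`.  The number of blocks that meet `[0, A)` is at most `A / b + 1`
(`⌈A / b⌉`). -/
theorem count_one (A m N : ℕ) (hN : 0 < N) (c ρ : ℝ) (hρ : 0 ≤ ρ) :
    (Set.ncard {a : Fin A | ∃ z : ℤ, |((a : ℕ) : ℝ) * m / N + c - z| < ρ} : ℝ) ≤
      ((A : ℝ) * (Nat.gcd m N) / N + 1) * (2 * ρ * N / (Nat.gcd m N) + 1) := by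
  classical
  set g := Nat.gcd m N with hg
  have hg0 : 0 < g := Nat.gcd_pos_of_pos_right m hN
  obtain ⟨b, hb⟩ : g ∣ N := Nat.gcd_dvd_right m N
  obtain ⟨m', hm'⟩ : g ∣ m := Nat.gcd_dvd_left m N
  have hb0 : 0 < b := by
    rcases Nat.eq_zero_or_pos b with h | h
    · rw [h, mul_zero] at hb; omega
    · exact h
  have hcop : Nat.Coprime m' b := by
    have h1 := Nat.coprime_div_gcd_div_gcd (m := m) (n := N) hg0
    rw [← hg] at h1
    have h2 : m / g = m' := by rw [hm']; exact Nat.mul_div_cancel_left m' hg0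
    have h3 : N / g = b := by rw [hb]; exact Nat.mul_div_cancel_left b hg0
    rwa [h2, h3] at h1
  have hgR : (0 : ℝ) < g := by exact_mod_cast hg0
  have hbR : (0 : ℝ) < b := by exact_mod_cast hb0
  have hNR : (N : ℝ) = g * b := by rw [hb]; push_cast; ring
  have hmR : (m : ℝ) = g * m' := by rw [hm']; push_cast; ring
  have e1 : (A : ℝ) * g / N = A / b := by rw [hNR]; field_simp
  have e2 : 2 * ρ * N / g = 2 * (ρ * b) := by rw [hNR]; field_simp
  rw [e1, e2]
  set s : Finset (Fin A) := Finset.univ.filter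
    (fun a => ∃ z : ℤ, |((a : ℕ) : ℝ) * m / N + c - z| < ρ) with hs
  have hcard : Set.ncard {a : Fin A | ∃ z : ℤ, |((a : ℕ) : ℝ) * m / N + c - z| < ρ} = s.card := by
    rw [← Set.ncard_coe_finset]
    congr 1
    ext a
    simp [hs]
  rw [hcard]
  have hz : ∀ a : Fin A, ∃ z : ℤ, a ∈ s → |((a : ℕ) : ℝ) * m / N + c - z| < ρ := by
    intro a
    by_cases ha : a ∈ s
    · obtain ⟨z, hz⟩ := (Finset.mem_filter.1 ha).2
      exact ⟨z, fun _ => hz⟩
    · exact ⟨0, fun h => absurd h ha⟩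
  choose z hz using hz
  set F : ℕ := ⌊2 * (ρ * b) + 1⌋₊ with hF
  have hpos : 0 ≤ 2 * (ρ * b) + 1 := by positivity
  have hfib : ∀ l ∈ s.image (fun a : Fin A => (a : ℕ) / b),
      (s.filter (fun a : Fin A => (a : ℕ) / b = l)).card ≤ F := by
    intro l _
    apply Nat.le_floor
    set T := s.filter (fun a : Fin A => (a : ℕ) / b = l) with hT
    set φ : Fin A → ℤ := fun a => ((a : ℕ) : ℤ) * m' - b * z a with hφ
    have hinj : Set.InjOn φ T := by
      intro a ha a' ha' haa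
      have ha1 := (Finset.mem_filter.1 (Finset.mem_coe.1 ha)).2
      have ha2 := (Finset.mem_filter.1 (Finset.mem_coe.1 ha')).2
      have h1 : (((a : ℕ) : ℤ) - ((a' : ℕ) : ℤ)) * m' = b * (z a - z a') := by
        have : ((a : ℕ) : ℤ) * m' - b * z a = ((a' : ℕ) : ℤ) * m' - b * z a' := haa
        linear_combination this
      have h2 : (b : ℤ) ∣ (((a : ℕ) : ℤ) - ((a' : ℕ) : ℤ)) * m' := ⟨_, h1⟩
      have h3 : IsCoprime (b : ℤ) (m' : ℤ) := (Nat.isCoprime_iff_coprime.2 hcop).symm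
      have h4 : (b : ℤ) ∣ ((a : ℕ) : ℤ) - ((a' : ℕ) : ℤ) := h3.dvd_of_dvd_mul_right h2
      have h5 : (a' : ℕ) ≡ (a : ℕ) [MOD b] := (Nat.modEq_iff_dvd).2 h4
      have h6 : (a' : ℕ) % b = (a : ℕ) % b := h5
      apply Fin.ext
      rw [← Nat.div_add_mod (a : ℕ) b, ← Nat.div_add_mod (a' : ℕ) b, ha1, ha2, h6]
    have hc1 : (T.image φ).card = T.card := Finset.card_image_of_injOn hinj
    have h7 := P1_int_count (T.image φ) (b * c) (ρ * b) (by positivity) (by
      intro n hn
      obtain ⟨a, ha, rfl⟩ := Finset.mem_image.1 hn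
      have has : a ∈ s := (Finset.mem_filter.1 ha).1
      have h8 := hz a has
      have h9 : ((φ a : ℤ) : ℝ) + b * c = b * (((a : ℕ) : ℝ) * m / N + c - z a) := by
        simp only [hφ]
        push_cast
        rw [hmR, hNR]
        field_simp
        ring
      rw [h9, abs_mul, abs_of_pos hbR, mul_comm]
      exact mul_lt_mul_of_pos_right h8 hbR)
    rw [hc1] at h7
    exact h7
  have hmain := Finset.card_le_mul_card_image s F hfib
  have himg : (s.image (fun a : Fin A => (a : ℕ) / b)).card ≤ A / b + 1 := by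
    have : s.image (fun a : Fin A => (a : ℕ) / b) ⊆ Finset.range (A / b + 1) := by
      intro l hl
      obtain ⟨a, _, rfl⟩ := Finset.mem_image.1 hl
      rw [Finset.mem_range]
      have := Nat.div_le_div_right (c := b) a.2.le
      omega
    have h1 := Finset.card_le_card this
    rwa [Finset.card_range] at h1
  have h10 : (s.card : ℝ) ≤ F * ((s.image (fun a : Fin A => (a : ℕ) / b)).card : ℝ) := by
    exact_mod_cast hmain
  have h11 : ((s.image (fun a : Fin A => (a : ℕ) / b)).card : ℝ) ≤ (A : ℝ) / b + 1 := by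
    have h12 : ((s.image (fun a : Fin A => (a : ℕ) / b)).card : ℝ) ≤ ((A / b + 1 : ℕ) : ℝ) := by
      exact_mod_cast himg
    have h13 : ((A / b : ℕ) : ℝ) ≤ (A : ℝ) / b := Nat.cast_div_le
    push_cast at h12
    linarith
  have h14 : (F : ℝ) ≤ 2 * (ρ * b) + 1 := Nat.floor_le hpos
  calc (s.card : ℝ) ≤ F * ((s.image (fun a : Fin A => (a : ℕ) / b)).card : ℝ) := h10
    _ ≤ (2 * (ρ * b) + 1) * ((A : ℝ) / b + 1) := by
        exact mul_le_mul h14 h11 (Nat.cast_nonneg _) hpos
    _ = ((A : ℝ) / b + 1) * (2 * (ρ * b) + 1) := by ring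

end Pool.Agent.EQ
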