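import Pool.Agent.Lib.MP_1e8d1a_an.EQ.P1

/-! row P1b -/

open scoped ContDiff Manifold Topology BoundedContinuousFunction

namespace Pool.Agent.EQ

open Pool.Agent.SC

/-- PROOF.  `‖f‖ < ρ ↔ ∀ j, |f j| < ρ` (`pi_norm_lt_iff`, `0 < ρ`), so the set is
the product (`Fintype.piFinset`) of the one-dimensional sets
`{a : Fin A | ∃ z : ℤ, |(a : ℝ) * m / N + c j - z| < ρ}`, each of which has at most
`B = (A g / N + 1) (2 ρ N / g + 1)` elements (`count_one`); `Fintype.card_piFinset`, `Finset.prod_le_pow_card`;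
`Set.ncard_coe_finset`/`Set.ncard_eq_toFinset_card'`. -/
theorem count_vec (k A m N : ℕ) (hN : 0 < N) (c : Fin k → ℝ) (ρ : ℝ) (hρ : 0 < ρ) :
    (Set.ncard {a : Fin k → Fin A | ∃ z : Fin k → ℤ,
      ‖(fun j => ((a j : ℕ) : ℝ) * m / N + c j - (z j : ℝ))‖ < ρ} : ℝ) ≤
      (((A : ℝ) * (Nat.gcd m N) / N + 1) * (2 * ρ * N / (Nat.gcd m N) + 1)) ^ k := by
  classical
  set S : Fin k → Finset (Fin A) := fun j => Finset.univ.filter
    (fun a : Fin A => ∃ z : ℤ, |((a : ℕ) : ℝ) * m / N + c j - z| < ρ) with hS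
  have hset : {a : Fin k → Fin A | ∃ z : Fin k → ℤ,
      ‖(fun j => ((a j : ℕ) : ℝ) * m / N + c j - (z j : ℝ))‖ < ρ} =
      ((Fintype.piFinset S : Finset (Fin k → Fin A)) : Set (Fin k → Fin A)) := by
    ext a
    simp only [Set.mem_setOf_eq, Finset.mem_coe, Fintype.mem_piFinset, hS, Finset.mem_filter,
      Finset.mem_univ, true_and]
    constructor
    · rintro ⟨z, hz⟩ j
      have h1 := (pi_norm_lt_iff hρ).1 hz j
      rw [Real.norm_eq_abs] at h1
      exact ⟨z j, h1⟩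
    · intro h
      choose z hz using h
      refine ⟨z, (pi_norm_lt_iff hρ).2 fun j => ?_⟩
      rw [Real.norm_eq_abs]
      exact hz j
  rw [hset, Set.ncard_coe_finset, Fintype.card_piFinset]
  push_cast
  have h2 : ∀ j ∈ (Finset.univ : Finset (Fin k)), ((S j).card : ℝ) ≤
      ((A : ℝ) * (Nat.gcd m N) / N + 1) * (2 * ρ * N / (Nat.gcd m N) + 1) := by
    intro j _
    have h3 := count_one A m N hN (c j) ρ hρ.le
    have h4 : Set.ncard {a : Fin A | ∃ z : ℤ, |((a : ℕ) : ℝ) * m / N + c j - z| < ρ} =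
        (S j).card := by
      rw [← Set.ncard_coe_finset]
      congr 1
      ext a
      simp [hS]
    rw [← h4]
    exact h3
  calc ∏ j, ((S j).card : ℝ) ≤ ∏ _j : Fin k,
        (((A : ℝ) * (Nat.gcd m N) / N + 1) * (2 * ρ * N / (Nat.gcd m N) + 1)) :=
        Finset.prod_le_prod (fun j _ => Nat.cast_nonneg _) h2
    _ = (((A : ℝ) * (Nat.gcd m N) / N + 1) * (2 * ρ * N / (Nat.gcd m N) + 1)) ^ k := by
        rw [Finset.prod_const, Finset.card_univ, Fintype.card_fin]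

end Pool.Agent.EQ
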