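import Pool.Agent.Lib.MP_1e8d1a_an.EQ.Defs

/-! row P2 -/

open scoped ContDiff Manifold Topology BoundedContinuousFunction

namespace Pool.Agent.EQ

open Pool.Agent.SC

private theorem P2_tele (N : ℕ) :
    ∑ b ∈ Finset.Icc 2 N, (1 / ((b : ℝ) * (b + 1))) ≤ 1 / 2 := by
  have key : ∀ n : ℕ, ∑ b ∈ Finset.Icc 2 (n + 1), (1 / ((b : ℝ) * (b + 1))) ≤ 1 / 2 - 1 / ((n : ℝ) + 2) := by
    intro n
    induction n with
    | zero => simp
    | succ n ih =>
      rw [Finset.sum_Icc_succ_top (by omega)]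
      have h : (1 : ℝ) / (((n + 1 + 1 : ℕ) : ℝ) * (((n + 1 + 1 : ℕ) : ℝ) + 1)) =
          1 / ((n : ℝ) + 2) - 1 / (((n + 1 : ℕ) : ℝ) + 2) := by
        push_cast
        field_simp
        ring
      rw [h]
      linarith
  rcases N with _ | n
  · simp
  · have := key n
    have h2 : 0 ≤ 1 / ((n : ℝ) + 2) := by positivity
    linarith

/-- PROOF.  Group the `m ∈ (0, N)` by `b = N / gcd m N ∈ [2, N]`, `b ∣ N` (`gcd m N ≤ m < N`).
`m ↦ m / gcd m N` is injective on the class of `b`, with values in `{1, .., b - 1}` (as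
`m = (m / g) * (N / b)`), so the class has at most `b - 1` elements, each contributing
`1 / b ^ 3`.  So the sum is at most `∑_{b = 2}^{N} (b - 1) / b ^ 3`, and
`(b - 1) / b ^ 3 ≤ 1 / (b (b + 1)) `: indeed `(b - 1) (b + 1) = b ^ 2 - 1 ≤ b ^ 2`; the telescoping
sum `∑_{b ≥ 2} 1 / (b (b + 1)) ≤ 1 / 2`. -/
theorem gcd_sum (N : ℕ) (hN : 0 < N) :
    ∑ m ∈ Finset.Ioo 0 N, ((Nat.gcd m N : ℝ) / N) ^ 3 ≤ 1 / 2 := by
  classical
  have hb : ∀ m ∈ Finset.Ioo 0 N, Nat.gcd m N * (N / Nat.gcd m N) = N := fun m _ =>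
    Nat.mul_div_cancel' (Nat.gcd_dvd_right m N)
  have hmaps : ∀ m ∈ Finset.Ioo 0 N, N / Nat.gcd m N ∈ Finset.Icc 2 N := by
    intro m hm
    rw [Finset.mem_Ioo] at hm
    have hg : Nat.gcd m N ≤ m := Nat.gcd_le_left N hm.1
    have hgpos : 0 < Nat.gcd m N := Nat.gcd_pos_of_pos_left N hm.1
    rw [Finset.mem_Icc]
    refine ⟨?_, Nat.div_le_self _ _⟩
    by_contra h
    push Not at h
    have h3 := Nat.mul_div_cancel' (Nat.gcd_dvd_right m N)
    have : N / Nat.gcd m N ≤ 1 := by omega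
    nlinarith
  rw [← Finset.sum_fiberwise_of_maps_to hmaps]
  refine le_trans (Finset.sum_le_sum fun b hbm => ?_) (P2_tele N)
  rw [Finset.mem_Icc] at hbm
  have hb0 : (0 : ℝ) < b := by
    have : 0 < b := by omega
    exact_mod_cast this
  have hterm : ∀ m ∈ (Finset.Ioo 0 N).filter (fun m => N / Nat.gcd m N = b),
      ((Nat.gcd m N : ℝ) / N) ^ 3 = 1 / (b : ℝ) ^ 3 := by
    intro m hm
    rw [Finset.mem_filter] at hm
    have h1 := hb m hm.1
    rw [hm.2] at h1
    have h2 : (Nat.gcd m N : ℝ) * b = N := by exact_mod_cast h1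
    have hNr : (N : ℝ) ≠ 0 := by
      have : (0 : ℝ) < N := by exact_mod_cast hN
      exact this.ne'
    have h3 : (Nat.gcd m N : ℝ) / N = 1 / b := by
      field_simp
      linarith
    rw [h3]
    ring
  rw [Finset.sum_congr rfl hterm, Finset.sum_const, nsmul_eq_mul]
  have hcard : ((Finset.Ioo 0 N).filter (fun m => N / Nat.gcd m N = b)).card ≤ b - 1 := by
    have : ((Finset.Ioo 0 N).filter (fun m => N / Nat.gcd m N = b)).card ≤ (Finset.Ioo 0 b).card := by
      refine Finset.card_le_card_of_injOn (fun m => m / Nat.gcd m N) ?_ ?_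
      · intro m hm
        have hm' := Finset.mem_filter.1 (Finset.mem_coe.1 hm)
        have hm1 := Finset.mem_Ioo.1 hm'.1
        have hgpos : 0 < Nat.gcd m N := Nat.gcd_pos_of_pos_left N hm1.1
        have h1 := hb m hm'.1
        rw [hm'.2] at h1
        have h2 := Nat.mul_div_cancel' (Nat.gcd_dvd_left m N)
        simp only [Finset.coe_Ioo, Set.mem_Ioo]
        constructor
        · exact Nat.div_pos (Nat.gcd_le_left N hm1.1) hgpos
        · by_contra h
          push Not at h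
          have : Nat.gcd m N * b ≤ Nat.gcd m N * (m / Nat.gcd m N) := Nat.mul_le_mul_left _ h
          omega
      · intro m hm m' hm' hmm
        have hm1 := Finset.mem_filter.1 (Finset.mem_coe.1 hm)
        have hm2 := Finset.mem_filter.1 (Finset.mem_coe.1 hm')
        have h1 := hb m hm1.1
        rw [hm1.2] at h1
        have h2 := hb m' hm2.1
        rw [hm2.2] at h2
        have hg : Nat.gcd m N = Nat.gcd m' N :=
          Nat.eq_of_mul_eq_mul_right (by omega : 0 < b) (h1.trans h2.symm)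
        have h3 := Nat.mul_div_cancel' (Nat.gcd_dvd_left m N)
        have h4 := Nat.mul_div_cancel' (Nat.gcd_dvd_left m' N)
        simp only at hmm
        rw [← h3, ← h4, hmm, hg]
    simpa using this
  have hcard' : (((Finset.Ioo 0 N).filter (fun m => N / Nat.gcd m N = b)).card : ℝ) ≤ (b : ℝ) - 1 := by
    have h1 : (((Finset.Ioo 0 N).filter (fun m => N / Nat.gcd m N = b)).card : ℝ) ≤ ((b - 1 : ℕ) : ℝ) := by
      exact_mod_cast hcard
    rw [Nat.cast_sub (by omega)] at h1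
    simpa using h1
  have hp : (0 : ℝ) < (b : ℝ) ^ 3 := by positivity
  calc (((Finset.Ioo 0 N).filter (fun m => N / Nat.gcd m N = b)).card : ℝ) * (1 / (b : ℝ) ^ 3)
      ≤ ((b : ℝ) - 1) * (1 / (b : ℝ) ^ 3) := mul_le_mul_of_nonneg_right hcard' (by positivity)
    _ ≤ 1 / ((b : ℝ) * (b + 1)) := by
        rw [mul_one_div, div_le_div_iff₀ hp (by positivity)]
        nlinarith [mul_pos hb0 hb0, hb0]

/-- PROOF.  Convexity of `t ↦ t ^ k` / Jensen: `x + y = (1 / (1 + τ)) ((1 + τ) x) +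
(τ / (1 + τ)) ((1 + 1 / τ) y)`, so `(x + y) ^ k ≤ (1 / (1 + τ)) ((1 + τ) x) ^ k +
(τ / (1 + τ)) ((1 + 1 / τ) y) ^ k = (1 + τ) ^ (k - 1) x ^ k + (1 + 1 / τ) ^ (k - 1) y ^ k`
(`convexOn_pow`), and `(1 + τ) ^ (k - 1) ≤ (1 + τ) ^ k`.  (Or: if `y ≤ τ x` then
`(x + y) ^ k ≤ (1 + τ) ^ k x ^ k`, else `x < y / τ` and `(x + y) ^ k ≤ (1 + 1 / τ) ^ k y ^ k`.) -/
theorem add_pow_le' (k : ℕ) (x y τ : ℝ) (hx : 0 ≤ x) (hy : 0 ≤ y) (hτ : 0 < τ) :
    (x + y) ^ k ≤ (1 + τ) ^ k * x ^ k + (1 + 1 / τ) ^ k * y ^ k := by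
  have h1 : 0 ≤ (1 + τ) ^ k * x ^ k := by positivity
  have h2 : 0 ≤ (1 + 1 / τ) ^ k * y ^ k := by positivity
  rcases le_total y (τ * x) with h | h
  · have : (x + y) ^ k ≤ ((1 + τ) * x) ^ k := pow_le_pow_left₀ (by positivity) (by linarith) k
    rw [mul_pow] at this
    linarith
  · have hx' : x ≤ y / τ := by rw [le_div_iff₀ hτ]; linarith
    have : (x + y) ^ k ≤ ((1 + 1 / τ) * y) ^ k := by
      refine pow_le_pow_left₀ (by positivity) ?_ k
      have : (1 + 1 / τ) * y = y / τ + y := by ring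
      linarith
    rw [mul_pow] at this
    linarith

end Pool.Agent.EQ
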