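import Pool.Agent.Lib.MP_1e8d1a_an.EQ.P2
import Pool.Agent.Lib.MP_1e8d1a_an.EQ.P1b

/-! row P2b -/

open scoped ContDiff Manifold Topology BoundedContinuousFunction

namespace Pool.Agent.EQ

open Pool.Agent.SC

theorem P2b_tau (k : ℕ) : ∃ τ : ℝ, 0 < τ ∧ (1 + τ) ^ k * (1 / 2) ≤ 5 / 8 := by
  have hcont : Continuous (fun t : ℝ => (1 + t) ^ k * (1 / 2)) := by fun_prop
  have h0 : (fun t : ℝ => (1 + t) ^ k * (1 / 2)) 0 < 5 / 8 := by norm_num
  have h1 := (hcont.tendsto 0).eventually (gt_mem_nhds h0)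
  obtain ⟨ε, hε, h⟩ := Metric.eventually_nhds_iff.1 h1
  refine ⟨ε / 2, by positivity, (h (y := ε / 2) ?_).le⟩
  rw [Real.dist_eq, sub_zero, abs_of_pos (by positivity)]
  linarith

/-- the bound of one term -/
theorem P2b_term (k : ℕ) (hk : 3 ≤ k) (A N g : ℕ) (hA : 0 < A) (hN : 0 < N) (hg : 0 < g)
    (hgN : g ≤ N) (D ρ τ : ℝ) (hρ : 0 < ρ) (hτ : 0 < τ) (hD : (N : ℝ) / A ≤ D) :
    (((A : ℝ) * g / N + 1) * (2 * ρ * N / g + 1)) ^ k ≤
      (A : ℝ) ^ k * ((1 + τ) ^ k * ((g : ℝ) / N) ^ 3 +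
        (1 + 1 / τ) ^ k * (2 ^ k * ((1 / (A : ℝ)) ^ k + (2 * ρ * (1 + D)) ^ k))) := by
  have hAR : (0 : ℝ) < A := by exact_mod_cast hA
  have hNR : (0 : ℝ) < N := by exact_mod_cast hN
  have hgR : (0 : ℝ) < g := by exact_mod_cast hg
  have hg1 : (1 : ℝ) ≤ g := by exact_mod_cast hg
  have hDpos : 0 < D := lt_of_lt_of_le (by positivity) hD
  set x : ℝ := (g : ℝ) / N with hx
  have hx0 : 0 < x := by positivity
  have hx1 : x ≤ 1 := by
    rw [hx, div_le_one hNR]; exact_mod_cast hgN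
  set ζ : ℝ := 1 / (A : ℝ) + 2 * ρ * (1 + D) with hζ
  have hζ0 : 0 < ζ := by positivity
  have hNg : (N : ℝ) / ((A : ℝ) * g) ≤ D := by
    refine le_trans ?_ hD
    apply div_le_div_of_nonneg_left hNR.le hAR
    nlinarith
  have e1 : ((A : ℝ) * g / N + 1) * (2 * ρ * N / g + 1) =
      A * (x + 2 * ρ + 1 / A + 2 * ρ * ((N : ℝ) / ((A : ℝ) * g))) := by
    rw [hx]; field_simp; ring
  have e2 : ((A : ℝ) * g / N + 1) * (2 * ρ * N / g + 1) ≤ A * (x + ζ) := by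
    rw [e1]
    apply mul_le_mul_of_nonneg_left _ hAR.le
    have : 2 * ρ * ((N : ℝ) / ((A : ℝ) * g)) ≤ 2 * ρ * D :=
      mul_le_mul_of_nonneg_left hNg (by positivity)
    rw [hζ]
    linarith
  calc (((A : ℝ) * g / N + 1) * (2 * ρ * N / g + 1)) ^ k ≤ (A * (x + ζ)) ^ k :=
        pow_le_pow_left₀ (by positivity) e2 k
    _ = (A : ℝ) ^ k * (x + ζ) ^ k := mul_pow _ _ _
    _ ≤ (A : ℝ) ^ k * ((1 + τ) ^ k * x ^ k + (1 + 1 / τ) ^ k * ζ ^ k) :=
        mul_le_mul_of_nonneg_left (add_pow_le' k x ζ τ hx0.le hζ0.le hτ) (by positivity)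
    _ ≤ _ := by
        apply mul_le_mul_of_nonneg_left _ (by positivity)
        apply add_le_add
        · exact mul_le_mul_of_nonneg_left (pow_le_pow_of_le_one hx0.le hx1 hk) (by positivity)
        · apply mul_le_mul_of_nonneg_left _ (by positivity)
          rw [hζ]
          refine (add_pow_le (by positivity) (by positivity) k).trans ?_
          apply mul_le_mul_of_nonneg_right _ (by positivity)
          exact pow_le_pow_right₀ (by norm_num) (Nat.sub_le k 1)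

/-- **The path lemma without pushes**: few visits.

PROOF.  Choose `τ > 0` with `(1 + τ) ^ k * (1 / 2) < 5 / 8` (continuity at `τ = 0`).  Let
`om' = min om 1`, `L = (1 + 1 / τ) ^ k`, `A = ⌊om' N⌋₊`; for `N ≥ N_om`, `A ≥ om' N / 2 > 0`.
`c = ` small, `N_om` large, see below.  If `c₀` etc. are given, for
`a : Fin k → Fin A` put `w j = (Int.fract (ci j) + a j) / N`; `0 ≤ w j ≤ A / N ≤ om`, and
`N w - ci = a - ⌊ci⌋` is an integer vector.
A bad `a` for the index `i`: there is `z` with `‖m i • w - C i - z‖ < ρ0`; here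
`m i * w j - C i j = a j * m i / N + c'`, `c'` independent of `a`; by `count_vec` there are at most
`((A g / N + 1) (2 ρ0 N / g + 1)) ^ k`, `g = gcd (m i) N`.  Divide by `A ^ k`:
`(A g / N + 1) (2 ρ0 N / g + 1) / A = g / N + 1 / A + 2 ρ0 + 2 ρ0 N / (g A) ≤ g / N + ζ`,
`ζ = 1 / A + 2 ρ0 (1 + 2 / om')` (as `N / A ≤ 2 / om'`, `g ≥ 1`).
By `add_pow_le'`: `(g / N + ζ) ^ k ≤ (1 + τ) ^ k (g / N) ^ k + L ζ ^ k`, and
`(g / N) ^ k ≤ (g / N) ^ 3` (`g ≤ N`, `3 ≤ k`), the `m i` are distinct elements of `(0, N)`: by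
`gcd_sum` the sum over `i` of the first terms is at most `5 / 8`.  The second:
`ζ ^ k ≤ 2 ^ k ((1 / A) ^ k + (2 ρ0 (1 + 2 / om')) ^ k)` and
`K (1 / A) ^ k ≤ N (2 / (om' N)) ^ k ≤ (2 / om') ^ k / N`, `K ρ0 ^ k ≤ c`; so the sum of the second
terms is at most `L 2 ^ k ((2 / om') ^ k / N + c (2 (1 + 2 / om')) ^ k) ≤ 1 / 8 + 1 / 8` for
`c` small and `N_om` large.  Total `< 1`, so some `a` is not bad for any `i`. -/
theorem path_few (k : ℕ) (hk : 3 ≤ k) (om : ℝ) (hom : 0 < om) :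
    ∃ (N₀ : ℕ) (c : ℝ), 0 < c ∧ ∀ (N K : ℕ) (m : ℕ → ℕ) (C : ℕ → Fin k → ℝ) (ci : Fin k → ℝ)
      (ρ0 : ℝ), N₀ ≤ N → 0 < ρ0 → (∀ i, 1 ≤ i → i ≤ K → 0 < m i ∧ m i < N) →
      (∀ i j, 1 ≤ i → i < j → j ≤ K → m i < m j) → K * ρ0 ^ k ≤ c →
      ∃ w : Fin k → ℝ, ‖w‖ ≤ om ∧ (∃ z : Fin k → ℤ, (N : ℝ) • w - ci = fun j => (z j : ℝ)) ∧
        ∀ i, 1 ≤ i → i ≤ K → ∀ z : Fin k → ℤ,
          ρ0 ≤ ‖(m i : ℝ) • w - C i - (fun j => (z j : ℝ))‖ := by
  classical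
  obtain ⟨τ, hτ, hτ2⟩ := P2b_tau k
  obtain ⟨o, ho, ho1, hoo⟩ : ∃ o : ℝ, 0 < o ∧ o ≤ 1 ∧ o ≤ om :=
    ⟨min om 1, lt_min hom one_pos, min_le_right _ _, min_le_left _ _⟩
  obtain ⟨D, hDdef⟩ : ∃ D : ℝ, D = 2 / o := ⟨_, rfl⟩
  obtain ⟨L, hLdef⟩ : ∃ L : ℝ, L = (1 + 1 / τ) ^ k := ⟨_, rfl⟩
  have hD : 0 < D := by rw [hDdef]; positivity
  have hL : 0 < L := by rw [hLdef]; positivity
  refine ⟨⌈D + 8 * L * (2 * D) ^ k⌉₊ + 1, 1 / (8 * L * (4 * (1 + D)) ^ k), by positivity, ?_⟩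
  intro N K m C ci ρ0 hN hρ hm hmono hK
  have hNR : D + 8 * L * (2 * D) ^ k ≤ N := by
    have h1 := Nat.le_ceil (D + 8 * L * (2 * D) ^ k)
    have h2 : ((⌈D + 8 * L * (2 * D) ^ k⌉₊ + 1 : ℕ) : ℝ) ≤ N := by exact_mod_cast hN
    push_cast at h2
    linarith
  have hNpos : 0 < N := by omega
  have hNRpos : (0 : ℝ) < N := by exact_mod_cast hNpos
  have hN1 : (1 : ℝ) ≤ N := by exact_mod_cast hNpos
  have hLD : 0 < 8 * L * (2 * D) ^ k := by positivity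
  have hDN : D ≤ N := by linarith
  have hoN : 2 ≤ o * N := by
    rw [hDdef, div_le_iff₀ ho] at hDN; linarith
  obtain ⟨A, hAdef⟩ : ∃ A : ℕ, A = ⌊o * (N : ℝ)⌋₊ := ⟨_, rfl⟩
  have hA1 : (A : ℝ) ≤ o * N := by rw [hAdef]; exact Nat.floor_le (by positivity)
  have hA2 : o * N / 2 ≤ A := by
    have := Nat.lt_floor_add_one (o * (N : ℝ))
    rw [← hAdef] at this
    linarith
  have hAR : (0 : ℝ) < A := by linarith
  have hApos : 0 < A := by exact_mod_cast hAR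
  have hAN : (N : ℝ) / A ≤ D := by
    rw [div_le_iff₀ hAR, hDdef, div_mul_eq_mul_div, le_div_iff₀ ho]
    linarith
  have hDN' : 1 / (A : ℝ) ≤ D / N := by
    rw [div_le_div_iff₀ hAR hNRpos]
    rw [div_le_iff₀ hAR] at hAN
    linarith
  -- distinctness
  have hinj : Set.InjOn m (Finset.Icc 1 K : Finset ℕ) := by
    intro i hi j hj hij
    rw [Finset.mem_coe, Finset.mem_Icc] at hi hj
    rcases lt_trichotomy i j with h | h | h
    · exact absurd hij (hmono i j hi.1 h hj.2).ne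
    · exact h
    · exact absurd hij (hmono j i hj.1 h hi.2).ne'
  have himg : (Finset.Icc 1 K).image m ⊆ Finset.Ioo 0 N := by
    intro x hx
    rw [Finset.mem_image] at hx
    obtain ⟨i, hi, rfl⟩ := hx
    rw [Finset.mem_Icc] at hi
    rw [Finset.mem_Ioo]
    exact hm i hi.1 hi.2
  have hKN : (K : ℝ) ≤ N := by
    have h1 := Finset.card_le_card himg
    rw [Finset.card_image_of_injOn hinj, Nat.card_Icc, Nat.card_Ioo] at h1
    have : K ≤ N := by omega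
    exact_mod_cast this
  have hsum1 : ∑ i ∈ Finset.Icc 1 K, ((Nat.gcd (m i) N : ℝ) / N) ^ 3 ≤ 1 / 2 := by
    calc ∑ i ∈ Finset.Icc 1 K, ((Nat.gcd (m i) N : ℝ) / N) ^ 3
        = ∑ x ∈ (Finset.Icc 1 K).image m, ((Nat.gcd x N : ℝ) / N) ^ 3 := by
          rw [Finset.sum_image hinj]
      _ ≤ ∑ x ∈ Finset.Ioo 0 N, ((Nat.gcd x N : ℝ) / N) ^ 3 :=
          Finset.sum_le_sum_of_subset_of_nonneg himg (fun _ _ _ => by positivity)
      _ ≤ 1 / 2 := gcd_sum N hNpos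
  -- the bad sets
  let cc : ℕ → Fin k → ℝ := fun i j => Int.fract (ci j) * m i / N - C i j
  let Bad : ℕ → Set (Fin k → Fin A) := fun i => {a : Fin k → Fin A | ∃ z : Fin k → ℤ,
      ‖(fun j => ((a j : ℕ) : ℝ) * m i / N + cc i j - (z j : ℝ))‖ < ρ0}
  have hbad : ∀ i ∈ Finset.Icc 1 K, ((Bad i).ncard : ℝ) ≤
      (A : ℝ) ^ k * ((1 + τ) ^ k * ((Nat.gcd (m i) N : ℝ) / N) ^ 3 +
        L * (2 ^ k * ((1 / (A : ℝ)) ^ k + (2 * ρ0 * (1 + D)) ^ k))) := by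
    intro i hi
    rw [Finset.mem_Icc] at hi
    have hmi := hm i hi.1 hi.2
    refine (count_vec k A (m i) N hNpos (cc i) ρ0 hρ).trans ?_
    rw [hLdef]
    exact P2b_term k hk A N (Nat.gcd (m i) N) hApos hNpos (Nat.gcd_pos_of_pos_right _ hNpos)
      (Nat.le_of_dvd hNpos (Nat.gcd_dvd_right _ _)) D ρ0 τ hρ hτ hAN
  have hsum2 : ∑ i ∈ Finset.Icc 1 K, ((Bad i).ncard : ℝ) ≤ (A : ℝ) ^ k * (7 / 8) := by
    have hb1 : (K : ℝ) * (L * (2 ^ k * (1 / (A : ℝ)) ^ k)) ≤ 1 / 8 := by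
      have h1 : (1 / (A : ℝ)) ^ k ≤ (D / N) ^ k := pow_le_pow_left₀ (by positivity) hDN' k
      have h2 : (N : ℝ) * (D / N) ^ k ≤ D ^ k / N := by
        rw [div_pow]
        rw [mul_div_assoc', div_le_div_iff₀ (by positivity) hNRpos]
        have h3 : (N : ℝ) ^ 2 ≤ N ^ k := pow_le_pow_right₀ hN1 (by omega)
        have h4 : 0 ≤ D ^ k := by positivity
        nlinarith
      calc (K : ℝ) * (L * (2 ^ k * (1 / (A : ℝ)) ^ k))
          ≤ N * (L * (2 ^ k * (D / N) ^ k)) := by gcongr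
        _ = L * 2 ^ k * (N * (D / N) ^ k) := by ring
        _ ≤ L * 2 ^ k * (D ^ k / N) := by gcongr
        _ = L * (2 * D) ^ k / N := by rw [mul_pow]; ring
        _ ≤ 1 / 8 := by
            rw [div_le_div_iff₀ hNRpos (by norm_num)]
            linarith
    have hb2 : (K : ℝ) * (L * (2 ^ k * (2 * ρ0 * (1 + D)) ^ k)) ≤ 1 / 8 := by
      have h1 : (K : ℝ) * (L * (2 ^ k * (2 * ρ0 * (1 + D)) ^ k)) =
          L * (4 * (1 + D)) ^ k * (K * ρ0 ^ k) := by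
        have : (4 * (1 + D)) ^ k = 2 ^ k * (2 * (1 + D)) ^ k := by
          rw [← mul_pow]; congr 1; ring
        rw [this]
        have h3 : (2 * ρ0 * (1 + D)) ^ k = (2 * (1 + D)) ^ k * ρ0 ^ k := by
          rw [← mul_pow]; congr 1; ring
        rw [h3]; ring
      rw [h1]
      calc L * (4 * (1 + D)) ^ k * (K * ρ0 ^ k)
          ≤ L * (4 * (1 + D)) ^ k * (1 / (8 * L * (4 * (1 + D)) ^ k)) := by gcongr
        _ = 1 / 8 := by
            have : (4 * (1 + D)) ^ k ≠ 0 := by positivity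
            field_simp
    have hcard : ((Finset.Icc 1 K).card : ℝ) = K := by simp
    calc ∑ i ∈ Finset.Icc 1 K, ((Bad i).ncard : ℝ)
        ≤ ∑ i ∈ Finset.Icc 1 K, (A : ℝ) ^ k * ((1 + τ) ^ k * ((Nat.gcd (m i) N : ℝ) / N) ^ 3 +
          L * (2 ^ k * ((1 / (A : ℝ)) ^ k + (2 * ρ0 * (1 + D)) ^ k))) :=
          Finset.sum_le_sum hbad
      _ = (A : ℝ) ^ k * ((1 + τ) ^ k * ∑ i ∈ Finset.Icc 1 K, ((Nat.gcd (m i) N : ℝ) / N) ^ 3 +
          K * (L * (2 ^ k * ((1 / (A : ℝ)) ^ k + (2 * ρ0 * (1 + D)) ^ k)))) := by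
          rw [← Finset.mul_sum, Finset.sum_add_distrib, ← Finset.mul_sum, Finset.sum_const,
            nsmul_eq_mul, hcard]
      _ ≤ (A : ℝ) ^ k * (7 / 8) := by
          apply mul_le_mul_of_nonneg_left _ (by positivity)
          have h5 : (1 + τ) ^ k * ∑ i ∈ Finset.Icc 1 K, ((Nat.gcd (m i) N : ℝ) / N) ^ 3 ≤
              (1 + τ) ^ k * (1 / 2) := mul_le_mul_of_nonneg_left hsum1 (by positivity)
          have h6 : (K : ℝ) * (L * (2 ^ k * ((1 / (A : ℝ)) ^ k + (2 * ρ0 * (1 + D)) ^ k))) =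
              K * (L * (2 ^ k * (1 / (A : ℝ)) ^ k)) +
              K * (L * (2 ^ k * (2 * ρ0 * (1 + D)) ^ k)) := by ring
          rw [h6]
          linarith
  -- a good choice
  obtain ⟨a, ha⟩ : ∃ a : Fin k → Fin A, ∀ i, 1 ≤ i → i ≤ K → a ∉ Bad i := by
    by_contra hcon
    push Not at hcon
    have hsub : (Finset.univ : Finset (Fin k → Fin A)) ⊆
        (Finset.Icc 1 K).biUnion (fun i => (Bad i).toFinset) := by
      intro a _
      obtain ⟨i, h1, h2, h3⟩ := hcon a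
      rw [Finset.mem_biUnion]
      exact ⟨i, Finset.mem_Icc.2 ⟨h1, h2⟩, Set.mem_toFinset.2 h3⟩
    have hc1 := (Finset.card_le_card hsub).trans Finset.card_biUnion_le
    rw [Finset.card_univ, Fintype.card_fun, Fintype.card_fin, Fintype.card_fin] at hc1
    have hc2 : ((A : ℝ)) ^ k ≤ ∑ i ∈ Finset.Icc 1 K, ((Bad i).ncard : ℝ) := by
      have : ((A ^ k : ℕ) : ℝ) ≤ ((∑ i ∈ Finset.Icc 1 K, (Bad i).toFinset.card : ℕ) : ℝ) := by
        exact_mod_cast hc1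
      push_cast at this
      refine this.trans (le_of_eq ?_)
      apply Finset.sum_congr rfl
      intro i _
      rw [Set.ncard_eq_toFinset_card']
    have hApk : (0 : ℝ) < (A : ℝ) ^ k := by positivity
    linarith
  refine ⟨fun j => (Int.fract (ci j) + ((a j : ℕ) : ℝ)) / N, ?_, ?_, ?_⟩
  · rw [pi_norm_le_iff_of_nonneg hom.le]
    intro j
    have h0 := Int.fract_nonneg (ci j)
    have h1 := Int.fract_lt_one (ci j)
    have h2 : ((a j : ℕ) : ℝ) + 1 ≤ A := by exact_mod_cast (a j).2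
    rw [Real.norm_of_nonneg (by positivity)]
    rw [div_le_iff₀ hNRpos]
    have : o * N ≤ om * N := mul_le_mul_of_nonneg_right hoo hNRpos.le
    linarith
  · refine ⟨fun j => ((a j : ℕ) : ℤ) - ⌊ci j⌋, ?_⟩
    funext j
    simp only [Pi.sub_apply, Pi.smul_apply, smul_eq_mul]
    rw [mul_div_cancel₀ _ hNRpos.ne']
    have := Int.floor_add_fract (ci j)
    push_cast
    linarith
  · intro i hi1 hi2 z
    have hna := ha i hi1 hi2
    by_contra hcon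
    push Not at hcon
    apply hna
    refine ⟨z, lt_of_le_of_lt (le_of_eq ?_) hcon⟩
    congr 1
    funext j
    simp only [Pi.sub_apply, Pi.smul_apply, smul_eq_mul, cc]
    ring

end Pool.Agent.EQ
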