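import Pool.Agent.Lib.MP_1e8d1a_an.EQ.Defs

/-! row P3b -/

open scoped ContDiff Manifold Topology BoundedContinuousFunction

namespace Pool.Agent.EQ

open Pool.Agent.SC

private theorem p3b_exists {G : Type} [AddCommGroup G] [Fintype G] (B₁ B₂ : Set G)
    (h1 : 4 * B₁.ncard ≤ Fintype.card G) (h2 : 4 * B₂.ncard ≤ Fintype.card G) :
    ∃ d, d ∉ B₁ ∧ d ∉ B₂ := by
  by_contra hcon
  push Not at hcon
  have hU : B₁ ∪ B₂ = Set.univ := by
    rw [Set.eq_univ_iff_forall]
    intro d
    by_cases hd : d ∈ B₁
    · exact Or.inl hd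
    · exact Or.inr (hcon d hd)
  have h3 := Set.ncard_union_le B₁ B₂
  rw [hU, Set.ncard_univ, Nat.card_eq_fintype_card] at h3
  have h4 : 0 < Fintype.card G := Fintype.card_pos_iff.2 ⟨0⟩
  omega

private theorem p3b_ncard {G : Type} (f : G ≃ G) (S : Set G) : (f ⁻¹' S).ncard = S.ncard := by
  rw [← Equiv.image_symm_eq_preimage, Set.ncard_image_of_injective _ f.symm.injective]

/-- The chain through the nodes.

PROOF.  Call `x` fine at `a` if `4 * #{d | ¬ good a x d} ≤ |G|`.  Build `x 0 = 0`, fine at `0` by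
`h0`, and inductively for `a + 2 < L + 0`, i.e. `a + 1 ≤ L - 2`: given `x a` fine at `a` there is `d` with
`good a (x a) d` and `x a + d` fine at `a + 1`: the number of `d` that fail the first is at most
`|G| / 4`, the second too (`d ↦ x a + d` is a bijection, `hmid (a + 1)`), `|G| / 2 < |G|`.
So there are `x 0, .., x (L - 2)`, all fine.  The last but one step: `d` with
`good (L - 2) (x (L - 2)) d` and `good (L - 1) (x (L - 2) + d) (e - (x (L - 2) + d))`; the number of
`d` failing the second is at most `|G| / 4` by `hlast` (bijection `d ↦ e - (x (L - 2) + d)`).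
Last step `d (L - 1) = e - x (L - 1)`.
(In Lean: prove by induction on `n ≤ L - 2` the existence of functions `x d : ℕ → G` with
`x 0 = 0`, the step property for `a < n`, and `x n` fine at `n`; `Function.update`, or use
lists / `∃ d : ℕ → G` with `x a = ∑ b < a, d b`, which makes the extension easy.) -/
theorem chain (G : Type) [AddCommGroup G] [Fintype G] (L : ℕ) (hL : 2 ≤ L)
    (good : ℕ → G → G → Prop) (e : G)
    (h0 : 4 * Set.ncard {d | ¬ good 0 0 d} ≤ Fintype.card G)
    (hmid : ∀ a, 1 ≤ a → a + 1 < L →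
      4 * Set.ncard {x | Fintype.card G < 4 * Set.ncard {d | ¬ good a x d}} ≤ Fintype.card G)
    (hlast : 4 * Set.ncard {d | ¬ good (L - 1) (e - d) d} ≤ Fintype.card G) :
    ∃ x d : ℕ → G, x 0 = 0 ∧ (∀ a < L, x (a + 1) = x a + d a ∧ good a (x a) (d a)) ∧
      x L = e := by
  have key : ∀ n, n + 2 ≤ L → ∃ x : ℕ → G, x 0 = 0 ∧
      (∀ a < n, good a (x a) (x (a + 1) - x a)) ∧
      4 * Set.ncard {d | ¬ good n (x n) d} ≤ Fintype.card G := by
    intro n
    induction n with
    | zero => exact fun _ => ⟨fun _ => 0, rfl, fun a ha => absurd ha (Nat.not_lt_zero a), h0⟩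
    | succ n ih =>
      intro hn
      obtain ⟨x, hx0, hx1, hx2⟩ := ih (by omega)
      obtain ⟨d, hd1, hd2⟩ := p3b_exists {d | ¬ good n (x n) d}
        ((Equiv.addLeft (x n)) ⁻¹' {y | Fintype.card G < 4 * Set.ncard {d | ¬ good (n + 1) y d}})
        hx2 (by rw [p3b_ncard]; exact hmid (n + 1) (by omega) (by omega))
      have hd1' : good n (x n) d := by simpa using hd1
      have hd2' : 4 * Set.ncard {d' | ¬ good (n + 1) (x n + d) d'} ≤ Fintype.card G := by
        simpa using hd2
      refine ⟨fun a => if a ≤ n then x a else x n + d, ?_, fun a ha => ?_, ?_⟩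
      · simpa using hx0
      · rcases Nat.lt_or_ge a n with h | h
        · simp only [if_pos (show a ≤ n by omega), if_pos (show a + 1 ≤ n by omega)]
          exact hx1 a h
        · obtain rfl : a = n := by omega
          simp only [le_refl, if_true, if_neg (show ¬ a + 1 ≤ a by omega)]
          rwa [add_sub_cancel_left]
      · simp only [if_neg (show ¬ n + 1 ≤ n by omega)]
        exact hd2'
  obtain ⟨m, rfl⟩ : ∃ m, L = m + 2 := ⟨L - 2, by omega⟩
  obtain ⟨x, hx0, hx1, hx2⟩ := key m le_rfl
  have e1 : m + 2 - 1 = m + 1 := by omega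
  rw [e1] at hlast
  obtain ⟨d, hd1, hd2⟩ := p3b_exists {d | ¬ good m (x m) d}
    (((Equiv.addLeft (x m)).trans (Equiv.subLeft e)) ⁻¹' {d | ¬ good (m + 1) (e - d) d})
    hx2 (by rw [p3b_ncard]; exact hlast)
  have hd1' : good m (x m) d := by simpa using hd1
  have hd2' : good (m + 1) (x m + d) (e - (x m + d)) := by
    have h3 : good (m + 1) (e - (e - (x m + d))) (e - (x m + d)) := by
      by_contra h4
      exact hd2 h4
    rwa [sub_sub_cancel] at h3
  set y : ℕ → G := fun a => if a ≤ m then x a else if a = m + 1 then x m + d else e with hy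
  refine ⟨y, fun a => y (a + 1) - y a, ?_, fun a ha => ⟨(add_sub_cancel _ _).symm, ?_⟩, ?_⟩
  · simpa [hy] using hx0
  · rcases Nat.lt_trichotomy a m with h | h | h
    · simp only [hy, if_pos (show a ≤ m by omega), if_pos (show a + 1 ≤ m by omega)]
      exact hx1 a h
    · subst h
      simp only [hy, le_refl, if_true, if_neg (show ¬ a + 1 ≤ a by omega)]
      rwa [add_sub_cancel_left]
    · obtain rfl : a = m + 1 := by omega
      simp only [hy, if_neg (show ¬ m + 1 ≤ m by omega), if_neg (show ¬ m + 1 + 1 ≤ m by omega),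
        if_true, if_neg (show ¬ m + 1 + 1 = m + 1 by omega)]
      exact hd2'
  · simp only [hy, if_neg (show ¬ m + 2 ≤ m by omega), if_neg (show ¬ m + 2 = m + 1 by omega)]

end Pool.Agent.EQ
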