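import Pool.Agent.Lib.MP_1e8d1a_an.EQ.Defs

/-! row P4 -/

open scoped ContDiff Manifold Topology BoundedContinuousFunction

namespace Pool.Agent.EQ

open Pool.Agent.SC

/-- the segment of the index `i` -/
def seg (H L i : ℕ) : ℕ := min (i / H) (L - 1)

/-- the position of the index `i` in its segment -/
noncomputable def lam (H L K i : ℕ) : ℝ :=
  ((i : ℝ) - (seg H L i : ℝ) * H) /
    (if seg H L i + 1 < L then (H : ℝ) else (K : ℝ) + 1 - ((L : ℝ) - 1) * H)

/-- The interpolated path.

PROOF.  `u i = ∑ b < seg i, δ b + lam i • δ (seg i)` for `i ≤ K`, `u i = ∑ b < L, δ b` for `i > K`.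
Let `i ≤ K`, `a = seg i`, `len` its length (the denominator of `lam`, `H ≤ len`:
`K + 1 - (L - 1) H ≥ H`).  If `seg (i + 1) = a`, `i + 1 ≤ K`: the difference is
`(1 / len) • δ a`.  Otherwise either `i + 1 = (a + 1) H`, `a + 1 < L`, `len = H`,
`u (i + 1) = ∑ b < a + 1, δ b` (`lam (i + 1) = 0`) and `u i = ∑ b < a, δ b + ((H - 1) / H) • δ a`, the
difference is `(1 / H) • δ a`; or `i = K`, `a = L - 1`, `lam K = (K - (L - 1) H) / len`,
`len = K + 1 - (L - 1) H`, the difference is `(1 / len) • δ a`.  All have norm at most `1 / H`. -/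
theorem path_of_steps (k H L K : ℕ) (hH : 0 < H) (hL : 2 ≤ L) (h1 : L * H ≤ K + 1)
    (h2 : K + 1 < (L + 1) * H) (δ : ℕ → Fin k → ℝ) (hδ : ∀ a, ‖δ a‖ ≤ 1) :
    ∃ u : ℕ → Fin k → ℝ, u 0 = 0 ∧ (∀ i ≤ K, ‖u (i + 1) - u i‖ ≤ 1 / (H : ℝ)) ∧
      u (K + 1) = ∑ b ∈ Finset.range L, δ b ∧
      ∀ i ≤ K, u i = ∑ b ∈ Finset.range (seg H L i), δ b + lam H L K i • δ (seg H L i) := by
  classical
  have hHR : (0 : ℝ) < H := by exact_mod_cast hH
  have h1R : (L : ℝ) * H ≤ K + 1 := by exact_mod_cast h1
  have hlenL : (H : ℝ) ≤ (K : ℝ) + 1 - ((L : ℝ) - 1) * H := by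
    have : ((L : ℝ) - 1) * H = L * H - H := by ring
    linarith
  have hone : ∀ (c : ℝ) (a : ℕ), 0 ≤ c → c ≤ 1 / (H : ℝ) → ‖c • δ a‖ ≤ 1 / (H : ℝ) := by
    intro c a hc hc'
    rw [norm_smul, Real.norm_of_nonneg hc]
    calc c * ‖δ a‖ ≤ c * 1 := mul_le_mul_of_nonneg_left (hδ a) hc
      _ ≤ 1 / (H : ℝ) := by simpa using hc'
  have hsegK : seg H L K = L - 1 := by
    unfold seg
    apply min_eq_right
    rw [Nat.le_div_iff_mul_le hH]
    have : (L - 1) * H + H = L * H := by
      rw [← Nat.succ_mul]; congr 1; omega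
    omega
  refine ⟨fun i => if i ≤ K then ∑ b ∈ Finset.range (seg H L i), δ b + lam H L K i • δ (seg H L i)
    else ∑ b ∈ Finset.range L, δ b, ?_, ?_, ?_, ?_⟩
  · have hs : seg H L 0 = 0 := by simp [seg]
    simp only [Nat.zero_le, if_true, hs, Finset.range_zero, Finset.sum_empty, zero_add]
    have : lam H L K 0 = 0 := by simp [lam, hs]
    rw [this, zero_smul]
  · intro i hi
    rcases Nat.lt_or_ge i K with hiK | hiK
    · have hi1 : i + 1 ≤ K := hiK
      simp only [hi, hi1, if_true]
      by_cases hseg : seg H L (i + 1) = seg H L i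
      · have hl : lam H L K (i + 1) - lam H L K i =
            1 / (if seg H L i + 1 < L then (H : ℝ) else (K : ℝ) + 1 - ((L : ℝ) - 1) * H) := by
          unfold lam
          rw [hseg, ← sub_div]
          congr 1
          push_cast
          ring
        rw [hseg]
        have he : ∑ b ∈ Finset.range (seg H L i), δ b + lam H L K (i + 1) • δ (seg H L i) -
            (∑ b ∈ Finset.range (seg H L i), δ b + lam H L K i • δ (seg H L i)) =
            (lam H L K (i + 1) - lam H L K i) • δ (seg H L i) := by
          rw [sub_smul]; abel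
        rw [he, hl]
        apply hone
        · split_ifs
          · positivity
          · exact one_div_nonneg.2 (hHR.le.trans hlenL)
        · split_ifs
          · exact le_rfl
          · exact one_div_le_one_div_of_le hHR hlenL
      · -- the segment changes
        have hkey : i + 1 = (seg H L i + 1) * H ∧ seg H L (i + 1) = seg H L i + 1 ∧
            seg H L i + 1 < L ∧ seg H L i = i / H := by
          have hd : (i + 1) / H = i / H ∨ (i + 1) / H = i / H + 1 := by
            rw [Nat.succ_div]
            split_ifs <;> simp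
          unfold seg at hseg ⊢
          rcases hd with hd | hd
          · rw [hd] at hseg; exact absurd rfl hseg
          · rw [hd] at hseg ⊢
            have hlt : i / H < L - 1 := by
              by_contra hcon
              push Not at hcon
              apply hseg
              rw [min_eq_right hcon, min_eq_right (by omega)]
            have e1 : min (i / H) (L - 1) = i / H := min_eq_left hlt.le
            have e2 : min (i / H + 1) (L - 1) = i / H + 1 := min_eq_left hlt
            rw [e1, e2]
            refine ⟨?_, rfl, by omega, rfl⟩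
            have hdvd : H ∣ i + 1 := by
              by_contra hnd
              rw [Nat.succ_div, if_neg hnd] at hd
              omega
            have := Nat.div_mul_cancel hdvd
            rw [hd] at this
            exact this.symm
        obtain ⟨k1, k2, k3, k4⟩ := hkey
        have hl1 : lam H L K (i + 1) = 0 := by
          unfold lam
          rw [k2]
          have : ((i + 1 : ℕ) : ℝ) - ((seg H L i + 1 : ℕ) : ℝ) * H = 0 := by
            rw [sub_eq_zero]
            exact_mod_cast k1
          rw [this, zero_div]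
        have hl2 : lam H L K i = 1 - 1 / (H : ℝ) := by
          unfold lam
          rw [if_pos k3]
          have h3 : ((i : ℝ) + 1) = ((seg H L i : ℝ) + 1) * H := by exact_mod_cast k1
          have h4 : (i : ℝ) - (seg H L i : ℝ) * H = H - 1 := by linarith
          rw [h4, sub_div, div_self hHR.ne']
        rw [hl1, hl2, k2, Finset.sum_range_succ, zero_smul]
        have he : ∑ b ∈ Finset.range (seg H L i), δ b + δ (seg H L i) + 0 -
            (∑ b ∈ Finset.range (seg H L i), δ b + (1 - 1 / (H : ℝ)) • δ (seg H L i)) =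
            (1 / (H : ℝ)) • δ (seg H L i) := by
          rw [sub_smul, one_smul]; abel
        rw [he]
        exact hone _ _ (by positivity) le_rfl
    · have hiK' : i = K := le_antisymm hi hiK
      subst hiK'
      have hn : ¬ (i + 1 ≤ i) := by omega
      simp only [le_refl, if_true, hn, if_false, hsegK]
      have hLs : L = (L - 1) + 1 := by omega
      have hsum : ∑ b ∈ Finset.range L, δ b = ∑ b ∈ Finset.range (L - 1), δ b + δ (L - 1) := by
        conv_lhs => rw [hLs, Finset.sum_range_succ]
      have hl : lam H L i i = 1 - 1 / ((i : ℝ) + 1 - ((L : ℝ) - 1) * H) := by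
        unfold lam
        rw [hsegK, if_neg (by omega)]
        have hLc : ((L - 1 : ℕ) : ℝ) = (L : ℝ) - 1 := by
          rw [Nat.cast_sub (by omega)]; simp
        rw [hLc]
        have hpos : (0 : ℝ) < (i : ℝ) + 1 - ((L : ℝ) - 1) * H := hHR.trans_le hlenL
        rw [eq_sub_iff_add_eq, ← add_div, div_eq_one_iff_eq hpos.ne']
        ring
      rw [hsum, hl]
      have he : ∑ b ∈ Finset.range (L - 1), δ b + δ (L - 1) -
          (∑ b ∈ Finset.range (L - 1), δ b +
            (1 - 1 / ((i : ℝ) + 1 - ((L : ℝ) - 1) * H)) • δ (L - 1)) =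
          (1 / ((i : ℝ) + 1 - ((L : ℝ) - 1) * H)) • δ (L - 1) := by
        rw [sub_smul, one_smul]; abel
      rw [he]
      exact hone _ _ (one_div_nonneg.2 (hHR.le.trans hlenL))
        (one_div_le_one_div_of_le hHR hlenL)
  · have hn : ¬ (K + 1 ≤ K) := by omega
    simp only [hn, if_false]
  · intro i hi
    simp only [hi, if_true]

/-- PROOF.  For `a + 1 < L`: `min (i / H) (L - 1) = a` iff `i / H = a`: `H` indices.  For
`a = L - 1`: `(L - 1) H ≤ i ≤ K < (L + 1) H - 1`: fewer than `2 H`.  For `a ≥ L` none. -/
theorem card_seg_le (H L K a : ℕ) (hH : 0 < H) (hL : 2 ≤ L) (h1 : L * H ≤ K + 1)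
    (h2 : K + 1 < (L + 1) * H) :
    ((Finset.Icc 1 K).filter (fun i => seg H L i = a)).card ≤ 2 * H := by
  have hsub : (Finset.Icc 1 K).filter (fun i => seg H L i = a) ⊆
      Finset.Ico (a * H) (a * H + 2 * H) := by
    intro i hi
    rw [Finset.mem_filter, Finset.mem_Icc] at hi
    obtain ⟨⟨hi1, hi2⟩, hi3⟩ := hi
    rw [Finset.mem_Ico]
    unfold seg at hi3
    have hdm := Nat.div_add_mod i H
    have hml := Nat.mod_lt i hH
    rcases le_total (i / H) (L - 1) with hc | hc
    · rw [min_eq_left hc] at hi3
      subst hi3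
      have hcm : i / H * H = H * (i / H) := Nat.mul_comm _ _
      constructor <;> omega
    · rw [min_eq_right hc] at hi3
      subst hi3
      constructor
      · exact (Nat.le_div_iff_mul_le hH).1 hc
      · have e : (L - 1) * H + 2 * H = (L + 1) * H := by
          rw [← Nat.add_mul]; congr 1; omega
        omega
  calc _ ≤ (Finset.Ico (a * H) (a * H + 2 * H)).card := Finset.card_le_card hsub
    _ = 2 * H := by simp

end Pool.Agent.EQ
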