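import Pool.Agent.Lib.MP_1e8d1a_an.EQ.Defs

/-! row P5 -/

open scoped ContDiff Manifold Topology BoundedContinuousFunction

namespace Pool.Agent.EQ

open Pool.Agent.SC

/-- representative in `[0, 1)^k` of a point of the grid `(ℤ / M)^k` -/
noncomputable def hat {k M : ℕ} (x : Fin k → ZMod M) : Fin k → ℝ :=
  fun j => ((x j).val : ℝ) / M

/-- `v` is at distance less than `ρ` from `ℤ^k` -/
def Near {k : ℕ} (ρ : ℝ) (v : Fin k → ℝ) : Prop :=
  ∃ z : Fin k → ℤ, ‖v - (fun j => (z j : ℝ))‖ < ρ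

theorem near_add_int {k : ℕ} (ρ : ℝ) (v : Fin k → ℝ) (n : Fin k → ℤ) :
    Near ρ (v + fun j => (n j : ℝ)) ↔ Near ρ v := by
  constructor
  · rintro ⟨z, hz⟩
    refine ⟨z - n, ?_⟩
    have h : v - (fun j => (((z - n) j : ℤ) : ℝ)) = v + (fun j => (n j : ℝ)) -
      (fun j => (z j : ℝ)) := by
      funext j
      simp only [Pi.sub_apply, Pi.add_apply]
      push_cast
      ring
    rw [h]
    exact hz
  · rintro ⟨z, hz⟩
    refine ⟨z + n, ?_⟩
    have h : v + (fun j => (n j : ℝ)) - (fun j => (((z + n) j : ℤ) : ℝ)) = v -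
      (fun j => (z j : ℝ)) := by
      funext j
      simp only [Pi.sub_apply, Pi.add_apply]
      push_cast
      ring
    rw [h]
    exact hz

/-- PROOF.  Coordinatewise: `(x + y).val = x.val + y.val` or `x.val + y.val - M`
(`ZMod.val_add`, `Nat.add_mod`...). -/
theorem hat_add {k M : ℕ} [NeZero M] (x y : Fin k → ZMod M) :
    ∃ n : Fin k → ℤ, hat (x + y) = hat x + hat y + fun j => (n j : ℝ) := by
  have hM : (M : ℝ) ≠ 0 := Nat.cast_ne_zero.mpr (NeZero.ne M)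
  refine ⟨fun j => -((((x j).val + (y j).val) / M : ℕ) : ℤ), ?_⟩
  funext j
  simp only [hat, Pi.add_apply]
  rw [ZMod.val_add]
  have h := Nat.div_add_mod ((x j).val + (y j).val) M
  have h2 : (((x j).val + (y j).val) % M : ℕ) = (((x j).val + (y j).val : ℕ) : ℝ)
      - (M : ℝ) * ((((x j).val + (y j).val) / M : ℕ) : ℝ) := by
    rw [eq_sub_iff_add_eq, add_comm]
    exact_mod_cast h
  rw [h2, Int.cast_neg, Int.cast_natCast, Nat.cast_add]
  field_simp
  ring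

/-- PROOF.  `((n : ZMod M).val : ℤ) = n % M` (`ZMod.val_intCast`), `n - n % M = M (n / M)`. -/
theorem hat_intCast {k M : ℕ} [NeZero M] (n : Fin k → ℤ) :
    ∃ l : Fin k → ℤ, hat (fun j => ((n j : ℤ) : ZMod M)) =
      (fun j => (n j : ℝ) / M) + fun j => (l j : ℝ) := by
  have hM : (M : ℝ) ≠ 0 := Nat.cast_ne_zero.mpr (NeZero.ne M)
  refine ⟨fun j => -(n j / (M : ℤ)), ?_⟩
  funext j
  simp only [hat, Pi.add_apply]
  have h1 : (((((n j : ℤ) : ZMod M)).val : ℕ) : ℤ) = n j % (M : ℤ) := ZMod.val_intCast (n j)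
  have h2 : (((((n j : ℤ) : ZMod M)).val : ℕ) : ℝ) = ((n j % (M : ℤ) : ℤ) : ℝ) := by
    exact_mod_cast congrArg (fun t : ℤ => (t : ℝ)) h1
  rw [h2]
  have h3 : n j % (M : ℤ) = n j - (M : ℤ) * (n j / (M : ℤ)) := Int.emod_def (n j) (M : ℤ)
  rw [h3]
  push_cast
  field_simp
  ring

/-- PROOF.  `0 ≤ (x j).val / M < 1` (`ZMod.val_lt`), `pi_norm_le_iff_of_nonneg`. -/
theorem hat_norm {k M : ℕ} [NeZero M] (x : Fin k → ZMod M) : ‖hat x‖ ≤ 1 := by
  have hM : (0 : ℝ) < M := Nat.cast_pos.mpr (Nat.pos_of_ne_zero (NeZero.ne M))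
  rw [pi_norm_le_iff_of_nonneg zero_le_one]
  intro j
  simp only [hat]
  rw [Real.norm_of_nonneg (by positivity), div_le_one hM]
  exact_mod_cast (ZMod.val_lt (x j)).le

end Pool.Agent.EQ
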