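import Pool.Agent.Lib.MP_1e8d1a_an.EQ.P1b
import Pool.Agent.Lib.MP_1e8d1a_an.EQ.P5

/-! row P5b -/

open scoped ContDiff Manifold Topology BoundedContinuousFunction

namespace Pool.Agent.EQ

open Pool.Agent.SC

/-- Uniform grid point.

PROOF.  `x ↦ (fun j => (x j).val)` is a bijection from `Fin k → ZMod M` to `Fin k → Fin M`
(`ZMod.finEquiv`; or write `M = n + 1`, then `ZMod M` is `Fin (n + 1)`).  `count_vec k M 1 M` with
`c = c`: the bound is `((M / M + 1) (2 ρ M + 1)) ^ k ≤ (6 ρ M) ^ k` as `1 ≤ ρ M`. -/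
theorem count_grid {k M : ℕ} [NeZero M] (ρ : ℝ) (hρ : 0 < ρ) (hM : 1 ≤ ρ * M) (c : Fin k → ℝ) :
    (Set.ncard {x : Fin k → ZMod M | Near ρ (hat x + c)} : ℝ) ≤ (6 * ρ) ^ k * (M : ℝ) ^ k := by
  have hM0 : 0 < M := Nat.pos_of_ne_zero (NeZero.ne M)
  have hMR : (0 : ℝ) < M := by exact_mod_cast hM0
  have h1 := count_vec k M 1 M hM0 c ρ hρ
  have h2 : Set.ncard {x : Fin k → ZMod M | Near ρ (hat x + c)} ≤
      Set.ncard {a : Fin k → Fin M | ∃ z : Fin k → ℤ,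
        ‖(fun j => ((a j : ℕ) : ℝ) * (1 : ℕ) / M + c j - (z j : ℝ))‖ < ρ} := by
    refine Set.ncard_le_ncard_of_injOn (fun x j => ⟨(x j).val, ZMod.val_lt (x j)⟩) ?_ ?_
      (Set.toFinite _)
    · rintro x ⟨z, hz⟩
      refine ⟨z, ?_⟩
      refine lt_of_eq_of_lt ?_ hz
      congr 1
      funext j
      simp [hat]
    · intro x _ y _ h
      funext j
      have := congrFun h j
      simp only [Fin.mk.injEq] at this
      exact ZMod.val_injective M this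
  refine le_trans (by exact_mod_cast h2) (h1.trans ?_)
  rw [← mul_pow]
  refine pow_le_pow_left₀ (by positivity) ?_ k
  rw [Nat.gcd_one_left]
  have e1 : (M : ℝ) * ((1 : ℕ) : ℝ) / M = 1 := by
    push_cast
    field_simp
  rw [e1]
  push_cast
  rw [div_one]
  nlinarith

/-- Uniform rotation vector.

PROOF.  `count_vec k (N * M') m (M * N)` with `M = Ω * M'`, `g = gcd m (M N)`, `1 ≤ g ≤ m ≤ N`:
`(N M' g / (M N) + 1) (2 ρ M N / g + 1) = (g / Ω + 1) (2 ρ M N / g + 1)`, and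
`M N = Ω N M'`; dividing by `N M' = M N / Ω`:
`(g + Ω) (2 ρ / g + 1 / (M N)) ≤ 2 ρ (1 + Ω) + (N + Ω) / (M N) ≤ 3 ρ (1 + Ω)` as
`1 / M ≤ ρ` and `(N + Ω) / N ≤ 1 + Ω`. -/
theorem count_rot (k Ω M' N m : ℕ) (hΩ : 0 < Ω) (hM' : 0 < M') (hm : 0 < m) (hmN : m ≤ N)
    (ρ : ℝ) (hρ : 0 < ρ) (hM : 1 ≤ ρ * (Ω * M' : ℕ)) (c : Fin k → ℝ) :
    (Set.ncard {b : Fin k → Fin (N * M') |
      Near ρ (fun j => ((b j : ℕ) : ℝ) * m / ((Ω * M' : ℕ) * N) + c j)} : ℝ) ≤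
      (3 * ρ * (1 + Ω)) ^ k * ((N * M' : ℕ) : ℝ) ^ k := by
  have hN : 0 < N := lt_of_lt_of_le hm hmN
  have hP : 0 < Ω * M' * N := Nat.mul_pos (Nat.mul_pos hΩ hM') hN
  have h1 := count_vec k (N * M') m (Ω * M' * N) hP c ρ hρ
  have h2 : {b : Fin k → Fin (N * M') |
      Near ρ (fun j => ((b j : ℕ) : ℝ) * m / ((Ω * M' : ℕ) * N) + c j)} =
      {a : Fin k → Fin (N * M') | ∃ z : Fin k → ℤ,
        ‖(fun j => ((a j : ℕ) : ℝ) * m / ((Ω * M' * N : ℕ) : ℝ) + c j - (z j : ℝ))‖ < ρ} := by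
    ext a
    simp only [Near, Set.mem_setOf_eq]
    refine exists_congr fun z => ?_
    have : (fun j => ((a j : ℕ) : ℝ) * m / ((Ω * M' : ℕ) * N) + c j) - (fun j => (z j : ℝ)) =
        (fun j => ((a j : ℕ) : ℝ) * m / ((Ω * M' * N : ℕ) : ℝ) + c j - (z j : ℝ)) := by
      funext j
      simp only [Pi.sub_apply]
      push_cast
      ring
    rw [this]
  rw [h2]
  refine h1.trans ?_
  rw [← mul_pow]
  refine pow_le_pow_left₀ (by positivity) ?_ k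
  set g : ℕ := Nat.gcd m (Ω * M' * N) with hg
  have hg1 : 1 ≤ g := Nat.gcd_pos_of_pos_left _ hm
  have hgN : g ≤ N := (Nat.gcd_le_left _ hm).trans hmN
  have hg1R : (1 : ℝ) ≤ g := by exact_mod_cast hg1
  have hgNR : (g : ℝ) ≤ N := by exact_mod_cast hgN
  have hΩR : (1 : ℝ) ≤ Ω := by exact_mod_cast hΩ
  have hM'R : (1 : ℝ) ≤ M' := by exact_mod_cast hM'
  have hNR : (1 : ℝ) ≤ N := by exact_mod_cast hN
  have hM2 : 1 ≤ ρ * ((Ω : ℝ) * M') := by
    have := hM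
    push_cast at this
    exact this
  have hg0 : (0 : ℝ) < g := by linarith
  have hΩ0 : (0 : ℝ) < Ω := by linarith
  have hM0 : (0 : ℝ) < M' := by linarith
  have hN0 : (0 : ℝ) < N := by linarith
  have e1 : ((N * M' : ℕ) : ℝ) * g / ((Ω * M' * N : ℕ) : ℝ) = g / Ω := by
    push_cast
    field_simp
  have e2 : 2 * ρ * ((Ω * M' * N : ℕ) : ℝ) / g = 2 * (ρ * (Ω * M') * N) / g := by
    push_cast
    ring
  rw [e1, e2]
  push_cast
  -- the four terms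
  have t2 : (g : ℝ) / Ω ≤ ρ * (N * M') := by
    rw [div_le_iff₀ hΩ0]
    calc (g : ℝ) ≤ N * 1 := by linarith
      _ ≤ N * (ρ * (Ω * M')) := mul_le_mul_of_nonneg_left hM2 hN0.le
      _ = ρ * (N * M') * Ω := by ring
  have t3 : 2 * (ρ * (Ω * M') * N) / g ≤ 2 * (ρ * (Ω * M') * N) :=
    div_le_self (by positivity) hg1R
  have t3' : g / Ω * (2 * (ρ * (Ω * M') * N) / g) = 2 * (ρ * (N * M')) := by
    field_simp
  have t4 : 1 ≤ ρ * (Ω * M') * N := by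
    calc (1 : ℝ) = 1 * 1 := by ring
      _ ≤ ρ * (Ω * M') * N := mul_le_mul hM2 hNR (by norm_num) (by positivity)
  calc (g / Ω + 1) * (2 * (ρ * (Ω * M') * N) / g + 1)
      = g / Ω * (2 * (ρ * (Ω * M') * N) / g) + g / Ω + 2 * (ρ * (Ω * M') * N) / g + 1 := by ring
    _ ≤ 2 * (ρ * (N * M')) + ρ * (N * M') + 2 * (ρ * (Ω * M') * N) + ρ * (Ω * M') * N := by
        rw [t3']
        linarith
    _ = 3 * ρ * (1 + Ω) * (N * M') := by ring

/-- PROOF.  `Near ρ v ↔ Near ρ (-v)`. -/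
theorem near_neg {k : ℕ} (ρ : ℝ) (v : Fin k → ℝ) : Near ρ (-v) ↔ Near ρ v := by
  have aux : ∀ w : Fin k → ℝ, Near ρ w → Near ρ (-w) := by
    rintro w ⟨z, hz⟩
    refine ⟨-z, ?_⟩
    rw [← norm_neg] at hz
    refine lt_of_eq_of_lt ?_ hz
    congr 1
    funext j
    simp
    ring
  constructor
  · intro h
    have := aux _ h
    rwa [neg_neg] at this
  · exact aux v

end Pool.Agent.EQ
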