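import Pool.Agent.Lib.MP_1e8d1a_an.EQ.P4
import Pool.Agent.Lib.MP_1e8d1a_an.EQ.P5b

/-! row P6 -/

open scoped ContDiff Manifold Topology BoundedContinuousFunction

namespace Pool.Agent.EQ

open Pool.Agent.SC

theorem P6_union {α : Type} [Finite α] (T : Finset ℕ) (n : ℕ) (hT : T.card ≤ n)
    (P : ℕ → α → Prop) (B : ℝ) (hB : 0 ≤ B)
    (h : ∀ i ∈ T, (Set.ncard {x | P i x} : ℝ) ≤ B) (Q : α → Prop)
    (hQ : ∀ x, Q x → ∃ i ∈ T, P i x) :
    (Set.ncard {x | Q x} : ℝ) ≤ n * B := by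
  classical
  have := Fintype.ofFinite α
  have h1 : {x | Q x} ⊆ (↑(T.biUnion (fun i => Finset.univ.filter (fun x => P i x))) : Set α) := by
    intro x hx
    obtain ⟨i, hi, hp⟩ := hQ x hx
    rw [Finset.mem_coe, Finset.mem_biUnion]
    exact ⟨i, hi, by simpa using hp⟩
  have h2 : Set.ncard {x | Q x} ≤
      (T.biUnion (fun i => Finset.univ.filter (fun x => P i x))).card := by
    rw [← Set.ncard_coe_finset]
    exact Set.ncard_le_ncard h1 (Finset.finite_toSet _)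
  have h3 : (T.biUnion (fun i => Finset.univ.filter (fun x => P i x))).card ≤
      ∑ i ∈ T, (Finset.univ.filter (fun x => P i x)).card := Finset.card_biUnion_le
  have h4 : ∀ i ∈ T, ((Finset.univ.filter (fun x => P i x)).card : ℝ) ≤ B := by
    intro i hi
    have h5 := h i hi
    have h6 : {x | P i x} = (↑(Finset.univ.filter (fun x => P i x)) : Set α) := by
      ext x
      simp
    rw [h6, Set.ncard_coe_finset] at h5
    exact h5
  have h7 : ((∑ i ∈ T, (Finset.univ.filter (fun x => P i x)).card : ℕ) : ℝ) ≤ T.card * B := by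
    push_cast
    calc ∑ i ∈ T, ((Finset.univ.filter (fun x => P i x)).card : ℝ) ≤ ∑ _i ∈ T, B :=
          Finset.sum_le_sum h4
      _ = T.card * B := by rw [Finset.sum_const, nsmul_eq_mul]
  calc (Set.ncard {x | Q x} : ℝ) ≤
      ((T.biUnion (fun i => Finset.univ.filter (fun x => P i x))).card : ℝ) := by
        exact_mod_cast h2
    _ ≤ ((∑ i ∈ T, (Finset.univ.filter (fun x => P i x)).card : ℕ) : ℝ) := by
        exact_mod_cast h3
    _ ≤ T.card * B := h7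
    _ ≤ n * B := by
        apply mul_le_mul_of_nonneg_right _ hB
        exact_mod_cast hT

/-- Avoidance for one pair (segment, direction), summed over the indices of the segment.

PROOF.  Union bound over the indices `i` of the segment (`card_seg_le`, at most `2 H` of them),
each by `count_grid` with `c = v i + lam • hat d`. -/
theorem count_seg_grid (k M H L K a : ℕ) [NeZero M] (hH : 0 < H) (hL : 2 ≤ L)
    (h1 : L * H ≤ K + 1) (h2 : K + 1 < (L + 1) * H) (ρ : ℝ) (hρ : 0 < ρ) (hM : 1 ≤ ρ * M)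
    (v : ℕ → Fin k → ℝ) :
    (Set.ncard {x : Fin k → ZMod M | ∃ i, 1 ≤ i ∧ i ≤ K ∧ seg H L i = a ∧
      Near ρ (hat x + v i)} : ℝ) ≤ 2 * H * ((6 * ρ) ^ k * (M : ℝ) ^ k) := by
  have h := P6_union ((Finset.Icc 1 K).filter (fun i => seg H L i = a)) (2 * H)
    (card_seg_le H L K a hH hL h1 h2) (fun i (x : Fin k → ZMod M) => Near ρ (hat x + v i))
    ((6 * ρ) ^ k * (M : ℝ) ^ k) (by positivity)
    (fun i _ => count_grid ρ hρ hM (v i))
    (fun x => ∃ i, 1 ≤ i ∧ i ≤ K ∧ seg H L i = a ∧ Near ρ (hat x + v i))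
    (fun x hx => by
      obtain ⟨i, hi1, hi2, hi3, hi4⟩ := hx
      exact ⟨i, by rw [Finset.mem_filter, Finset.mem_Icc]; exact ⟨⟨hi1, hi2⟩, hi3⟩, hi4⟩)
  push_cast at h
  exact h

/-- PROOF.  The same with `count_rot` (`0 < m i ≤ N`). -/
theorem count_seg_rot (k Ω M' N H L K a : ℕ) (hΩ : 0 < Ω) (hM' : 0 < M') (hH : 0 < H)
    (hL : 2 ≤ L) (h1 : L * H ≤ K + 1) (h2 : K + 1 < (L + 1) * H) (ρ : ℝ) (hρ : 0 < ρ)
    (hM : 1 ≤ ρ * (Ω * M' : ℕ)) (m : ℕ → ℕ) (hm : ∀ i, 1 ≤ i → i ≤ K → 0 < m i ∧ m i ≤ N)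
    (c : ℕ → Fin k → ℝ) :
    (Set.ncard {b : Fin k → Fin (N * M') | ∃ i, 1 ≤ i ∧ i ≤ K ∧ seg H L i = a ∧
      Near ρ (fun j => ((b j : ℕ) : ℝ) * m i / ((Ω * M' : ℕ) * N) + c i j)} : ℝ) ≤
      2 * H * ((3 * ρ * (1 + Ω)) ^ k * ((N * M' : ℕ) : ℝ) ^ k) := by
  have h := P6_union ((Finset.Icc 1 K).filter (fun i => seg H L i = a)) (2 * H)
    (card_seg_le H L K a hH hL h1 h2)
    (fun i (b : Fin k → Fin (N * M')) =>
      Near ρ (fun j => ((b j : ℕ) : ℝ) * m i / ((Ω * M' : ℕ) * N) + c i j))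
    ((3 * ρ * (1 + Ω)) ^ k * ((N * M' : ℕ) : ℝ) ^ k) (by positivity)
    (fun i hi => by
      rw [Finset.mem_filter, Finset.mem_Icc] at hi
      exact count_rot k Ω M' N (m i) hΩ hM' (hm i hi.1.1 hi.1.2).1 (hm i hi.1.1 hi.1.2).2 ρ hρ
        hM (c i))
    (fun b => ∃ i, 1 ≤ i ∧ i ≤ K ∧ seg H L i = a ∧
      Near ρ (fun j => ((b j : ℕ) : ℝ) * m i / ((Ω * M' : ℕ) * N) + c i j))
    (fun x hx => by
      obtain ⟨i, hi1, hi2, hi3, hi4⟩ := hx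
      exact ⟨i, by rw [Finset.mem_filter, Finset.mem_Icc]; exact ⟨⟨hi1, hi2⟩, hi3⟩, hi4⟩)
  have e : (((2 * H : ℕ) : ℝ)) = 2 * (H : ℝ) := by push_cast; ring
  rw [e] at h
  exact h

/-- the rotation vector attached to `b` -/
noncomputable def rotv {k A : ℕ} (M N : ℕ) (ci : Fin k → ℝ) (b : Fin k → Fin A) : Fin k → ℝ :=
  fun j => (Int.fract (M * ci j) + (b j : ℕ)) / (M * N)

/-- the end point attached to `b` -/
noncomputable def endp {k A : ℕ} (M : ℕ) (ci : Fin k → ℝ) (b : Fin k → Fin A) : Fin k → ZMod M :=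
  fun j => ((⌊(M : ℝ) * ci j⌋ - ((b j : ℕ) : ℤ) : ℤ) : ZMod M)

/-- PROOF.  Coordinatewise `ci j - N w j = (M ci j - fract (M ci j) - b j) / M =
(⌊M ci j⌋ - b j) / M`, which is `hat (endp ..) j` modulo `ℤ` (`hat_intCast`). -/
theorem rotv_end {k A M N : ℕ} [NeZero M] (hN : 0 < N) (ci : Fin k → ℝ) (b : Fin k → Fin A) :
    ∃ z : Fin k → ℤ, (N : ℝ) • rotv M N ci b + hat (endp M ci b) - ci = fun j => (z j : ℝ) := by
  obtain ⟨l, hl⟩ := hat_intCast (k := k) (M := M) (fun j => ⌊(M : ℝ) * ci j⌋ - ((b j : ℕ) : ℤ))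
  have hM0 : (M : ℝ) ≠ 0 := Nat.cast_ne_zero.2 (NeZero.ne M)
  have hN0 : (N : ℝ) ≠ 0 := Nat.cast_ne_zero.2 hN.ne'
  refine ⟨l, ?_⟩
  have he : hat (endp M ci b) = (fun j => (((⌊(M : ℝ) * ci j⌋ - ((b j : ℕ) : ℤ) : ℤ)) : ℝ) / M) +
      fun j => (l j : ℝ) := hl
  rw [he]
  funext j
  have hf : (⌊(M : ℝ) * ci j⌋ : ℝ) + Int.fract ((M : ℝ) * ci j) = (M : ℝ) * ci j :=
    Int.floor_add_fract _
  simp only [Pi.sub_apply, Pi.add_apply, Pi.smul_apply, smul_eq_mul, rotv]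
  push_cast
  have e1 : (N : ℝ) * ((Int.fract ((M : ℝ) * ci j) + ((b j : ℕ) : ℝ)) / ((M : ℝ) * N)) =
      (Int.fract ((M : ℝ) * ci j) + ((b j : ℕ) : ℝ)) / M := by
    field_simp
  rw [e1]
  have e2 : (Int.fract ((M : ℝ) * ci j) + ((b j : ℕ) : ℝ)) / M +
      (((⌊(M : ℝ) * ci j⌋ : ℝ) - ((b j : ℕ) : ℝ)) / M + (l j : ℝ)) - ci j =
      ((⌊(M : ℝ) * ci j⌋ : ℝ) + Int.fract ((M : ℝ) * ci j)) / M + (l j : ℝ) - ci j := by
    ring
  rw [e2, hf]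
  field_simp
  ring

/-- PROOF.  `0 ≤ rotv j < (1 + (N M' - 1)) / (Ω M' N) = 1 / Ω`. -/
theorem rotv_norm {k Ω M' N : ℕ} (hΩ : 0 < Ω) (hM' : 0 < M') (hN : 0 < N) (ci : Fin k → ℝ)
    (b : Fin k → Fin (N * M')) : ‖rotv (Ω * M') N ci b‖ ≤ 1 / (Ω : ℝ) := by
  have hΩ0 : (0 : ℝ) < Ω := Nat.cast_pos.2 hΩ
  have hM0 : (0 : ℝ) < M' := Nat.cast_pos.2 hM'
  have hN0 : (0 : ℝ) < N := Nat.cast_pos.2 hN
  rw [pi_norm_le_iff_of_nonneg (by positivity)]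
  intro j
  have hb : ((b j : ℕ) : ℝ) + 1 ≤ (N : ℝ) * M' := by
    have := (b j).2
    exact_mod_cast this
  have hf0 := Int.fract_nonneg (((Ω * M' : ℕ) : ℝ) * ci j)
  have hf1 := (Int.fract_lt_one (((Ω * M' : ℕ) : ℝ) * ci j)).le
  have hb0 : (0 : ℝ) ≤ ((b j : ℕ) : ℝ) := Nat.cast_nonneg _
  have hd : (0 : ℝ) < ((Ω * M' : ℕ) : ℝ) * N := by
    push_cast
    positivity
  simp only [rotv, Real.norm_eq_abs]
  rw [abs_of_nonneg (div_nonneg (add_nonneg hf0 hb0) hd.le), div_le_div_iff₀ hd hΩ0]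
  have : (Int.fract (((Ω * M' : ℕ) : ℝ) * ci j) + ((b j : ℕ) : ℝ)) * Ω ≤ ((N : ℝ) * M') * Ω := by
    apply mul_le_mul_of_nonneg_right _ hΩ0.le
    linarith
  calc _ ≤ ((N : ℝ) * M') * Ω := this
    _ = 1 * (((Ω * M' : ℕ) : ℝ) * N) := by push_cast; ring

end Pool.Agent.EQ
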