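import Pool.Agent.Lib.MP_1e8d1a_an.EQ.Defs

/-! row T1 -/

open scoped ContDiff Manifold Topology BoundedContinuousFunction

namespace Pool.Agent.EQ

open Pool.Agent.SC

variable {E : Type} [NormedAddCommGroup E] [NormedSpace ℝ E] {H : Type} [TopologicalSpace H]
  {I : ModelWithCorners ℝ E H} {W : Type} [TopologicalSpace W] [ChartedSpace H W]

variable {k : ℕ} {ρ : (Fin k → ℝ) → W → W} {p : W}

/-- continuity of the orbit map -/
private theorem T1_cont (hρ : IsTorusAction I k ρ) : Continuous (fun v : Fin k → ℝ => ρ v p) :=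
  hρ.smooth.continuous.comp (Continuous.prodMk continuous_id continuous_const)

/-- the orbit stays in the domain of the chart -/
private theorem T1_source (hρ : IsTorusAction I k ρ) :
    ∀ᶠ v in 𝓝 (0 : Fin k → ℝ), ρ v p ∈ (extChartAt I p).source := by
  refine (T1_cont (p := p) hρ).continuousAt.eventually_mem ?_
  rw [hρ.zero]
  exact extChartAt_source_mem_nhds p

private theorem T1_at [IsManifold I ∞ W] (hρ : IsTorusAction I k ρ) {v : Fin k → ℝ}
    (hv : ρ v p ∈ (extChartAt I p).source) :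
    ContDiffAt ℝ ∞ (fun v : Fin k → ℝ => cc I p (ρ v p)) v := by
  have h1 : ContMDiffAt 𝓘(ℝ, Fin k → ℝ) I ∞ (fun v : Fin k → ℝ => ρ v p) v :=
    (hρ.smooth.contMDiffAt (x := (v, p))).comp v (contMDiffAt_id.prodMk contMDiffAt_const)
  rw [extChartAt_source] at hv
  have h2 : ContMDiffAt I 𝓘(ℝ, E) ∞ (extChartAt I p) (ρ v p) := contMDiffAt_extChartAt' hv
  have h3 : ContMDiffAt 𝓘(ℝ, Fin k → ℝ) 𝓘(ℝ, E) ∞
      (fun v : Fin k → ℝ => extChartAt I p (ρ v p)) v := h2.comp v h1
  exact (contMDiffAt_iff_contDiffAt.1 h3).sub contDiffAt_const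

/-- the chart representation of `ρ b` is differentiable at `0` -/
private theorem T1_gamma [IsManifold I ∞ W] [I.Boundaryless] (hρ : IsTorusAction I k ρ)
    {b : Fin k → ℝ} (hb : ρ b p ∈ (extChartAt I p).source) :
    ContDiffAt ℝ ∞ (fun y : E => cc I p (ρ b (sec I p y))) 0 := by
  have h0 : sec I p (0 : E) = p := by
    simp [sec]
  have h1 : ContMDiffAt 𝓘(ℝ, E) I ∞ (extChartAt I p).symm (extChartAt I p p + 0) := by
    rw [add_zero]
    exact (contMDiffOn_extChartAt_symm (I := I) (n := ∞) p).contMDiffAt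
      (extChartAt_target_mem_nhds p)
  have h2 : ContMDiffAt 𝓘(ℝ, E) 𝓘(ℝ, E) ∞ (fun y : E => extChartAt I p p + y) 0 :=
    (contDiffAt_const.add contDiffAt_id).contMDiffAt
  have h3 : ContMDiffAt 𝓘(ℝ, E) I ∞ (fun y : E => sec I p y) 0 := h1.comp (0 : E) h2
  have h4 : ContMDiffAt 𝓘(ℝ, E) I ∞ (fun y : E => ρ b (sec I p y)) 0 :=
    ContMDiffAt.comp (g := fun z : (Fin k → ℝ) × W => ρ z.1 z.2) (f := fun y : E => (b, sec I p y))
      (0 : E) (hρ.smooth.contMDiffAt (x := (b, sec I p (0 : E)))) (contMDiffAt_const.prodMk h3)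
  have hb' : ρ b (sec I p (0 : E)) ∈ (chartAt H p).source := by
    rw [h0, ← extChartAt_source I p]
    exact hb
  have h5 : ContMDiffAt I 𝓘(ℝ, E) ∞ (extChartAt I p) (ρ b (sec I p (0 : E))) :=
    contMDiffAt_extChartAt' hb'
  have h6 : ContMDiffAt 𝓘(ℝ, E) 𝓘(ℝ, E) ∞
      (fun y : E => extChartAt I p (ρ b (sec I p y))) 0 := h5.comp (0 : E) h4
  exact (contMDiffAt_iff_contDiffAt.1 h6).sub contDiffAt_const

/-- the kernel of the derivative at `0` is contained in the kernel of the derivative at `b` -/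
private theorem T1_ker [IsManifold I ∞ W] [I.Boundaryless] (hρ : IsTorusAction I k ρ)
    {b a : Fin k → ℝ} (hb : ρ b p ∈ (extChartAt I p).source)
    (ha : fderiv ℝ (fun v : Fin k → ℝ => cc I p (ρ v p)) 0 a = 0) :
    fderiv ℝ (fun v : Fin k → ℝ => cc I p (ρ v p)) b a = 0 := by
  set ψ : (Fin k → ℝ) → E := fun v => cc I p (ρ v p) with hψ
  set Γ : E → E := fun y => cc I p (ρ b (sec I p y)) with hΓ
  have h0 : ρ (0 : Fin k → ℝ) p ∈ (extChartAt I p).source := by
    rw [hρ.zero]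
    exact mem_extChartAt_source p
  have hψ0 : ψ 0 = 0 := by
    simp [hψ, cc, hρ.zero]
  have d0 : HasFDerivAt ψ (fderiv ℝ ψ 0) 0 :=
    ((T1_at hρ h0).differentiableAt (by simp)).hasFDerivAt
  have db : HasFDerivAt ψ (fderiv ℝ ψ b) (b + 0) := by
    rw [add_zero]
    exact ((T1_at hρ hb).differentiableAt (by simp)).hasFDerivAt
  have dΓ : HasFDerivAt Γ (fderiv ℝ Γ 0) (ψ 0) := by
    rw [hψ0]
    exact ((T1_gamma hρ hb).differentiableAt (by simp)).hasFDerivAt
  have d1 : HasFDerivAt (fun v : Fin k → ℝ => ψ (b + v)) (fderiv ℝ ψ b) 0 := by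
    have h := db.comp (0 : Fin k → ℝ) ((hasFDerivAt_id (𝕜 := ℝ) (0 : Fin k → ℝ)).const_add b)
    rw [ContinuousLinearMap.comp_id] at h
    exact h
  have d2 : HasFDerivAt (fun v : Fin k → ℝ => Γ (ψ v)) ((fderiv ℝ Γ 0).comp (fderiv ℝ ψ 0)) 0 :=
    dΓ.comp (0 : Fin k → ℝ) d0
  have he : (fun v : Fin k → ℝ => ψ (b + v)) =ᶠ[𝓝 0] fun v => Γ (ψ v) := by
    filter_upwards [T1_source (p := p) hρ] with v hv
    have h1 : sec I p (ψ v) = ρ v p := by
      simp only [hψ, sec, cc]
      rw [add_sub_cancel]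
      exact (extChartAt I p).left_inv hv
    show cc I p (ρ (b + v) p) = cc I p (ρ b (sec I p (ψ v)))
    rw [h1, hρ.add]
  have d3 : HasFDerivAt (fun v : Fin k → ℝ => ψ (b + v))
      ((fderiv ℝ Γ 0).comp (fderiv ℝ ψ 0)) 0 := d2.congr_of_eventuallyEq he
  rw [d1.unique d3, ContinuousLinearMap.comp_apply, ha, map_zero]

/-- PROOF.  `hρ.smooth` composed with `v ↦ (v, p)`; `ρ v p ∈ (extChartAt I p).source` for `v` near
`0` (`ρ 0 p = p`, continuity, the source is open); `extChartAt I p` is `ContMDiffAt ∞` at points of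
its source (`contMDiffAt_extChartAt'`); `contMDiffAt_iff_contDiffAt`. -/
theorem orbit_contDiffAt [IsManifold I ∞ W] [I.Boundaryless] (hρ : IsTorusAction I k ρ) :
    ∀ᶠ v in 𝓝 (0 : Fin k → ℝ), ContDiffAt ℝ ∞ (fun v : Fin k → ℝ => cc I p (ρ v p)) v := by
  filter_upwards [T1_source (p := p) hρ] with v hv
  exact T1_at hρ hv

/-- The orbit map `v ↦ ρ v p` is an immersion at `0` when the isotropy of `p` is trivial.

PROOF.  Let `ψ v = cc I p (ρ v p)`, `A = fderiv ℝ ψ 0`, `A a = 0`, `a ≠ 0`.  Let `τ > 0` with: for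
`|t| < τ`, `ρ (t • a) p ∈ source` and `ψ` differentiable at `t • a`.  Put `g t = ψ (t • a)`.  For
`|t| < τ`: `ρ ((t + s) • a) p = ρ (t • a) (ρ (s • a) p)` and for small `s`:
`ρ (s • a) p = sec I p (ψ (s • a))` (left inverse of the chart).  So
`g (t + s) = Γ (ψ (s • a))` for small `s`, with `Γ y = cc I p (ρ (t • a) (sec I p y))`
differentiable at `0` (smooth: `ρ (t • a) p ∈ source`).  Chain rule: `g' t = DΓ(0) (A a) = 0`.
(In Lean: `HasDerivAt g 0 t` via `HasDerivAt.comp_add_const`-like change of variable, or show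
`HasDerivAt (fun s => g (t + s)) 0 0` and translate.)  So `g` is constant on `(-τ, τ)`
(e.g. `IsOpen.is_const_of_deriv_eq_zero`, or `Convex.is_const_of_fderivWithin_eq_zero`), `g t = g 0 = 0`, i.e.
`extChartAt I p (ρ (t • a) p) = extChartAt I p p`, `ρ (t • a) p = p` (injectivity on the source).
By `hp` all `t • a` with `|t| < τ` have integer coordinates: but a coordinate `a i ≠ 0`, choose
`0 < t < τ` with `t * |a i| < 1`: `0 < |t * a i| < 1` is not an integer. -/
theorem orbit_fderiv_injective [IsManifold I ∞ W] [I.Boundaryless] (hρ : IsTorusAction I k ρ)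
    (hp : ∀ v, ρ v p = p → ∃ m : Fin k → ℤ, v = fun i => (m i : ℝ)) :
    Function.Injective (fderiv ℝ (fun v : Fin k → ℝ => cc I p (ρ v p)) 0) := by
  rw [injective_iff_map_eq_zero]
  intro a ha
  by_contra hne
  obtain ⟨i, hi⟩ : ∃ i, a i ≠ 0 := by
    by_contra h
    push Not at h
    exact hne (funext h)
  have hev : ∀ᶠ t in 𝓝 (0 : ℝ), ρ (t • a) p ∈ (extChartAt I p).source := by
    have h1 : Continuous (fun t : ℝ => t • a) := continuous_id.smul continuous_const
    have h2 : Filter.Tendsto (fun t : ℝ => t • a) (𝓝 0) (𝓝 (0 : Fin k → ℝ)) := by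
      simpa using h1.tendsto (0 : ℝ)
    exact h2.eventually (T1_source (p := p) hρ)
  obtain ⟨τ, hτ, hball⟩ := Metric.eventually_nhds_iff_ball.1 hev
  have hder : ∀ t ∈ Metric.ball (0 : ℝ) τ,
      HasDerivAt (fun t : ℝ => cc I p (ρ (t • a) p)) 0 t := by
    intro t ht
    have h1 := ((T1_at hρ (hball t ht)).differentiableAt (by simp)).hasFDerivAt
    have h2 : HasDerivAt (fun t : ℝ => t • a) a t := by
      simpa using (hasDerivAt_id t).smul_const a
    have h3 := h1.comp_hasDerivAt t h2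
    rw [T1_ker hρ (hball t ht) ha] at h3
    exact h3
  have hconst : ∀ t ∈ Metric.ball (0 : ℝ) τ, cc I p (ρ (t • a) p) = cc I p (ρ ((0 : ℝ) • a) p) := by
    intro t ht
    exact Metric.isOpen_ball.is_const_of_deriv_eq_zero
      (f := fun t : ℝ => cc I p (ρ (t • a) p)) (convex_ball (0 : ℝ) τ).isPreconnected
      (fun s hs => (hder s hs).differentiableAt.differentiableWithinAt)
      (fun s hs => (hder s hs).deriv) ht (Metric.mem_ball_self hτ)
  have hfix : ∀ t ∈ Metric.ball (0 : ℝ) τ, ρ (t • a) p = p := by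
    intro t ht
    have h1 := hconst t ht
    rw [zero_smul, hρ.zero] at h1
    simp only [cc, sub_left_inj] at h1
    exact (extChartAt I p).injOn (hball t ht) (mem_extChartAt_source p) h1
  have hai : 0 < |a i| := abs_pos.2 hi
  set t : ℝ := min (τ / 2) (1 / (2 * |a i|)) with ht
  have ht0 : 0 < t := lt_min (by positivity) (by positivity)
  have ht1 : t < τ := lt_of_le_of_lt (min_le_left _ _) (by linarith)
  have ht2 : t * |a i| ≤ 1 / 2 := by
    calc t * |a i| ≤ 1 / (2 * |a i|) * |a i| :=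
          mul_le_mul_of_nonneg_right (min_le_right _ _) hai.le
      _ = 1 / 2 := by
          field_simp
  obtain ⟨m, hm⟩ := hp (t • a) (hfix t (by
    rw [Metric.mem_ball, dist_zero_right, Real.norm_eq_abs, abs_of_pos ht0]
    exact ht1))
  have hmi : t * a i = (m i : ℝ) := by
    have := congrFun hm i
    simpa using this
  have h1 : |(m i : ℝ)| < 1 := by
    rw [← hmi, abs_mul, abs_of_pos ht0]
    linarith
  have h2 : m i = 0 := by
    have h3 : |m i| < 1 := by exact_mod_cast h1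
    exact Int.abs_lt_one_iff.1 h3
  rw [h2, Int.cast_zero] at hmi
  exact (mul_ne_zero ht0.ne' hi) hmi

end Pool.Agent.EQ
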