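import Pool.Agent.Lib.MP_1e8d1a_an.EQ.Defs

/-! row T2 -/

open scoped ContDiff Manifold Topology BoundedContinuousFunction

namespace Pool.Agent.EQ

open Pool.Agent.SC

/-- Local inverse, with smoothness on a neighbourhood and a Lipschitz constant.

PROOF.  `ξ` is `ContDiffAt ℝ ∞` at `0` with invertible derivative, so
`Ξ = ContDiffAt.toOpenPartialHomeomorph` (an `OpenPartialHomeomorph X E` that coincides with `ξ` as a
function, `0 ∈ Ξ.source`).  Shrink the source: there is `δ₁ > 0` such that for `‖x‖ < δ₁`: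
`x ∈ Ξ.source`, `ContDiffAt ℝ ∞ ξ x` and `fderiv ℝ ξ x` is an equivalence (invertibility is open:
`ContinuousLinearEquiv.nhds`, `fderiv ξ` is continuous at `0` as `ξ` is `C^∞`, in particular `C^2`, at
`0`).  Let `δ = min δ₁ (δ₀ / 2)`.  `Θ = Ξ.symm`.  On the open set `ξ '' ball 0 δ` (it is
`Ξ.target ∩ Ξ.symm ⁻¹' ball 0 δ`, a neighbourhood of `ξ 0 = 0`): `Θ z ∈ ball 0 δ`,
`ξ (Θ z) = z`, and `Θ` is `ContDiffAt ℝ ∞` at `z` (`OpenPartialHomeomorph.contDiffAt_symm`).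
Lipschitz: `Θ` is `C^1` at `0`, so Lipschitz on a neighbourhood of `0`
(`ContDiffAt.exists_lipschitzOnWith`); take `R₁` with the ball of radius `R₁` inside both
neighbourhoods, `C = max 1 K`. -/
theorem exists_local_inverse {X E : Type} [NormedAddCommGroup X] [NormedSpace ℝ X]
    [NormedAddCommGroup E] [NormedSpace ℝ E] [FiniteDimensional ℝ X] [FiniteDimensional ℝ E]
    (ξ : X → E) (hξ : ∀ᶠ x in 𝓝 (0 : X), ContDiffAt ℝ ∞ ξ x) (L : X ≃L[ℝ] E)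
    (hL : HasFDerivAt ξ (L : X →L[ℝ] E) 0) (h0 : ξ 0 = 0) (δ₀ : ℝ) (hδ₀ : 0 < δ₀) :
    ∃ δ R₁ C : ℝ, 0 < δ ∧ δ < δ₀ ∧ 0 < R₁ ∧ 1 ≤ C ∧ ∃ Θ : E → X, (∀ x, ‖x‖ < δ → Θ (ξ x) = x) ∧
      (∀ z, ‖z‖ < R₁ → ‖Θ z‖ < δ ∧ ξ (Θ z) = z ∧ ContDiffAt ℝ ∞ Θ z) ∧
      ∀ z z', ‖z‖ < R₁ → ‖z'‖ < R₁ → ‖Θ z - Θ z'‖ ≤ C * ‖z - z'‖ := by
  classical
  have hξ0 : ContDiffAt ℝ ∞ ξ 0 := hξ.self_of_nhds
  have : CompleteSpace X := FiniteDimensional.complete ℝ X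
  have hinf : (∞ : WithTop ℕ∞) ≠ 0 := by simp
  obtain ⟨Ξ, hΞc, h0s, h0t⟩ : ∃ Ξ : OpenPartialHomeomorph X E, (Ξ : X → E) = ξ ∧ (0 : X) ∈ Ξ.source ∧
      ξ 0 ∈ Ξ.target :=
    ⟨hξ0.toOpenPartialHomeomorph ξ hL hinf, rfl, hξ0.mem_toOpenPartialHomeomorph_source hL hinf,
      hξ0.image_mem_toOpenPartialHomeomorph_target hL hinf⟩
  have hΞa : ∀ x, Ξ x = ξ x := fun x => congrFun hΞc x
  have hfd : ContinuousAt (fderiv ℝ ξ) 0 := (hξ0.fderiv_right (m := 0) (by simp)).continuousAt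
  have hinv : ∀ᶠ x in 𝓝 (0 : X),
      fderiv ℝ ξ x ∈ Set.range ((↑) : (X ≃L[ℝ] E) → X →L[ℝ] E) := by
    apply hfd
    rw [hL.fderiv]
    exact ContinuousLinearEquiv.nhds L
  have hev : ∀ᶠ x in 𝓝 (0 : X), x ∈ Ξ.source ∧ ContDiffAt ℝ ∞ ξ x ∧
      fderiv ℝ ξ x ∈ Set.range ((↑) : (X ≃L[ℝ] E) → X →L[ℝ] E) :=
    (Filter.Eventually.and (Ξ.open_source.mem_nhds h0s) (hξ.and hinv))
  obtain ⟨δ₁, hδ₁, hball⟩ := Metric.eventually_nhds_iff_ball.1 hev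
  have hs0 : Ξ.symm 0 = 0 := by
    have := Ξ.left_inv h0s
    rwa [hΞa, h0] at this
  rw [h0] at h0t
  have hδ : 0 < min δ₁ (δ₀ / 2) := lt_min hδ₁ (by linarith)
  have hsm : ∀ z, z ∈ Ξ.target → ‖Ξ.symm z‖ < min δ₁ (δ₀ / 2) → ContDiffAt ℝ ∞ Ξ.symm z := by
    intro z hz hz'
    obtain ⟨-, h2, ⟨e, he⟩⟩ := hball (Ξ.symm z) (by
      rw [mem_ball_zero_iff]; exact lt_of_lt_of_le hz' (min_le_left _ _))
    refine Ξ.contDiffAt_symm (f₀' := e) hz ?_ ?_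
    · rw [hΞc, he]
      exact (h2.differentiableAt hinf).hasFDerivAt
    · rw [hΞc]
      exact h2
  have hc0 : ContinuousAt Ξ.symm 0 := Ξ.symm.continuousAt h0t
  have hnb : ∀ᶠ z in 𝓝 (0 : E), z ∈ Ξ.target ∧ ‖Ξ.symm z‖ < min δ₁ (δ₀ / 2) := by
    refine Filter.Eventually.and (Ξ.open_target.mem_nhds h0t) ?_
    have := hc0.norm
    rw [ContinuousAt, hs0, norm_zero] at this
    exact this (Iio_mem_nhds hδ)
  obtain ⟨K, t, ht, hlip⟩ := ((hsm 0 h0t (by rw [hs0, norm_zero]; exact hδ)).of_le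
    (m := 1) (by simp)).exists_lipschitzOnWith
  obtain ⟨R, hR, hRb⟩ := Metric.eventually_nhds_iff_ball.1 (hnb.and ht)
  refine ⟨min δ₁ (δ₀ / 2), R, max 1 (K : ℝ), hδ, lt_of_le_of_lt (min_le_right _ _) (by linarith), hR,
    le_max_left _ _, Ξ.symm, ?_, ?_, ?_⟩
  · intro x hx
    have hx' : x ∈ Metric.ball (0 : X) δ₁ := by
      rw [mem_ball_zero_iff]; exact lt_of_lt_of_le hx (min_le_left _ _)
    have := Ξ.left_inv (hball x hx').1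
    rwa [hΞa] at this
  · intro z hz
    obtain ⟨⟨h1, h2⟩, -⟩ := hRb z (by rwa [mem_ball_zero_iff])
    refine ⟨h2, ?_, hsm z h1 h2⟩
    have := Ξ.right_inv h1
    rwa [hΞa] at this
  · intro z z' hz hz'
    have h1 := (hRb z (by rwa [mem_ball_zero_iff])).2
    have h2 := (hRb z' (by rwa [mem_ball_zero_iff])).2
    have := hlip.dist_le_mul z h1 z' h2
    rw [dist_eq_norm, dist_eq_norm] at this
    refine this.trans (mul_le_mul_of_nonneg_right (le_max_right _ _) (norm_nonneg _))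

end Pool.Agent.EQ
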