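import Pool.Agent.Lib.MP_1e8d1a_an.EQ.Defs

/-! row T3 -/

open scoped ContDiff Manifold Topology BoundedContinuousFunction

namespace Pool.Agent.EQ

open Pool.Agent.SC

variable {E : Type} [NormedAddCommGroup E] [NormedSpace ℝ E] {H : Type} [TopologicalSpace H]
  {I : ModelWithCorners ℝ E H} {W : Type} [TopologicalSpace W] [ChartedSpace H W]

variable {k : ℕ} {ρ : (Fin k → ℝ) → W → W} {p : W}

/-- The action is free near the orbit of `p`, uniformly.

PROOF.  By contradiction: for each `n` there are `v n`, `y n` with `‖y n‖ < 1 / (n + 1)`,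
`ρ (v n) (sec (y n)) ∈ source`, `‖cc (ρ (v n) (sec (y n)))‖ < 1 / (n + 1)` and
`δ ≤ ‖v n - m‖` for all integer vectors `m`.  Subtracting the integer parts
(`hρ.int`, `hρ.add`: `ρ (v - m) q = ρ v q`) we may assume `v n ∈ [0, 1]^k`
(`Int.fract`), compact; a subsequence converges to `v` (`IsCompact.tendsto_subseq`).  Then
`ρ (v n) (sec (y n)) → ρ v p` (`sec` is continuous at `0`: `continuousAt_extChartAt_symm`,
`sec 0 = p`) and, since `ρ (v n) (sec (y n)) = sec (cc (..))` (left inverse on the source) and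
`cc (..) → 0`, it also tends to `p`.  `T2Space`: `ρ v p = p`, so `v` is an integer vector `m`,
but `δ ≤ ‖v n - m‖ → 0`, contradiction. -/
theorem free_near [FiniteDimensional ℝ E] [T2Space W] [IsManifold I ∞ W] [I.Boundaryless]
    (hρ : IsTorusAction I k ρ)
    (hp : ∀ v, ρ v p = p → ∃ m : Fin k → ℤ, v = fun i => (m i : ℝ)) (δ : ℝ) (hδ : 0 < δ) :
    ∃ R : ℝ, 0 < R ∧ ∀ (v : Fin k → ℝ) (y : E), ‖y‖ < R →
      ρ v (sec I p y) ∈ (extChartAt I p).source → ‖cc I p (ρ v (sec I p y))‖ < R →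
      ∃ m : Fin k → ℤ, ‖v - (fun i => (m i : ℝ))‖ < δ := by
  classical
  by_contra hcon
  have h : ∀ n : ℕ, ∃ (v : Fin k → ℝ) (y : E), ‖y‖ < 1 / ((n : ℝ) + 1) ∧
      ρ v (sec I p y) ∈ (extChartAt I p).source ∧
      ‖cc I p (ρ v (sec I p y))‖ < 1 / ((n : ℝ) + 1) ∧
      ∀ m : Fin k → ℤ, δ ≤ ‖v - (fun i => (m i : ℝ))‖ := by
    intro n
    by_contra hn
    apply hcon
    refine ⟨1 / ((n : ℝ) + 1), by positivity, ?_⟩
    intro v y h1 h2 h3
    by_contra h4
    apply hn
    refine ⟨v, y, h1, h2, h3, ?_⟩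
    intro m
    by_contra h5
    exact h4 ⟨m, not_le.1 h5⟩
  choose v y hy hsrc hcc hm using h
  have hint : ∀ (w : Fin k → ℝ) (q : W), ρ w q = ρ (fun i => Int.fract (w i)) q := by
    intro w q
    have h1 : w = (fun i => Int.fract (w i)) + (fun i => ((⌊w i⌋ : ℤ) : ℝ)) := by
      funext i
      simp only [Pi.add_apply]
      rw [add_comm]
      exact (Int.floor_add_fract (w i)).symm
    conv_lhs => rw [h1]
    rw [hρ.add, hρ.int]
  have hcomp : IsCompact (Set.Icc (0 : Fin k → ℝ) 1) := isCompact_Icc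
  obtain ⟨a, -, φ, hφ, hlim⟩ := hcomp.tendsto_subseq (x := fun n => fun i => Int.fract (v n i))
    (fun n => ⟨fun i => Int.fract_nonneg _, fun i => (Int.fract_lt_one _).le⟩)
  have hinv : Filter.Tendsto (fun n : ℕ => 1 / ((n : ℝ) + 1)) Filter.atTop (𝓝 0) :=
    tendsto_one_div_add_atTop_nhds_zero_nat
  have hsec0 : sec I p 0 = p := by
    unfold sec
    rw [add_zero]
    exact extChartAt_to_inv (I := I) p
  have hsec : ContinuousAt (sec I p) 0 := by
    unfold sec
    refine ContinuousAt.comp (f := fun y : E => extChartAt I p p + y)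
      (g := (extChartAt I p).symm) ?_ (by fun_prop)
    rw [add_zero]
    exact continuousAt_extChartAt_symm (I := I) p
  have hy0 : Filter.Tendsto (fun n => y (φ n)) Filter.atTop (𝓝 0) := by
    rw [tendsto_zero_iff_norm_tendsto_zero]
    exact squeeze_zero (fun n => norm_nonneg _) (fun n => (hy (φ n)).le)
      (hinv.comp hφ.tendsto_atTop)
  have hc0 : Filter.Tendsto (fun n => cc I p (ρ (v (φ n)) (sec I p (y (φ n))))) Filter.atTop
      (𝓝 0) := by
    rw [tendsto_zero_iff_norm_tendsto_zero]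
    exact squeeze_zero (fun n => norm_nonneg _) (fun n => (hcc (φ n)).le)
      (hinv.comp hφ.tendsto_atTop)
  have hs1 : Filter.Tendsto (fun n => sec I p (y (φ n))) Filter.atTop (𝓝 p) := by
    have := hsec.tendsto.comp hy0
    rwa [hsec0] at this
  have hT1 : Filter.Tendsto (fun n => ρ (v (φ n)) (sec I p (y (φ n)))) Filter.atTop
      (𝓝 (ρ a p)) := by
    have hc : Continuous (fun z : (Fin k → ℝ) × W => ρ z.1 z.2) := hρ.smooth.continuous
    have h2 := (hc.tendsto (a, p)).comp (hlim.prodMk_nhds hs1)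
    refine h2.congr fun n => ?_
    exact (hint (v (φ n)) _).symm
  have hT2 : Filter.Tendsto (fun n => ρ (v (φ n)) (sec I p (y (φ n)))) Filter.atTop (𝓝 p) := by
    have h2 := hsec.tendsto.comp hc0
    rw [hsec0] at h2
    refine h2.congr fun n => ?_
    have hq := hsrc (φ n)
    simp only [Function.comp]
    unfold sec cc
    rw [add_sub_cancel]
    exact (extChartAt I p).left_inv hq
  obtain ⟨m, rfl⟩ := hp a (tendsto_nhds_unique hT1 hT2)
  have hev : ∀ᶠ n in Filter.atTop,
      ‖(fun i => Int.fract (v (φ n) i)) - (fun i => (m i : ℝ))‖ < δ := by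
    have h3 := (tendsto_iff_norm_sub_tendsto_zero.1 hlim)
    exact h3 (Iio_mem_nhds hδ)
  obtain ⟨n, hn⟩ := hev.exists
  have h4 := hm (φ n) (fun i => ⌊v (φ n) i⌋ + m i)
  have h5 : v (φ n) - (fun i => (((⌊v (φ n) i⌋ + m i : ℤ)) : ℝ)) =
      (fun i => Int.fract (v (φ n) i)) - (fun i => (m i : ℝ)) := by
    funext i
    simp only [Pi.sub_apply]
    have := Int.self_sub_floor (v (φ n) i)
    push_cast
    linarith
  rw [h5] at h4
  exact absurd hn (not_lt.2 h4)

end Pool.Agent.EQ
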