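import Pool.Agent.Lib.MP_1e8d1a_an.EQ.T1
import Pool.Agent.Lib.MP_1e8d1a_an.EQ.T2
import Pool.Agent.Lib.MP_1e8d1a_an.EQ.T3

/-! row T4 -/

open scoped ContDiff Manifold Topology BoundedContinuousFunction

namespace Pool.Agent.EQ

open Pool.Agent.SC

variable {E : Type} [NormedAddCommGroup E] [NormedSpace ℝ E] {H : Type} [TopologicalSpace H]
  {I : ModelWithCorners ℝ E H} {W : Type} [TopologicalSpace W] [ChartedSpace H W]

variable {k : ℕ} {ρ : (Fin k → ℝ) → W → W} {p : W}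

private theorem t4_sec_zero : sec I p (0 : E) = p := by
  unfold sec
  rw [add_zero]
  exact extChartAt_to_inv (I := I) p

private theorem t4_cc_self : cc I p p = 0 := by
  unfold cc
  exact sub_self _

private theorem t4_cc_sec {y : E} (hy : extChartAt I p p + y ∈ (extChartAt I p).target) :
    cc I p (sec I p y) = y := by
  unfold cc sec
  rw [(extChartAt I p).right_inv hy]
  exact add_sub_cancel_left _ _

private theorem t4_sec_smooth [IsManifold I ∞ W] [I.Boundaryless] {y : E}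
    (hy : extChartAt I p p + y ∈ (extChartAt I p).target) :
    ContMDiffAt 𝓘(ℝ, E) I ∞ (fun y : E => sec I p y) y := by
  have h1 : ContMDiffAt 𝓘(ℝ, E) I ∞ (extChartAt I p).symm (extChartAt I p p + y) :=
    (contMDiffOn_extChartAt_symm (n := ∞) p).contMDiffAt ((isOpen_extChartAt_target p).mem_nhds hy)
  have h2 : ContMDiffAt 𝓘(ℝ, E) 𝓘(ℝ, E) ∞ (fun y : E => extChartAt I p p + y) y :=
    (contDiff_const.add contDiff_id).contDiffAt.contMDiffAt
  exact ContMDiffAt.comp y h1 h2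

/-- the orbit map on the product of the slice and the torus is smooth -/
private theorem t4_Q_smooth [IsManifold I ∞ W] [I.Boundaryless] (hρ : IsTorusAction I k ρ)
    (E₀ : Submodule ℝ E) {x : E₀ × (Fin k → ℝ)}
    (hy : extChartAt I p p + (x.1 : E) ∈ (extChartAt I p).target) :
    ContMDiffAt 𝓘(ℝ, E₀ × (Fin k → ℝ)) I ∞
      (fun x : E₀ × (Fin k → ℝ) => ρ x.2 (sec I p (x.1 : E))) x := by
  have h1 : ContMDiffAt 𝓘(ℝ, E₀ × (Fin k → ℝ)) 𝓘(ℝ, E) ∞
      (fun x : E₀ × (Fin k → ℝ) => (x.1 : E)) x :=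
    (E₀.subtypeL.contDiff.comp contDiff_fst).contDiffAt.contMDiffAt
  have h2 : ContMDiffAt 𝓘(ℝ, E₀ × (Fin k → ℝ)) I ∞
      (fun x : E₀ × (Fin k → ℝ) => sec I p (x.1 : E)) x :=
    ContMDiffAt.comp (g := fun y : E => sec I p y) x (t4_sec_smooth hy) h1
  have h3 : ContMDiffAt 𝓘(ℝ, E₀ × (Fin k → ℝ)) 𝓘(ℝ, Fin k → ℝ) ∞
      (fun x : E₀ × (Fin k → ℝ) => x.2) x :=
    contDiff_snd.contDiffAt.contMDiffAt
  have h4 := h3.prodMk h2
  exact ContMDiffAt.comp x (hρ.smooth.contMDiffAt) h4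

private theorem t4_xi_smooth [IsManifold I ∞ W] [I.Boundaryless] (hρ : IsTorusAction I k ρ)
    (E₀ : Submodule ℝ E) {x : E₀ × (Fin k → ℝ)}
    (hy : extChartAt I p p + (x.1 : E) ∈ (extChartAt I p).target)
    (hq : ρ x.2 (sec I p (x.1 : E)) ∈ (extChartAt I p).source) :
    ContDiffAt ℝ ∞ (fun x : E₀ × (Fin k → ℝ) => cc I p (ρ x.2 (sec I p (x.1 : E)))) x := by
  have h1 := t4_Q_smooth hρ E₀ hy
  have hq' : ρ x.2 (sec I p (x.1 : E)) ∈ (chartAt H p).source := by
    rwa [extChartAt_source] at hq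
  have h2 : ContMDiffAt I 𝓘(ℝ, E) ∞ (extChartAt I p) (ρ x.2 (sec I p (x.1 : E))) :=
    contMDiffAt_extChartAt' hq'
  have h3 : ContMDiffAt 𝓘(ℝ, E₀ × (Fin k → ℝ)) 𝓘(ℝ, E) ∞
      (fun x : E₀ × (Fin k → ℝ) => extChartAt I p (ρ x.2 (sec I p (x.1 : E)))) x :=
    ContMDiffAt.comp x h2 h1
  have h4 := contMDiffAt_iff_contDiffAt.1 h3
  exact h4.sub contDiffAt_const

private theorem t4_ev_target [I.Boundaryless] (E₀ : Submodule ℝ E) :
    ∀ᶠ x in 𝓝 (0 : E₀ × (Fin k → ℝ)), extChartAt I p p + (x.1 : E) ∈ (extChartAt I p).target := by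
  have hc : Continuous (fun x : E₀ × (Fin k → ℝ) => extChartAt I p p + (x.1 : E)) := by fun_prop
  refine hc.continuousAt.eventually_mem ?_
  have h0 : extChartAt I p p + (((0 : E₀ × (Fin k → ℝ)).1 : E₀) : E) = extChartAt I p p := by simp
  rw [h0]
  exact (isOpen_extChartAt_target p).mem_nhds (mem_extChartAt_target p)

private theorem t4_ev_source [IsManifold I ∞ W] [I.Boundaryless] (hρ : IsTorusAction I k ρ)
    (E₀ : Submodule ℝ E) :
    ∀ᶠ x in 𝓝 (0 : E₀ × (Fin k → ℝ)), ρ x.2 (sec I p (x.1 : E)) ∈ (extChartAt I p).source := by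
  have h0 : extChartAt I p p + (((0 : E₀ × (Fin k → ℝ)).1 : E₀) : E) ∈ (extChartAt I p).target := by
    simp
  have hc := (t4_Q_smooth (p := p) hρ E₀ (x := 0) h0).continuousAt
  refine hc.eventually_mem ?_
  have h1 : ρ (0 : E₀ × (Fin k → ℝ)).2 (sec I p (((0 : E₀ × (Fin k → ℝ)).1 : E₀) : E)) = p := by
    have : (((0 : E₀ × (Fin k → ℝ)).1 : E₀) : E) = 0 := by simp
    rw [this, t4_sec_zero]
    exact hρ.zero p
  rw [h1]
  exact (isOpen_extChartAt_source p).mem_nhds (mem_extChartAt_source p)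

private theorem t4_deriv [IsManifold I ∞ W] [I.Boundaryless] (hρ : IsTorusAction I k ρ)
    (E₀ : Submodule ℝ E) :
    HasFDerivAt (fun x : E₀ × (Fin k → ℝ) => cc I p (ρ x.2 (sec I p (x.1 : E))))
      (E₀.subtypeL.coprod (fderiv ℝ (fun v : Fin k → ℝ => cc I p (ρ v p)) 0)) 0 := by
  set ξ : E₀ × (Fin k → ℝ) → E := fun x => cc I p (ρ x.2 (sec I p (x.1 : E))) with hξ
  have hT := (t4_ev_target (I := I) (p := p) (k := k) E₀)
  have hS := t4_ev_source (p := p) hρ E₀
  have h0 : ContDiffAt ℝ ∞ ξ 0 := t4_xi_smooth hρ E₀ hT.self_of_nhds hS.self_of_nhds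
  have hd : DifferentiableAt ℝ ξ 0 := h0.differentiableAt (by simp)
  have hD := hd.hasFDerivAt
  set D := fderiv ℝ ξ 0 with hDdef
  -- along the slice
  have hA1 : HasFDerivAt (fun y : E₀ => ξ (y, 0)) (D.comp (ContinuousLinearMap.inl ℝ E₀ (Fin k → ℝ))) 0 := by
    have : HasFDerivAt (fun y : E₀ => ((y, 0) : E₀ × (Fin k → ℝ)))
        (ContinuousLinearMap.inl ℝ E₀ (Fin k → ℝ)) 0 :=
      (ContinuousLinearMap.inl ℝ E₀ (Fin k → ℝ)).hasFDerivAt
    exact HasFDerivAt.comp (0 : E₀) (g := ξ) hD this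
  have hA2 : HasFDerivAt (fun y : E₀ => ξ (y, 0)) E₀.subtypeL 0 := by
    have h1 : HasFDerivAt (fun y : E₀ => (y : E)) E₀.subtypeL 0 := E₀.subtypeL.hasFDerivAt
    refine h1.congr_of_eventuallyEq ?_
    have hc : Continuous (fun y : E₀ => extChartAt I p p + (y : E)) := by fun_prop
    have h2 : ∀ᶠ y : E₀ in 𝓝 (0 : E₀), extChartAt I p p + (y : E) ∈ (extChartAt I p).target := by
      refine hc.continuousAt.eventually_mem ?_
      have h0 : extChartAt I p p + ((0 : E₀) : E) = extChartAt I p p := by simp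
      rw [h0]
      exact (isOpen_extChartAt_target p).mem_nhds (mem_extChartAt_target p)
    filter_upwards [h2] with y hy
    change cc I p (ρ 0 (sec I p (y : E))) = y
    rw [hρ.zero, t4_cc_sec hy]
  have hA : D.comp (ContinuousLinearMap.inl ℝ E₀ (Fin k → ℝ)) = E₀.subtypeL := hA1.unique hA2
  -- along the orbit
  have hB1 : HasFDerivAt (fun v : Fin k → ℝ => ξ (0, v))
      (D.comp (ContinuousLinearMap.inr ℝ E₀ (Fin k → ℝ))) 0 := by
    have : HasFDerivAt (fun v : Fin k → ℝ => ((0, v) : E₀ × (Fin k → ℝ)))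
        (ContinuousLinearMap.inr ℝ E₀ (Fin k → ℝ)) 0 :=
      (ContinuousLinearMap.inr ℝ E₀ (Fin k → ℝ)).hasFDerivAt
    exact HasFDerivAt.comp (0 : Fin k → ℝ) (g := ξ) hD this
  have hB2 : (fun v : Fin k → ℝ => ξ (0, v)) = fun v : Fin k → ℝ => cc I p (ρ v p) := by
    funext v
    change cc I p (ρ v (sec I p ((0 : E₀) : E))) = cc I p (ρ v p)
    have : ((0 : E₀) : E) = 0 := by simp
    rw [this, t4_sec_zero]
  rw [hB2] at hB1
  have hB := hB1.fderiv
  have hfin : D = E₀.subtypeL.coprod (fderiv ℝ (fun v : Fin k → ℝ => cc I p (ρ v p)) 0) := by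
    ext x
    · have := congrArg (fun T => T x) hA
      simpa using this
    · have := congrArg (fun T => T x) hB
      simpa using this.symm
  rw [← hfin]
  exact hD

/-- PROOF.  `A = fderiv ℝ (fun v => cc I p (ρ v p)) 0 : (Fin k → ℝ) →L[ℝ] E` is injective
(`orbit_fderiv_injective`).  `E₀` a complement of `LinearMap.range A`
(`Submodule.exists_isCompl`); `finrank E₀ + k = finrank E`
(`Submodule.finrank_add_eq_of_isCompl`, `LinearMap.finrank_range_of_inj`, `Module.finrank_fin_fun`).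
`X = E₀ × (Fin k → ℝ)`, `ξ (y, v) = cc I p (ρ v (sec I p y))`.  For `x` near `0`: `sec I p y` is
defined smoothly (`‖y‖` small so `e p + y ∈ target`), `ρ v (sec y)` is in the source (continuity at
`(0, 0)`: `ρ 0 (sec 0) = p`), and `ξ` is `ContDiffAt ℝ ∞` there.  Its derivative at `0` is
`(y, v) ↦ y + A v`: `ξ (y, 0) = cc (sec y) = y` near `0` and `ξ (0, v) = cc (ρ v p)`
(for the total derivative `D`: `D (y, v) = D (y, 0) + D (0, v)`, chain rule along the two
inclusions).  This is a linear bijection by `IsCompl`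
(`Submodule.prodEquivOfIsCompl` composed with `A : (Fin k → ℝ) ≃ range A`, or injectivity + equality
of the dimensions), so a `ContinuousLinearEquiv` `L` (finite dimension).
Choose `δ₀ > 0` with `closedBall (e p) δ₀ ⊆ target` and `ρ v (sec y) ∈ source` for
`‖y‖, ‖v‖ < δ₀`.  `exists_local_inverse` gives `δ < δ₀`, `R₁`, `C`, `Θ`; `free_near δ` gives `R_b`.
`R = min (δ / 2) (min (R₁ / 2) (R_b / 2))`.  The norm on `X` is the maximum. -/
theorem exists_preTube [FiniteDimensional ℝ E] [T2Space W] [IsManifold I ∞ W] [I.Boundaryless]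
    (hρ : IsTorusAction I k ρ)
    (hp : ∀ v, ρ v p = p → ∃ m : Fin k → ℤ, v = fun i => (m i : ℝ)) :
    Nonempty (PreTube I k ρ p) := by
  set A : (Fin k → ℝ) →L[ℝ] E := fderiv ℝ (fun v : Fin k → ℝ => cc I p (ρ v p)) 0 with hAdef
  have hA : Function.Injective A := orbit_fderiv_injective hρ hp
  obtain ⟨E₀, hE₀⟩ := Submodule.exists_isCompl (LinearMap.range (A : (Fin k → ℝ) →ₗ[ℝ] E))
  have hrange : Module.finrank ℝ (LinearMap.range (A : (Fin k → ℝ) →ₗ[ℝ] E)) = k := by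
    rw [LinearMap.finrank_range_of_inj hA, Module.finrank_fin_fun]
  have hfin : Module.finrank ℝ E₀ + k = Module.finrank ℝ E := by
    have h := Submodule.finrank_add_eq_of_isCompl hE₀
    omega
  -- the linear equivalence
  have hinj : Function.Injective ((E₀.subtype).coprod (A : (Fin k → ℝ) →ₗ[ℝ] E)) := by
    rw [← LinearMap.ker_eq_bot, LinearMap.ker_eq_bot']
    rintro ⟨y, v⟩ h
    have h1 : (y : E) + A v = 0 := by simpa using h
    have h2 : (y : E) = A (-v) := by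
      rw [map_neg]
      exact eq_neg_of_add_eq_zero_left h1
    have h3 : (y : E) ∈ LinearMap.range (A : (Fin k → ℝ) →ₗ[ℝ] E) := ⟨-v, h2.symm⟩
    have h4 : (y : E) = 0 := by
      have := (Submodule.disjoint_def.1 hE₀.disjoint) (y : E) h3 y.2
      exact this
    have h5 : A v = 0 := by rw [h4, zero_add] at h1; exact h1
    have h6 : v = 0 := hA (by rw [h5, map_zero])
    have h7 : y = 0 := Subtype.ext h4
    rw [h6, h7]
    rfl
  have hdim : Module.finrank ℝ (E₀ × (Fin k → ℝ)) = Module.finrank ℝ E := by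
    rw [Module.finrank_prod, Module.finrank_fin_fun, hfin]
  let L₀ : (E₀ × (Fin k → ℝ)) ≃ₗ[ℝ] E := LinearMap.linearEquivOfInjective _ hinj hdim
  let L : (E₀ × (Fin k → ℝ)) ≃L[ℝ] E := L₀.toContinuousLinearEquiv
  have hLA : (L : (E₀ × (Fin k → ℝ)) →L[ℝ] E) = E₀.subtypeL.coprod A := by
    ext x <;> rfl
  set ξ : E₀ × (Fin k → ℝ) → E := fun x => cc I p (ρ x.2 (sec I p (x.1 : E))) with hξdef
  have hT := (t4_ev_target (I := I) (p := p) (k := k) E₀)
  have hS := t4_ev_source (p := p) hρ E₀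
  have hξ : ∀ᶠ x in 𝓝 (0 : E₀ × (Fin k → ℝ)), ContDiffAt ℝ ∞ ξ x := by
    filter_upwards [hT, hS] with x h1 h2
    exact t4_xi_smooth hρ E₀ h1 h2
  have hL : HasFDerivAt ξ (L : (E₀ × (Fin k → ℝ)) →L[ℝ] E) 0 := by
    rw [hLA]
    exact t4_deriv hρ E₀
  have h0 : ξ 0 = 0 := by
    change cc I p (ρ 0 (sec I p ((0 : E₀) : E))) = 0
    have : ((0 : E₀) : E) = 0 := by simp
    rw [this, t4_sec_zero, hρ.zero, t4_cc_self]
  -- the radius
  obtain ⟨δ₁, hδ₁, hball⟩ := Metric.nhds_basis_closedBall.mem_iff.1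
    ((isOpen_extChartAt_target (I := I) p).mem_nhds (mem_extChartAt_target (I := I) p))
  obtain ⟨δ₂, hδ₂, hsrc⟩ := Metric.eventually_nhds_iff_ball.1 hS
  obtain ⟨δ, R₁, C, hδ, hδ0, hR₁, hC, Θ, hleft, hright, hlip⟩ :=
    exists_local_inverse ξ hξ L hL h0 (min δ₁ δ₂) (lt_min hδ₁ hδ₂)
  obtain ⟨Rb, hRb, hfree⟩ := free_near hρ hp δ hδ
  have hRpos : 0 < min (δ / 2) (min (R₁ / 2) (Rb / 2)) := by positivity
  have hR1 : 2 * min (δ / 2) (min (R₁ / 2) (Rb / 2)) ≤ δ := by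
    have := min_le_left (δ / 2) (min (R₁ / 2) (Rb / 2))
    linarith
  have hR2 : 2 * min (δ / 2) (min (R₁ / 2) (Rb / 2)) ≤ R₁ := by
    have := (min_le_right (δ / 2) (min (R₁ / 2) (Rb / 2))).trans (min_le_left _ _)
    linarith
  have hR3 : 2 * min (δ / 2) (min (R₁ / 2) (Rb / 2)) ≤ Rb := by
    have := (min_le_right (δ / 2) (min (R₁ / 2) (Rb / 2))).trans (min_le_right _ _)
    linarith
  refine ⟨{ E₀ := E₀, R := min (δ / 2) (min (R₁ / 2) (Rb / 2)), C := C, δ := δ, Θ := Θ,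
            R_pos := hRpos, one_le_C := hC, le_δ := hR1, fin := hfin, ball := ?_, src := ?_,
            left := ?_, right := ?_, smooth := ?_, lip := ?_, free := ?_ }⟩
  · exact (Metric.closedBall_subset_closedBall (hδ0.le.trans (min_le_left _ _))).trans hball
  · intro y v hy hv
    refine hsrc ((y, v) : E₀ × (Fin k → ℝ)) ?_
    rw [mem_ball_zero_iff, Prod.norm_def]
    exact max_lt (hy.trans_le (hδ0.le.trans (min_le_right _ _)))
      (hv.trans_le (hδ0.le.trans (min_le_right _ _)))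
  · intro y v hy hv
    refine hleft ((y, v) : E₀ × (Fin k → ℝ)) ?_
    rw [Prod.norm_def]
    exact max_lt hy hv
  · intro z hz
    obtain ⟨h1, h2, _⟩ := hright z (hz.trans_le hR2)
    exact ⟨(norm_fst_le _).trans_lt h1, (norm_snd_le _).trans_lt h1, h2⟩
  · intro z hz
    exact (hright z (hz.trans_le hR2)).2.2
  · intro z z' hz hz'
    exact hlip z z' (hz.trans_le hR2) (hz'.trans_le hR2)
  · intro v y hy hs hc
    refine hfree v (y : E) ?_ hs (hc.trans_le hR3)
    have : ‖(y : E)‖ = ‖y‖ := rfl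
    rw [this]
    linarith

end Pool.Agent.EQ
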