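import Pool.Agent.Lib.MP_1e8d1a_an.EQ.Defs

/-! row T5 -/

open scoped ContDiff Manifold Topology BoundedContinuousFunction

namespace Pool.Agent.EQ

open Pool.Agent.SC

variable {E : Type} [NormedAddCommGroup E] [NormedSpace ℝ E] {H : Type} [TopologicalSpace H]
  {I : ModelWithCorners ℝ E H} {W : Type} [TopologicalSpace W] [ChartedSpace H W]

variable {k : ℕ} {ρ : (Fin k → ℝ) → W → W} {p : W}

theorem T5_cc_sec (t : PreTube I k ρ p) (y : t.E₀) (hy : ‖y‖ < t.R) :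
    sec I p (y : E) ∈ (extChartAt I p).source ∧ cc I p (sec I p (y : E)) = (y : E) := by
  have hR := t.R_pos
  have hδ := t.le_δ
  have hmem : extChartAt I p p + (y : E) ∈ (extChartAt I p).target := by
    apply t.ball
    rw [Metric.mem_closedBall, dist_eq_norm, add_sub_cancel_left]
    have h1 : ‖(y : E)‖ = ‖y‖ := rfl
    rw [h1]
    linarith
  refine ⟨(extChartAt I p).map_target hmem, ?_⟩
  unfold cc sec
  rw [(extChartAt I p).right_inv hmem, add_sub_cancel_left]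

theorem T5_sub_int (hρ : IsTorusAction I k ρ) (v : Fin k → ℝ) (m : Fin k → ℤ) (x : W) :
    ρ (v - fun i => (m i : ℝ)) x = ρ v x := by
  have h1 : v = (v - fun i => (m i : ℝ)) + fun i => (m i : ℝ) := by rw [sub_add_cancel]
  conv_rhs => rw [h1]
  rw [hρ.add, hρ.int]

/-- PROOF.  Put `q = ρ v (sec y)`.  `‖cc q‖ < 2 R`, so by `t.free` there is `m` with
`‖v - m‖ < δ`; `q = ρ (v - m) (sec y)` (`hρ.add`, `hρ.int` for `-m`:
`ρ (v - m) x = ρ (v - m) (ρ m x) = ρ v x`).  `t.left` (`‖y‖ < R ≤ δ`): `Θ (cc q) = (y, v - m)`.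
`t.left y' 0`: `Θ (cc (sec y')) = (y', 0)` and `cc (sec y') = y'` (`t.ball`,
right inverse of the chart; `ρ 0 = id`).  `t.lip`: `‖(y, v - m) - (y', 0)‖ ≤ C ‖cc q - y'‖`; the norm
of a pair is the maximum. -/
theorem PreTube.sep (hρ : IsTorusAction I k ρ) (t : PreTube I k ρ p) (v : Fin k → ℝ)
    (y y' : t.E₀) (hy : ‖y‖ < t.R) (hy' : ‖y'‖ < t.R)
    (hs : ρ v (sec I p (y : E)) ∈ (extChartAt I p).source)
    (h : ‖cc I p (ρ v (sec I p (y : E))) - (y' : E)‖ < t.R) :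
    ‖y - y'‖ ≤ t.C * ‖cc I p (ρ v (sec I p (y : E))) - (y' : E)‖ ∧
    ∃ m : Fin k → ℤ, ‖v - (fun i => (m i : ℝ))‖ ≤
      t.C * ‖cc I p (ρ v (sec I p (y : E))) - (y' : E)‖ := by
  have hR := t.R_pos
  have hδ := t.le_δ
  have hy'E : ‖(y' : E)‖ = ‖y'‖ := rfl
  have ha : ‖cc I p (ρ v (sec I p (y : E)))‖ < 2 * t.R := by
    have h1 : cc I p (ρ v (sec I p (y : E))) =
        (cc I p (ρ v (sec I p (y : E))) - (y' : E)) + (y' : E) := by rw [sub_add_cancel]
    rw [h1]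
    refine (norm_add_le _ _).trans_lt ?_
    rw [hy'E]
    linarith
  obtain ⟨m, hm⟩ := t.free v y hy hs ha
  have h1 := t.left y (v - fun i => (m i : ℝ)) (by linarith) hm
  rw [T5_sub_int hρ] at h1
  have h2 := t.left y' 0 (by linarith) (by rw [norm_zero]; linarith)
  rw [hρ.zero, (T5_cc_sec t y' hy').2] at h2
  have h3 := t.lip _ _ ha (show ‖(y' : E)‖ < 2 * t.R by rw [hy'E]; linarith)
  rw [h1, h2] at h3
  have h4 : ((y, v - fun i => (m i : ℝ)) : t.E₀ × (Fin k → ℝ)) - (y', 0) =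
      (y - y', v - fun i => (m i : ℝ)) := by
    rw [Prod.mk_sub_mk, sub_zero]
  rw [h4, Prod.norm_def] at h3
  exact ⟨(le_max_left _ _).trans h3, m, (le_max_right _ _).trans h3⟩

/-- PROOF.  `ρ (v - v') (sec y) = sec y'` (apply `ρ (-v')`), which is in the source with
`cc (sec y') = y'`; `PreTube.sep` gives `‖y - y'‖ ≤ C * 0`. -/
theorem PreTube.unique (hρ : IsTorusAction I k ρ) (t : PreTube I k ρ p) (v v' : Fin k → ℝ)
    (y y' : t.E₀) (hy : ‖y‖ < t.R) (hy' : ‖y'‖ < t.R)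
    (h : ρ v (sec I p (y : E)) = ρ v' (sec I p (y' : E))) : y = y' := by
  have hR := t.R_pos
  have h1 : ρ (v - v') (sec I p (y : E)) = sec I p (y' : E) := by
    have h2 : v - v' = -v' + v := by abel
    rw [h2, hρ.add, h, ← hρ.add, neg_add_cancel, hρ.zero]
  obtain ⟨h3, h4⟩ := T5_cc_sec t y' hy'
  have h5 := (t.sep hρ (v - v') y y' hy hy' (by rw [h1]; exact h3)
    (by rw [h1, h4, sub_self, norm_zero]; exact hR)).1
  rw [h1, h4, sub_self, norm_zero, mul_zero] at h5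
  exact sub_eq_zero.1 (norm_le_zero_iff.1 h5)

end Pool.Agent.EQ
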